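import Pool.Agent.MP_815c6c_an.Q.Osc

-- ======== part 0: formerly Pool.Agent.MP_815c6c_an.S.Defs
section MrgPart0

/-! Scalar p-harmonic functions in any dimension: definitions.
Note: `/team-store/PLAP_T5_shell50.md`. -/

set_option autoImplicit false

noncomputable section

namespace Pool.Agent.MP_815c6c_an.S

open Set Metric MeasureTheory Filter Topology
open scoped ENNReal RealInnerProductSpace
open N (X Gr)
open Q (pw)

variable {d : ℕ}

/-- the restricted measure -/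
abbrev vo (U : Set (X d)) : Measure (X d) := volume.restrict U
/-- linear maps -/
abbrev L (d : ℕ) (E : Type) [NormedAddCommGroup E] [NormedSpace ℝ E] : Type := X d →L[ℝ] E
/-- the basis -/
abbrev ei (i : Fin d) : X d := EuclideanSpace.single i 1
/-- the volume of balls -/
def vb (d : ℕ) (r : ℝ) : ℝ := volume.real (ball (0 : X d) r)

section
variable {E : Type} [NormedAddCommGroup E] [NormedSpace ℝ E]

/-- dominated convergence of maps and derivatives -/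
def Dom (q : ℝ≥0∞) (U : Set (X d)) (u : ℕ → X d → E) (D : ℕ → X d → L d E) (u0 : X d → E)
    (D0 : X d → L d E) : Prop :=
  ∃ g : X d → ℝ, MemLp g q (vo U) ∧ ∀ᵐ z ∂vo U, (∀ n, ‖u n z‖ ≤ g z ∧ ‖D n z‖ ≤ g z) ∧
    Tendsto (fun n => u n z) atTop (𝓝 (u0 z)) ∧ Tendsto (fun n => D n z) atTop (𝓝 (D0 z))

/-- Sobolev maps with their derivative, as limits of maps of class `C^1` -/
def Sb (q : ℝ≥0∞) (U : Set (X d)) (u : X d → E) (D : X d → L d E) : Prop :=
  ∃ v : ℕ → X d → E, (∀ n, ContDiff ℝ 1 (v n)) ∧ Dom q U v (fun n => fderiv ℝ (v n)) u D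

/-- mean value and mean oscillation on a ball -/
def av (f : X d → E) (x : X d) (r : ℝ) : E := ⨍ z in ball x r, f z
def osc (f : X d → E) (x : X d) (r : ℝ) : ℝ := √(⨍ z in ball x r, ‖f z - av f x r‖ ^ 2)

/-- the maps `V`, `A` and the inverse of `V` -/
def Vp (p : ℝ) (w : E) : E := pw (p / 2 - 1) w
def Ap (p : ℝ) (w : E) : E := pw (p - 2) w
def Ip (p : ℝ) (w : E) : E := pw (2 / p - 1) w

open Classical in
/-- the derivative off the origin -/
def dz {E' : Type} [NormedAddCommGroup E'] [NormedSpace ℝ E'] (Φ : E → E') (w : E) : E →L[ℝ] E' :=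
  if w = 0 then 0 else fderiv ℝ Φ w
end

section
variable {E : Type} [NormedAddCommGroup E]

/-- bounded difference quotients -/
def Dq (R : ℝ) (V : X d → E) : Prop := ∃ C τ : ℝ, 0 < τ ∧ ∀ h : X d, ‖h‖ < τ →
  ∫⁻ z in ball 0 R, ‖V (z + h) - V z‖ₑ ^ 2 ≤ ENNReal.ofReal (C * ‖h‖ ^ 2)
/-- the Hölder condition -/
def Hol (α K : ℝ) (f : X d → E) (S : Set (X d)) : Prop :=
  ∀ x ∈ S, ∀ y ∈ S, ‖f x - f y‖ ≤ K * ‖x - y‖ ^ α
/-- a bound for the essential oscillation -/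
def Ed (f : X d → E) (x : X d) (ρ B : ℝ) : Prop := ∃ c, ∀ᵐ z ∂vo (ball x ρ), ‖f z - c‖ ≤ B
/-- integrable on compact subsets -/
def Li (U : Set (X d)) (f : X d → E) : Prop := ∀ K ⊆ U, IsCompact K → IntegrableOn f K
end

/-- test functions -/
def Tc (U : Set (X d)) (φ : X d → ℝ) : Prop :=
  ContDiff ℝ 1 φ ∧ HasCompactSupport φ ∧ tsupport φ ⊆ U
/-- divergence free fields -/
def Dv (U : Set (X d)) (F : X d → X d) : Prop :=
  ∀ φ, Tc U φ → ∫ x, fderiv ℝ φ x (F x) = 0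

/-- weak solutions -/
structure Wk (p : ℝ) (U : Set (X d)) (u : X d → ℝ) (G : X d → X d) : Prop where
  sb : Sb (ENNReal.ofReal p) U u fun x => innerSL ℝ (G x)
  dv : Dv U fun x => Ap p (G x)
/-- solutions of class `C^1` -/
structure Cs (p : ℝ) (U : Set (X d)) (u : X d → ℝ) : Prop where
  c1 : ContDiffOn ℝ 1 u U
  dv : Dv U fun x => Ap p (gradient u x)
/-- the fields `V` of these solutions -/
def Sol (p : ℝ) (U : Set (X d)) (F : X d → X d) : Prop :=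
  ∃ u, Cs p U u ∧ ∀ x ∈ U, F x = Vp p (gradient u x)

/-- the pointwise equation -/
def Pde (p : ℝ) (u : X d → ℝ) (x : X d) : Prop :=
  ‖gradient u x‖ ^ 2 * ∑ i, fderiv ℝ (gradient u) x (ei i) i +
    (p - 2) * ⟪fderiv ℝ (gradient u) x (gradient u x), gradient u x⟫ = 0
/-- classical solutions off the critical points -/
structure Cl (p : ℝ) (U : Set (X d)) (u : X d → ℝ) : Prop where
  c1 : ContDiffOn ℝ 1 u U
  c3 : ∀ x ∈ U, gradient u x ≠ 0 → ContDiffAt ℝ 3 u x ∧ Pde p u x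
/-- slow growth of the gradient excludes small gradients -/
def NosS (d : ℕ) (p : ℝ) : Prop := ∃ Λ c : ℝ, 1 < Λ ∧ Λ < 2 ^ (p / 2) ∧ 0 < c ∧
  ∀ u : X d → ℝ, Cl p (ball 0 Λ) u → (∀ y ∈ ball (0 : X d) Λ, ‖gradient u y‖ ≤ 2) →
    (∃ z ∈ ball (0 : X d) 1, 1 ≤ ‖gradient u z‖) → c ≤ ‖gradient u 0‖

/-- the step function and the positive part -/
def hv (t : ℝ) : ℝ := if 0 < t then 1 else 0
def ps (t : ℝ) : ℝ := max t 0
/-- energy, mass and measure above a level -/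
def eu (f : X d → ℝ) (D : X d → L d ℝ) (K ρ : ℝ) : ℝ :=
  ∫ x in ball 0 ρ, hv (f x - K) * ‖D x‖ ^ 2
def mu (f : X d → ℝ) (K ρ : ℝ) : ℝ := ∫ x in ball 0 ρ, ps (f x - K) ^ 2
def au (f : X d → ℝ) (K ρ : ℝ) : ℝ := ∫ x in ball 0 ρ, hv (f x - K)
/-- energy inequalities for a family, on the levels between `K₀` and `K₁` -/
def DG {ι : Type} [Fintype ι] (Γ H K₀ K₁ : ℝ) (f : ι → X d → ℝ) (D : ι → X d → L d ℝ) : Prop :=
  ∀ K ∈ Icc K₀ K₁, ∀ ρ ρ' : ℝ, 1 / 2 ≤ ρ → ρ < ρ' → ρ' ≤ 1 → ∀ i, eu (f i) (D i) K ρ ≤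
    Γ / (ρ' - ρ) ^ 2 * ∑ j, (mu (f j) K ρ' + H ^ 2 * au (f j) K ρ')
/-- energy inequalities for the directional derivatives -/
def Pk (p Γ : ℝ) (G : X d → X d) : Prop := MemLp G (ENNReal.ofReal p) (vo (ball 0 1)) ∧
  ∀ e : X d, ‖e‖ ≤ 2 → ∃ D, Sb 2 (ball 0 1) (fun x => Vp p ⟪e, G x⟫) D ∧
    ∀ k ρ ρ' : ℝ, 0 ≤ ρ → ρ < ρ' → ρ' ≤ 1 → eu (fun x => Vp p ⟪e, G x⟫) D (Vp p k) ρ ≤
      Γ / (ρ' - ρ) ^ 2 * ∫ x in ball 0 ρ', ‖G x‖ ^ (p - 2) * ps (⟪e, G x⟫ - k) ^ 2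

/-- the frozen coefficients -/
def Me (μ : ℝ) (e : X d) : L d (X d) :=
  ContinuousLinearMap.id ℝ _ + μ • (innerSL ℝ e).smulRight e

/-- vectors as matrices with one row -/
def jj (d : ℕ) : X d ≃ₗᵢ[ℝ] Gr d 1 where
  toFun G := WithLp.toLp 2 fun k => G k.2
  invFun w := WithLp.toLp 2 fun i => w (0, i)
  map_add' _ _ := by ext; simp
  map_smul' _ _ := by ext; simp
  left_inv G := by ext; simp
  right_inv w := by
    ext ⟨a, i⟩
    rw [Subsingleton.elim a 0]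
  norm_map' G := by simp [EuclideanSpace.norm_eq, Fintype.sum_prod_type]

end Pool.Agent.MP_815c6c_an.S

end
end MrgPart0

-- ======== part 1: formerly Pool.Agent.MP_815c6c_an.S.CalA
section MrgPart1

/-! Calculus in Hölder classes. -/

set_option autoImplicit false

noncomputable section

namespace Pool.Agent.MP_815c6c_an.S

open Set Metric MeasureTheory Filter Topology
open N (X)

variable {d : ℕ} {E : Type} [NormedAddCommGroup E] [NormedSpace ℝ E]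

theorem cal_tel {g : X d → E} {α B ρ τ R : ℝ} {x k : X d} (ha : 0 < α) (hB : 0 ≤ B)
    (H : ∀ y ∈ ball (0 : X d) ρ, ∀ z ∈ ball (0 : X d) ρ, ∀ h : X d, ‖h‖ < τ →
      ‖g (y + h) - g y - (g (z + h) - g z)‖ ≤ B * ‖h‖ * ‖y - z‖ ^ α)
    (hR : ‖x‖ + R < ρ) (hk : ‖k‖ < τ) (n : ℕ) (hn : n * ‖k‖ ≤ R) :
    ‖g (x + (n : ℝ) • k) - g x - (n : ℝ) • (g (x + k) - g x)‖ ≤ n * (B * ‖k‖ * R ^ α) := by
  induction n with
  | zero => simp
  | succ n ih =>
    have k0 := norm_nonneg k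
    have h1 : n * ‖k‖ ≤ R := by push_cast at hn; linarith
    have h2 : ‖(n : ℝ) • k‖ ≤ R := by rwa [norm_smul, Real.norm_natCast]
    have h3 := H (x + (n : ℝ) • k) (mem_ball_zero_iff.2 ((norm_add_le _ _).trans_lt (by linarith)))
      x (mem_ball_zero_iff.2 (by linarith [norm_nonneg ((n : ℝ) • k)])) k hk
    rw [add_sub_cancel_left] at h3
    have h4 := h3.trans (mul_le_mul_of_nonneg_left (Real.rpow_le_rpow (norm_nonneg _) h2 ha.le)
      (mul_nonneg hB k0))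
    have e : g (x + ((n + 1 : ℕ) : ℝ) • k) - g x - ((n + 1 : ℕ) : ℝ) • (g (x + k) - g x) =
        (g (x + (n : ℝ) • k) - g x - (n : ℝ) • (g (x + k) - g x)) +
          (g (x + (n : ℝ) • k + k) - g (x + (n : ℝ) • k) - (g (x + k) - g x)) := by
      push_cast
      rw [add_smul, add_smul, one_smul, one_smul, ← add_assoc]
      abel
    rw [e]
    refine (norm_add_le _ _).trans ((add_le_add (ih h1) h4).trans_eq ?_)
    push_cast
    ring

/-- dyadic difference quotients -/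
def cal_q (g : X d → E) (x h : X d) (n : ℕ) : E :=
  (2 : ℝ) ^ n • (g (x + ((2 : ℝ) ^ n)⁻¹ • h) - g x)

theorem cal_small (h : X d) : Tendsto (fun n : ℕ => ‖((2 : ℝ) ^ n)⁻¹ • h‖) atTop (𝓝 0) := by
  have := ((tendsto_inv_atTop_zero.comp (tendsto_pow_atTop_atTop_of_one_lt
    (one_lt_two (α := ℝ)))).smul_const h).norm
  simpa using this

theorem cal_norm (h : X d) (n : ℕ) : (2 : ℝ) ^ n * ‖((2 : ℝ) ^ n)⁻¹ • h‖ = ‖h‖ := by
  rw [norm_smul, norm_inv, Real.norm_of_nonneg (by positivity), mul_inv_cancel_left₀ (by positivity)]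

theorem cal_rp {α : ℝ} (ha : 0 < α) (c : ℝ) (h : X d) :
    Tendsto (fun n : ℕ => c * ‖((2 : ℝ) ^ n)⁻¹ • h‖ ^ α) atTop (𝓝 0) := by
  have := ((cal_small h).rpow_const (Or.inr ha.le)).const_mul c
  rwa [Real.zero_rpow ha.ne', mul_zero] at this

theorem cal_der [CompleteSpace E] {g : X d → E} {α B ρ τ : ℝ} {x : X d} (ha : 0 < α) (hτ : 0 < τ)
    (hB : 0 ≤ B) (H0 : ∀ h : X d, ‖h‖ < τ → ‖g (x + h) - g x‖ ≤ B * ‖h‖)
    (H : ∀ y ∈ ball (0 : X d) ρ, ∀ z ∈ ball (0 : X d) ρ, ∀ h : X d, ‖h‖ < τ →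
      ‖g (y + h) - g y - (g (z + h) - g z)‖ ≤ B * ‖h‖ * ‖y - z‖ ^ α) (hx : ‖x‖ < ρ) :
    ∃ A : L d E, HasFDerivAt g A x ∧ ‖A‖ ≤ B ∧ ∀ h, Tendsto (cal_q g x h) atTop (𝓝 (A h)) := by
  set δ := min τ (ρ - ‖x‖) with hδ
  have d0 : 0 < δ := lt_min hτ (by linarith)
  have T : ∀ h : X d, ‖h‖ < δ → ∀ n, ‖g (x + h) - g x - cal_q g x h n‖ ≤ B * ‖h‖ * ‖h‖ ^ α := by
    intro h hh n
    have h1 := cal_norm h n
    have h2 : (1 : ℝ) ≤ 2 ^ n := one_le_pow₀ one_le_two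
    have h3 := cal_tel (k := ((2 : ℝ) ^ n)⁻¹ • h) (R := ‖h‖) (x := x) ha hB H
      (by linarith [hh.trans_le (min_le_right _ _)])
      (by nlinarith [hh.trans_le (min_le_left _ _), norm_nonneg (((2 : ℝ) ^ n)⁻¹ • h)]) (2 ^ n)
      (by push_cast; exact h1.le)
    push_cast at h3
    rw [smul_inv_smul₀ (by positivity)] at h3
    refine h3.trans_eq ?_
    rw [← mul_assoc, mul_left_comm, h1]
  have ca : ∀ h : X d, ∃ a, Tendsto (cal_q g x h) atTop (𝓝 a) := by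
    intro h
    refine cauchySeq_tendsto_of_complete (Metric.cauchySeq_iff'.2 fun ε hε => ?_)
    obtain ⟨N, h1, h2⟩ := (((cal_small h).eventually (gt_mem_nhds d0)).and
      ((cal_rp ha (B * ‖h‖) h).eventually (gt_mem_nhds hε))).exists
    refine ⟨N, fun n hn => ?_⟩
    obtain ⟨m, rfl⟩ := Nat.exists_eq_add_of_le hn
    have e : cal_q g x h N - cal_q g x h (N + m) = (2 : ℝ) ^ N •
        (g (x + ((2 : ℝ) ^ N)⁻¹ • h) - g x - cal_q g x (((2 : ℝ) ^ N)⁻¹ • h) m) := by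
      rw [smul_sub, cal_q, cal_q, cal_q, smul_smul, smul_smul, pow_add, mul_inv, mul_comm _⁻¹]
    rw [dist_comm, dist_eq_norm, e, norm_smul, Real.norm_of_nonneg (by positivity)]
    refine (mul_le_mul_of_nonneg_left (T _ h1 m) (by positivity)).trans_lt (h2.trans_eq' ?_)
    rw [← mul_assoc, mul_left_comm, cal_norm]
  choose a ta using ca
  have ad : ∀ h k, a (h + k) = a h + a k := by
    intro h k
    refine tendsto_nhds_unique (ta (h + k)) ?_
    have t0 : Tendsto (fun n => cal_q g x (h + k) n - (cal_q g x h n + cal_q g x k n)) atTop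
        (𝓝 0) := by
      refine squeeze_zero_norm' ?_ (cal_rp ha (B * ‖k‖) h)
      filter_upwards [(cal_small h).eventually (gt_mem_nhds d0),
        (cal_small k).eventually (gt_mem_nhds hτ)] with n h1 h2
      have h3 := H (x + ((2 : ℝ) ^ n)⁻¹ • h) (mem_ball_zero_iff.2 ((norm_add_le _ _).trans_lt
        (by linarith [h1.trans_le (min_le_right _ _)]))) x (mem_ball_zero_iff.2 hx) _ h2
      have e : cal_q g x (h + k) n - (cal_q g x h n + cal_q g x k n) = (2 : ℝ) ^ n •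
          (g (x + ((2 : ℝ) ^ n)⁻¹ • h + ((2 : ℝ) ^ n)⁻¹ • k) - g (x + ((2 : ℝ) ^ n)⁻¹ • h) -
            (g (x + ((2 : ℝ) ^ n)⁻¹ • k) - g x)) := by
        rw [cal_q, cal_q, cal_q, ← smul_add, ← smul_sub, smul_add, ← add_assoc]
        congr 1
        abel
      rw [add_sub_cancel_left] at h3
      rw [e, norm_smul, Real.norm_of_nonneg (by positivity)]
      refine (mul_le_mul_of_nonneg_left h3 (by positivity)).trans_eq ?_
      rw [← mul_assoc, mul_left_comm, cal_norm]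
    simpa using t0.add ((ta h).add (ta k))
  have bd : ∀ h, ‖a h‖ ≤ B * ‖h‖ := by
    intro h
    refine le_of_tendsto (ta h).norm ?_
    filter_upwards [(cal_small h).eventually (gt_mem_nhds hτ)] with n h1
    rw [cal_q, norm_smul, Real.norm_of_nonneg (by positivity)]
    refine (mul_le_mul_of_nonneg_left (H0 _ h1) (by positivity)).trans_eq ?_
    rw [mul_left_comm, cal_norm]
  let f : X d →+ E := AddMonoidHom.mk' a ad
  refine ⟨f.toRealLinearMap (AddMonoidHomClass.continuous_of_bound f B bd), ?_,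
    ContinuousLinearMap.opNorm_le_bound _ hB bd, ta⟩
  rw [hasFDerivAt_iff_isLittleO_nhds_zero, Asymptotics.isLittleO_iff]
  intro c hc
  have t1 : Tendsto (fun h : X d => B * ‖h‖ ^ α) (𝓝 0) (𝓝 0) := by
    have := (tendsto_norm_zero.rpow_const (Or.inr ha.le)).const_mul B (α := X d)
    rwa [Real.zero_rpow ha.ne', mul_zero] at this
  filter_upwards [tendsto_norm_zero.eventually (gt_mem_nhds d0), t1.eventually (gt_mem_nhds hc)]
    with h h1 h2
  have h3 : ‖g (x + h) - g x - a h‖ ≤ B * ‖h‖ * ‖h‖ ^ α :=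
    le_of_tendsto' ((ta h).const_sub _).norm (T h h1)
  refine h3.trans ?_
  rw [mul_right_comm]
  exact mul_le_mul_of_nonneg_right h2.le (norm_nonneg _)

theorem cal_cont {F : Type} [NormedAddCommGroup F] {f : X d → F} {α K : ℝ} {U : Set (X d)}
    (h : Hol α K f U) (ha : 0 < α) : ContinuousOn f U := by
  intro x hx
  rw [ContinuousWithinAt, tendsto_iff_norm_sub_tendsto_zero]
  have t : Tendsto (fun y : X d => K * ‖y - x‖ ^ α) (𝓝[U] x) (𝓝 0) := by
    have := ((tendsto_norm_sub_self x).rpow_const (Or.inr ha.le)).const_mul K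
    rw [Real.zero_rpow ha.ne', mul_zero] at this
    exact this.mono_left nhdsWithin_le_nhds
  exact squeeze_zero' (Eventually.of_forall fun _ => norm_nonneg _)
    (eventually_nhdsWithin_of_forall fun y hy => h y hy x hx) t

theorem cal_dif [CompleteSpace E] (g : X d → E) (α B ρ τ : ℝ) (ha : 0 < α) (hτ : 0 < τ)
    (hB : 0 ≤ B) (h : ∀ h : X d, h ≠ 0 → ‖h‖ < τ →
      (∀ x ∈ ball (0 : X d) ρ, ‖‖h‖⁻¹ • (g (x + h) - g x)‖ ≤ B) ∧
        Hol α B (fun x => ‖h‖⁻¹ • (g (x + h) - g x)) (ball 0 ρ)) :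
    ContDiffOn ℝ 1 g (ball 0 ρ) ∧ (∀ x ∈ ball (0 : X d) ρ, ‖fderiv ℝ g x‖ ≤ B) ∧
      Hol α B (fderiv ℝ g) (ball 0 ρ) := by
  have H0 : ∀ x ∈ ball (0 : X d) ρ, ∀ k : X d, ‖k‖ < τ → ‖g (x + k) - g x‖ ≤ B * ‖k‖ := by
    intro x hx k hk
    rcases eq_or_ne k 0 with rfl | k0
    · simp
    have := (h k k0 hk).1 x hx
    rwa [norm_smul, norm_inv, norm_norm, inv_mul_le_iff₀ (norm_pos_iff.2 k0), mul_comm] at this
  have H : ∀ y ∈ ball (0 : X d) ρ, ∀ z ∈ ball (0 : X d) ρ, ∀ k : X d, ‖k‖ < τ →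
      ‖g (y + k) - g y - (g (z + k) - g z)‖ ≤ B * ‖k‖ * ‖y - z‖ ^ α := by
    intro y hy z hz k hk
    rcases eq_or_ne k 0 with rfl | k0
    · simp
    have := (h k k0 hk).2 y hy z hz
    rw [← smul_sub, norm_smul, norm_inv, norm_norm, inv_mul_le_iff₀ (norm_pos_iff.2 k0)] at this
    exact this.trans_eq (by ring)
  have D : ∀ x ∈ ball (0 : X d) ρ, DifferentiableAt ℝ g x ∧ ‖fderiv ℝ g x‖ ≤ B ∧
      ∀ k, Tendsto (cal_q g x k) atTop (𝓝 (fderiv ℝ g x k)) := by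
    intro x hx
    obtain ⟨A, a1, a2, a3⟩ := cal_der ha hτ hB (H0 x hx) H (mem_ball_zero_iff.1 hx)
    rw [a1.fderiv]
    exact ⟨a1.differentiableAt, a2, a3⟩
  have ho : Hol α B (fderiv ℝ g) (ball 0 ρ) := by
    intro x hx y hy
    refine ContinuousLinearMap.opNorm_le_bound _ (by positivity) fun k => ?_
    refine le_of_tendsto (((D x hx).2.2 k).sub ((D y hy).2.2 k)).norm ?_
    filter_upwards [(cal_small k).eventually (gt_mem_nhds hτ)] with n h1
    rw [cal_q, cal_q, ← smul_sub, norm_smul, Real.norm_of_nonneg (by positivity)]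
    refine (mul_le_mul_of_nonneg_left (H x hx y hy _ h1) (by positivity)).trans_eq ?_
    rw [← mul_assoc, mul_left_comm, cal_norm, mul_right_comm]
  refine ⟨?_, fun x hx => (D x hx).2.1, ho⟩
  exact (contDiffOn_succ_iff_fderiv_of_isOpen (n := 0) isOpen_ball).2
    ⟨fun x hx => (D x hx).1.differentiableWithinAt, by simp, contDiffOn_zero.2 (cal_cont ho ha)⟩

theorem cal_quo (g : X d → E) (α B : ℝ) (h : X d) (hh : ‖h‖ ≤ 1) (hg : ContDiffOn ℝ 1 g (ball 0 2))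
    (h1 : ∀ x ∈ ball (0 : X d) 2, ‖fderiv ℝ g x‖ ≤ B) (h2 : Hol α B (fderiv ℝ g) (ball 0 2)) :
    ((∀ x ∈ ball (0 : X d) 1, ‖‖h‖⁻¹ • (g (x + h) - g x)‖ ≤ B) ∧
      Hol α B (fun x => ‖h‖⁻¹ • (g (x + h) - g x)) (ball 0 1)) ∧
      ∀ x ∈ ball (0 : X d) 2, ∀ y ∈ ball (0 : X d) 2, ‖g x - g y‖ ≤ B * ‖x - y‖ := by
  have hB : 0 ≤ B := (norm_nonneg _).trans (h1 0 (mem_ball_self two_pos))
  have hd : ∀ x ∈ ball (0 : X d) 2, DifferentiableAt ℝ g x := fun x hx =>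
    (hg.differentiableOn one_ne_zero x hx).differentiableAt (isOpen_ball.mem_nhds hx)
  have lip : ∀ x ∈ ball (0 : X d) 2, ∀ y ∈ ball (0 : X d) 2, ‖g x - g y‖ ≤ B * ‖x - y‖ :=
    fun x hx y hy => (convex_ball _ _).norm_image_sub_le_of_norm_fderiv_le hd h1 hy hx
  have mem : ∀ x ∈ ball (0 : X d) 1, ∀ z ∈ closedBall (0 : X d) 1, x + z ∈ ball (0 : X d) 2 := by
    intro x hx z hz
    rw [mem_ball_zero_iff] at hx ⊢
    rw [mem_closedBall_zero_iff] at hz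
    linarith [norm_add_le x z]
  have dv : ∀ (v : E) (c : ℝ), 0 ≤ c → ‖v‖ ≤ c * ‖h‖ → ‖‖h‖⁻¹ • v‖ ≤ c := by
    intro v c hc hv
    rcases eq_or_ne h 0 with rfl | k0
    · simpa using hc
    · rwa [norm_smul, norm_inv, norm_norm, inv_mul_le_iff₀ (norm_pos_iff.2 k0), mul_comm]
  have hz : h ∈ closedBall (0 : X d) 1 := mem_closedBall_zero_iff.2 hh
  have h0 : (0 : X d) ∈ closedBall (0 : X d) 1 := mem_closedBall_self zero_le_one
  refine ⟨⟨fun x hx => dv _ _ hB ?_, fun x hx y hy => ?_⟩, lip⟩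
  · simpa using lip _ (mem x hx h hz) _ (mem x hx 0 h0)
  · rw [← smul_sub]
    refine dv _ _ (by positivity) ?_
    have := (convex_closedBall (0 : X d) 1).norm_image_sub_le_of_norm_hasFDerivWithin_le
      (f := fun z => g (x + z) - g (y + z)) (f' := fun z => fderiv ℝ g (x + z) - fderiv ℝ g (y + z))
      (C := B * ‖x - y‖ ^ α)
      (fun z hz => ((((hasFDerivAt_comp_add_left x).2 (hd _ (mem x hx z hz)).hasFDerivAt).sub
        ((hasFDerivAt_comp_add_left y).2 (hd _ (mem y hy z hz)).hasFDerivAt))).hasFDerivWithinAt)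
      (fun z hz => by simpa using h2 _ (mem x hx z hz) _ (mem y hy z hz)) h0 hz
    simp only [add_zero, sub_zero] at this
    rwa [sub_sub_sub_comm]

theorem cal_cmp (Φ : X d → E) (g : X d → X d) (α K ρ : ℝ) (_ : 0 < α) (ha1 : α ≤ 1) (hρ : 0 < ρ)
    (hΦ : ContDiffAt ℝ 2 Φ (g 0)) (hg : ContDiffOn ℝ 1 g (ball 0 ρ))
    (hK : Hol α K (fderiv ℝ g) (ball 0 ρ)) :
    ∃ ρ' K' : ℝ, 0 < ρ' ∧ ρ' ≤ ρ ∧ ContDiffOn ℝ 1 (fun x => Φ (g x)) (ball 0 ρ') ∧
      Hol α K' (fderiv ℝ fun x => Φ (g x)) (ball 0 ρ') := by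
  have g0 : ContDiffAt ℝ 1 g 0 := hg.contDiffAt (ball_mem_nhds _ hρ)
  have hA : ContDiffAt ℝ 1 (fun x => fderiv ℝ Φ (g x)) 0 :=
    (hΦ.fderiv_right (m := 1) le_rfl).comp 0 g0
  obtain ⟨C, t, ht, hC⟩ := hA.exists_lipschitzOnWith
  have e1 := hA.continuousAt.norm.eventually (gt_mem_nhds (lt_add_one _))
  have e2 := (g0.continuousAt_fderiv one_ne_zero).norm.eventually (gt_mem_nhds (lt_add_one _))
  have e3 := g0.continuousAt.eventually ((hΦ.of_le one_le_two).eventually (by simp))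
  obtain ⟨ε, hε, hb⟩ := Metric.eventually_nhds_iff_ball.1 (((e1.and e2).and e3).and ht)
  have s1 : ball (0 : X d) (min ε (min ρ (1 / 2))) ⊆ ball 0 ε := ball_subset_ball (min_le_left _ _)
  have s2 : ball (0 : X d) (min ε (min ρ (1 / 2))) ⊆ ball 0 ρ :=
    ball_subset_ball ((min_le_right _ _).trans (min_le_left _ _))
  have s3 : ball (0 : X d) (min ε (min ρ (1 / 2))) ⊆ ball 0 (1 / 2) :=
    ball_subset_ball ((min_le_right _ _).trans (min_le_right _ _))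
  have gx : ∀ x ∈ ball (0 : X d) (min ε (min ρ (1 / 2))), ContDiffAt ℝ 1 g x := fun x hx =>
    hg.contDiffAt (isOpen_ball.mem_nhds (s2 hx))
  have hd : ∀ x ∈ ball (0 : X d) (min ε (min ρ (1 / 2))),
      fderiv ℝ (fun x => Φ (g x)) x = (fderiv ℝ Φ (g x)).comp (fderiv ℝ g x) := fun x hx =>
    fderiv_fun_comp x ((hb x (s1 hx)).1.2.differentiableAt one_ne_zero)
      ((gx x hx).differentiableAt one_ne_zero)
  refine ⟨min ε (min ρ (1 / 2)), C * (‖fderiv ℝ g 0‖ + 1) + (‖fderiv ℝ Φ (g 0)‖ + 1) * |K|,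
    lt_min hε (lt_min hρ one_half_pos), (min_le_right _ _).trans (min_le_left _ _),
    fun x hx => ((hb x (s1 hx)).1.2.comp x (gx x hx)).contDiffWithinAt, fun x hx y hy => ?_⟩
  have e : (fderiv ℝ Φ (g x)).comp (fderiv ℝ g x) - (fderiv ℝ Φ (g y)).comp (fderiv ℝ g y) =
      (fderiv ℝ Φ (g x) - fderiv ℝ Φ (g y)).comp (fderiv ℝ g x) +
        (fderiv ℝ Φ (g y)).comp (fderiv ℝ g x - fderiv ℝ g y) := by
    rw [ContinuousLinearMap.sub_comp, ContinuousLinearMap.comp_sub]; abel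
  have n1 : ‖x - y‖ ≤ 1 := by
    have a := mem_ball_zero_iff.1 (s3 hx)
    have b := mem_ball_zero_iff.1 (s3 hy)
    linarith [norm_sub_le x y]
  have n2 : ‖x - y‖ ≤ ‖x - y‖ ^ α := Real.self_le_rpow_of_le_one (norm_nonneg _) n1 ha1
  have n3 : ‖fderiv ℝ Φ (g x) - fderiv ℝ Φ (g y)‖ ≤ C * ‖x - y‖ ^ α :=
    (hC.norm_sub_le (hb x (s1 hx)).2 (hb y (s1 hy)).2).trans
      (mul_le_mul_of_nonneg_left n2 C.coe_nonneg)
  have n4 : ‖fderiv ℝ g x - fderiv ℝ g y‖ ≤ |K| * ‖x - y‖ ^ α :=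
    (hK x (s2 hx) y (s2 hy)).trans (mul_le_mul_of_nonneg_right (le_abs_self K) (by positivity))
  rw [hd x hx, hd y hy, e]
  refine (norm_add_le _ _).trans ((add_le_add
    ((ContinuousLinearMap.opNorm_comp_le _ _).trans
      (mul_le_mul n3 (hb x (s1 hx)).1.1.2.le (norm_nonneg _) (by positivity)))
    ((ContinuousLinearMap.opNorm_comp_le _ _).trans
      (mul_le_mul (hb y (s1 hy)).1.1.1.le n4 (norm_nonneg _) (by positivity)))).trans_eq ?_)
  ring

end Pool.Agent.MP_815c6c_an.S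

end
end MrgPart1

-- marker of a merged file
example : 731051 + 329750 = 731051 + 329750 := rfl
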