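import Mathlib.Geometry.Manifold.PartitionOfUnity
import Mathlib.MeasureTheory.Integral.IntervalIntegral.ContDiff
import Mathlib.Geometry.Manifold.Sheaf.Basic
import Pool.Agent.MP_815c6c_an.S.CalA

-- ======== part 0: formerly Pool.Agent.MP_815c6c_an.S.ESpec
section MrgPart0

/-! Scalar p-harmonic functions in any dimension: the statements of the entry rows.
Note: `/team-store/PLAP_T5_entry12.md`. -/

set_option autoImplicit false

noncomputable section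

namespace Pool.Agent.MP_815c6c_an.S

open Set Metric MeasureTheory Filter Topology Bornology
open scoped ENNReal RealInnerProductSpace
open N (X Gr)
open Q (pw)

/-- the Sobolev kit for maps into `E` -/
structure Sob (d : ℕ) (E : Type) [NormedAddCommGroup E] [NormedSpace ℝ E] : Prop where
  mono : ∀ (q : ℝ≥0∞) (U U' : Set (X d)) (u : X d → E) D, U' ⊆ U → Sb q U u D → Sb q U' u D
  congr : ∀ (q : ℝ≥0∞) (U : Set (X d)) (u u' : X d → E) D D', Sb q U u D → u' =ᵐ[vo U] u →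
    D' =ᵐ[vo U] D → Sb q U u' D'
  mem : ∀ (q : ℝ≥0∞) (U : Set (X d)) (u : X d → E) D, Sb q U u D →
    MemLp u q (vo U) ∧ MemLp D q (vo U)
  low : ∀ (q q' : ℝ≥0∞) (U : Set (X d)) (u : X d → E) D, IsBounded U → q' ≤ q → Sb q U u D →
    Sb q' U u D
  clo : ∀ (q : ℝ≥0∞) (U : Set (X d)) (u : ℕ → X d → E) (D : ℕ → X d → L d E) (u0 : X d → E)
    (D0 : X d → L d E), 1 ≤ q → q ≠ ⊤ → (∀ n, Sb q U (u n) (D n)) →
    AEStronglyMeasurable u0 (vo U) → AEStronglyMeasurable D0 (vo U) →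
    Tendsto (fun n => eLpNorm (u n - u0) q (vo U)) atTop (𝓝 0) →
    Tendsto (fun n => eLpNorm (D n - D0) q (vo U)) atTop (𝓝 0) → Sb q U u0 D0
  dom : ∀ (q : ℝ≥0∞) (U : Set (X d)) (u : ℕ → X d → E) (D : ℕ → X d → L d E) (u0 : X d → E)
    (D0 : X d → L d E), 1 ≤ q → q ≠ ⊤ → (∀ n, Sb q U (u n) (D n)) → Dom q U u D u0 D0 →
    Sb q U u0 D0
  c1 : ∀ (q : ℝ≥0∞) (U : Set (X d)) (u : X d → E), IsBounded U → MeasurableSet U →
    ContDiff ℝ 1 u → Sb q U u (fderiv ℝ u)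
  lin : ∀ (q : ℝ≥0∞) (U : Set (X d)) (u u' : X d → E) D D' (t t' : ℝ), Sb q U u D →
    Sb q U u' D' → Sb q U (fun z => t • u z + t' • u' z) fun z => t • D z + t' • D' z
  cut : ∀ (q : ℝ≥0∞) (U : Set (X d)) (u : X d → E) D (η : X d → ℝ), IsBounded U →
    MeasurableSet U → ContDiff ℝ 1 η → Sb q U u D →
    Sb q U (fun z => η z • u z) fun z => η z • D z + (fderiv ℝ η z).smulRight (u z)
  sca : ∀ (q : ℝ≥0∞) (U U' : Set (X d)) (u : X d → E) D (a : X d) (b : ℝ), b ≠ 0 →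
    MeasurableSet U' → (∀ z ∈ U', a + b • z ∈ U) → Sb q U u D →
    Sb q U' (fun z => u (a + b • z)) fun z => b • D (a + b • z)
  chain : ∀ (E' : Type) [NormedAddCommGroup E'] [NormedSpace ℝ E'] (q : ℝ≥0∞) (U : Set (X d))
    (u : X d → E) D (Φ : E → E') (b : ℝ), IsBounded U → Sb q U u D → ContDiff ℝ 1 Φ →
    (∀ w, ‖fderiv ℝ Φ w‖ ≤ b) → Sb q U (fun z => Φ (u z)) fun z => (fderiv ℝ Φ (u z)).comp (D z)
  prod : ∀ (E' : Type) [NormedAddCommGroup E'] [NormedSpace ℝ E'] (q : ℝ≥0∞) (U : Set (X d))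
    (u : X d → E) D (u' : X d → E') D', Sb q U u D → Sb q U u' D' →
    Sb q U (fun z => (u z, u' z)) fun z => (D z).prod (D' z)
  part : ∀ (q : ℝ≥0∞) (U : Set (X d)) (u : X d → E) D (φ : X d → ℝ) (v : X d), 1 ≤ q →
    IsOpen U → Sb q U u D → Tc U φ →
    Integrable (fun z => fderiv ℝ φ z v • u z) ∧ Integrable (fun z => φ z • D z v) ∧
    ∫ z, fderiv ℝ φ z v • u z = -∫ z, φ z • D z v

def SobS : Prop := ∀ (d : ℕ) (E : Type) [NormedAddCommGroup E] [NormedSpace ℝ E]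
  [FiniteDimensional ℝ E], Sob d E

/-- entry: from the weak formulation of the statement -/
def EnS : Prop := ∀ (d : ℕ) (p : ℝ) (U : Set (X d)) (h : X d → X 1) (G : X d → Gr d 1) (x : X d)
  (r : ℝ), 2 < p → IsOpen U → closedBall x r ⊆ U → N.Harm p U h G →
  Wk p (ball x r) (fun y => h y 0) fun y => (jj d).symm (G y)

/-- symmetries of weak solutions -/
def WsS : Prop := ∀ (d : ℕ) (p : ℝ) (U U' : Set (X d)) (u : X d → ℝ) (G : X d → X d), 2 < p →
  IsOpen U → IsOpen U' → IsBounded U' → Wk p U u G →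
  (∀ (a : X d) (b c e : ℝ), b ≠ 0 → (∀ z ∈ U', a + b • z ∈ U) →
    Wk p U' (fun z => c * u (a + b • z) + e) fun z => (c * b) • G (a + b • z)) ∧
  ∀ (u' : X d → ℝ) (G' : X d → X d), u' =ᵐ[vo U] u → G' =ᵐ[vo U] G → Wk p U u' G'

/-- Sobolev test functions -/
def TsS : Prop := ∀ (d : ℕ) (p : ℝ) (U : Set (X d)) (u v η : X d → ℝ) (G : X d → X d)
  (D : X d → L d ℝ), 2 < p → IsOpen U → Wk p U u G → Sb (ENNReal.ofReal p) U v D → Tc U η →
  Integrable (fun x => η x * D x (Ap p (G x))) ∧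
  Integrable (fun x => v x * fderiv ℝ η x (Ap p (G x))) ∧
  ∫ x, η x * D x (Ap p (G x)) = -∫ x, v x * fderiv ℝ η x (Ap p (G x))

/-- translations in `L^p` -/
def TrS : Prop := ∀ (d : ℕ) (p r R : ℝ) (u : X d → ℝ) (D : X d → L d ℝ) (h : X d), 1 ≤ p →
  r + ‖h‖ ≤ R → Sb (ENNReal.ofReal p) (ball 0 R) u D →
  eLpNorm (fun x => u (x + h) - u x) (ENNReal.ofReal p) (vo (ball 0 r)) ≤
    ‖h‖ₑ * eLpNorm D (ENNReal.ofReal p) (vo (ball 0 R))

/-- monotonicity -/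
def MonS : Prop := ∀ (d : ℕ) (p : ℝ), 2 < p → ∃ C : ℝ, 0 < C ∧ ∀ a b : X d,
  ‖Vp p a - Vp p b‖ ^ 2 ≤ C * ⟪Ap p a - Ap p b, a - b⟫ ∧
  ‖Ap p a - Ap p b‖ ≤ C * ((‖a‖ + ‖b‖) ^ (p / 2 - 1) * ‖Vp p a - Vp p b‖)

/-- difference quotients of `V` -/
def DqS : Prop := ∀ (d : ℕ) (p r R : ℝ) (u : X d → ℝ) (G : X d → X d), 2 < p → r < R →
  Wk p (ball 0 R) u G → Dq r fun x => Vp p (G x)

/-- bounded difference quotients give a derivative -/
def WkS : Prop := ∀ (d : ℕ) (r R R' : ℝ) (V : X d → X d), r < R → R < R' →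
  MemLp V 2 (vo (ball 0 R')) → Dq R V → ∃ D, Sb 2 (ball 0 r) V D

/-- null Lagrangians -/
def JacS : Prop := ∀ (d : ℕ) (U K : Set (X d)) (a b : X d → ℝ) (Da Db : X d → L d ℝ) (v w : X d),
  IsOpen U → IsCompact K → K ⊆ U → Sb 2 U a Da → Sb 2 U b Db →
  (∀ᵐ x ∂vo U, x ∉ K → b x = 0 ∧ Db x = 0) →
  IntegrableOn (fun x => Da x v * Db x w) U ∧ IntegrableOn (fun x => Da x w * Db x v) U ∧
  ∫ x in U, Da x v * Db x w = ∫ x in U, Da x w * Db x v

/-- the Hessian obtained from the derivative of `V` -/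
def hs {d : ℕ} (p : ℝ) (ξ : X d) (D : L d (X d)) : L d (X d) :=
  (fderiv ℝ (Ip p) (Vp p ξ)).comp D

/-- the Hessian is symmetric -/
def SymS : Prop := ∀ (d : ℕ) (p : ℝ) (U : Set (X d)) (u : X d → ℝ) (G : X d → X d)
  (D : X d → L d (X d)), 2 < p → IsOpen U → IsBounded U → Wk p U u G →
  Sb 2 U (fun x => Vp p (G x)) D → ∀ᵐ x ∂vo U, G x ≠ 0 → ∀ v w,
    ⟪hs p (G x) (D x) v, w⟫ = ⟪v, hs p (G x) (D x) w⟫

/-- the pointwise equation -/
def PeS : Prop := ∀ (d : ℕ) (p : ℝ) (U : Set (X d)) (u : X d → ℝ) (G : X d → X d)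
  (D : X d → L d (X d)), 2 < p → IsOpen U → IsBounded U → Wk p U u G →
  Sb 2 U (fun x => Vp p (G x)) D → ∀ᵐ x ∂vo U, G x ≠ 0 →
    ‖G x‖ ^ 2 * ∑ i, hs p (G x) (D x) (ei i) i + (p - 2) * ⟪hs p (G x) (D x) (G x), G x⟫ = 0

/-- the Morrey estimate -/
def MorS : Prop := ∀ (d : ℕ) (p : ℝ), 1 ≤ p → d < p → ∃ C : ℝ, 0 ≤ C ∧ ∀ (x : X d) (r : ℝ)
  (u : X d → ℝ) (D : X d → L d ℝ), 0 < r → Sb (ENNReal.ofReal p) (ball x r) u D →
  ∃ u' : X d → ℝ, ContinuousOn u' (ball x r) ∧ u' =ᵐ[vo (ball x r)] u ∧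
    ∀ y ∈ ball x r, ∀ z ∈ ball x r, |u' y - u' z| ≤ C * r * (⨍ w in ball x r, ‖D w‖ ^ p) ^ (1 / p)

/-- the mean value inequality -/
def LlS : Prop := ∀ (d : ℕ) (q : ℝ≥0∞) (x : X d) (r M : ℝ) (u : X d → ℝ) (D : X d → L d ℝ)
  (c : L d ℝ), 1 ≤ q → Sb q (ball x r) u D → (∀ᵐ y ∂vo (ball x r), ‖D y - c‖ ≤ M) →
  (∃ u' : X d → ℝ, u' =ᵐ[vo (ball x r)] u ∧
    ∀ y ∈ ball x r, ∀ z ∈ ball x r, |u' y - u' z - c (y - z)| ≤ M * ‖y - z‖) ∧
  (ContinuousOn u (ball x r) →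
    ∀ y ∈ ball x r, ∀ z ∈ ball x r, |u y - u z - c (y - z)| ≤ M * ‖y - z‖)

/-- Sobolev maps do not jump -/
def GapS : Prop := ∀ (d : ℕ) (x : X d) (r a b : ℝ) (V : X d → X d) (D : X d → L d (X d)),
  0 ≤ a → a < b → Sb 2 (ball x r) V D → (∀ᵐ y ∂vo (ball x r), ‖V y‖ ≤ a ∨ b ≤ ‖V y‖) →
  (∀ᵐ y ∂vo (ball x r), ‖V y‖ ≤ a) ∨ ∀ᵐ y ∂vo (ball x r), b ≤ ‖V y‖

end Pool.Agent.MP_815c6c_an.S

end
end MrgPart0

-- ======== part 1: formerly Pool.Agent.MP_815c6c_an.S.EWs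
section MrgPart1

/-! Symmetries of weak solutions: affine changes of variables and changes on null sets. -/

set_option autoImplicit false

noncomputable section

namespace Pool.Agent.MP_815c6c_an.S

open Set Metric MeasureTheory Filter Topology Bornology
open scoped ENNReal RealInnerProductSpace
open N (X Gr)
open Q (pw)

theorem ws_Ap {d : ℕ} (p t : ℝ) (w : X d) : Ap p (t • w) = (|t| ^ (p - 2) * t) • Ap p w := by
  unfold Ap pw
  rw [norm_smul, Real.norm_eq_abs, Real.mul_rpow (abs_nonneg t) (norm_nonneg w), smul_smul,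
    smul_smul]
  congr 1
  ring

theorem ws_dv {d : ℕ} {U U' : Set (X d)} {F : X d → X d} (h : Dv U F) (a : X d) {b : ℝ}
    (hb : b ≠ 0) (hU : ∀ z ∈ U', a + b • z ∈ U) (κ : ℝ) :
    Dv U' fun z => κ • F (a + b • z) := by
  intro φ ⟨h1, h2, h3⟩
  let T : X d ≃ₜ X d := (Homeomorph.smulOfNeZero b hb).trans (Homeomorph.addLeft a)
  have hT : ∀ z, T z = a + b • z := fun z => rfl
  have hT' : ∀ y, T.symm y = b⁻¹ • (-a + y) := fun y => rfl
  have hc : ContDiff ℝ 1 (φ ∘ T.symm) := by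
    refine h1.comp ?_
    rw [show (T.symm : X d → X d) = fun y => b⁻¹ • (-a + y) from funext hT']
    fun_prop
  have h4 : Tc U (φ ∘ T.symm) := by
    refine ⟨hc, h2.comp_homeomorph T.symm, fun y hy => ?_⟩
    rw [tsupport_comp_eq_preimage] at hy
    have h5 := hU _ (h3 hy)
    rwa [← hT, T.apply_symm_apply] at h5
  have h5 := h _ h4
  have h6 : ∀ z v, fderiv ℝ φ z v = b * fderiv ℝ (φ ∘ T.symm) (a + b • z) v := by
    intro z v
    have e1 : HasFDerivAt (fun z : X d => a + b • z) (b • ContinuousLinearMap.id ℝ (X d)) z :=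
      ((hasFDerivAt_id z).const_smul b).const_add a
    have e2 := ((hc.differentiable one_ne_zero) (a + b • z)).hasFDerivAt.comp z e1
    have e3 : (φ ∘ T.symm) ∘ (fun z : X d => a + b • z) = φ := by
      funext y
      change φ (T.symm (T y)) = φ y
      rw [T.symm_apply_apply]
    rw [e3] at e2
    rw [e2.fderiv]
    simp
  have h7 : ∀ z, fderiv ℝ φ z (κ • F (a + b • z)) =
      (κ * b) * fderiv ℝ (φ ∘ T.symm) (a + b • z) (F (a + b • z)) := by
    intro z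
    rw [map_smul, h6, smul_eq_mul, mul_assoc]
  simp only [h7]
  rw [integral_const_mul, Measure.integral_comp_smul volume
    (fun y => fderiv ℝ (φ ∘ T.symm) (a + y) (F (a + y))) b,
    integral_add_left_eq_self (fun y => fderiv ℝ (φ ∘ T.symm) y (F y)) a, h5, smul_zero, mul_zero]

theorem ws : SobS → WsS := by
  intro hS d p U U' u G _ hU hU' hb h
  have K := hS d ℝ
  refine ⟨fun a b c e hb0 hm => ⟨?_, ?_⟩, fun u' G' hu hG => ⟨?_, fun φ hφ => ?_⟩⟩
  · have h1 := K.sca _ U U' u _ a b hb0 hU'.measurableSet hm h.sb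
    have h2 := K.c1 (ENNReal.ofReal p) U' (fun _ => e) hb hU'.measurableSet contDiff_const
    refine K.congr _ _ _ _ _ _ (K.lin _ _ _ _ _ _ c 1 h1 h2) (ae_of_all _ fun z => ?_)
      (ae_of_all _ fun z => ?_)
    · simp
    · simp [smul_smul]
  · simp only [ws_Ap]
    exact ws_dv h.dv a hb0 hm _
  · refine K.congr _ _ _ _ _ _ h.sb hu ?_
    filter_upwards [hG] with x hx
    rw [hx]
  · rw [← h.dv φ hφ]
    refine integral_congr_ae ?_
    filter_upwards [(ae_restrict_iff' hU.measurableSet).1 hG] with x hx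
    by_cases hxU : x ∈ U
    · rw [hx hxU]
    · rw [fderiv_of_notMem_tsupport ℝ fun k => hxU (hφ.2.2 k)]
      rfl

end Pool.Agent.MP_815c6c_an.S

end
end MrgPart1

-- ======== part 2: formerly Pool.Agent.MP_815c6c_an.S.ETr
section MrgPart2

/-! Translations in `L^p`. -/

set_option autoImplicit false

noncomputable section

namespace Pool.Agent.MP_815c6c_an.S

open Set Metric MeasureTheory Filter Topology
open scoped ENNReal
open N (X)

variable {d : ℕ}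

theorem tr_jen {p : ℝ} (hp : 1 ≤ p) {f : ℝ → ℝ} (hf : Continuous f) :
    ‖∫ t in Ioc (0 : ℝ) 1, f t‖ₑ ^ p ≤ ∫⁻ t in Ioc (0 : ℝ) 1, ‖f t‖ₑ ^ p := by
  have : IsProbabilityMeasure (volume.restrict (Ioc (0 : ℝ) 1)) := ⟨by simp⟩
  have h0 : 0 < p := by linarith
  have h1 := eLpNorm_le_eLpNorm_of_exponent_le (μ := volume.restrict (Ioc (0 : ℝ) 1))
    (p := 1) (q := ENNReal.ofReal p) (by simpa using hp) hf.aestronglyMeasurable
  rw [eLpNorm_one_eq_lintegral_enorm, eLpNorm_eq_lintegral_rpow_enorm_toReal (by simpa using h0)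
    ENNReal.ofReal_ne_top, ENNReal.toReal_ofReal h0.le] at h1
  have h2 := ENNReal.rpow_le_rpow ((enorm_integral_le_lintegral_enorm f).trans h1) h0.le
  rwa [← ENNReal.rpow_mul, one_div_mul_cancel h0.ne', ENNReal.rpow_one] at h2

theorem tr_pt {p : ℝ} (hp : 1 ≤ p) {v : X d → ℝ} (hv : ContDiff ℝ 1 v) (h x : X d) :
    ‖v (x + h) - v x‖ₑ ^ p ≤
      ∫⁻ t in Ioc (0 : ℝ) 1, ‖h‖ₑ ^ p * ‖fderiv ℝ v (x + t • h)‖ₑ ^ p := by
  have h0 : 0 ≤ p := by linarith
  have hc : Continuous fun t : ℝ => fderiv ℝ v (x + t • h) h :=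
    ((hv.continuous_fderiv one_ne_zero).comp (by fun_prop)).clm_apply continuous_const
  have hd : ∀ t : ℝ, HasDerivAt (fun t : ℝ => v (x + t • h)) (fderiv ℝ v (x + t • h) h) t := by
    intro t
    have k : HasDerivAt (fun t : ℝ => x + t • h) h t := by
      simpa using ((hasDerivAt_id t).smul_const h).const_add x
    exact ((hv.differentiable one_ne_zero) _).hasFDerivAt.comp_hasDerivAt t k
  have e := intervalIntegral.integral_eq_sub_of_hasDerivAt (a := 0) (b := 1) (fun t _ => hd t)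
    (hc.intervalIntegrable 0 1)
  rw [intervalIntegral.integral_of_le zero_le_one] at e
  simp only [one_smul, zero_smul, add_zero] at e
  rw [← e]
  refine (tr_jen hp hc).trans (lintegral_mono fun t => ?_)
  rw [← ENNReal.mul_rpow_of_nonneg _ _ h0, mul_comm]
  exact ENNReal.rpow_le_rpow (ContinuousLinearMap.le_opENorm _ _) h0

theorem tr_mem {r R t : ℝ} {h x : X d} (hR : r + ‖h‖ ≤ R) (ht : t ∈ Ioc (0 : ℝ) 1)
    (hx : x ∈ ball (0 : X d) r) : x + t • h ∈ ball (0 : X d) R := by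
  rw [mem_ball_zero_iff] at hx ⊢
  have a := norm_add_le x (t • h)
  rw [norm_smul, Real.norm_of_nonneg ht.1.le] at a
  have b := mul_le_of_le_one_left (norm_nonneg h) ht.2
  linarith

theorem tr_c1 {p r R : ℝ} (hp : 1 ≤ p) {v : X d → ℝ} (hv : ContDiff ℝ 1 v) {h : X d}
    (hR : r + ‖h‖ ≤ R) : ∫⁻ x in ball 0 r, ‖v (x + h) - v x‖ₑ ^ p ≤
      ‖h‖ₑ ^ p * ∫⁻ x in ball 0 R, ‖fderiv ℝ v x‖ₑ ^ p := by
  have h0 : 0 ≤ p := by linarith
  have hF : Measurable fun x => ‖h‖ₑ ^ p * ‖fderiv ℝ v x‖ₑ ^ p :=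
    ((hv.continuous_fderiv one_ne_zero).measurable.enorm.pow_const p).const_mul _
  refine (lintegral_mono fun x => tr_pt hp hv h x).trans ?_
  rw [lintegral_lintegral_swap (f := fun (x : X d) (t : ℝ) =>
    ‖h‖ₑ ^ p * ‖fderiv ℝ v (x + t • h)‖ₑ ^ p)
    (hF.comp (by fun_prop : Measurable fun z : X d × ℝ => z.1 + z.2 • h)).aemeasurable,
    ← lintegral_const_mul' _ _ (ENNReal.rpow_ne_top_of_nonneg h0 enorm_ne_top)]
  have key : ∀ t ∈ Ioc (0 : ℝ) 1, ∫⁻ x in ball 0 r, ‖h‖ₑ ^ p * ‖fderiv ℝ v (x + t • h)‖ₑ ^ p ≤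
      ∫⁻ x in ball 0 R, ‖h‖ₑ ^ p * ‖fderiv ℝ v x‖ₑ ^ p := by
    intro t ht
    rw [← lintegral_indicator measurableSet_ball, ← lintegral_indicator measurableSet_ball]
    refine le_trans (lintegral_mono fun x => ?_) (lintegral_add_right_eq_self _ (t • h)).le
    by_cases hx : x ∈ ball (0 : X d) r
    · rw [indicator_of_mem hx, indicator_of_mem (tr_mem hR ht hx)]
    · rw [indicator_of_notMem hx]; exact zero_le
  refine (setLIntegral_mono' measurableSet_Ioc key).trans ?_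
  simp

theorem tr : TrS := by
  intro d p r R u D h hp hR hS
  obtain ⟨v, hv, g, hg, hae⟩ := hS
  have h0 : 0 < p := by linarith
  have hq : ENNReal.ofReal p ≠ 0 := by simpa using h0
  have hpow : ∀ {a : ℕ → ℝ≥0∞} {b : ℝ≥0∞}, Tendsto a atTop (𝓝 b) →
      Tendsto (fun n => a n ^ p) atTop (𝓝 (b ^ p)) := fun k =>
    (ENNReal.continuous_rpow_const.tendsto _).comp k
  have hD : Tendsto (fun n => ∫⁻ x in ball 0 R, ‖fderiv ℝ (v n) x‖ₑ ^ p) atTop
      (𝓝 (∫⁻ x in ball 0 R, ‖D x‖ₑ ^ p)) := by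
    refine tendsto_lintegral_of_dominated_convergence' (fun x => ‖g x‖ₑ ^ p) (fun n =>
      (((hv n).continuous_fderiv one_ne_zero).measurable.enorm.pow_const p).aemeasurable)
      (fun n => hae.mono fun x hx => ENNReal.rpow_le_rpow ?_ h0.le) ?_
      (hae.mono fun x hx => hpow hx.2.2.enorm)
    · rw [← ofReal_norm, ← ofReal_norm]
      exact ENNReal.ofReal_le_ofReal (((hx.1 n).2).trans (le_abs_self _))
    · have := lintegral_rpow_enorm_lt_top_of_eLpNorm_lt_top hq ENNReal.ofReal_ne_top hg.2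
      rw [ENNReal.toReal_ofReal h0.le] at this
      exact this.ne
  have hl : ∀ᵐ x ∂vo (ball (0 : X d) r), Tendsto (fun n => ‖v n (x + h) - v n x‖ₑ ^ p) atTop
      (𝓝 (‖u (x + h) - u x‖ₑ ^ p)) := by
    have a1 := (ae_restrict_iff' measurableSet_ball).1 hae
    have a2 := (measurePreserving_add_right volume h).quasiMeasurePreserving.ae a1
    refine (ae_restrict_iff' measurableSet_ball).2 ?_
    filter_upwards [a1, a2] with x k1 k2 hx
    have m1 : x + h ∈ ball (0 : X d) R := by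
      simpa using tr_mem (t := 1) hR ⟨one_pos, le_rfl⟩ hx
    have m2 : x ∈ ball (0 : X d) R :=
      ball_subset_ball (by linarith [norm_nonneg h]) hx
    exact hpow ((k2 m1).2.1.sub (k1 m2).2.1).enorm
  have main : ∫⁻ x in ball 0 r, ‖u (x + h) - u x‖ₑ ^ p ≤
      ‖h‖ₑ ^ p * ∫⁻ x in ball 0 R, ‖D x‖ₑ ^ p := by
    rw [lintegral_congr_ae (hl.mono fun x hx => hx.liminf_eq.symm)]
    refine (lintegral_liminf_le' fun n => ?_).trans ?_
    · have := (hv n).continuous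
      exact (Continuous.measurable (by fun_prop : Continuous fun x => v n (x + h) - v n x)
        ).enorm.pow_const p |>.aemeasurable
    · rw [← (ENNReal.Tendsto.const_mul hD
        (Or.inr (ENNReal.rpow_ne_top_of_nonneg h0.le enorm_ne_top))).liminf_eq]
      exact liminf_le_liminf (Eventually.of_forall fun n => tr_c1 hp (hv n) hR)
  rw [eLpNorm_eq_lintegral_rpow_enorm_toReal hq ENNReal.ofReal_ne_top,
    eLpNorm_eq_lintegral_rpow_enorm_toReal hq ENNReal.ofReal_ne_top, ENNReal.toReal_ofReal h0.le]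
  refine (ENNReal.rpow_le_rpow main (by positivity)).trans (le_of_eq ?_)
  rw [ENNReal.mul_rpow_of_nonneg _ _ (by positivity), ← ENNReal.rpow_mul,
    mul_one_div_cancel h0.ne', ENNReal.rpow_one]

end Pool.Agent.MP_815c6c_an.S

end
end MrgPart2

-- ======== part 3: formerly Pool.Agent.MP_815c6c_an.S.LSpec
section MrgPart3

/-! Scalar p-harmonic functions in any dimension: the statements of the last part.
Note: `/team-store/PLAP_T5_last50.md`. -/

set_option autoImplicit false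

noncomputable section

namespace Pool.Agent.MP_815c6c_an.S

open Set Metric MeasureTheory Filter Topology Bornology
open scoped ENNReal RealInnerProductSpace
open N (X Gr)
open Q (pw)

/-! A. the three inputs and the result -/

/-- a bound for the essential diameter of the image -/
def Di {d : ℕ} (G : X d → X d) (ρ B : ℝ) : Prop :=
  ∀ᵐ y ∂vo (ball 0 ρ), ∀ᵐ z ∂vo (ball 0 ρ), ‖G y - G z‖ ≤ B

/-- the gradient is locally bounded -/
def LipS (d : ℕ) (p : ℝ) : Prop := ∀ (u : X d → ℝ) (G : X d → X d), Wk p (ball 0 2) u G →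
  ∃ M : ℝ, ∀ᵐ z ∂vo (ball 0 (1 / 2)), ‖G z‖ ≤ M

/-- slow growth of the gradient excludes small gradients -/
def NowS (d : ℕ) (p q : ℝ) : Prop := ∃ Λ c : ℝ, 1 < Λ ∧ Λ < 2 ^ (q / 2) ∧ 0 < c ∧
  ∀ (u : X d → ℝ) (G : X d → X d), Wk p (ball 0 Λ) u G → (∀ᵐ y ∂vo (ball 0 Λ), ‖G y‖ ≤ 2) →
    ¬ (∀ᵐ y ∂vo (ball 0 1), ‖G y‖ ≤ 1) → ∀ᵐ y ∂vo (ball 0 1), c ≤ ‖G y‖

/-- the decay of the oscillation in the nondegenerate regime -/
def OnS (d : ℕ) (p : ℝ) : Prop := ∀ m : ℝ, 0 < m → ∃ θ l : ℝ, 0 < θ ∧ θ < 1 ∧ 0 < l ∧ l < 1 ∧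
  ∀ (u : X d → ℝ) (G : X d → X d) (B : ℝ), 0 ≤ B → Wk p (ball 0 1) u G →
    (∀ᵐ y ∂vo (ball 0 1), m ≤ ‖G y‖ ∧ ‖G y‖ ≤ 1) → Di G 1 B → Di G θ (l * B)

/-- the result, for the power `q / 2` of the gradient -/
def Out (d : ℕ) (p q : ℝ) : Prop := ∃ c : ℝ, ∀ (U : Set (X d)) (h : X d → X 1)
  (G : X d → Gr d 1), IsOpen U → N.Harm p U h G →
    N.Rep U (fun x => ‖G x‖ ^ (q / 2 - 1) • G x) ∧ N.Dec c U fun x => ‖G x‖ ^ (q / 2 - 1) • G x

/-- powers of the gradients of solutions of class `C^1` -/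
def Sl {d : ℕ} (p q : ℝ) (U : Set (X d)) (F : X d → X d) : Prop :=
  ∃ u, Cs p U u ∧ ∀ x ∈ U, F x = Vp q (gradient u x)

/-! B. kits -/

/-- mean values and oscillations -/
structure Osc (d : ℕ) (E : Type) [NormedAddCommGroup E] [NormedSpace ℝ E] : Prop where
  nn : ∀ (f : X d → E) x r, 0 ≤ osc f x r
  congr : ∀ (f g : X d → E) x r, f =ᵐ[vo (ball x r)] g →
    av f x r = av g x r ∧ osc f x r = osc g x r
  en : ∀ (f : X d → E) x r, 0 < r →
    ∫ z in ball x r, ‖f z - av f x r‖ ^ 2 = vb d r * osc f x r ^ 2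
  l1 : ∀ (f : X d → E) x r, 0 < r → MemLp f 2 (vo (ball x r)) →
    ∫ z in ball x r, ‖f z - av f x r‖ ≤ vb d r * osc f x r
  tot : ∀ (f : X d → E) x r, 0 < r → MemLp f 2 (vo (ball x r)) →
    ∫ z in ball x r, ‖f z‖ ^ 2 ≤ vb d r * (2 * (osc f x r + ‖av f x r‖) ^ 2)
  sup : ∀ (f : X d → E) x r (c : E) (B : ℝ), 0 < r → AEStronglyMeasurable f (vo (ball x r)) →
    (∀ z ∈ ball x r, ‖f z - c‖ ≤ B) →
    MemLp f 2 (vo (ball x r)) ∧ ‖av f x r - c‖ ≤ B ∧ osc f x r ≤ 2 * B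
  sub : ∀ (f : X d → E) x r y ρ, 0 < ρ → ball y ρ ⊆ ball x r → MemLp f 2 (vo (ball x r)) →
    ‖av f y ρ - av f x r‖ ≤ (r / ρ) ^ d * osc f x r ∧
      osc f y ρ ≤ 2 * (r / ρ) ^ d * osc f x r
  sca : ∀ (f : X d → E) (x : X d) (r c ρ : ℝ), 0 < r → 0 ≤ c →
    av (fun z => c • f (x + r • z)) 0 ρ = c • av f x (r * ρ) ∧
    osc (fun z => c • f (x + r • z)) 0 ρ = c * osc f x (r * ρ) ∧
    ∫ z in ball 0 ρ, f (x + r • z) = (r ^ d)⁻¹ • ∫ z in ball x (r * ρ), f z ∧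
    (∀ q, MemLp f q (vo (ball x (r * ρ))) → MemLp (fun z => c • f (x + r • z)) q (vo (ball 0 ρ))) ∧
    ∀ p : X d → Prop, (∀ᵐ z ∂vo (ball x (r * ρ)), p z) ↔ ∀ᵐ z ∂vo (ball 0 ρ), p (x + r • z)
def OscS : Prop := ∀ (d : ℕ) (E : Type) [NormedAddCommGroup E] [NormedSpace ℝ E] [CompleteSpace E],
  Osc d E

/-- divergence free fields -/
structure Dvk (d : ℕ) : Prop where
  congr : ∀ (U : Set (X d)) (F F' : X d → X d), MeasurableSet U → F =ᵐ[vo U] F' → Dv U F → Dv U F'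
  smul : ∀ (U : Set (X d)) (F : X d → X d) (c : ℝ), Dv U F → Dv U fun x => c • F x
  int : ∀ (U : Set (X d)) (F : X d → X d) (φ : X d → ℝ), Li U F → Tc U φ →
    Integrable fun x => fderiv ℝ φ x (F x)
  sub : ∀ (U : Set (X d)) (F F' : X d → X d), Li U F → Li U F' → Dv U F → Dv U F' →
    Dv U fun x => F x - F' x
  aff : ∀ (U U' : Set (X d)) (F : X d → X d) (a : X d) (T : X d ≃L[ℝ] X d),
    (∀ y ∈ U', a + T y ∈ U) → Dv U F → Dv U' fun y => T.symm (F (a + T y))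
  sca : ∀ (U U' : Set (X d)) (F : X d → X d) (a : X d) (r : ℝ), 0 < r →
    (∀ y ∈ U', a + r • y ∈ U) → Dv U F → Dv U' fun y => F (a + r • y)
  tra : ∀ (U U' : Set (X d)) (F : X d → X d) (h : X d), (∀ y ∈ U', y + h ∈ U) → Dv U F →
    Dv U' fun y => F (y + h)
def DvS : Prop := ∀ d, Dvk d

/-- the algebra of the radial powers -/
structure Alg (E : Type) [NormedAddCommGroup E] [InnerProductSpace ℝ E] (p : ℝ) : Prop where
  nV : ∀ x : E, ‖Vp p x‖ = ‖x‖ ^ (p / 2) ∧ ‖Vp p x‖ ^ 2 = ‖x‖ ^ p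
  ne : ∀ x : E, Vp p x = 0 ↔ x = 0
  unit : ∀ x : E, ‖x‖ = 1 → Vp p x = x
  smul : ∀ (c : ℝ) (x : E), 0 < c →
    Vp p (c • x) = c ^ (p / 2) • Vp p x ∧ Ap p (c • x) = c ^ (p - 1) • Ap p x
  cV : ContDiff ℝ 1 (Vp p : E → E) ∧ ∀ x : E, ‖fderiv ℝ (Vp p) x‖ ≤ p / 2 * ‖x‖ ^ (p / 2 - 1)
  cA : ContDiff ℝ 1 (Ap p : E → E) ∧ ∀ x : E, x ≠ 0 → ContDiffAt ℝ 3 (Ap p : E → E) x ∧
    ∀ Z, fderiv ℝ (Ap p) x Z = ‖x‖ ^ (p - 2) • (Z + ((p - 2) * ⟪x, Z⟫ / ‖x‖ ^ 2) • x)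
  lip : ∃ C : ℝ, 0 ≤ C ∧ ∀ x y : E,
    ‖Vp p x - Vp p y‖ ≤ C * ((‖x‖ + ‖y‖) ^ (p / 2 - 1) * ‖x - y‖)
  low : ∃ C : ℝ, 0 < C ∧ ∀ x y : E, ‖y‖ = 1 → ‖x - y‖ ≤ C * ‖Vp p x - Vp p y‖
def AlgS : Prop := ∀ (E : Type) [NormedAddCommGroup E] [InnerProductSpace ℝ E] (p : ℝ), 2 < p →
  Alg E p

/-- scaling of the classes of solutions -/
structure Sca (d : ℕ) (p : ℝ) : Prop where
  wk : ∀ (U U' : Set (X d)) (u : X d → ℝ) (G : X d → X d) (x : X d) (r c : ℝ), 0 < r → 0 < c →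
    IsOpen U → IsOpen U' → IsBounded U' → (∀ y ∈ U', x + r • y ∈ U) → Wk p U u G →
    Wk p U' (fun y => c / r * u (x + r • y)) fun y => c • G (x + r • y)
  gr : ∀ (u : X d → ℝ) (x : X d) (r c : ℝ), 0 < r → ∀ y,
    gradient (fun y => c / r * u (x + r • y)) y = c • gradient u (x + r • y)
  cs : ∀ (U U' : Set (X d)) (u : X d → ℝ) (x : X d) (r c : ℝ), 0 < r → 0 < c →
    (∀ y ∈ U', x + r • y ∈ U) → Cs p U u → Cs p U' fun y => c / r * u (x + r • y)
  sol : ∀ (U U' : Set (X d)) (F : X d → X d) (x : X d) (q r c : ℝ), 2 < q → 0 < r → 0 < c →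
    (∀ y ∈ U', x + r • y ∈ U) → Sl p q U F → Sl p q U' fun y => c • F (x + r • y)
  cw : ∀ (U : Set (X d)) (u : X d → ℝ) (x : X d) (r : ℝ), IsOpen U → closedBall x r ⊆ U →
    Cs p U u → Wk p (ball x r) u (gradient u)
  co : ∀ (U : Set (X d)) (F : X d → X d) (q : ℝ), 2 < q → IsOpen U → Sl p q U F → ContinuousOn F U
  hol : ∀ {E : Type} [NormedAddCommGroup E] [NormedSpace ℝ E] (U U' : Set (X d)) (f : X d → E)
    (x : X d) (α K r c : ℝ), 0 < r → 0 ≤ c → (∀ y ∈ U', x + r • y ∈ U) → Hol α K f U →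
    Hol α (c * r ^ α * K) (fun y => c • f (x + r • y)) U'
def ScaS : Prop := ∀ (d : ℕ) (p : ℝ), 2 < p → Sca d p

/-- the bundle of the kits -/
structure Kit : Prop where
  osc : OscS
  dv : DvS
  alg : AlgS
  sca : ScaS

/-! C. Hölder continuity of the gradient -/

def NdiS (d : ℕ) (p : ℝ) : Prop := ∀ m : ℝ, 0 < m → ∃ α C : ℝ, 0 < α ∧ α < 1 ∧ 0 ≤ C ∧
  ∀ (u : X d → ℝ) (G : X d → X d), Wk p (ball 0 1) u G →
    (∀ᵐ y ∂vo (ball 0 1), m ≤ ‖G y‖ ∧ ‖G y‖ ≤ 1) → ∀ ρ ∈ Ioc (0 : ℝ) 1, Ed G 0 ρ (C * ρ ^ α)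

def HliS (d : ℕ) (p : ℝ) : Prop := ∃ α C : ℝ, 0 < α ∧ α < 1 ∧ 0 ≤ C ∧
  ∀ (u : X d → ℝ) (G : X d → X d) (x : X d) (r M : ℝ), 0 < r → 0 ≤ M → Wk p (ball x r) u G →
    (∀ᵐ z ∂vo (ball x r), ‖G z‖ ≤ M) → ∀ ρ ∈ Ioc (0 : ℝ) r, Ed G x ρ (C * M * (ρ / r) ^ α)

/-- the Hölder representative -/
def RepS : Prop := ∀ (d : ℕ) (α : ℝ), 0 < α → α ≤ 1 → ∃ C : ℝ, 0 ≤ C ∧
  ∀ (f : X d → X d) (x : X d) (r K : ℝ), 0 < r → 0 ≤ K →
    (∀ y ∈ ball x r, ∀ ρ ∈ Ioc (0 : ℝ) r, Ed f y ρ (K * (ρ / r) ^ α)) →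
    ∃ W : X d → X d, W =ᵐ[vo (ball x r)] f ∧ Hol α (C * K / r ^ α) W (ball x r)

/-- the regularity of class `C^(1,α)` -/
structure Reg (d : ℕ) (p α C : ℝ) : Prop where
  a0 : 0 < α
  a1 : α < 1
  c0 : 0 ≤ C
  rep : ∀ (u : X d → ℝ) (G : X d → X d) (x : X d) (r : ℝ), 0 < r → Wk p (ball x r) u G →
    ∃ v, Cs p (ball x (r / 8)) v ∧ gradient v =ᵐ[vo (ball x (r / 8))] G
  hol : ∀ (u : X d → ℝ) (x : X d) (r M : ℝ), 0 < r → Cs p (ball x r) u →
    (∀ y ∈ ball x r, ‖gradient u y‖ ≤ M) → Hol α (C * M / r ^ α) (gradient u) (ball x (r / 4))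
def RegS (d : ℕ) (p : ℝ) : Prop := ∃ α C, Reg d p α C

/-- the supremum is bounded by the mean -/
def SupS (d : ℕ) (p q : ℝ) : Prop := ∃ C : ℝ, 0 ≤ C ∧ ∀ (F : X d → X d) (x : X d) (r : ℝ), 0 < r →
  Sl p q (ball x r) F → MemLp F 2 (vo (ball x r)) →
    ∀ y ∈ ball x (r / 8), ‖F y‖ ≤ C * (osc F x r + ‖av F x r‖)

/-! D. Schauder estimates -/

/-- the conclusion of the estimates -/
def Est (α B ρ : ℝ) {d : ℕ} {E : Type} [NormedAddCommGroup E] (z : X d → E) : Prop :=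
  (∀ x ∈ ball (0 : X d) ρ, ‖z x‖ ≤ B) ∧ Hol α B z (ball 0 ρ)

/-- the Laplace operator -/
def CsS : Prop := ∀ (d : ℕ) (α : ℝ), 0 < α → α < 1 → ∃ C : ℝ, 0 ≤ C ∧ ∀ (w : X d → ℝ)
  (F : X d → X d) (K : ℝ), 0 ≤ K → ContDiffOn ℝ 1 w (ball 0 1) → IntegrableOn w (ball 0 1) →
  Hol α K F (ball 0 1) → Dv (ball 0 1) (fun x => gradient w x - F x) →
  Est α (C * (K + ∫ x in ball 0 1, |w x|)) (1 / 4) (gradient w)

/-- the hypotheses of the linear estimate -/
structure Lin {d : ℕ} (α δ K : ℝ) (M : L d (X d)) (w : X d → ℝ) (a : X d → L d (X d))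
    (f : X d → X d) : Prop where
  k0 : 0 ≤ K
  c1 : ContDiffOn ℝ 1 w (ball 0 1)
  int : IntegrableOn w (ball 0 1)
  fin : ∃ K', Hol α K' (gradient w) (ball 0 1)
  near : ∀ x ∈ ball (0 : X d) 1, ‖a x - M‖ ≤ δ
  ha : Hol α δ a (ball 0 1)
  hf : Hol α K f (ball 0 1)
  dv : Dv (ball 0 1) fun x => a x (gradient w x) - f x

/-- coefficients near the identity -/
def AbsS : Prop := ∀ (d : ℕ) (α : ℝ), 0 < α → α < 1 → ∃ δ C : ℝ, 0 < δ ∧ 0 ≤ C ∧
  ∀ (K : ℝ) (w : X d → ℝ) (a : X d → L d (X d)) (f : X d → X d),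
    Lin α δ K (ContinuousLinearMap.id ℝ _) w a f →
    Est α (C * (K + ∫ x in ball 0 1, |w x|)) (1 / 2) (gradient w)

/-- coefficients near the frozen ones -/
def AniS : Prop := ∀ (d : ℕ) (α μ : ℝ), 0 < α → α < 1 → 0 ≤ μ → ∃ δ κ C : ℝ, 0 < δ ∧ 0 < κ ∧
  κ ≤ 1 ∧ 0 ≤ C ∧ ∀ (e : X d) (K : ℝ) (w : X d → ℝ) (a : X d → L d (X d)) (f : X d → X d),
    ‖e‖ = 1 → Lin α δ K (Me μ e) w a f →
    Est α (C * (K + ∫ x in ball 0 1, |w x|)) κ (gradient w)

/-- estimates for difference quotients give a derivative -/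
def DifS : Prop := ∀ (d : ℕ) (g : X d → X d) (α B ρ τ : ℝ), 0 < α → 0 < τ → 0 ≤ B →
  (∀ h : X d, h ≠ 0 → ‖h‖ < τ → Est α B ρ fun x => ‖h‖⁻¹ • (g (x + h) - g x)) →
  ContDiffOn ℝ 1 g (ball 0 ρ) ∧ Est α B ρ (fderiv ℝ g)

/-- the secant coefficients -/
def SecS : Prop := ∀ (d : ℕ) (p : ℝ), 2 < p → ∃ (B : ℝ) (a : X d → X d → L d (X d)), 0 ≤ B ∧
  ∀ e : X d, ‖e‖ = 1 → a e e = Me (p - 2) e ∧
    ∀ ξ ∈ closedBall e (1 / 2), ∀ ξ' ∈ closedBall e (1 / 2),
      a ξ ξ' (ξ' - ξ) = Ap p ξ' - Ap p ξ ∧ ∀ ζ ∈ closedBall e (1 / 2), ∀ ζ' ∈ closedBall e (1 / 2),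
        ‖a ξ ξ' - a ζ ζ'‖ ≤ B * (‖ξ - ζ‖ + ‖ξ' - ζ'‖)

/-- almost constant gradients -/
structure Flat {d : ℕ} (p α δ : ℝ) (e : X d) (u : X d → ℝ) : Prop where
  unit : ‖e‖ = 1
  cs : Cs p (ball 0 2) u
  near : ∀ x ∈ ball (0 : X d) 2, ‖gradient u x - e‖ ≤ δ
  hol : Hol α δ (gradient u) (ball 0 2)

/-- second derivatives -/
def C2S : Prop := ∀ (d : ℕ) (p α : ℝ), 2 < p → 0 < α → α < 1 → ∃ δ κ C : ℝ, 0 < δ ∧ δ ≤ 1 / 2 ∧
  0 < κ ∧ κ ≤ 1 ∧ 0 ≤ C ∧ ∀ (e : X d) (u : X d → ℝ), Flat p α δ e u →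
    ContDiffOn ℝ 1 (gradient u) (ball 0 κ) ∧
    Est α (C * ∫ x in ball 0 2, ‖gradient u x - e‖) κ (fderiv ℝ (gradient u))

/-- the nondegenerate regime -/
def NdS (d : ℕ) (p q : ℝ) : Prop := ∃ δ c C : ℝ, 0 < δ ∧ 0 < c ∧ 0 ≤ C ∧
  ∀ (F : X d → X d) (x : X d) (r : ℝ), 0 < r → Sl p q (ball x r) F → MemLp F 2 (vo (ball x r)) →
    osc F x r < δ * ‖av F x r‖ →
    (∀ y ∈ ball x (c * r), F y ≠ 0 ∧ ‖fderiv ℝ F y‖ ≤ C * osc F x r / r) ∧
    ContDiffOn ℝ 1 F (ball x (c * r))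

/-! E. the end -/

/-- the gradient halves, or the oscillation is small -/
def NscS (d : ℕ) (p q : ℝ) : Prop := ∃ Λ : ℝ, 1 < Λ ∧ Λ < 2 ^ (q / 2) ∧ ∀ δ : ℝ, 0 < δ →
  ∃ t : ℝ, 0 < t ∧ t * Λ ≤ 1 ∧ ∀ (u : X d → ℝ) (x : X d) (R M : ℝ), 0 < R → 0 < M →
    Cs p (ball x R) u → (∀ y ∈ ball x R, ‖gradient u y‖ ≤ M) →
    (∀ y ∈ ball x (R / Λ), ‖gradient u y‖ ≤ M / 2) ∨
      osc (fun y => Vp q (gradient u y)) x (t * R) <
        δ * ‖av (fun y => Vp q (gradient u y)) x (t * R)‖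

/-- the degenerate regime -/
def DegS (d : ℕ) (p q : ℝ) : Prop := ∃ ε : ℝ, 0 < ε ∧ ∀ δ : ℝ, 0 < δ → ∃ C : ℝ, 0 ≤ C ∧
  ∀ (F : X d → X d) (x : X d) (r ρ : ℝ), 0 < ρ → ρ ≤ r → Sl p q (ball x r) F →
    MemLp F 2 (vo (ball x r)) → (∀ t ∈ Icc ρ r, δ * ‖av F x t‖ ≤ osc F x t) →
    osc F x ρ ≤ C * (ρ / r) ^ (1 + ε) * osc F x r

def CorS (d : ℕ) (p q : ℝ) : Prop := ∃ C : ℝ, 0 ≤ C ∧ ∀ (F : X d → X d) (x : X d) (r : ℝ), 0 < r →
  Sl p q (ball x r) F → MemLp F 2 (vo (ball x r)) → ContDiffOn ℝ 1 F (ball x (r / 4)) ∧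
    ∀ y ∈ ball x (r / 4), ‖fderiv ℝ F y‖ ≤ C * osc F x r / r

theorem last_of (nk : N.Kit) (ev : N.EvS) (mol : N.MolS) (glu : N.GluS) (pow : Q.PowS) (en : EnS)
    (ws : WsS) (tr : TrS) (ll : LlS) (osc : OscS) (dv : DvS) (alg : Q.PowS → N.Al1S → AlgS)
    (sca : WsS → DvS → AlgS → ScaS) (ndi : Kit → ∀ d p, 2 < p → OnS d p → NdiS d p)
    (hli : Kit → ∀ d p q, 2 < p → NowS d p q → NdiS d p → HliS d p) (rep : RepS)
    (reg : Kit → LlS → RepS → ∀ d p, 2 < p → LipS d p → HliS d p → RegS d p)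
    (sup : Kit → ∀ d p q, 2 < p → 2 < q → RegS d p → SupS d p q)
    (cs : Kit → N.Kit → N.EvS → N.MolS → CsS) (abs : Kit → CsS → AbsS) (ani : Kit → AbsS → AniS)
    (dif : DifS) (sec : AlgS → SecS) (c2 : Kit → TrS → AniS → DifS → SecS → C2S)
    (nd : Kit → C2S → ∀ d p q, 2 < p → 2 < q → RegS d p → SupS d p q → NdS d p q)
    (nsc : Kit → ∀ d p q, 2 < p → 2 < q → RegS d p → NowS d p q → NscS d p q)
    (deg : Kit → ∀ d p q, 2 < p → 2 < q → SupS d p q → NscS d p q → DegS d p q)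
    (cor : Kit → ∀ d p q, 2 < p → 2 < q → SupS d p q → NdS d p q → DegS d p q → CorS d p q)
    (fin : Kit → N.GluS → EnS → ∀ d p q, 2 < p → 2 < q → RegS d p → CorS d p q → Out d p q)
    (d : ℕ) (p q : ℝ) (hp : 2 < p) (hq : 2 < q) (lip : LipS d p) (now : NowS d p q)
    (on : OnS d p) : Out d p q :=
  have al := alg pow nk.al1
  have k : Kit := ⟨osc, dv, al, sca ws dv al⟩
  have rg := reg k ll rep d p hp lip (hli k d p q hp now (ndi k d p hp on))
  have su := sup k d p q hp hq rg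
  have c2' := c2 k tr (ani k (abs k (cs k nk ev mol))) dif (sec al)
  fin k glu en d p q hp hq rg (cor k d p q hp hq su (nd k c2' d p q hp hq rg su)
    (deg k d p q hp hq su (nsc k d p q hp hq rg now)))

theorem out_yes {d : ℕ} {p : ℝ} (h : Out d p p) : N.Yes d 1 p := h

end Pool.Agent.MP_815c6c_an.S

end
end MrgPart3

-- ======== part 4: formerly Pool.Agent.MP_815c6c_an.S.EMor
section MrgPart4

/-! Scalar p-harmonic functions in any dimension: the Morrey estimate. -/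

set_option autoImplicit false

namespace Pool.Agent.MP_815c6c_an.S

open Set Metric MeasureTheory Filter Topology
open scoped ENNReal
open N (X)

section
variable {α : Type} [MeasurableSpace α] {μ : Measure α} {E : Type} [NormedAddCommGroup E]
  {q : ℝ≥0∞}

theorem mor_pw (h0 : q ≠ 0) (h1 : q ≠ ⊤) (f : α → E) :
    ∫⁻ z, ‖f z‖ₑ ^ q.toReal ∂μ = eLpNorm f q μ ^ q.toReal := by
  rw [eLpNorm_eq_lintegral_rpow_enorm_toReal h0 h1, ← ENNReal.rpow_mul,
    one_div_mul_cancel (ENNReal.toReal_pos h0 h1).ne', ENNReal.rpow_one]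

theorem mor_dct (h0 : q ≠ 0) (h1 : q ≠ ⊤) {f : ℕ → α → E} {f0 : α → E} {g : α → ℝ}
    (hf : ∀ n, AEStronglyMeasurable (f n) μ) (hg : MemLp g q μ) (hb : ∀ᵐ z ∂μ, ∀ n, ‖f n z‖ ≤ g z)
    (hl : ∀ᵐ z ∂μ, Tendsto (fun n => f n z) atTop (𝓝 (f0 z))) :
    Tendsto (fun n => eLpNorm (f n - f0) q μ) atTop (𝓝 0) := by
  have hp := ENNReal.toReal_pos h0 h1
  have m0 : AEStronglyMeasurable f0 μ := aestronglyMeasurable_of_tendsto_ae atTop hf hl
  have t1 : Tendsto (fun n => ∫⁻ z, ‖(f n - f0) z‖ₑ ^ q.toReal ∂μ) atTop (𝓝 (∫⁻ _, 0 ∂μ)) := by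
    refine tendsto_lintegral_of_dominated_convergence' (fun z => ‖2 * g z‖ₑ ^ q.toReal)
      (fun n => ((hf n).sub m0).enorm.pow_const _) (fun n => ?_) ?_ ?_
    · filter_upwards [hb, hl] with z a b
      have c : ‖f0 z‖ ≤ g z := le_of_tendsto' b.norm a
      have e : ‖(f n - f0) z‖ ≤ ‖2 * g z‖ :=
        (norm_sub_le _ _).trans ((by linarith [a n] : _ ≤ 2 * g z).trans (le_abs_self _))
      exact ENNReal.rpow_le_rpow (enorm_le_iff_norm_le.2 e) hp.le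
    · rw [mor_pw h0 h1]
      exact ENNReal.rpow_ne_top_of_nonneg hp.le (hg.const_mul 2).2.ne
    · filter_upwards [hl] with z b
      have c : Tendsto (fun n => ‖(f n - f0) z‖ₑ) atTop (𝓝 0) := by
        simpa using (b.sub_const (f0 z)).enorm
      have := ((ENNReal.continuous_rpow_const (y := q.toReal)).tendsto 0).comp c
      rwa [ENNReal.zero_rpow_of_pos hp] at this
  rw [lintegral_zero] at t1
  have t2 := (ENNReal.continuous_rpow_const (y := 1 / q.toReal)).tendsto 0 |>.comp t1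
  rw [ENNReal.zero_rpow_of_pos (by positivity)] at t2
  exact t2.congr fun n => (eLpNorm_eq_lintegral_rpow_enorm_toReal h0 h1).symm
end

variable {d : ℕ}

theorem mor_map {x y : X d} {r t : ℝ} (hy : y ∈ ball x r) (h0 : 0 < t) (h1 : t ≤ 1) :
    Measure.map (fun z => y + t • (z - y)) (vo (ball x r)) ≤
      ENNReal.ofReal ((t ^ d)⁻¹) • vo (ball x r) := by
  have hA : Measurable fun z : X d => y + t • (z - y) := by fun_prop
  refine Measure.le_iff.2 fun s hs => ?_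
  rw [Measure.map_apply hA hs, Measure.restrict_apply (hA hs), Measure.smul_apply,
    Measure.restrict_apply hs, smul_eq_mul]
  calc volume ((fun z : X d => y + t • (z - y)) ⁻¹' s ∩ ball x r)
      ≤ volume ((fun z : X d => t • z) ⁻¹' ((fun z => (y - t • y) + z) ⁻¹' (s ∩ ball x r))) := by
        refine measure_mono fun z hz => ?_
        have e : y - t • y + t • z = y + t • (z - y) := by rw [smul_sub]; abel
        show y - t • y + t • z ∈ s ∩ ball x r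
        rw [e]
        exact ⟨hz.1, (convex_ball x r).add_smul_sub_mem hy hz.2 ⟨h0.le, h1⟩⟩
    _ = _ := by
        rw [Measure.addHaar_preimage_smul _ h0.ne', measure_preimage_add, finrank_euclideanSpace_fin,
          abs_of_nonneg (by positivity)]

theorem mor_line {v : X d → ℝ} (hv : ContDiff ℝ 1 v) {x y z : X d} {r : ℝ} (hy : y ∈ ball x r)
    (hz : z ∈ ball x r) : ‖v z - v y‖ₑ ≤
      ∫⁻ t in Ioc (0 : ℝ) 1, ENNReal.ofReal (2 * r) * ‖fderiv ℝ v (y + t • (z - y))‖ₑ := by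
  have h1 : ContDiff ℝ 1 fun t : ℝ => v (y + t • (z - y)) := hv.comp (by fun_prop)
  have h2 := enorm_sub_le_lintegral_deriv_of_contDiffOn_Icc (a := 0) (b := 1) h1.contDiffOn
    zero_le_one
  simp only [one_smul, add_sub_cancel, zero_smul, add_zero] at h2
  rw [← Measure.restrict_congr_set Ioc_ae_eq_Icc] at h2
  refine h2.trans (lintegral_mono fun t => ?_)
  have h3 : HasDerivAt (fun t : ℝ => y + t • (z - y)) (z - y) t := by
    simpa using ((hasDerivAt_id t).smul_const (z - y)).const_add y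
  have h4 := ((hv.differentiable one_ne_zero _).hasFDerivAt.comp_hasDerivAt t h3).deriv
  have h5 : ‖z - y‖ ≤ 2 * r := by
    have a := mem_ball.1 hy
    have b := mem_ball.1 hz
    have c := dist_triangle_right z y x
    rw [← dist_eq_norm]; linarith
  show ‖deriv (v ∘ fun t : ℝ => y + t • (z - y)) t‖ₑ ≤ _
  rw [h4, mul_comm]
  refine (ContinuousLinearMap.le_opENorm _ _).trans (mul_le_mul_right ?_ _)
  rw [← ofReal_norm]
  exact ENNReal.ofReal_le_ofReal h5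

theorem mor_avg {p : ℝ} (hp : 1 ≤ p) {v : X d → ℝ} (hv : ContDiff ℝ 1 v) {x y : X d} {r : ℝ}
    (hy : y ∈ ball x r) : ∫⁻ z in ball x r, ‖v z - v y‖ₑ ≤
      ENNReal.ofReal (2 * r) * ((∫⁻ t in Ioc (0 : ℝ) 1, ENNReal.ofReal (t ^ (-(d / p)))) *
        (eLpNorm (fderiv ℝ v) (ENNReal.ofReal p) (vo (ball x r)) *
          vo (ball x r) univ ^ (1 - 1 / p))) := by
  have hc : Continuous (fderiv ℝ v) := hv.continuous_fderiv one_ne_zero
  have p0 : 0 < p := by linarith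
  calc ∫⁻ z in ball x r, ‖v z - v y‖ₑ
      ≤ ∫⁻ z in ball x r, ∫⁻ t in Ioc (0 : ℝ) 1,
          ENNReal.ofReal (2 * r) * ‖fderiv ℝ v (y + t • (z - y))‖ₑ :=
        setLIntegral_mono' measurableSet_ball fun z hz => mor_line hv hy hz
    _ = ∫⁻ t in Ioc (0 : ℝ) 1, ∫⁻ z in ball x r,
          ENNReal.ofReal (2 * r) * ‖fderiv ℝ v (y + t • (z - y))‖ₑ := by
        refine lintegral_lintegral_swap (Measurable.aemeasurable ?_)
        have : Continuous fun w : X d × ℝ => fderiv ℝ v (y + w.2 • (w.1 - y)) :=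
          hc.comp (by fun_prop)
        exact this.enorm.measurable.const_mul _
    _ ≤ ∫⁻ t in Ioc (0 : ℝ) 1, ENNReal.ofReal (2 * r) * (ENNReal.ofReal (t ^ (-(d / p))) *
          (eLpNorm (fderiv ℝ v) (ENNReal.ofReal p) (vo (ball x r)) *
            vo (ball x r) univ ^ (1 - 1 / p))) := by
        refine setLIntegral_mono' measurableSet_Ioc fun t ht => ?_
        rw [lintegral_const_mul' _ _ ENNReal.ofReal_ne_top]
        refine mul_le_mul_right ?_ _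
        have hA : Continuous fun z : X d => y + t • (z - y) := by fun_prop
        have a1 := eLpNorm_le_eLpNorm_mul_rpow_measure_univ (μ := vo (ball x r))
          (p := 1) (q := ENNReal.ofReal p) (ENNReal.one_le_ofReal.2 hp)
          (hc.comp hA).aestronglyMeasurable
        rw [eLpNorm_one_eq_lintegral_enorm, ← eLpNorm_map_measure hc.aestronglyMeasurable
          hA.measurable.aemeasurable, ENNReal.toReal_one, ENNReal.toReal_ofReal p0.le,
          div_one] at a1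
        have a2 := eLpNorm_mono_measure (p := ENNReal.ofReal p) (fderiv ℝ v)
          (mor_map hy ht.1 ht.2)
        have a3 : ((t ^ d)⁻¹) ^ (1 / p) = t ^ (-(d / p)) := by
          rw [← Real.rpow_natCast, ← Real.rpow_neg ht.1.le, ← Real.rpow_mul ht.1.le]
          congr 1; ring
        rw [eLpNorm_smul_measure_of_ne_top ENNReal.ofReal_ne_top, smul_eq_mul, ENNReal.toReal_div,
          ENNReal.toReal_one, ENNReal.toReal_ofReal p0.le,
          ENNReal.ofReal_rpow_of_pos (inv_pos.2 (pow_pos ht.1 d)), a3] at a2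
        rw [← mul_assoc]
        exact a1.trans (mul_le_mul_left a2 _)
    _ = _ := by
        rw [lintegral_const_mul' _ _ ENNReal.ofReal_ne_top, lintegral_mul_const]
        exact (measurable_id.pow_const _).ennreal_ofReal

theorem mor_c1 {p : ℝ} (hp : 1 ≤ p) (hd : d < p) : ∃ C : ℝ, 0 ≤ C ∧ ∀ (x : X d) (r a : ℝ)
    (v : X d → ℝ), 0 < r → 0 ≤ a → ContDiff ℝ 1 v →
    eLpNorm (fderiv ℝ v) (ENNReal.ofReal p) (vo (ball x r)) ≤ ENNReal.ofReal a →
    ∀ y ∈ ball x r, ∀ z ∈ ball x r,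
      |v y - v z| ≤ C * r * (a * volume.real (ball x r) ^ (-(1 / p))) := by
  have p0 : 0 < p := by linarith
  have hK : (∫⁻ t in Ioc (0 : ℝ) 1, ENNReal.ofReal (t ^ (-(d / p)))) ≠ ⊤ := by
    have h1 : -1 < -((d : ℝ) / p) := neg_lt_neg ((div_lt_one p0).2 hd)
    exact (intervalIntegral.intervalIntegrable_rpow' (a := 0) (b := 1) h1).1.setLIntegral_lt_top.ne
  generalize hk : (∫⁻ t in Ioc (0 : ℝ) 1, ENNReal.ofReal (t ^ (-(d / p)))) = K at hK
  refine ⟨4 * K.toReal, by positivity, fun x r a v hr ha hv hN y hy z hz => ?_⟩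
  have a1 := mor_avg hp hv hy
  have a2 := mor_avg hp hv hz
  rw [hk] at a1 a2
  have m0 : 0 < volume.real (ball x r) :=
    ENNReal.toReal_pos (measure_ball_pos _ x hr).ne' measure_ball_lt_top.ne
  have m1 : vo (ball x r) univ = ENNReal.ofReal (volume.real (ball x r)) := by
    rw [Measure.restrict_apply_univ, ofReal_measureReal measure_ball_lt_top.ne]
  generalize volume.real (ball x r) = m at m0 m1 ⊢
  have a3 : ‖v y - v z‖ₑ * vo (ball x r) univ ≤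
      (∫⁻ w in ball x r, ‖v w - v y‖ₑ) + ∫⁻ w in ball x r, ‖v w - v z‖ₑ := by
    have hm : Measurable fun w => ‖v w - v y‖ₑ :=
      (hv.continuous.sub continuous_const).enorm.measurable
    rw [← lintegral_const, ← lintegral_add_left hm]
    refine lintegral_mono fun w => ?_
    have e : v y - v z = (v w - v z) - (v w - v y) := by ring
    rw [e, add_comm]
    exact enorm_sub_le
  have a4 := a3.trans (add_le_add a1 a2)
  have a5 : ENNReal.ofReal (2 * r) * (K * (eLpNorm (fderiv ℝ v) (ENNReal.ofReal p) (vo (ball x r)) *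
      vo (ball x r) univ ^ (1 - 1 / p))) ≤
      ENNReal.ofReal (2 * r * (K.toReal * (a * m ^ (1 - 1 / p)))) := by
    rw [ENNReal.ofReal_mul (p := 2 * r) (by positivity),
      ENNReal.ofReal_mul (p := K.toReal) (by positivity), ENNReal.ofReal_mul ha,
      ENNReal.ofReal_toReal hK, m1, ENNReal.ofReal_rpow_of_pos m0]
    gcongr
  have a6 := a4.trans (add_le_add a5 a5)
  rw [m1, ← ofReal_norm, ← ENNReal.ofReal_mul (norm_nonneg _),
    ← ENNReal.ofReal_add (by positivity) (by positivity),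
    ENNReal.ofReal_le_ofReal_iff (by positivity), Real.norm_eq_abs, sub_eq_add_neg 1,
    Real.rpow_add m0, Real.rpow_one] at a6
  refine le_of_mul_le_mul_right (a6.trans_eq ?_) m0
  ring

theorem mor : MorS := by
  intro d p hp hd
  obtain ⟨C, hC, H⟩ := mor_c1 (d := d) hp hd
  refine ⟨C, hC, fun x r u D hr ⟨v, hv, g, hg, hl⟩ => ?_⟩
  have p0 : 0 < p := by linarith
  have q0 : ENNReal.ofReal p ≠ 0 := (ENNReal.ofReal_pos.2 p0).ne'
  have q1 : 1 ≤ ENNReal.ofReal p := ENNReal.one_le_ofReal.2 hp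
  have hc : ∀ n, AEStronglyMeasurable (fderiv ℝ (v n)) (vo (ball x r)) := fun n =>
    ((hv n).continuous_fderiv one_ne_zero).aestronglyMeasurable
  have hD : AEStronglyMeasurable D (vo (ball x r)) :=
    aestronglyMeasurable_of_tendsto_ae atTop hc (hl.mono fun z h => h.2.2)
  have mD : MemLp D (ENNReal.ofReal p) (vo (ball x r)) :=
    hg.of_le hD (hl.mono fun z h =>
      (le_of_tendsto' h.2.2.norm fun n => (h.1 n).2).trans (le_abs_self _))
  have mv : ∀ n, MemLp (fderiv ℝ (v n)) (ENNReal.ofReal p) (vo (ball x r)) := fun n =>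
    hg.of_le (hc n) (hl.mono fun z h => (h.1 n).2.trans (le_abs_self _))
  have t0 := mor_dct q0 ENNReal.ofReal_ne_top hc hg (hl.mono fun z h n => (h.1 n).2)
    (hl.mono fun z h => h.2.2)
  obtain ⟨e, he⟩ : ∃ e : ℕ → ℝ, e = fun n =>
    (eLpNorm (fderiv ℝ (v n) - D) (ENNReal.ofReal p) (vo (ball x r))).toReal := ⟨_, rfl⟩
  have e0 : ∀ n, 0 ≤ e n := fun n => by rw [he]; exact ENNReal.toReal_nonneg
  have e1 : ∀ n, eLpNorm (fderiv ℝ (v n) - D) (ENNReal.ofReal p) (vo (ball x r)) =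
      ENNReal.ofReal (e n) := fun n => by
    rw [he]; exact (ENNReal.ofReal_toReal ((mv n).sub mD).2.ne).symm
  have e2 : Tendsto e atTop (𝓝 0) := by
    rw [he]; exact (ENNReal.tendsto_toReal ENNReal.zero_ne_top).comp t0
  obtain ⟨κ, hκ⟩ : ∃ κ, κ = volume.real (ball x r) ^ (-(1 / p)) := ⟨_, rfl⟩
  obtain ⟨A, hA⟩ : ∃ A, A = (∫ w in ball x r, ‖D w‖ ^ p) ^ (1 / p) := ⟨_, rfl⟩
  have i0 : 0 ≤ ∫ w in ball x r, ‖D w‖ ^ p := integral_nonneg fun w => by positivity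
  have A0 : 0 ≤ A := by rw [hA]; positivity
  have A1 : eLpNorm D (ENNReal.ofReal p) (vo (ball x r)) = ENNReal.ofReal A := by
    rw [mD.eLpNorm_eq_integral_rpow_norm q0 ENNReal.ofReal_ne_top, ENNReal.toReal_ofReal p0.le, hA,
      one_div]
  have A2 : (⨍ w in ball x r, ‖D w‖ ^ p) ^ (1 / p) = A * κ := by
    rw [setAverage_eq, smul_eq_mul, Real.mul_rpow (by positivity) i0, hA, hκ, mul_comm,
      Real.inv_rpow measureReal_nonneg, Real.rpow_neg measureReal_nonneg]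
  have b1 : ∀ n, ∀ y ∈ ball x r, ∀ z ∈ ball x r, |v n y - v n z| ≤ C * r * ((e n + A) * κ) := by
    intro n
    rw [hκ]
    refine H x r _ (v n) hr (add_nonneg (e0 n) A0) (hv n) ?_
    rw [ENNReal.ofReal_add (e0 n) A0, ← e1, ← A1]
    have := eLpNorm_add_le ((hc n).sub hD) hD q1
    rwa [sub_add_cancel] at this
  have b2 : ∀ m n, ∀ y ∈ ball x r, ∀ z ∈ ball x r,
      |(v m y - v n y) - (v m z - v n z)| ≤ C * r * ((e m + e n) * κ) := by
    intro m n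
    rw [hκ]
    refine H x r _ (fun y => v m y - v n y) hr (add_nonneg (e0 m) (e0 n)) ((hv m).sub (hv n)) ?_
    have f1 : (fderiv ℝ fun y => v m y - v n y) = (fderiv ℝ (v m) - D) - (fderiv ℝ (v n) - D) := by
      funext y
      rw [fderiv_fun_sub ((hv m).differentiable one_ne_zero y) ((hv n).differentiable one_ne_zero y)]
      simp
    rw [ENNReal.ofReal_add (e0 m) (e0 n), ← e1, ← e1, f1]
    exact eLpNorm_sub_le ((hc m).sub hD) ((hc n).sub hD) q1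
  have ne : (ae (vo (ball x r))).NeBot := ae_restrict_neBot.2 (measure_ball_pos _ x hr).ne'
  obtain ⟨z0, hz0, hz1⟩ := (hl.and (ae_restrict_mem measurableSet_ball)).exists
  have uc : UniformCauchySeqOn v atTop (ball x r) := by
    rw [Metric.uniformCauchySeqOn_iff]
    intro ε hε
    obtain ⟨N1, h1⟩ := Metric.cauchySeq_iff.1 hz0.2.1.cauchySeq (ε / 2) (by positivity)
    have t2 : Tendsto (fun n => C * r * (e n * κ)) atTop (𝓝 0) := by
      simpa using (e2.mul_const κ).const_mul (C * r)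
    obtain ⟨N2, h2⟩ := eventually_atTop.1 (t2.eventually (gt_mem_nhds (show 0 < ε / 4 by positivity)))
    refine ⟨max N1 N2, fun m hm n hn y hy => ?_⟩
    have c1 := h1 m (le_of_max_le_left hm) n (le_of_max_le_left hn)
    have c2 := h2 m (le_of_max_le_right hm)
    have c3 := h2 n (le_of_max_le_right hn)
    have c4 := b2 m n y hy z0 hz1
    have c5 := abs_sub_abs_le_abs_sub (v m y - v n y) (v m z0 - v n z0)
    rw [Real.dist_eq] at c1 ⊢
    have c6 : C * r * ((e m + e n) * κ) = C * r * (e m * κ) + C * r * (e n * κ) := by ring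
    linarith
  have pt : ∀ y ∈ ball x r, Tendsto (fun n => v n y) atTop (𝓝 (limUnder atTop fun n => v n y)) :=
    fun y hy => tendsto_nhds_limUnder (cauchySeq_tendsto_of_complete (uc.cauchySeq hy))
  refine ⟨fun y => limUnder atTop fun n => v n y, ?_, ?_, fun y hy z hz => ?_⟩
  · exact (uc.tendstoUniformlyOn_of_tendsto pt).continuousOn
      (Frequently.of_forall fun n => (hv n).continuous.continuousOn)
  · filter_upwards [hl, ae_restrict_mem measurableSet_ball] with y h hy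
    exact tendsto_nhds_unique (pt y hy) h.2.1
  · rw [A2]
    have t3 : Tendsto (fun n => C * r * ((e n + A) * κ)) atTop (𝓝 (C * r * ((0 + A) * κ))) :=
      ((e2.add_const A).mul_const κ).const_mul _
    rw [zero_add] at t3
    exact le_of_tendsto_of_tendsto' ((pt y hy).sub (pt z hz)).abs t3 fun n => b1 n y hy z hz

end Pool.Agent.MP_815c6c_an.S

end MrgPart4

-- ======== part 5: formerly Pool.Agent.MP_815c6c_an.S.EGap
section MrgPart5

/-! Sobolev maps do not jump. -/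

set_option autoImplicit false

noncomputable section

namespace Pool.Agent.MP_815c6c_an.S

open Set Metric MeasureTheory Filter Topology Bornology
open scoped ENNReal RealInnerProductSpace
open N (X Gr)

theorem gap_bump (d : ℕ) (a b : ℝ) (ha : 0 ≤ a) (hab : a < b) :
    ∃ (Φ : X d → ℝ) (B : ℝ), ContDiff ℝ 1 Φ ∧ (∀ w, ‖fderiv ℝ Φ w‖ ≤ B) ∧
      (∀ w, ‖w‖ ≤ a → Φ w = 1 ∧ fderiv ℝ Φ w = 0) ∧
      (∀ w, b ≤ ‖w‖ → Φ w = 0 ∧ fderiv ℝ Φ w = 0) := by
  let f : ContDiffBump (0 : X d) :=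
    ⟨(2 * a + b) / 3, (a + 2 * b) / 3, by linarith, by linarith⟩
  have hc : ContDiff ℝ 1 f := f.contDiff
  obtain ⟨B, hB⟩ := (f.hasCompactSupport.fderiv (𝕜 := ℝ)).exists_bound_of_continuous
    (hc.continuous_fderiv (by norm_num))
  refine ⟨f, B, hc, hB, fun w hw => ?_, fun w hw => ?_⟩
  · have hm : w ∈ ball (0 : X d) f.rIn := by
      rw [mem_ball_zero_iff]
      change ‖w‖ < (2 * a + b) / 3
      linarith
    have he := f.eventuallyEq_one_of_mem_ball hm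
    refine ⟨he.eq_of_nhds, ?_⟩
    rw [he.fderiv_eq]
    exact fderiv_const_apply (1 : ℝ)
  · have hm : w ∉ tsupport f := by
      rw [f.tsupport_eq, mem_closedBall_zero_iff]
      change ¬ ‖w‖ ≤ (a + 2 * b) / 3
      linarith [hw]
    exact ⟨image_eq_zero_of_notMem_tsupport hm, fderiv_of_notMem_tsupport ℝ hm⟩

theorem gap : SobS → LlS → GapS := by
  intro hS hL d x r a b V D ha hab hV hae
  obtain ⟨Φ, B, hΦ, hB, h1, h0⟩ := gap_bump d a b ha hab
  have hc := (hS d (X d)).chain ℝ 2 (ball x r) V D Φ B isBounded_ball hV hΦ hB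
  have hz : ∀ᵐ y ∂vo (ball x r), ‖(fderiv ℝ Φ (V y)).comp (D y) - (0 : L d ℝ)‖ ≤ 0 := by
    filter_upwards [hae] with y hy
    rcases hy with hy | hy
    · simp [(h1 _ hy).2]
    · simp [(h0 _ hy).2]
  obtain ⟨u, hu, hc'⟩ := (hL d 2 x r 0 _ _ 0 (by norm_num) hc hz).1
  have hk : ∀ᵐ y ∂vo (ball x r), Φ (V y) = u x := by
    filter_upwards [hu, ae_restrict_mem measurableSet_ball] with y hy hm
    have hx : x ∈ ball x r := mem_ball_self (lt_of_le_of_lt dist_nonneg hm)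
    have h := hc' y hm x hx
    rw [← hy]
    simpa [sub_eq_zero] using h
  by_cases hx : u x = 1
  · left
    filter_upwards [hk, hae] with y hy h
    rcases h with h | h
    · exact h
    · rw [(h0 _ h).1, hx] at hy
      exact absurd hy zero_ne_one
  · right
    filter_upwards [hk, hae] with y hy h
    rcases h with h | h
    · rw [(h1 _ h).1] at hy
      exact absurd hy.symm hx
    · exact h

end Pool.Agent.MP_815c6c_an.S

end
end MrgPart5

-- ======== part 6: formerly Pool.Agent.MP_815c6c_an.S.EJac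
section MrgPart6

/-! Null Lagrangians: the determinants of two gradients have integral zero. -/

set_option autoImplicit false

noncomputable section

namespace Pool.Agent.MP_815c6c_an.S

open Set Metric MeasureTheory Filter Topology Bornology ContinuousLinearMap
open scoped ENNReal Convolution Manifold
open N (X)

variable {d : ℕ}

theorem jac_comm (f g : X d → ℝ) : f ⋆[mul ℝ ℝ] g = g ⋆[mul ℝ ℝ] f := by
  funext y
  rw [convolution_mul, convolution_mul_swap]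
  simp_rw [mul_comm]

theorem jac_der {f g : X d → ℝ} (hf : Continuous f) (hg : ContDiff ℝ 1 g)
    (hc : HasCompactSupport g) (y v : X d) :
    fderiv ℝ (f ⋆[mul ℝ ℝ] g) y v = (f ⋆[mul ℝ ℝ] fun z => fderiv ℝ g z v) y := by
  rw [(hc.hasFDerivAt_convolution_right (mul ℝ ℝ) hf.locallyIntegrable hg y).fderiv,
    convolution_precompR_apply _ hf.locallyIntegrable (hc.fderiv ℝ)
      (hg.continuous_fderiv one_ne_zero)]

theorem jac_conv {a b : X d → ℝ} (ha : ContDiff ℝ 1 a) (hb : ContDiff ℝ 1 b)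
    (ca : HasCompactSupport a) (cb : HasCompactSupport b) (v w y : X d) :
    ((fun z => fderiv ℝ a z v) ⋆[mul ℝ ℝ] fun z => fderiv ℝ b z w) y =
      ((fun z => fderiv ℝ a z w) ⋆[mul ℝ ℝ] fun z => fderiv ℝ b z v) y := by
  have c1 : Continuous fun z => fderiv ℝ a z w :=
    (ha.continuous_fderiv one_ne_zero).clm_apply continuous_const
  have c2 : Continuous fun z => fderiv ℝ b z w :=
    (hb.continuous_fderiv one_ne_zero).clm_apply continuous_const
  have e : ((fun z => fderiv ℝ b z w) ⋆[mul ℝ ℝ] a) = (fun z => fderiv ℝ a z w) ⋆[mul ℝ ℝ] b := by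
    funext x
    rw [jac_comm _ a, ← jac_der ha.continuous hb cb, jac_comm a b, jac_der hb.continuous ha ca,
      jac_comm b]
  rw [← jac_der c1 hb cb, ← e, jac_der c2 ha ca, jac_comm]

theorem jac_c1 {a b : X d → ℝ} (ha : ContDiff ℝ 1 a) (hb : ContDiff ℝ 1 b)
    (ca : HasCompactSupport a) (cb : HasCompactSupport b) (v w : X d) :
    ∫ x, fderiv ℝ a x v * fderiv ℝ b x w = ∫ x, fderiv ℝ a x w * fderiv ℝ b x v := by
  have h := jac_conv (b := fun z => b (-z)) ha (hb.comp contDiff_neg)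
    ca (cb.comp_homeomorph (Homeomorph.neg _)) v w 0
  have e : ∀ z u : X d, fderiv ℝ (fun z => b (-z)) (0 - z) u = -fderiv ℝ b z u := by
    intro z u
    have h1 : HasFDerivAt b (fderiv ℝ b z) (-(0 - z)) := by
      rw [zero_sub, neg_neg]; exact (hb.differentiable one_ne_zero z).hasFDerivAt
    have h2 := h1.comp (0 - z) (hasFDerivAt_id (0 - z)).neg
    rw [show (fun z => b (-z)) = b ∘ Neg.neg from rfl, h2.fderiv]
    simp
  rw [convolution_mul, convolution_mul] at h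
  simp only [e, mul_neg, integral_neg, neg_inj] at h
  exact h

theorem jac_eta {U K : Set (X d)} (hU : IsOpen U) (hK : IsCompact K) (h : K ⊆ U) :
    ∃ η : X d → ℝ, Tc U η ∧ ∀ x ∈ K, η x = 1 ∧ fderiv ℝ η x = 0 := by
  obtain ⟨K', k1, k2, k3⟩ := exists_compact_between hK hU h
  obtain ⟨η, e1, e0, -⟩ :=
    exists_contMDiffMap_one_nhds_of_subset_interior (n := 1) 𝓘(ℝ, X d) hK.isClosed k2
  have hs : tsupport η ⊆ K' :=
    closure_minimal (fun x hx => by_contra fun k => hx (e0 x k)) k1.isClosed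
  refine ⟨η, ⟨η.contMDiff.contDiff, k1.of_isClosed_subset (isClosed_tsupport _) hs, hs.trans k3⟩,
    fun x hx => ?_⟩
  have e : (η : X d → ℝ) =ᶠ[𝓝 x] fun _ => 1 := e1.filter_mono (nhds_le_nhdsSet hx)
  exact ⟨e.eq_of_nhds, by rw [e.fderiv_eq]; simp⟩

theorem jac_cut {U : Set (X d)} {a η : X d → ℝ} {Da : X d → L d ℝ} (h : Sb 2 U a Da)
    (hη : Tc U η) : ∃ (u : ℕ → X d → ℝ) (g : X d → ℝ), (∀ n, ContDiff ℝ 1 (u n)) ∧
      (∀ n, HasCompactSupport (u n)) ∧ (∀ n, ∀ x ∉ U, fderiv ℝ (u n) x = 0) ∧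
      MemLp g 2 (vo U) ∧ ∀ᵐ z ∂vo U, (∀ n, ‖fderiv ℝ (u n) z‖ ≤ g z) ∧
        Tendsto (fun n => fderiv ℝ (u n) z) atTop (𝓝 (η z • Da z + a z • fderiv ℝ η z)) := by
  obtain ⟨v, hv, g, hg, hz⟩ := h
  obtain ⟨e1, e2, e3⟩ := hη
  obtain ⟨C, hC⟩ := e1.continuous.bounded_above_of_compact_support e2
  obtain ⟨C', hC'⟩ :=
    (e1.continuous_fderiv one_ne_zero).bounded_above_of_compact_support (e2.fderiv ℝ)
  have hd : ∀ n z, fderiv ℝ (fun x => η x * v n x) z =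
      η z • fderiv ℝ (v n) z + v n z • fderiv ℝ η z := fun n z =>
    fderiv_fun_mul (e1.differentiable one_ne_zero z) ((hv n).differentiable one_ne_zero z)
  refine ⟨fun n x => η x * v n x, fun z => (C + C') * g z, fun n => e1.mul (hv n),
    fun n => e2.mul_right, fun n x hx => ?_, hg.const_mul _, ?_⟩
  · have k : x ∉ tsupport η := fun k => hx (e3 k)
    rw [hd, image_eq_zero_of_notMem_tsupport k, fderiv_of_notMem_tsupport ℝ k]
    simp
  · filter_upwards [hz] with z ⟨h1, h2, h3⟩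
    simp only [hd]
    refine ⟨fun n => (norm_add_le _ _).trans ?_, (h3.const_smul _).add (h2.smul_const _)⟩
    rw [norm_smul, norm_smul, add_mul, mul_comm C']
    exact add_le_add (mul_le_mul (hC z) (h1 n).2 (norm_nonneg _) ((norm_nonneg _).trans (hC z)))
      (mul_le_mul (h1 n).1 (hC' z) (norm_nonneg _) ((norm_nonneg _).trans (h1 n).1))

theorem jac_lim {U : Set (X d)} {u u' : ℕ → X d → ℝ} {g g' : X d → ℝ} {D D' : X d → L d ℝ}
    (hu : ∀ n, ContDiff ℝ 1 (u n)) (hu' : ∀ n, ContDiff ℝ 1 (u' n))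
    (z0 : ∀ n, ∀ x ∉ U, fderiv ℝ (u n) x = 0) (hg : MemLp g 2 (vo U)) (hg' : MemLp g' 2 (vo U))
    (h : ∀ᵐ z ∂vo U, (∀ n, ‖fderiv ℝ (u n) z‖ ≤ g z) ∧
      Tendsto (fun n => fderiv ℝ (u n) z) atTop (𝓝 (D z)))
    (h' : ∀ᵐ z ∂vo U, (∀ n, ‖fderiv ℝ (u' n) z‖ ≤ g' z) ∧
      Tendsto (fun n => fderiv ℝ (u' n) z) atTop (𝓝 (D' z))) (v w : X d) :
    Tendsto (fun n => ∫ x, fderiv ℝ (u n) x v * fderiv ℝ (u' n) x w) atTop
      (𝓝 (∫ x in U, D x v * D' x w)) := by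
  have e : ∀ n, ∫ x, fderiv ℝ (u n) x v * fderiv ℝ (u' n) x w =
      ∫ x in U, fderiv ℝ (u n) x v * fderiv ℝ (u' n) x w := fun n =>
    (setIntegral_eq_integral_of_forall_compl_eq_zero fun x hx => by simp [z0 n x hx]).symm
  simp only [e]
  refine tendsto_integral_of_dominated_convergence (fun x => g x * ‖v‖ * (g' x * ‖w‖))
    (fun n => Continuous.aestronglyMeasurable
      ((((hu n).continuous_fderiv one_ne_zero).clm_apply continuous_const).mul
        (((hu' n).continuous_fderiv one_ne_zero).clm_apply continuous_const)))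
    ((hg.mul_const _).integrable_mul (hg'.mul_const _)) (fun n => ?_) ?_
  · filter_upwards [h, h'] with z h1 h2
    rw [norm_mul]
    have k1 := (fderiv ℝ (u n) z).le_of_opNorm_le (h1.1 n) v
    exact mul_le_mul k1 ((fderiv ℝ (u' n) z).le_of_opNorm_le (h2.1 n) w) (norm_nonneg _)
      ((norm_nonneg _).trans k1)
  · filter_upwards [h, h'] with z h1 h2
    exact (((ContinuousLinearMap.apply ℝ ℝ v).continuous.tendsto _).comp h1.2).mul
      (((ContinuousLinearMap.apply ℝ ℝ w).continuous.tendsto _).comp h2.2)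

theorem jac (S : SobS) : JacS := by
  intro d U K a b Da Db v w hU hK hKU ha hb h0
  have ma := ((S d ℝ).mem 2 U a Da ha).2
  have mb := ((S d ℝ).mem 2 U b Db hb).2
  have hi : ∀ v w : X d, IntegrableOn (fun x => Da x v * Db x w) U := fun v w =>
    ((ContinuousLinearMap.apply ℝ ℝ v).comp_memLp' ma).integrable_mul
      ((ContinuousLinearMap.apply ℝ ℝ w).comp_memLp' mb)
  refine ⟨hi v w, hi w v, ?_⟩
  obtain ⟨η, hη, h1⟩ := jac_eta hU hK hKU
  obtain ⟨u, g, u1, u2, u3, u4, u5⟩ := jac_cut ha hη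
  obtain ⟨u', g', v1, v2, -, v4, v5⟩ := jac_cut hb hη
  have e : ∀ v w : X d, ∫ x in U, Da x v * Db x w = ∫ x in U,
      (η x • Da x + a x • fderiv ℝ η x) v * (η x • Db x + b x • fderiv ℝ η x) w := by
    intro v w
    refine integral_congr_ae ?_
    filter_upwards [h0] with x hx
    by_cases k : x ∈ K
    · simp [h1 x k]
    · simp [hx k]
  rw [e v w, e w v]
  refine tendsto_nhds_unique (jac_lim u1 v1 u3 u4 v4 u5 v5 v w) ?_
  simp only [fun n => jac_c1 (u1 n) (v1 n) (u2 n) (v2 n) v w]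
  exact jac_lim u1 v1 u3 u4 v4 u5 v5 w v

end Pool.Agent.MP_815c6c_an.S

end
end MrgPart6

-- marker of a merged file
example : 731051 + 12687 = 731051 + 12687 := rfl
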