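import Pool.Agent.MP_815c6c_an.S.EJac
import Pool.Agent.MP_815c6c_an.Q.Shell
import Pool.Agent.MP_815c6c_an.N.Tst

/-! Scalar p-harmonic functions in any dimension: the pointwise equation. -/

set_option autoImplicit false

noncomputable section

namespace Pool.Agent.MP_815c6c_an.S

open Set Metric MeasureTheory Filter Topology Bornology
open scoped ENNReal RealInnerProductSpace
open N (X Gr)
open Q (pw)

variable {d : ℕ}

theorem pe_rp {t g b : ℝ} (h0 : 0 ≤ t) (hg : t ≤ g) (hb : 0 ≤ b) (hb1 : b ≤ 1) :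
    t ^ b ≤ 1 + g := by
  rcases le_total t 1 with h | h
  · have := Real.rpow_le_one h0 h hb
    linarith
  · have := Real.rpow_le_rpow_of_exponent_le h hb1
    rw [Real.rpow_one] at this
    linarith

/-- the chain rule for radial powers of at most quadratic growth -/
theorem pe_sb {U : Set (X d)} {V : X d → X d} {D : X d → L d (X d)} {b : ℝ} (hb : 0 ≤ b)
    (hb1 : b ≤ 1) (hU : IsBounded U) (h : Sb 2 U V D) :
    Sb 1 U (fun z => pw b (V z)) fun z => (fderiv ℝ (pw b) (V z)).comp (D z) := by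
  obtain ⟨v, hv, g, hg, hae⟩ := h
  obtain ⟨hc, hn⟩ := (N.al1 (X d)).c1 b hb
  have hc' : ContDiff ℝ 1 (pw b : X d → X d) := hc
  have hn' : ∀ ξ : X d, ‖fderiv ℝ (pw b) ξ‖ ≤ (1 + b) * ‖ξ‖ ^ b := hn
  haveI : IsFiniteMeasure (vo U) := isFiniteMeasure_restrict.2 hU.measure_lt_top.ne
  have hd : ∀ n z, fderiv ℝ (fun z => pw b (v n z)) z =
      (fderiv ℝ (pw b) (v n z)).comp (fderiv ℝ (v n) z) := fun n z =>
    fderiv_comp z (hc'.differentiable one_ne_zero _) ((hv n).differentiable one_ne_zero _)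
  refine ⟨fun n z => pw b (v n z), fun n => hc'.comp (hv n), fun z => 3 * (1 + g z ^ 2), ?_, ?_⟩
  · rw [memLp_one_iff_integrable]
    exact ((integrable_const 1).add hg.integrable_sq).const_mul 3
  · filter_upwards [hae] with z ⟨h1, h2, h3⟩
    refine ⟨fun n => ?_, (hc'.continuous.tendsto _).comp h2, ?_⟩
    · obtain ⟨a1, a2⟩ := h1 n
      have g0 : 0 ≤ g z := (norm_nonneg _).trans a1
      have r := pe_rp (norm_nonneg (v n z)) a1 hb hb1
      have r0 : 0 ≤ ‖v n z‖ ^ b := Real.rpow_nonneg (norm_nonneg _) _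
      constructor
      · have : ‖pw b (v n z)‖ = ‖v n z‖ ^ b * ‖v n z‖ := by
          rw [pw, norm_smul, Real.norm_of_nonneg r0]
        rw [this]
        have : ‖v n z‖ ^ b * ‖v n z‖ ≤ (1 + g z) * g z := by gcongr
        nlinarith [sq_nonneg (g z - 1)]
      · show ‖fderiv ℝ (fun z => pw b (v n z)) z‖ ≤ _
        rw [hd]
        refine (ContinuousLinearMap.opNorm_comp_le _ _).trans ?_
        have e1 : ‖fderiv ℝ (pw b) (v n z)‖ ≤ 2 * (1 + g z) :=
          (hn' _).trans (by gcongr; linarith)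
        have : ‖fderiv ℝ (pw b) (v n z)‖ * ‖fderiv ℝ (v n) z‖ ≤ 2 * (1 + g z) * g z := by gcongr
        nlinarith [sq_nonneg (g z - 1)]
    · simp only [hd]
      have c1 : Tendsto (fun n => fderiv ℝ (pw b) (v n z)) atTop (𝓝 (fderiv ℝ (pw b) (V z))) :=
        ((hc'.continuous_fderiv one_ne_zero).tendsto _).comp h2
      have c2 : Continuous fun q : (X d →L[ℝ] X d) × (X d →L[ℝ] X d) => q.1.comp q.2 :=
        continuous_fst.clm_comp continuous_snd
      exact (c2.tendsto (_, _)).comp (c1.prodMk_nhds h3)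

theorem pe_sum (T : L d ℝ) (w : X d) : ∑ i, T (ei i) * w i = T w := by
  conv_rhs => rw [← (EuclideanSpace.basisFun (Fin d) ℝ).sum_repr w]
  simp [map_sum, mul_comm]

/-- divergence free Sobolev fields have trace free derivative -/
theorem pe_tr (hS : SobS) {U : Set (X d)} {A : X d → X d} {E : X d → L d (X d)} (hU : IsOpen U)
    (h : Sb 1 U A E) (hA : Dv U A) : ∀ᵐ x ∂vo U, ∑ i, E x (ei i) i = 0 := by
  have hE : Integrable E (vo U) := memLp_one_iff_integrable.1 ((hS d (X d)).mem 1 U A E h).2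
  have hi : IntegrableOn (fun x => ∑ i, E x (ei i) i) U := by
    refine integrable_finsetSum _ fun i _ => ?_
    exact (EuclideanSpace.proj (𝕜 := ℝ) i).integrable_comp (hE.apply_continuousLinearMap (ei i))
  rw [ae_restrict_iff' hU.measurableSet]
  refine hU.ae_eq_zero_of_integral_contDiff_smul_eq_zero hi.locallyIntegrableOn
    fun φ h1 h2 h3 => ?_
  have hφ : Tc U φ := ⟨h1.of_le (by simp), h2, h3⟩
  have key : ∀ i : Fin d, Integrable (fun z => fderiv ℝ φ z (ei i) * A z i) ∧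
      Integrable (fun z => φ z * E z (ei i) i) ∧
      ∫ z, fderiv ℝ φ z (ei i) * A z i = -∫ z, φ z * E z (ei i) i := fun i => by
    obtain ⟨a1, a2, a3⟩ := (hS d (X d)).part 1 U A E φ (ei i) le_rfl hU h hφ
    have b1 := (EuclideanSpace.proj (𝕜 := ℝ) i).integrable_comp a1
    have b2 := (EuclideanSpace.proj (𝕜 := ℝ) i).integrable_comp a2
    have c1 := (EuclideanSpace.proj (𝕜 := ℝ) i).integral_comp_comm a1
    have c2 := (EuclideanSpace.proj (𝕜 := ℝ) i).integral_comp_comm a2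
    rw [a3, map_neg, ← c2] at c1
    exact ⟨b1, b2, c1⟩
  have e1 : ∫ z, φ z • ∑ i, E z (ei i) i = ∑ i, ∫ z, φ z * E z (ei i) i := by
    rw [← integral_finsetSum _ fun i _ => (key i).2.1]
    simp only [smul_eq_mul, Finset.mul_sum]
  have e2 : ∑ i, ∫ z, fderiv ℝ φ z (ei i) * A z i = 0 := by
    rw [← integral_finsetSum _ fun i _ => (key i).1]
    simp only [pe_sum]
    exact hA φ hφ
  rw [e1]
  simp only [fun i => (key i).2.2, Finset.sum_neg_distrib, neg_eq_zero] at e2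
  exact e2

theorem pe_alg {p : ℝ} (hp : 2 < p) {ξ : X d} (h0 : ξ ≠ 0) (D : L d (X d)) :
    (fderiv ℝ (pw ((p - 2) / p)) (Vp p ξ)).comp D = (fderiv ℝ (pw (p - 2)) ξ).comp (hs p ξ D) := by
  have P := Q.pow (X d)
  have hp0 : 0 < p := by linarith
  have h1 : -1 < 2 / p - 1 := by have : 0 < 2 / p := by positivity
                                 linarith
  have h2 : -1 < p / 2 - 1 := by linarith
  have e1 : (pw ((p - 2) / p) : X d → X d) = pw (p - 2) ∘ Ip p := by
    funext w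
    show _ = pw (p - 2) (pw (2 / p - 1) w)
    rw [P.comp _ _ _ h1]
    congr 1
    field_simp
    ring
  have e2 : Ip p (Vp p ξ) = ξ := by
    show pw (2 / p - 1) (pw (p / 2 - 1) ξ) = ξ
    rw [P.comp _ _ _ h2]
    have : (2 / p - 1 + 1) * (p / 2 - 1 + 1) - 1 = 0 := by field_simp; ring
    rw [this, pw, Real.rpow_zero, one_smul]
  have hV : Vp p ξ ≠ 0 := by
    intro h
    apply h0
    rw [← e2, h, Ip, pw, smul_zero]
  have df : ∀ (a : ℝ) (w : X d), w ≠ 0 → DifferentiableAt ℝ (pw a) w := fun a w hw =>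
    ((P.sm a).contDiffAt (isOpen_compl_singleton.mem_nhds hw)).differentiableAt (by simp)
  have d1 : DifferentiableAt ℝ (Ip p) (Vp p ξ) := df _ _ hV
  have d2 : DifferentiableAt ℝ (pw (p - 2)) (Ip p (Vp p ξ)) := by rw [e2]; exact df _ _ h0
  rw [e1, fderiv_comp _ d2 d1, e2]
  rfl

theorem pe : SobS → PeS := by
  intro hS d p U u G D hp hU hb hW hV
  have P := Q.pow (X d)
  have hp0 : 0 < p := by linarith
  have b0 : 0 ≤ (p - 2) / p := div_nonneg (by linarith) hp0.le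
  have b1 : (p - 2) / p ≤ 1 := by rw [div_le_one hp0]; linarith
  have h1 := pe_sb b0 b1 hb hV
  have e : (fun z => pw ((p - 2) / p) (Vp p (G z))) = fun z => Ap p (G z) := by
    funext z
    show pw ((p - 2) / p) (pw (p / 2 - 1) (G z)) = pw (p - 2) (G z)
    rw [P.comp _ _ _ (by linarith)]
    congr 1
    field_simp
    ring
  rw [e] at h1
  filter_upwards [pe_tr hS hU h1 hW.dv] with x hx h0
  rw [pe_alg hp h0] at hx
  generalize hs p (G x) (D x) = H at hx ⊢
  generalize G x = ξ at hx h0 ⊢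
  have n0 : 0 < ‖ξ‖ := norm_pos_iff.2 h0
  have n1 : 0 < ‖ξ‖ ^ (p - 2) := Real.rpow_pos_of_pos n0 _
  have s1 : ∑ i, ⟪ξ, H (ei i)⟫ * ξ i = ⟪H ξ, ξ⟫ := by
    rw [real_inner_comm]
    exact pe_sum ((innerSL ℝ ξ).comp H) ξ
  have s2 : ∑ i, ((fderiv ℝ (pw (p - 2)) ξ).comp H) (ei i) i =
      ‖ξ‖ ^ (p - 2) * (∑ i, H (ei i) i + (p - 2) / ‖ξ‖ ^ 2 * ∑ i, ⟪ξ, H (ei i)⟫ * ξ i) := by
    rw [Finset.mul_sum _ _ ((p - 2) / ‖ξ‖ ^ 2), ← Finset.sum_add_distrib, Finset.mul_sum]
    refine Finset.sum_congr rfl fun i _ => ?_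
    rw [ContinuousLinearMap.comp_apply, P.der _ _ _ h0]
    simp only [PiLp.smul_apply, PiLp.add_apply, smul_eq_mul]
    ring
  rw [s2, s1] at hx
  have h2 := (mul_eq_zero.1 hx).resolve_left n1.ne'
  have : ‖ξ‖ ^ 2 * ∑ i, H (ei i) i + (p - 2) * ⟪H ξ, ξ⟫ =
      ‖ξ‖ ^ 2 * (∑ i, H (ei i) i + (p - 2) / ‖ξ‖ ^ 2 * ⟪H ξ, ξ⟫) := by
    field_simp
  rw [this, h2, mul_zero]

end Pool.Agent.MP_815c6c_an.S
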