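import Pool.Agent.MP_815c6c_an.S.EJac
import Pool.Agent.MP_815c6c_an.Q.Shell

/-! Scalar p-harmonic functions in any dimension: the Hessian is symmetric. -/

set_option autoImplicit false

noncomputable section

namespace Pool.Agent.MP_815c6c_an.S

open Set Metric MeasureTheory Filter Topology Bornology
open scoped ENNReal RealInnerProductSpace
open N (X Gr)
open Q (pw)

variable {d : ℕ}

theorem sym_inv {p : ℝ} (hp : 2 < p) (ξ : X d) : Ip p (Vp p ξ) = ξ := by
  have h := (Q.pow (X d)).comp (2 / p - 1) (p / 2 - 1) ξ (by linarith)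
  have h0 : p ≠ 0 := by linarith
  rw [Ip, Vp, h, show (2 / p - 1 + 1) * (p / 2 - 1 + 1) - 1 = 0 by field_simp; ring]
  simp [pw]

theorem sym_ne (p : ℝ) {ξ : X d} (h : ξ ≠ 0) : Vp p ξ ≠ 0 :=
  smul_ne_zero (Real.rpow_pos_of_pos (norm_pos_iff.2 h) _).ne' h

theorem sym_ip (p : ℝ) {y : X d} (h : y ≠ 0) : ContDiffAt ℝ 1 (Ip p : X d → X d) y :=
  (Q.PowA.smooth (2 / p - 1) h).of_le (by simp)

/-- a component of the inverse map, cut off near the origin -/
def symP (p : ℝ) (χ : X d → ℝ) (v y : X d) : ℝ := χ y * ⟪Ip p y, v⟫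

theorem sym_ev (p : ℝ) {χ : X d → ℝ} (h0 : χ =ᶠ[𝓝 0] 0) (v : X d) :
    symP p χ v =ᶠ[𝓝 0] fun _ => 0 := h0.mono fun y hy => by simp [symP, hy]

theorem sym_c1 (p : ℝ) {χ : X d → ℝ} (hχ : ContDiff ℝ 1 χ) (h0 : χ =ᶠ[𝓝 0] 0) (v : X d) :
    ContDiff ℝ 1 (symP p χ v) := contDiff_iff_contDiffAt.2 fun y => by
  by_cases hy : y = 0
  · subst hy
    exact contDiffAt_const.congr_of_eventuallyEq (sym_ev p h0 v)
  · exact hχ.contDiffAt.mul ((sym_ip p hy).inner ℝ contDiffAt_const)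

theorem sym_der (p : ℝ) {χ : X d → ℝ} (hχ : ContDiff ℝ 1 χ) (h0 : χ =ᶠ[𝓝 0] 0) (v y z : X d) :
    fderiv ℝ (symP p χ v) y z =
      χ y * ⟪fderiv ℝ (Ip p) y z, v⟫ + ⟪Ip p y, v⟫ * fderiv ℝ χ y z := by
  by_cases hy : y = 0
  · subst hy
    rw [(sym_ev p h0 v).fderiv_eq, h0.fderiv_eq, h0.eq_of_nhds]
    simp
  · have h1 := ((sym_ip p hy).differentiableAt one_ne_zero).hasFDerivAt
    have h2 : fderiv ℝ (symP p χ v) y = _ :=
      ((hχ.differentiable one_ne_zero y).hasFDerivAt.mul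
        (h1.inner ℝ (hasFDerivAt_const v y))).fderiv
    rw [h2]
    simp

theorem sym_one (hS : SobS) (hJ : JacS) {p : ℝ} {U : Set (X d)} {u : X d → ℝ} {G : X d → X d}
    {D : X d → L d (X d)} (hp : 2 < p) (hU : IsOpen U) (hb : IsBounded U) (hW : Wk p U u G)
    (hV : Sb 2 U (fun x => Vp p (G x)) D) {χ : X d → ℝ} (hχ : ContDiff ℝ 1 χ)
    (hc : HasCompactSupport χ) (h0 : χ =ᶠ[𝓝 0] 0) (v w : X d) :
    ∀ᵐ x ∂vo U, χ (Vp p (G x)) * ⟪hs p (G x) (D x) w, v⟫ -
      χ (Vp p (G x)) * ⟪hs p (G x) (D x) v, w⟫ = 0 := by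
  have fin : IsFiniteMeasure (vo U) := isFiniteMeasure_restrict.2 hb.measure_lt_top.ne
  have S1 := hS d ℝ
  have hu : Sb 2 U u fun x => innerSL ℝ (G x) := S1.low _ 2 U u _ hb (by
    rw [show (2 : ℝ≥0∞) = ENNReal.ofReal 2 by simp]
    exact ENNReal.ofReal_le_ofReal hp.le) hW.sb
  have ch : ∀ Φ : X d → ℝ, ContDiff ℝ 1 Φ → HasCompactSupport Φ →
      Sb 2 U (fun x => Φ (Vp p (G x))) fun x => (fderiv ℝ Φ (Vp p (G x))).comp (D x) :=
    fun Φ h1 h2 => by
      obtain ⟨b, h3⟩ := (h1.continuous_fderiv one_ne_zero).bounded_above_of_compact_support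
        (h2.fderiv ℝ)
      exact (hS d (X d)).chain ℝ 2 U _ D Φ b hb hV h1 h3
  have l2 : ∀ (a : X d → ℝ) (Da : X d → L d ℝ) (z : X d), Sb 2 U a Da →
      MemLp (fun x => Da x z) 2 (vo U) := fun a Da z h =>
    (ContinuousLinearMap.apply ℝ ℝ z).comp_memLp' (S1.mem 2 U a Da h).2
  have cP : ∀ v, Sb 2 U (fun x => symP p χ v (Vp p (G x))) fun x =>
      (fderiv ℝ (symP p χ v) (Vp p (G x))).comp (D x) := fun v =>
    ch _ (sym_c1 p hχ h0 v) hc.mul_right
  have cχ := ch χ hχ hc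
  have pt : ∀ v w x, χ (Vp p (G x)) * ⟪hs p (G x) (D x) w, v⟫ =
      fderiv ℝ (symP p χ v) (Vp p (G x)) (D x w) -
        ⟪G x, v⟫ * fderiv ℝ χ (Vp p (G x)) (D x w) := fun v w x => by
    rw [sym_der p hχ h0, sym_inv hp, hs, ContinuousLinearMap.comp_apply, add_sub_cancel_right]
  have hi : ∀ v w, Integrable (fun x => χ (Vp p (G x)) * ⟪hs p (G x) (D x) w, v⟫) (vo U) :=
    fun v w => by
      simp only [pt]
      exact ((l2 _ _ w (cP v)).integrable one_le_two).sub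
        ((l2 _ _ v hu).integrable_mul (l2 _ _ w cχ))
  rw [ae_restrict_iff' hU.measurableSet]
  refine hU.ae_eq_zero_of_integral_contDiff_smul_eq_zero
    (IntegrableOn.locallyIntegrableOn ((hi v w).sub (hi w v))) fun η h1 h2 h3 => ?_
  have hη : Tc U η := ⟨h1.of_le (by simp), h2, h3⟩
  have cb := S1.cut 2 U _ _ η hb hU.measurableSet hη.1 cχ
  have z0 : ∀ x, x ∉ tsupport η → η x = 0 ∧ fderiv ℝ η x = 0 := fun x hx =>
    ⟨image_eq_zero_of_notMem_tsupport hx, fderiv_of_notMem_tsupport ℝ hx⟩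
  obtain ⟨i1, i2, e⟩ := hJ d U (tsupport η) u _ _ _ v w hU h2 h3 hu cb
    (.of_forall fun x hx => by simp [z0 x hx])
  have key : ∀ v w : X d, IntegrableOn (fun x => innerSL ℝ (G x) v *
      (η x • (fderiv ℝ χ (Vp p (G x))).comp (D x) +
        (fderiv ℝ η x).smulRight (χ (Vp p (G x)))) w) U →
      Integrable (fun x => η x * (χ (Vp p (G x)) * ⟪hs p (G x) (D x) w, v⟫)) ∧
      ∫ x, η x * (χ (Vp p (G x)) * ⟪hs p (G x) (D x) w, v⟫) =
        -∫ x in U, innerSL ℝ (G x) v * (η x • (fderiv ℝ χ (Vp p (G x))).comp (D x) +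
          (fderiv ℝ η x).smulRight (χ (Vp p (G x)))) w := fun v w i => by
    obtain ⟨j1, j2, j3⟩ := S1.part 2 U _ _ η w one_le_two hU (cP v) hη
    have zz : ∀ x, x ∉ U → innerSL ℝ (G x) v * (η x • (fderiv ℝ χ (Vp p (G x))).comp (D x) +
        (fderiv ℝ η x).smulRight (χ (Vp p (G x)))) w = 0 := fun x hx => by
      simp [z0 x fun h => hx (h3 h)]
    have i' := i.integrable_of_forall_notMem_eq_zero zz
    have ee : (fun x => η x * (χ (Vp p (G x)) * ⟪hs p (G x) (D x) w, v⟫)) = fun x =>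
        (fderiv ℝ η x w • symP p χ v (Vp p (G x)) +
          η x • (fderiv ℝ (symP p χ v) (Vp p (G x))).comp (D x) w) -
        innerSL ℝ (G x) v * (η x • (fderiv ℝ χ (Vp p (G x))).comp (D x) +
          (fderiv ℝ η x).smulRight (χ (Vp p (G x)))) w := funext fun x => by
      rw [pt]
      simp only [symP, sym_inv hp, smul_eq_mul, ContinuousLinearMap.comp_apply,
        _root_.add_apply, _root_.smul_apply,
        ContinuousLinearMap.smulRight_apply, innerSL_apply_apply]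
      ring
    rw [ee]
    have j4 : Integrable fun x => fderiv ℝ η x w • symP p χ v (Vp p (G x)) +
        η x • (fderiv ℝ (symP p χ v) (Vp p (G x))).comp (D x) w := j1.add j2
    refine ⟨j4.sub i', ?_⟩
    rw [integral_sub j4 i', integral_add j1 j2, j3,
      setIntegral_eq_integral_of_forall_compl_eq_zero zz]
    ring
  obtain ⟨k1, k2⟩ := key v w i1
  obtain ⟨k3, k4⟩ := key w v i2
  simp only [smul_eq_mul, mul_sub]
  rw [integral_sub k1 k3, k2, k4, e, sub_self]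

/-- the outer and the inner bump -/
def symB (k : ℕ) : ContDiffBump (0 : X d) := ⟨k + 1, k + 2, by positivity, by linarith⟩

def symC (k : ℕ) : ContDiffBump (0 : X d) :=
  ⟨1 / (k + 2), 1 / (k + 1), by positivity,
    one_div_lt_one_div_of_lt (by positivity) (by linarith)⟩

theorem sym_ex {y : X d} (h0 : y ≠ 0) : ∃ k, symB k y * (1 - symC k y) = 1 := by
  obtain ⟨k1, hk1⟩ := exists_nat_one_div_lt (norm_pos_iff.2 h0)
  obtain ⟨k2, hk2⟩ := exists_nat_ge ‖y‖
  have a1 : (k1 : ℝ) ≤ (max k1 k2 : ℕ) := by exact_mod_cast le_max_left _ _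
  have a2 : (k2 : ℝ) ≤ (max k1 k2 : ℕ) := by exact_mod_cast le_max_right _ _
  have e1 : symB (max k1 k2) y = 1 := (symB _).one_of_mem_closedBall (by
    rw [mem_closedBall_zero_iff]
    change _ ≤ ((max k1 k2 : ℕ) : ℝ) + 1
    linarith)
  have e2 : symC (max k1 k2) y = 0 := (symC _).zero_of_le_dist (by
    rw [dist_zero_right]
    change 1 / (((max k1 k2 : ℕ) : ℝ) + 1) ≤ _
    exact (one_div_le_one_div_of_le (by positivity) (by linarith)).trans hk1.le)
  exact ⟨max k1 k2, by rw [e1, e2, sub_zero, one_mul]⟩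

theorem sym_lin (H : L d (X d)) (h : ∀ i j, ⟪H (ei j), ei i⟫ = ⟪H (ei i), ei j⟫) (v w : X d) :
    ⟪H v, w⟫ = ⟪v, H w⟫ := by
  have e : ∀ z : X d, z = ∑ i, z i • ei i := fun z => by
    simpa using ((EuclideanSpace.basisFun (Fin d) ℝ).sum_repr z).symm
  rw [e v, e w]
  simp only [map_sum, map_smul, sum_inner, inner_sum, real_inner_smul_left, real_inner_smul_right]
  refine Finset.sum_congr rfl fun i _ => Finset.sum_congr rfl fun j _ => ?_
  rw [h i j, real_inner_comm]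

theorem sym : SobS → JacS → SymS := fun hS hJ d p U u G D hp hU hb hW hV => by
  have h := fun (k : ℕ) (i j : Fin d) => sym_one hS hJ hp hU hb hW hV
    (χ := fun y => symB k y * (1 - symC k y))
    ((symB k).contDiff.mul (contDiff_const.sub (symC k).contDiff))
    (symB k).hasCompactSupport.mul_right
    ((symC k).eventuallyEq_one.mono fun y hy => by simp [hy]) (ei i) (ei j)
  filter_upwards [ae_all_iff.2 fun k => ae_all_iff.2 fun i => ae_all_iff.2 (h k i)] with x hx h0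
  obtain ⟨k, hk⟩ := sym_ex (sym_ne p h0)
  refine sym_lin _ fun i j => ?_
  have := hx k i j
  rw [hk, one_mul, one_mul] at this
  exact sub_eq_zero.1 this

end Pool.Agent.MP_815c6c_an.S
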