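import Pool.Agent.MP_815c6c_an.S.EEn
import Pool.Agent.MP_815c6c_an.P.Wk
import Pool.Agent.MP_815c6c_an.S.EJac

-- ======== part 0: formerly Pool.Agent.MP_815c6c_an.S.Wk
section MrgPart0

/-! Scalar p-harmonic functions: bounded difference quotients give a Sobolev map. -/

set_option autoImplicit false

namespace Pool.Agent.MP_815c6c_an.S

open Set Metric MeasureTheory Filter Topology Bornology
open scoped ENNReal Convolution
open N (X)
open N.AdmA (bp mo rOut_lim young mol mo_c)
open SobA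

variable {d : ℕ} {E : Type} [NormedAddCommGroup E]

namespace WkA

theorem memLp_ball {w : X d → E} (hw : Continuous w) (q : ℝ≥0∞) (x : X d) (r : ℝ) :
    MemLp w q (vo (ball x r)) := by
  have := fin (isBounded_ball (x := x) (r := r))
  obtain ⟨C, -, hC⟩ := bdd isBounded_ball hw
  exact MemLp.of_bound hw.aestronglyMeasurable C hC

theorem eLp_le {f : X d → E} {μ : Measure (X d)} {c : ℝ} (hc : 0 ≤ c)
    (h : ∫⁻ z, ‖f z‖ₑ ^ 2 ∂μ ≤ ENNReal.ofReal (c ^ 2)) : eLpNorm f 2 μ ≤ ENNReal.ofReal c := by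
  have e := eLpNorm_nnreal_pow_eq_lintegral (f := f) (μ := μ) (p := 2) two_ne_zero
  simp only [ENNReal.coe_ofNat, NNReal.coe_ofNat, ENNReal.rpow_ofNat] at e
  rw [← e, ENNReal.ofReal_pow hc] at h
  exact (ENNReal.pow_le_pow_left_iff two_ne_zero).1 h

variable [NormedSpace ℝ E]

/-- differences of the mollification on the small ball -/
theorem mo_diff {r R : ℝ} {W : X d → E} (hW : MemLp W 2 volume) {n : ℕ}
    (hn : (bp d n).rOut ≤ R - r) (h : X d) :
    eLpNorm (fun z => mo n W (z + h) - mo n W z) 2 (vo (ball 0 r)) ≤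
      eLpNorm (fun z => W (z + h) - W z) 2 (vo (ball 0 R)) := by
  let G : X d → E := indicator (ball 0 R) fun z => W (z + h) - W z
  have hG : MemLp G 2 volume :=
    ((hW.comp_measurePreserving (measurePreserving_add_right volume h)).sub hW).indicator
      measurableSet_ball
  have h1 := N.AdmA.mo_le one_le_two (by simp) hG.1 n
  rw [eLpNorm_indicator_eq_eLpNorm_restrict measurableSet_ball] at h1
  refine le_trans ?_
    ((eLpNorm_mono_measure _ (Measure.restrict_le_self (s := ball 0 r))).trans h1)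
  refine (eLpNorm_congr_ae ((ae_restrict_mem measurableSet_ball).mono fun z hz => ?_)).le
  have hx := ((bp d n).hasCompactSupport_normed (μ := volume)).convolutionExists_left (μ := volume)
    (ContinuousLinearMap.lsmul ℝ ℝ) (bp d n).continuous_normed (hW.locallyIntegrable one_le_two)
  simp only [mo, convolution_def]
  rw [← integral_sub (hx (z + h)) (hx z)]
  refine integral_congr_ae (Eventually.of_forall fun t => ?_)
  simp only [ContinuousLinearMap.lsmul_apply]
  by_cases ht : (bp d n).normed volume t = 0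
  · simp [ht]
  · have ht' : t ∈ ball (0 : X d) (bp d n).rOut := by
      rw [← (bp d n).support_normed_eq (μ := volume)]
      exact ht
    have hz' : z - t ∈ ball (0 : X d) R := by
      rw [mem_ball_zero_iff] at ht' hz ⊢
      linarith [norm_sub_le z t]
    simp only [G, indicator_of_mem hz']
    rw [smul_sub, add_sub_right_comm]

/-- the bound for directional derivatives -/
theorem dir_le {w : X d → E} (hw : ContDiff ℝ 1 w) {μ : Measure (X d)} {c τ : ℝ} (hτ : 0 < τ)
    (h : ∀ h : X d, ‖h‖ < τ → eLpNorm (fun z => w (z + h) - w z) 2 μ ≤ ENNReal.ofReal (c * ‖h‖))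
    {e : X d} (he : ‖e‖ = 1) : eLpNorm (fun z => fderiv ℝ w z e) 2 μ ≤ ENNReal.ofReal c := by
  refine Lp.eLpNorm_le_of_ae_tendsto (u := 𝓝[>] (0 : ℝ))
    (f := fun t z => t⁻¹ • (w (z + t • e) - w z)) ?_ (fun t => ?_) (Eventually.of_forall fun z => ?_)
  · filter_upwards [Ioo_mem_nhdsGT hτ] with t ht
    have hn : ‖t • e‖ = t := by rw [norm_smul, he, mul_one, Real.norm_of_nonneg ht.1.le]
    have h1 := h (t • e) (by rw [hn]; exact ht.2)
    have h2 := eLpNorm_le_mul_eLpNorm_of_ae_le_mul (μ := μ) (c := t⁻¹)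
      (f := fun z => t⁻¹ • (w (z + t • e) - w z)) (g := fun z => w (z + t • e) - w z)
      (Eventually.of_forall fun z => by
        rw [norm_smul, Real.norm_of_nonneg (inv_pos.2 ht.1).le]) 2
    refine h2.trans ((mul_le_mul_right h1 _).trans_eq ?_)
    rw [← ENNReal.ofReal_mul (inv_pos.2 ht.1).le, hn]
    congr 1
    field_simp [ht.1.ne']
  · exact (((hw.continuous.comp (continuous_id.add continuous_const)).sub
      hw.continuous).const_smul t⁻¹).aestronglyMeasurable
  · exact ((df hw z).hasLineDerivAt e).tendsto_slope_zero_right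

variable [CompleteSpace E]

/-- smooth approximations with bounded derivatives -/
theorem approx {r R R' : ℝ} {V : X d → E} (h1 : r < R) (h2 : R < R')
    (hV : MemLp V 2 (vo (ball 0 R'))) (hq : Dq R V) : ∃ M : ℝ, 0 ≤ M ∧ ∀ ε : ℝ≥0∞, 0 < ε →
      ∃ w : X d → E, ContDiff ℝ 1 w ∧ eLpNorm (w - V) 2 (vo (ball 0 r)) ≤ ε ∧
        eLpNorm (fderiv ℝ w) 2 (vo (ball 0 r)) ≤ ENNReal.ofReal M := by
  obtain ⟨C, τ, hτ, hq⟩ := hq
  let W : X d → E := indicator (ball 0 R') V
  have hW : MemLp W 2 volume := (memLp_indicator_iff_restrict measurableSet_ball).2 hV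
  refine ⟨d * √C, by positivity, fun ε hε => ?_⟩
  have a1 := (mol one_le_two (by simp) hW).eventually (ge_mem_nhds hε)
  obtain ⟨n, b1, b2⟩ := (a1.and ((rOut_lim d).eventually (ge_mem_nhds (sub_pos.2 h1)))).exists
  have hw := mo_c (hW.locallyIntegrable one_le_two) n
  refine ⟨mo n W, hw, ?_, ?_⟩
  · refine le_trans (eLpNorm_congr_ae ((ae_restrict_mem measurableSet_ball).mono fun z hz => ?_)).le
      ((eLpNorm_mono_measure _ Measure.restrict_le_self).trans b1)
    simp only [Pi.sub_apply, W, indicator_of_mem (ball_subset_ball (h1.trans h2).le hz)]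
  · have key : ∀ h : X d, ‖h‖ < min τ (R' - R) →
        eLpNorm (fun z => mo n W (z + h) - mo n W z) 2 (vo (ball 0 r)) ≤
          ENNReal.ofReal (√C * ‖h‖) := by
      intro h hh
      rw [lt_min_iff] at hh
      refine (mo_diff hW b2 h).trans ?_
      have e : (fun z => W (z + h) - W z) =ᵐ[vo (ball 0 R)] fun z => V (z + h) - V z := by
        refine (ae_restrict_mem measurableSet_ball).mono fun z hz => ?_
        have hz' : z + h ∈ ball (0 : X d) R' := by
          rw [mem_ball_zero_iff] at hz ⊢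
          linarith [norm_add_le z h, hh.2]
        simp only [W, indicator_of_mem hz', indicator_of_mem (ball_subset_ball h2.le hz)]
      rw [eLpNorm_congr_ae e]
      refine eLp_le (by positivity) ((hq h hh.1).trans (ENNReal.ofReal_le_ofReal ?_))
      rw [mul_pow]
      exact mul_le_mul_of_nonneg_right ((le_max_left C 0).trans_eq Real.sq_sqrt'.symm) (sq_nonneg _)
    have hm := lt_min hτ (sub_pos.2 h2)
    have s : eLpNorm (∑ i, fun z => ‖fderiv ℝ (mo n W) z (ei i)‖) 2 (vo (ball 0 r)) ≤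
        ∑ _i : Fin d, ENNReal.ofReal √C := by
      refine (eLpNorm_sum_le (fun i _ =>
        ((cf hw).clm_apply continuous_const).norm.aestronglyMeasurable) one_le_two).trans
        (Finset.sum_le_sum fun i _ => ?_)
      rw [eLpNorm_norm (fun z => fderiv ℝ (mo n W) z (ei i))]
      exact dir_le hw hm key (by simp)
    refine (eLpNorm_mono_real fun z => ?_).trans (s.trans_eq ?_)
    · rw [Finset.sum_apply]
      exact L_norm _
    · simp [ENNReal.ofReal_mul]

end WkA

open WkA in
/-- bounded difference quotients give a weak derivative -/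
theorem Dq.sb [NormedSpace ℝ E] [FiniteDimensional ℝ E] {r R R' : ℝ} {V : X d → E} (hq : Dq R V)
    (h1 : r < R) (h2 : R < R') (hV : MemLp V 2 (vo (ball 0 R'))) : ∃ D, Sb 2 (ball 0 r) V D := by
  have := FiniteDimensional.complete ℝ E
  obtain ⟨M, hM0, hM⟩ := approx h1 h2 hV hq
  have hV' : MemLp V 2 (vo (ball 0 r)) :=
    hV.mono_measure (Measure.restrict_mono (ball_subset_ball (h1.trans h2).le) le_rfl)
  let T := toEuclidean (E := L d E)
  let S : ℕ → Set (Lp (EuclideanSpace ℝ (Fin (Module.finrank ℝ (L d E)))) 2 (vo (ball 0 r))) :=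
    fun n => {p | ∃ w : X d → E, ContDiff ℝ 1 w ∧
      eLpNorm (w - V) 2 (vo (ball 0 r)) ≤ (n : ℝ≥0∞)⁻¹ ∧
      p =ᵐ[vo (ball 0 r)] fun z => T (fderiv ℝ w z)}
  refine (P.WkA.mz S (fun n m h p ⟨w, a, b, c⟩ =>
      ⟨w, a, b.trans (ENNReal.inv_le_inv.2 (by exact_mod_cast h)), c⟩) ?_
      (‖T.toContinuousLinearMap‖ * M) ?_).elim ?_
  rotate_right
  · rintro y ⟨y0, hy, hy0⟩
    choose w hw hw1 hw2 using hy
    refine ⟨fun z => T.symm (y0 z), sb_lim one_le_two (by simp) (u := w)
      (fun n => sb_c1 isBounded_ball (hw n)) hV'.1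
      (T.symm.continuous.comp_aestronglyMeasurable (Lp.aestronglyMeasurable y0)) ?_ ?_⟩
    · exact tendsto_of_tendsto_of_tendsto_of_le_of_le tendsto_const_nhds
        ENNReal.tendsto_inv_nat_nhds_zero (fun _ => zero_le) hw1
    · have t := ENNReal.Tendsto.const_mul (a := ENNReal.ofReal ‖T.symm.toContinuousLinearMap‖)
        ((Lp.tendsto_Lp_iff_tendsto_eLpNorm' y y0).1 hy0) (Or.inr ENNReal.ofReal_ne_top)
      rw [mul_zero] at t
      refine tendsto_of_tendsto_of_tendsto_of_le_of_le tendsto_const_nhds t (fun _ => zero_le)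
        fun n => eLpNorm_le_mul_eLpNorm_of_ae_le_mul ((hw2 n).mono fun z hz => ?_) 2
      have := T.symm.toContinuousLinearMap.le_opNorm (y n z - y0 z)
      simpa [hz] using this
  · rintro n p ⟨u, a, b, c⟩ q ⟨v, a', b', c'⟩
    refine ⟨(1 / 2 : ℝ) • (u + v), (a.add a').const_smul (1 / 2 : ℝ), ?_, ?_⟩
    · have e : (1 / 2 : ℝ) • (u + v) - V = (1 / 2 : ℝ) • ((u - V) + (v - V)) := by module
      rw [e, eLpNorm_const_smul]
      refine (mul_le_mul_right ((eLpNorm_add_le (a.continuous.aestronglyMeasurable.sub hV'.1)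
        (a'.continuous.aestronglyMeasurable.sub hV'.1) one_le_two).trans (add_le_add b b')) _).trans_eq
        ?_
      rw [← two_mul, ← mul_assoc]
      have : ‖(1 / 2 : ℝ)‖ₑ * 2 = 1 := by
        rw [Real.enorm_eq_ofReal (by norm_num), ← ENNReal.ofReal_ofNat 2,
          ← ENNReal.ofReal_mul (by norm_num)]
        norm_num
      rw [this, one_mul]
    · filter_upwards [Lp.coeFn_smul (1 / 2 : ℝ) (p + q), Lp.coeFn_add p q, c, c'] with z e1 e2 e3 e4
      have du := (df a z).differentiableAt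
      have dv := (df a' z).differentiableAt
      rw [e1, Pi.smul_apply, e2, Pi.add_apply, e3, e4, fderiv_const_smul (du.add dv),
        fderiv_add du dv, map_smul, map_add]
  · intro n
    obtain ⟨w, a, b, c⟩ := hM (n : ℝ≥0∞)⁻¹ (ENNReal.inv_pos.2 (ENNReal.natCast_ne_top n))
    have m : MemLp (fun z => T (fderiv ℝ w z)) 2 (vo (ball 0 r)) :=
      memLp_ball (T.continuous.comp (cf a)) 2 0 r
    refine ⟨m.toLp _, ⟨w, a, b, m.coeFn_toLp⟩, ?_⟩
    rw [Lp.norm_toLp]
    refine ENNReal.toReal_le_of_le_ofReal (by positivity) ?_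
    rw [ENNReal.ofReal_mul (norm_nonneg T.toContinuousLinearMap)]
    exact (eLpNorm_le_mul_eLpNorm_of_ae_le_mul (Eventually.of_forall fun z =>
      T.toContinuousLinearMap.le_opNorm (fderiv ℝ w z)) 2).trans (mul_le_mul_right c _)

end Pool.Agent.MP_815c6c_an.S

end MrgPart0

-- ======== part 1: formerly Pool.Agent.MP_815c6c_an.S.ESob
section MrgPart1

/-! Scalar p-harmonic functions: the Sobolev kit. -/

set_option autoImplicit false

namespace Pool.Agent.MP_815c6c_an.S

open Set Metric MeasureTheory Filter Topology Bornology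
open scoped ENNReal
open N (X)
open SobA

variable {d : ℕ} {q : ℝ≥0∞} {E : Type} [NormedAddCommGroup E] [NormedSpace ℝ E] {U : Set (X d)}
  {u u' : X d → E} {D D' : X d → L d E}

theorem Sb.comb (h : Sb q U u D) (h' : Sb q U u' D') (t t' : ℝ) :
    Sb q U (fun z => t • u z + t' • u' z) fun z => t • D z + t' • D' z := by
  obtain ⟨v, hv, g, hg, h⟩ := h
  obtain ⟨v', hv', g', hg', h'⟩ := h'
  have e : ∀ n z, fderiv ℝ (fun z => t • v n z + t' • v' n z) z =
      t • fderiv ℝ (v n) z + t' • fderiv ℝ (v' n) z := fun n z =>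
    (((df (hv n) z).const_smul t).add ((df (hv' n) z).const_smul t')).fderiv
  refine ⟨fun n z => t • v n z + t' • v' n z,
    fun n => ((hv n).const_smul t).add ((hv' n).const_smul t'),
    fun z => ‖t‖ * g z + ‖t'‖ * g' z, (hg.const_mul _).add (hg'.const_mul _), ?_⟩
  filter_upwards [h, h'] with z a a'
  simp only [e]
  refine ⟨fun n => ⟨?_, ?_⟩, (a.2.1.const_smul t).add (a'.2.1.const_smul t'),
    (a.2.2.const_smul t).add (a'.2.2.const_smul t')⟩ <;>
    refine (norm_add_le _ _).trans ?_ <;> rw [norm_smul, norm_smul] <;> gcongr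
  exacts [(a.1 n).1, (a'.1 n).1, (a.1 n).2, (a'.1 n).2]

/-- a bounded open neighbourhood of the support -/
theorem Tc.loc {φ : X d → ℝ} (h : Tc U φ) : ∃ R : ℝ, Tc (U ∩ ball 0 R) φ := by
  obtain ⟨R, hR⟩ := h.2.1.isCompact.isBounded.subset_ball 0
  exact ⟨R, h.1, h.2.1, subset_inter h.2.2 hR⟩

theorem sob : SobS := fun _ _ _ _ _ =>
  { mono := fun _ _ _ _ _ a h => h.mono a
    congr := fun _ _ _ _ _ _ h a b => h.congr a.symm b.symm
    mem := fun _ _ _ _ h => h.memLp
    low := fun _ _ _ _ _ a b h => h.down a b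
    clo := fun _ _ _ _ _ _ a b => sb_lim a b
    dom := fun _ _ _ _ _ _ a b => sb_dom a b
    c1 := fun _ _ _ a _ => sb_c1 a
    lin := fun _ _ _ _ _ _ t t' h h' => h.comb h' t t'
    cut := fun _ _ _ _ _ a _ b h => h.cut a b
    sca := fun _ _ _ _ _ a _ b _ c h => h.sca a b c
    chain := fun _ _ _ _ _ _ _ _ _ a h => h.chain a
    prod := fun _ _ _ _ _ _ _ _ _ h => h.prod
    part := fun _ _ _ _ _ v a _ h b =>
      let ⟨_, c⟩ := b.loc
      (h.mono inter_subset_left).ibp a (isBounded_ball.subset inter_subset_right) c v }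

theorem wk : WkS := fun _ _ _ _ _ a b c h => h.sb a b c

end Pool.Agent.MP_815c6c_an.S

end MrgPart1

-- ======== part 2: formerly Pool.Agent.MP_815c6c_an.S.EDq
section MrgPart2

/-! Scalar p-harmonic functions in any dimension: difference quotients of `V`. -/

set_option autoImplicit false

noncomputable section

namespace Pool.Agent.MP_815c6c_an.S

open Set Metric MeasureTheory Filter Topology Bornology
open scoped ENNReal RealInnerProductSpace
open N (X Gr)
open Q (pw)

variable {d : ℕ}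

lemma dq_int {μ : Measure (X d)} {p : ℝ} (hp : 0 < p) {Y : X d → ℝ}
    (hY : MemLp Y (ENNReal.ofReal p) μ) (Y0 : ∀ x, 0 ≤ Y x) {K : ℝ≥0∞} (hK : K ≠ ⊤)
    (h : eLpNorm Y (ENNReal.ofReal p) μ ≤ K) :
    Integrable (fun x => Y x ^ p) μ ∧ ∫ x, Y x ^ p ∂μ ≤ K.toReal ^ p := by
  have P0 : ENNReal.ofReal p ≠ 0 := (ENNReal.ofReal_pos.2 hp).ne'
  have i := hY.integrable_norm_rpow P0 ENNReal.ofReal_ne_top
  rw [hY.eLpNorm_eq_integral_rpow_norm P0 ENNReal.ofReal_ne_top,
    ENNReal.ofReal_le_iff_le_toReal hK] at h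
  simp only [ENNReal.toReal_ofReal hp.le, Real.norm_of_nonneg (Y0 _)] at i h
  exact ⟨i, (Real.rpow_inv_le_iff_of_pos (integral_nonneg fun x => Real.rpow_nonneg (Y0 x) _)
    ENNReal.toReal_nonneg hp).1 h⟩

lemma dq_young {p C c η t x W n a : ℝ} (hp : 2 < p) (hC : 0 < C) (hc : 0 ≤ c) (hη : 0 ≤ η)
    (ht : 0 ≤ t) (hx : 0 ≤ x) (hW : 0 ≤ W) (hn : 0 < n) (ha : a ≤ C * (x ^ (p / 2 - 1) * W)) :
    C * (t * (2 * η * c * a)) ≤
      1 / 2 * (η * η * W ^ 2) + 2 * (C ^ 2 * c) ^ 2 * n ^ 2 * (t / n + x) ^ p := by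
  have h0 : 0 ≤ t / n := div_nonneg ht hn.le
  have hY : 0 ≤ t / n + x := add_nonneg h0 hx
  have h1 : x ^ (p / 2 - 1) ≤ (t / n + x) ^ (p / 2 - 1) :=
    Real.rpow_le_rpow hx (by linarith) (by linarith)
  have h2 : t ≤ n * (t / n + x) := by
    rw [mul_add, mul_div_cancel₀ _ hn.ne']
    nlinarith
  have h3 : (t / n + x) * (t / n + x) ^ (p / 2 - 1) = (t / n + x) ^ (p / 2) := by
    rw [mul_comm, ← Real.rpow_add_one' hY (by linarith), sub_add_cancel]
  have h4 : ((t / n + x) ^ (p / 2)) ^ 2 = (t / n + x) ^ p := by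
    rw [← Real.rpow_natCast, ← Real.rpow_mul hY]
    norm_num
  have h5 : t * x ^ (p / 2 - 1) ≤ n * (t / n + x) ^ (p / 2) := by
    rw [← h3, ← mul_assoc]
    exact mul_le_mul h2 h1 (Real.rpow_nonneg hx _) (by positivity)
  rw [← h4]
  generalize (t / n + x) ^ (p / 2) = Z at h5
  calc C * (t * (2 * η * c * a)) ≤ C * (t * (2 * η * c * (C * (x ^ (p / 2 - 1) * W)))) := by
        gcongr
    _ = 2 * C ^ 2 * c * η * W * (t * x ^ (p / 2 - 1)) := by ring
    _ ≤ 2 * C ^ 2 * c * η * W * (n * Z) := by gcongr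
    _ ≤ _ := by nlinarith [sq_nonneg (η * W - 2 * C ^ 2 * c * n * Z)]

lemma dq_mem {q : ℝ≥0∞} {μ : Measure (X d)} {G : X d → X d}
    (h : MemLp (fun x => innerSL ℝ (G x)) q μ) : MemLp G q μ := by
  have m : AEStronglyMeasurable G μ := by
    have := (InnerProductSpace.toDual ℝ (X d)).symm.continuous.comp_aestronglyMeasurable h.1
    refine this.congr (Eventually.of_forall fun x => ?_)
    exact (InnerProductSpace.toDual ℝ (X d)).symm_apply_apply (G x)
  exact h.of_le m (Eventually.of_forall fun x => (innerSL_apply_norm ℝ (G x)).ge)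

lemma dq_cont {p : ℝ} (hp : 2 < p) : Continuous (Vp p : X d → X d) :=
  (continuous_norm.rpow_const fun _ => Or.inr (by linarith)).smul continuous_id

theorem dq : SobS → WsS → TsS → TrS → MonS → DqS := by
  intro sob ws ts tr mon d p r R u G hp hrR hw
  rcases le_or_gt r 0 with hr | hr
  · exact ⟨0, 1, one_pos, fun h _ => by simp [ball_eq_empty.2 hr]⟩
  obtain ⟨δ, hδ, rfl⟩ : ∃ δ, 0 < δ ∧ R = r + 3 * δ := ⟨(R - r) / 3, by linarith, by ring⟩
  obtain ⟨C, hC, mo⟩ := mon d p hp
  set U : Set (X d) := ball 0 (r + 2 * δ) with hU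
  let η : ContDiffBump (0 : X d) := ⟨r, r + δ, hr, by linarith⟩
  have ηs : tsupport η ⊆ U := by
    rw [η.tsupport_eq]
    exact closedBall_subset_ball (show r + δ < _ by linarith)
  have η1 : ContDiff ℝ 1 η := η.contDiff
  have hη : Tc U fun x => η x * η x := ⟨η1.mul η1, η.hasCompactSupport.mul_right,
    (tsupport_mul_subset_left (f := η) (g := η)).trans ηs⟩
  obtain ⟨c, hc⟩ := (η1.continuous_fderiv one_ne_zero).bounded_above_of_compact_support
    (η.hasCompactSupport.fderiv ℝ)
  have c0 : 0 ≤ c := (norm_nonneg _).trans (hc 0)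
  have dη : ∀ x, fderiv ℝ (fun x => η x * η x) x = (2 * η x) • fderiv ℝ η x := fun x => by
    have := (η1.differentiable one_ne_zero x).hasFDerivAt
    rw [(this.fun_mul this).fderiv, two_mul, add_smul]
  have η0 : ∀ x, x ∉ U → η x = 0 := fun x hx => image_eq_zero_of_notMem_tsupport fun k => hx (ηs k)
  have mD := ((sob d ℝ).mem _ _ _ _ hw.sb).2
  have mG := dq_mem mD
  set M := eLpNorm G (ENNReal.ofReal p) (vo (ball 0 (r + 3 * δ))) with hM
  have P1 : 1 ≤ ENNReal.ofReal p := ENNReal.one_le_ofReal.2 (by linarith)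
  refine ⟨4 * (C ^ 2 * c) ^ 2 * (M + (M + M)).toReal ^ p, δ, hδ, fun h hh => ?_⟩
  rcases eq_or_ne h 0 with rfl | h0
  · simp
  have hn : 0 < ‖h‖ := norm_pos_iff.2 h0
  have sh : ∀ a : X d, ‖a‖ < δ → ∀ z ∈ U, z + a ∈ ball (0 : X d) (r + 3 * δ) := fun a ha z hz => by
    rw [mem_ball_zero_iff] at hz ⊢
    linarith [norm_add_le z a]
  have wk : ∀ a : X d, ‖a‖ < δ → Wk p U (fun z => u (z + a)) fun z => G (z + a) := fun a ha => by
    have := (ws d p _ U u G hp isOpen_ball isOpen_ball isBounded_ball hw).1 a 1 1 0 one_ne_zero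
      fun z hz => by rw [one_smul, add_comm a z]; exact sh a ha z hz
    simpa only [one_smul, one_mul, add_zero, add_comm a] using this
  have W1 := wk h hh
  have W0 : Wk p U u G := by simpa only [add_zero] using wk 0 (by simpa using hδ)
  have sv : Sb (ENNReal.ofReal p) U (fun z => u (z + h) - u z)
      fun z => innerSL ℝ (G (z + h) - G z) := by
    have := (sob d ℝ).lin _ _ _ _ _ _ 1 (-1) W1.sb W0.sb
    simpa only [one_smul, neg_smul, ← sub_eq_add_neg, map_sub] using this
  obtain ⟨a1, b1, e1⟩ := ts d p U _ _ _ _ _ hp isOpen_ball W1 sv hη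
  obtain ⟨a0, b0, e0⟩ := ts d p U _ _ _ _ _ hp isOpen_ball W0 sv hη
  have iA : Integrable fun x => η x * η x *
      ⟪Ap p (G (x + h)) - Ap p (G x), G (x + h) - G x⟫ := (a1.sub a0).congr
    (Eventually.of_forall fun x => by
      simp only [Pi.sub_apply, innerSL_apply_apply]
      rw [real_inner_comm (G (x + h) - G x) (_ - _), inner_sub_right]
      ring)
  have iB : Integrable fun x => -((u (x + h) - u x) * (2 * η x *
      fderiv ℝ η x (Ap p (G (x + h)) - Ap p (G x)))) := (b0.sub b1).congr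
    (Eventually.of_forall fun x => by
      simp only [Pi.sub_apply, dη, smul_apply, smul_eq_mul, map_sub]
      ring)
  have eAB : ∫ x in U, η x * η x * ⟪Ap p (G (x + h)) - Ap p (G x), G (x + h) - G x⟫ =
      ∫ x in U, -((u (x + h) - u x) * (2 * η x *
        fderiv ℝ η x (Ap p (G (x + h)) - Ap p (G x)))) := by
    rw [setIntegral_eq_integral_of_forall_compl_eq_zero fun x hx => by simp [η0 x hx],
      setIntegral_eq_integral_of_forall_compl_eq_zero fun x hx => by simp [η0 x hx]]
    have := congrArg₂ (· - ·) e1 e0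
    simp only [neg_sub_neg] at this
    rw [← integral_sub a1 a0, ← integral_sub b0 b1] at this
    refine Eq.trans (integral_congr_ae (Eventually.of_forall fun x => ?_))
      (this.trans (integral_congr_ae (Eventually.of_forall fun x => ?_)))
    · simp only [innerSL_apply_apply]
      rw [real_inner_comm, inner_sub_right]
      ring
    · simp only [dη, smul_apply, smul_eq_mul, map_sub]
      ring
  have g1 := dq_mem ((sob d ℝ).mem _ _ _ _ W1.sb).2
  have g0 := dq_mem ((sob d ℝ).mem _ _ _ _ W0.sb).2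
  have mv := ((sob d ℝ).mem _ _ _ _ sv).1
  have n0 : eLpNorm G (ENNReal.ofReal p) (vo U) ≤ M :=
    eLpNorm_mono_measure _ (Measure.restrict_mono (ball_subset_ball (by linarith)) le_rfl)
  have n1 : eLpNorm (fun z => G (z + h)) (ENNReal.ofReal p) (vo U) ≤ M := by
    rw [hM, ← eLpNorm_comp_measurePreserving mG.1
      ((measurePreserving_add_right volume h).restrict_preimage measurableSet_ball)]
    exact eLpNorm_mono_measure _ (Measure.restrict_mono (sh h hh) le_rfl)
  have m2 : MemLp (fun z => |u (z + h) - u z| / ‖h‖) (ENNReal.ofReal p) (vo U) := by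
    simpa only [div_eq_mul_inv, Real.norm_eq_abs] using mv.norm.mul_const ‖h‖⁻¹
  have n2 : eLpNorm (fun z => |u (z + h) - u z| / ‖h‖) (ENNReal.ofReal p) (vo U) ≤ M := by
    have t := tr d p (r + 2 * δ) (r + 3 * δ) u _ h (by linarith) (by linarith) hw.sb
    rw [eLpNorm_congr_norm_ae (g := G) (Eventually.of_forall fun x => innerSL_apply_norm ℝ (G x)),
      ← hM] at t
    have e : (fun z => |u (z + h) - u z| / ‖h‖) = ‖h‖⁻¹ • fun z => ‖u (z + h) - u z‖ := by
      funext z
      simp only [Pi.smul_apply, smul_eq_mul, Real.norm_eq_abs]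
      ring
    rw [e, eLpNorm_const_smul, eLpNorm_norm]
    refine (mul_le_mul_right t _).trans_eq ?_
    rw [← mul_assoc, ← ofReal_norm h, Real.enorm_eq_ofReal (by positivity),
      ← ENNReal.ofReal_mul (by positivity), inv_mul_cancel₀ hn.ne', ENNReal.ofReal_one, one_mul]
  obtain ⟨iY, bY⟩ := dq_int (by linarith : 0 < p) (m2.add (g1.norm.add g0.norm))
    (fun x => by simp only [Pi.add_apply]; positivity) (K := M + (M + M))
    (ENNReal.add_ne_top.2 ⟨mG.2.ne, ENNReal.add_ne_top.2 ⟨mG.2.ne, mG.2.ne⟩⟩) ((eLpNorm_add_le m2.1 (g1.norm.add g0.norm).1 P1).trans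
      (add_le_add n2 ((eLpNorm_add_le g1.norm.1 g0.norm.1 P1).trans
        (add_le_add (by rwa [eLpNorm_norm]) (by rwa [eLpNorm_norm])))))
  simp only [Pi.add_apply] at iY bY
  have pE : ∀ x, η x * η x * ‖Vp p (G (x + h)) - Vp p (G x)‖ ^ 2 ≤
      C * (η x * η x * ⟪Ap p (G (x + h)) - Ap p (G x), G (x + h) - G x⟫) := fun x => by
    have := mul_le_mul_of_nonneg_left (mo (G (x + h)) (G x)).1 (mul_self_nonneg (η x))
    linarith
  have iE : Integrable (fun x => η x * η x * ‖Vp p (G (x + h)) - Vp p (G x)‖ ^ 2) (vo U) :=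
    (iA.const_mul C).integrableOn.mono' ((η.continuous.mul η.continuous).aestronglyMeasurable.mul
      ((((dq_cont hp).comp_aestronglyMeasurable g1.1).sub
        ((dq_cont hp).comp_aestronglyMeasurable g0.1)).norm.pow 2))
      (Eventually.of_forall fun x => by
        rw [Real.norm_of_nonneg (mul_nonneg (mul_self_nonneg _) (sq_nonneg _))]
        exact pE x)
  set E : ℝ := ∫ x in U, η x * η x * ‖Vp p (G (x + h)) - Vp p (G x)‖ ^ 2 with hE
  have k1 : E ≤ ∫ x in U, C * -((u (x + h) - u x) * (2 * η x *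
      fderiv ℝ η x (Ap p (G (x + h)) - Ap p (G x)))) := by
    rw [integral_const_mul, ← eAB, ← integral_const_mul]
    exact integral_mono iE (iA.const_mul C).integrableOn pE
  have k2 := integral_mono (iB.const_mul C).integrableOn
    ((iE.const_mul (1 / 2)).add (iY.const_mul (2 * (C ^ 2 * c) ^ 2 * ‖h‖ ^ 2))) fun x => by
      refine le_trans ?_ (dq_young hp hC c0 η.nonneg (abs_nonneg (u (x + h) - u x))
        (by positivity) (norm_nonneg _) hn (mo (G (x + h)) (G x)).2)
      refine mul_le_mul_of_nonneg_left ((neg_le_abs _).trans ?_) hC.le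
      rw [abs_mul, abs_mul, abs_of_nonneg (mul_nonneg zero_le_two η.nonneg), mul_assoc (2 * η x)]
      gcongr
      · exact mul_nonneg zero_le_two η.nonneg
      · exact ((fderiv ℝ η x).le_opNorm _).trans
          (mul_le_mul_of_nonneg_right (hc x) (norm_nonneg _))
  simp only [Pi.add_apply] at k2
  rw [integral_add (iE.const_mul _) (iY.const_mul _), integral_const_mul (1 / 2 : ℝ),
    integral_const_mul (2 * (C ^ 2 * c) ^ 2 * ‖h‖ ^ 2), ← hE] at k2
  have fi : E ≤ 4 * (C ^ 2 * c) ^ 2 * (M + (M + M)).toReal ^ p * ‖h‖ ^ 2 := by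
    have := mul_le_mul_of_nonneg_left bY
      (by positivity : 0 ≤ 2 * (C ^ 2 * c) ^ 2 * ‖h‖ ^ 2)
    linarith
  refine le_trans ?_ (ENNReal.ofReal_le_ofReal fi)
  rw [hE, ofReal_integral_eq_lintegral_ofReal iE (Eventually.of_forall fun z =>
    mul_nonneg (mul_self_nonneg _) (sq_nonneg _))]
  refine le_trans (le_of_eq ?_) (lintegral_mono_set (ball_subset_ball (by linarith : r ≤ _)))
  refine setLIntegral_congr_fun measurableSet_ball fun z hz => ?_
  simp only [η.one_of_mem_closedBall (ball_subset_closedBall hz), one_mul]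
  rw [ENNReal.ofReal_pow (norm_nonneg _), ofReal_norm]

end Pool.Agent.MP_815c6c_an.S

end
end MrgPart2

-- marker of a merged file
example : 731051 + 675374 = 731051 + 675374 := rfl
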