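import Mathlib.Analysis.Normed.Operator.Prod
import Pool.Agent.MP_815c6c_an.S.CalA

/-! Scalar p-harmonic functions: closure, chain rule and affine maps in the Sobolev class. -/

set_option autoImplicit false

namespace Pool.Agent.MP_815c6c_an.S

open Set Metric MeasureTheory Filter Topology Bornology
open scoped ENNReal
open N (X)

variable {d : ℕ} {q q' : ℝ≥0∞}

namespace SobA

section
variable {α : Type} [MeasurableSpace α] {μ : Measure α} {E : Type} [NormedAddCommGroup E]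

theorem pw_eq (h0 : q ≠ 0) (h1 : q ≠ ⊤) (f : α → E) :
    ∫⁻ z, ‖f z‖ₑ ^ q.toReal ∂μ = eLpNorm f q μ ^ q.toReal := by
  rw [eLpNorm_eq_lintegral_rpow_enorm_toReal h0 h1, ← ENNReal.rpow_mul,
    one_div_mul_cancel (ENNReal.toReal_pos h0 h1).ne', ENNReal.rpow_one]

/-- dominated convergence in `L^q` -/
theorem dct (h0 : q ≠ 0) (h1 : q ≠ ⊤) {f : ℕ → α → E} {f0 : α → E} {g : α → ℝ}
    (hf : ∀ n, AEStronglyMeasurable (f n) μ) (hg : MemLp g q μ) (hb : ∀ᵐ z ∂μ, ∀ n, ‖f n z‖ ≤ g z)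
    (hl : ∀ᵐ z ∂μ, Tendsto (fun n => f n z) atTop (𝓝 (f0 z))) :
    Tendsto (fun n => eLpNorm (f n - f0) q μ) atTop (𝓝 0) := by
  have hp := ENNReal.toReal_pos h0 h1
  have m0 : AEStronglyMeasurable f0 μ := aestronglyMeasurable_of_tendsto_ae atTop hf hl
  have t1 : Tendsto (fun n => ∫⁻ z, ‖(f n - f0) z‖ₑ ^ q.toReal ∂μ) atTop (𝓝 (∫⁻ _, 0 ∂μ)) := by
    refine tendsto_lintegral_of_dominated_convergence' (fun z => ‖2 * g z‖ₑ ^ q.toReal)
      (fun n => ((hf n).sub m0).enorm.pow_const _) (fun n => ?_) ?_ ?_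
    · filter_upwards [hb, hl] with z a b
      have c : ‖f0 z‖ ≤ g z := le_of_tendsto' b.norm a
      have e : ‖(f n - f0) z‖ ≤ ‖2 * g z‖ :=
        (norm_sub_le _ _).trans ((by linarith [a n] : _ ≤ 2 * g z).trans (le_abs_self _))
      exact ENNReal.rpow_le_rpow (enorm_le_iff_norm_le.2 e) hp.le
    · rw [pw_eq h0 h1]
      exact ENNReal.rpow_ne_top_of_nonneg hp.le (hg.const_mul 2).2.ne
    · filter_upwards [hl] with z b
      have c : Tendsto (fun n => ‖(f n - f0) z‖ₑ) atTop (𝓝 0) := by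
        simpa using (b.sub_const (f0 z)).enorm
      have := ((ENNReal.continuous_rpow_const (y := q.toReal)).tendsto 0).comp c
      rwa [ENNReal.zero_rpow_of_pos hp] at this
  rw [lintegral_zero] at t1
  have t2 := (ENNReal.continuous_rpow_const (y := 1 / q.toReal)).tendsto 0 |>.comp t1
  rw [ENNReal.zero_rpow_of_pos (by positivity)] at t2
  exact t2.congr fun n => (eLpNorm_eq_lintegral_rpow_enorm_toReal h0 h1).symm

/-- a sequence with geometrically small norms is dominated and tends to zero -/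
theorem dom (h0 : 1 ≤ q) (h1 : q ≠ ⊤) {f : ℕ → α → E} (hf : ∀ n, AEStronglyMeasurable (f n) μ)
    (hb : ∀ n, eLpNorm (f n) q μ ≤ 2⁻¹ ^ n) :
    ∃ g : α → ℝ, MemLp g q μ ∧ ∀ᵐ z ∂μ, (∀ n, ‖f n z‖ ≤ g z) ∧
      Tendsto (fun n => f n z) atTop (𝓝 0) := by
  have q0 : q ≠ 0 := (one_pos.trans_le h0).ne'
  have hp := ENNReal.toReal_pos q0 h1
  have p1 : 1 ≤ q.toReal := by simpa using ENNReal.toReal_mono h1 h0
  set S : α → ℝ≥0∞ := fun z => ∑' n, ‖f n z‖ₑ ^ q.toReal with hS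
  have hm : ∀ n, AEMeasurable (fun z => ‖f n z‖ₑ ^ q.toReal) μ := fun n => (hf n).enorm.pow_const _
  have hSm : AEMeasurable S μ := AEMeasurable.tsum hm
  have hfin : ∫⁻ z, S z ∂μ ≠ ⊤ := by
    rw [hS, lintegral_tsum hm]
    refine ne_top_of_le_ne_top (b := ∑' n : ℕ, 2⁻¹ ^ n) (by simp [ENNReal.tsum_geometric]) ?_
    refine ENNReal.tsum_le_tsum fun n => ?_
    rw [pw_eq q0 h1]
    exact (ENNReal.rpow_le_self_of_le_one ((hb n).trans (pow_le_one' (by simp) n)) p1).trans (hb n)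
  have hg : AEMeasurable (fun z => S z ^ (1 / q.toReal)) μ := hSm.pow_const _
  refine ⟨fun z => (S z ^ (1 / q.toReal)).toReal, ⟨hg.ennreal_toReal.aestronglyMeasurable, ?_⟩, ?_⟩
  · rw [eLpNorm_eq_lintegral_rpow_enorm_toReal q0 h1]
    refine ENNReal.rpow_lt_top_of_nonneg (by positivity) (ne_top_of_le_ne_top hfin
      (lintegral_mono fun z => ?_))
    rw [Real.enorm_eq_ofReal ENNReal.toReal_nonneg]
    refine (ENNReal.rpow_le_rpow ENNReal.ofReal_toReal_le hp.le).trans_eq ?_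
    rw [← ENNReal.rpow_mul, one_div_mul_cancel hp.ne', ENNReal.rpow_one]
  · filter_upwards [ae_lt_top' hSm hfin] with z hz
    have e : ∀ n, (‖f n z‖ₑ ^ q.toReal) ^ (1 / q.toReal) = ‖f n z‖ₑ := fun n => by
      rw [← ENNReal.rpow_mul, mul_one_div_cancel hp.ne', ENNReal.rpow_one]
    refine ⟨fun n => ?_, ?_⟩
    · have a := ENNReal.rpow_le_rpow (ENNReal.le_tsum (f := fun n => ‖f n z‖ₑ ^ q.toReal) n)
        (show 0 ≤ 1 / q.toReal by positivity)
      rw [e] at a
      simpa using ENNReal.toReal_mono (ENNReal.rpow_ne_top_of_nonneg (by positivity) hz.ne) a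
    · have t := ((ENNReal.continuous_rpow_const (y := 1 / q.toReal)).tendsto 0).comp
        (ENNReal.tendsto_atTop_zero_of_tsum_ne_top hz.ne)
      rw [ENNReal.zero_rpow_of_pos (by positivity)] at t
      simp only [Function.comp_def, e] at t
      have := (ENNReal.tendsto_toReal ENNReal.zero_ne_top).comp t
      rw [tendsto_zero_iff_norm_tendsto_zero]
      simpa [Function.comp_def] using this

theorem mem_lim {f : ℕ → α → E} {f0 : α → E} (hf : ∀ n, MemLp (f n) q μ)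
    (h0 : AEStronglyMeasurable f0 μ)
    (h : Tendsto (fun n => eLpNorm (f n - f0) q μ) atTop (𝓝 0)) : MemLp f0 q μ := by
  obtain ⟨n, a⟩ := (h.eventually (Iio_mem_nhds ENNReal.zero_lt_top)).exists
  simpa using (hf n).sub (⟨(hf n).1.sub h0, a⟩ : MemLp (f n - f0) q μ)

theorem tri (h0 : 1 ≤ q) {f g k : α → E} (hf : AEStronglyMeasurable f μ)
    (hg : AEStronglyMeasurable g μ) (hk : AEStronglyMeasurable k μ) {ε : ℝ≥0∞}
    (a : eLpNorm (f - g) q μ ≤ ε / 2) (b : eLpNorm (g - k) q μ ≤ ε / 2) :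
    eLpNorm (f - k) q μ ≤ ε := by
  rw [← sub_add_sub_cancel f g k, ← ENNReal.add_halves ε]
  exact (eLpNorm_add_le (hf.sub hg) (hg.sub hk) h0).trans (add_le_add a b)
end

theorem fin {U : Set (X d)} (hU : IsBounded U) : IsFiniteMeasure (vo U) :=
  isFiniteMeasure_restrict.2 hU.measure_lt_top.ne

theorem near {U : Set (X d)} (hU : IsBounded U) :
    ∃ R : ℝ, ∀ᵐ z ∂vo U, z ∈ closedBall (0 : X d) R := by
  obtain ⟨R, hR⟩ := hU.subset_closedBall 0
  exact ⟨R, ae_mono (Measure.restrict_mono hR le_rfl) (ae_restrict_mem measurableSet_closedBall)⟩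

/-- continuous maps are bounded on bounded sets -/
theorem bdd {F : Type} [NormedAddCommGroup F] {U : Set (X d)} (hU : IsBounded U) {w : X d → F}
    (hw : Continuous w) : ∃ A : ℝ, 0 ≤ A ∧ ∀ᵐ z ∂vo U, ‖w z‖ ≤ A := by
  obtain ⟨R, hz⟩ := near hU
  obtain ⟨A, hA⟩ := (isCompact_closedBall (0 : X d) R).exists_bound_of_continuousOn hw.continuousOn
  exact ⟨max A 0, le_max_right _ _, hz.mono fun z r => (hA z r).trans (le_max_left _ _)⟩

variable {E : Type} [NormedAddCommGroup E] [NormedSpace ℝ E] {E' : Type} [NormedAddCommGroup E']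
  [NormedSpace ℝ E']

theorem cf {v : E → E'} (hv : ContDiff ℝ 1 v) : Continuous (fderiv ℝ v) :=
  hv.continuous_fderiv one_ne_zero

theorem df {v : E → E'} (hv : ContDiff ℝ 1 v) (z : E) : HasFDerivAt v (fderiv ℝ v z) z :=
  (hv.differentiable one_ne_zero z).hasFDerivAt

theorem grow {Φ : E → E'} {b : ℝ} (hΦ : ContDiff ℝ 1 Φ) (hb : ∀ w, ‖fderiv ℝ Φ w‖ ≤ b) (w : E) :
    ‖Φ w‖ ≤ ‖Φ 0‖ + b * ‖w‖ := by
  have := convex_univ.norm_image_sub_le_of_norm_fderiv_le (𝕜 := ℝ) (f := Φ) (C := b)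
    (fun x _ => (df hΦ x).differentiableAt) (fun x _ => hb x) (mem_univ 0) (mem_univ w)
  rw [sub_zero] at this
  linarith [norm_sub_norm_le (Φ w) (Φ 0)]

theorem map_le {U U' : Set (X d)} (a : X d) (T : X d ≃L[ℝ] X d) (h : ∀ z ∈ U', a + T z ∈ U) :
    ∃ c : ℝ≥0∞, c ≠ ⊤ ∧ (vo U').map (fun z => a + T z) ≤ c • vo U := by
  have hd : LinearMap.det (T : X d →ₗ[ℝ] X d) ≠ 0 := T.toLinearEquiv.isUnit_det'.ne_zero
  have h1 := Measure.map_linearMap_addHaar_eq_smul_addHaar (volume : Measure (X d)) hd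
  have me : MeasurableEmbedding fun z => a + T z :=
    (measurableEmbedding_addLeft a).comp T.toHomeomorph.measurableEmbedding
  refine ⟨ENNReal.ofReal |(LinearMap.det (T : X d →ₗ[ℝ] X d))⁻¹|, ENNReal.ofReal_ne_top, ?_⟩
  have h2 : (volume : Measure (X d)).map (fun z => a + T z) =
      ENNReal.ofReal |(LinearMap.det (T : X d →ₗ[ℝ] X d))⁻¹| • volume := by
    have : (fun z => a + T z) = (fun z => a + z) ∘ (T : X d →ₗ[ℝ] X d) := rfl
    have m : Measurable (T : X d →ₗ[ℝ] X d) := T.continuous.measurable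
    rw [this, ← Measure.map_map (measurable_const_add a) m, h1,
      Measure.map_smul, map_add_left_eq_self]
  rw [← Measure.restrict_smul, ← h2, me.restrict_map]
  exact Measure.map_mono (Measure.restrict_mono h le_rfl) me.measurable

end SobA

open SobA

variable {E : Type} [NormedAddCommGroup E] [NormedSpace ℝ E] {E' : Type} [NormedAddCommGroup E']
  [NormedSpace ℝ E'] {U U' : Set (X d)} {u u' u0 : X d → E} {D D' D0 : X d → L d E}

theorem Sb.mono (h : Sb q U u D) (hU : U' ⊆ U) : Sb q U' u D := by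
  obtain ⟨v, hv, g, hg, h⟩ := h
  exact ⟨v, hv, g, hg.mono_measure (Measure.restrict_mono hU le_rfl),
    ae_restrict_of_ae_restrict_of_subset hU h⟩

theorem Sb.congr (h : Sb q U u D) (h1 : u =ᵐ[vo U] u') (h2 : D =ᵐ[vo U] D') : Sb q U u' D' := by
  obtain ⟨v, hv, g, hg, h⟩ := h
  refine ⟨v, hv, g, hg, ?_⟩
  filter_upwards [h, h1, h2] with z a b c
  rwa [← b, ← c]

theorem Sb.memLp (h : Sb q U u D) : MemLp u q (vo U) ∧ MemLp D q (vo U) := by
  obtain ⟨v, hv, g, hg, h⟩ := h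
  refine ⟨hg.mono' (aestronglyMeasurable_of_tendsto_ae atTop
    (fun n => (hv n).continuous.aestronglyMeasurable) (h.mono fun z a => a.2.1))
    (h.mono fun z a => le_of_tendsto' a.2.1.norm fun n => (a.1 n).1),
    hg.mono' (aestronglyMeasurable_of_tendsto_ae atTop
    (fun n => (cf (hv n)).aestronglyMeasurable) (h.mono fun z a => a.2.2))
    (h.mono fun z a => le_of_tendsto' a.2.2.norm fun n => (a.1 n).2)⟩

/-- a smaller exponent -/
theorem Sb.down (h : Sb q U u D) (hU : IsBounded U) (hq : q' ≤ q) : Sb q' U u D := by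
  obtain ⟨v, hv, g, hg, h⟩ := h
  have := fin hU
  exact ⟨v, hv, g, hg.mono_exponent hq, h⟩

theorem Sb.apx (h0 : q ≠ 0) (h1 : q ≠ ⊤) (h : Sb q U u D) : ∃ v : ℕ → X d → E,
    (∀ n, ContDiff ℝ 1 (v n)) ∧ Tendsto (fun n => eLpNorm (v n - u) q (vo U)) atTop (𝓝 0) ∧
      Tendsto (fun n => eLpNorm (fderiv ℝ (v n) - D) q (vo U)) atTop (𝓝 0) := by
  obtain ⟨v, hv, g, hg, h⟩ := h
  exact ⟨v, hv, dct h0 h1 (fun n => (hv n).continuous.aestronglyMeasurable) hg
    (h.mono fun z a n => (a.1 n).1) (h.mono fun z a => a.2.1),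
    dct h0 h1 (fun n => (cf (hv n)).aestronglyMeasurable) hg
    (h.mono fun z a n => (a.1 n).2) (h.mono fun z a => a.2.2)⟩

theorem sb_of_apx (h0 : 1 ≤ q) (h1 : q ≠ ⊤) (hu : MemLp u q (vo U)) (hD : MemLp D q (vo U))
    (h : ∀ ε : ℝ≥0∞, 0 < ε → ∃ w : X d → E, ContDiff ℝ 1 w ∧
      eLpNorm (w - u) q (vo U) ≤ ε ∧ eLpNorm (fderiv ℝ w - D) q (vo U) ≤ ε) : Sb q U u D := by
  choose w hw b1 b2 using fun n : ℕ => h (2⁻¹ ^ n) (ENNReal.pow_pos (by simp) n)
  obtain ⟨g1, m1, a1⟩ := dom h0 h1 (fun n => (hw n).continuous.aestronglyMeasurable.sub hu.1) b1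
  obtain ⟨g2, m2, a2⟩ := dom h0 h1 (fun n => (cf (hw n)).aestronglyMeasurable.sub hD.1) b2
  refine ⟨w, hw, fun z => g1 z + ‖u z‖ + (g2 z + ‖D z‖), (m1.add hu.norm).add (m2.add hD.norm), ?_⟩
  filter_upwards [a1, a2] with z b1 b2
  refine ⟨fun n => ?_, tendsto_sub_nhds_zero_iff.1 b1.2, tendsto_sub_nhds_zero_iff.1 b2.2⟩
  have c1 : ‖w n z - u z‖ ≤ g1 z := b1.1 n
  have c2 : ‖fderiv ℝ (w n) z - D z‖ ≤ g2 z := b2.1 n
  have d1 := norm_sub_norm_le (w n z) (u z)
  have d2 := norm_sub_norm_le (fderiv ℝ (w n) z) (D z)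
  constructor <;> linarith [norm_nonneg (w n z - u z), norm_nonneg (fderiv ℝ (w n) z - D z),
    norm_nonneg (u z), norm_nonneg (D z)]

/-- limits in norm -/
theorem sb_lim (h0 : 1 ≤ q) (h1 : q ≠ ⊤) {u : ℕ → X d → E} {D : ℕ → X d → L d E}
    (h : ∀ n, Sb q U (u n) (D n)) (hu : AEStronglyMeasurable u0 (vo U))
    (hD : AEStronglyMeasurable D0 (vo U))
    (t1 : Tendsto (fun n => eLpNorm (u n - u0) q (vo U)) atTop (𝓝 0))
    (t2 : Tendsto (fun n => eLpNorm (D n - D0) q (vo U)) atTop (𝓝 0)) : Sb q U u0 D0 := by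
  refine sb_of_apx h0 h1 (mem_lim (fun n => (h n).memLp.1) hu t1)
    (mem_lim (fun n => (h n).memLp.2) hD t2) fun ε hε => ?_
  have hε' := Iic_mem_nhds (ENNReal.half_pos hε.ne')
  obtain ⟨n, a, b⟩ := ((t1.eventually hε').and (t2.eventually hε')).exists
  obtain ⟨w, hw, s1, s2⟩ := (h n).apx (one_pos.trans_le h0).ne' h1
  obtain ⟨m, c, e⟩ := ((s1.eventually hε').and (s2.eventually hε')).exists
  exact ⟨w m, hw m, tri h0 (hw m).continuous.aestronglyMeasurable (h n).memLp.1.1 hu c a,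
    tri h0 (cf (hw m)).aestronglyMeasurable (h n).memLp.2.1 hD e b⟩

/-- dominated limits -/
theorem sb_dom (h0 : 1 ≤ q) (h1 : q ≠ ⊤) {u : ℕ → X d → E} {D : ℕ → X d → L d E}
    (h : ∀ n, Sb q U (u n) (D n)) (hd : Dom q U u D u0 D0) : Sb q U u0 D0 := by
  obtain ⟨g, hg, hd⟩ := hd
  have q0 := (one_pos.trans_le h0).ne'
  exact sb_lim h0 h1 h
    (aestronglyMeasurable_of_tendsto_ae atTop (fun n => (h n).memLp.1.1) (hd.mono fun z a => a.2.1))
    (aestronglyMeasurable_of_tendsto_ae atTop (fun n => (h n).memLp.2.1) (hd.mono fun z a => a.2.2))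
    (dct q0 h1 (fun n => (h n).memLp.1.1) hg (hd.mono fun z a n => (a.1 n).1)
      (hd.mono fun z a => a.2.1))
    (dct q0 h1 (fun n => (h n).memLp.2.1) hg (hd.mono fun z a n => (a.1 n).2)
      (hd.mono fun z a => a.2.2))

theorem sb_c1 (hU : IsBounded U) (h : ContDiff ℝ 1 u) : Sb q U u (fderiv ℝ u) := by
  have := fin hU
  obtain ⟨A, -, hA⟩ := bdd hU h.continuous
  obtain ⟨B, -, hB⟩ := bdd hU (cf h)
  refine ⟨fun _ => u, fun _ => h, fun _ => max A B, memLp_const _, ?_⟩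
  filter_upwards [hA, hB] with z a b
  exact ⟨fun _ => ⟨a.trans (le_max_left ..), b.trans (le_max_right ..)⟩,
    tendsto_const_nhds, tendsto_const_nhds⟩

/-- the chain rule -/
theorem Sb.chain {Φ : E → E'} {b : ℝ} (h : Sb q U u D) (hU : IsBounded U) (hΦ : ContDiff ℝ 1 Φ)
    (hb : ∀ w, ‖fderiv ℝ Φ w‖ ≤ b) :
    Sb q U (fun z => Φ (u z)) fun z => (fderiv ℝ Φ (u z)).comp (D z) := by
  obtain ⟨v, hv, g, hg, h⟩ := h
  have := fin hU
  have b0 : 0 ≤ b := (norm_nonneg _).trans (hb 0)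
  have e : ∀ n z, fderiv ℝ (fun z => Φ (v n z)) z = (fderiv ℝ Φ (v n z)).comp (fderiv ℝ (v n) z) :=
    fun n z => ((df hΦ (v n z)).comp z (df (hv n) z)).fderiv
  have m : MemLp (fun z => ‖Φ 0‖ + b * g z) q (vo U) :=
    MemLp.add (f := fun _ => ‖Φ 0‖) (g := fun z => b * g z) (memLp_const _) (hg.const_mul b)
  refine ⟨fun n z => Φ (v n z), fun n => hΦ.comp (hv n), fun z => ‖Φ 0‖ + b * g z, m, ?_⟩
  filter_upwards [h] with z a
  simp only [e]
  refine ⟨fun n => ⟨?_, ?_⟩, (hΦ.continuous.tendsto _).comp a.2.1, ?_⟩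
  · have := mul_le_mul_of_nonneg_left (a.1 n).1 b0
    linarith [grow hΦ hb (v n z)]
  · have := mul_le_mul (hb (v n z)) (a.1 n).2 (norm_nonneg _) b0
    linarith [(fderiv ℝ Φ (v n z)).opNorm_comp_le (fderiv ℝ (v n) z), norm_nonneg (Φ 0)]
  · have c : Tendsto (fun n => fderiv ℝ Φ (v n z)) atTop (𝓝 (fderiv ℝ Φ (u z))) :=
      ((cf hΦ).tendsto _).comp a.2.1
    have k : Continuous fun p : (E →L[ℝ] E') × L d E => p.1.comp p.2 :=
      continuous_fst.clm_comp continuous_snd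
    exact (k.tendsto (_, _)).comp (c.prodMk_nhds a.2.2)

/-- linear maps -/
theorem Sb.clm (h : Sb q U u D) (hU : IsBounded U) (A : E →L[ℝ] E') :
    Sb q U (fun z => A (u z)) fun z => A.comp (D z) := by
  simpa only [ContinuousLinearMap.fderiv] using
    h.chain (b := ‖A‖) hU A.contDiff fun w => by rw [A.fderiv]

/-- pairs -/
theorem Sb.prod {w : X d → E'} {F : X d → L d E'} (h : Sb q U u D) (h' : Sb q U w F) :
    Sb q U (fun z => (u z, w z)) fun z => (D z).prod (F z) := by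
  obtain ⟨v, hv, g, hg, h⟩ := h
  obtain ⟨v', hv', g', hg', h'⟩ := h'
  have e : ∀ n z, fderiv ℝ (fun z => (v n z, v' n z)) z =
      (fderiv ℝ (v n) z).prod (fderiv ℝ (v' n) z) := fun n z =>
    ((df (hv n) z).prodMk (df (hv' n) z)).fderiv
  refine ⟨fun n z => (v n z, v' n z), fun n => (hv n).prodMk (hv' n), fun z => g z + g' z,
    hg.add hg', ?_⟩
  filter_upwards [h, h'] with z a a'
  have g0 : 0 ≤ g z := (norm_nonneg _).trans (a.1 0).1
  have g0' : 0 ≤ g' z := (norm_nonneg _).trans (a'.1 0).1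
  simp only [e]
  refine ⟨fun n => ⟨?_, ?_⟩, a.2.1.prodMk_nhds a'.2.1, ?_⟩
  · exact max_le (by linarith [(a.1 n).1]) (by linarith [(a'.1 n).1])
  · rw [ContinuousLinearMap.opNorm_prod]
    exact max_le (by linarith [(a.1 n).2]) (by linarith [(a'.1 n).2])
  · exact ((ContinuousLinearMap.prodₗᵢ ℝ).continuous.tendsto (D z, F z)).comp
      (a.2.2.prodMk_nhds a'.2.2)

theorem Sb.add (h : Sb q U u D) (hU : IsBounded U) (h' : Sb q U u' D') :
    Sb q U (fun z => u z + u' z) fun z => D z + D' z :=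
  ((h.prod h').clm hU (ContinuousLinearMap.fst ℝ E E + ContinuousLinearMap.snd ℝ E E)).congr
    (Eventually.of_forall fun _ => rfl) (Eventually.of_forall fun _ => by ext; simp)

theorem Sb.const_smul (h : Sb q U u D) (hU : IsBounded U) (t : ℝ) :
    Sb q U (fun z => t • u z) fun z => t • D z :=
  (h.clm hU (t • ContinuousLinearMap.id ℝ E)).congr
    (Eventually.of_forall fun _ => rfl) (Eventually.of_forall fun _ => by ext; simp)

theorem Sb.sub (h : Sb q U u D) (hU : IsBounded U) (h' : Sb q U u' D') :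
    Sb q U (fun z => u z - u' z) fun z => D z - D' z := by
  simpa only [neg_one_smul, ← sub_eq_add_neg] using h.add hU (h'.const_smul hU (-1))

theorem sb_aff (hU : IsBounded U) (B : L d E) (c : E) : Sb q U (fun z => B z + c) fun _ => B := by
  have := sb_c1 (q := q) (u := fun z => B z + c) hU (B.contDiff.add contDiff_const)
  exact this.congr EventuallyEq.rfl
    (Eventually.of_forall fun z => (B.hasFDerivAt.add_const c).fderiv)

theorem Sb.lin (h : Sb q U u D) (hU : IsBounded U) (h' : Sb q U u' D') (t t' : ℝ) (B : L d E)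
    (c : E) :
    Sb q U (fun z => t • u z + t' • u' z + B z + c) fun z => t • D z + t' • D' z + B := by
  simpa only [add_assoc] using
    ((h.const_smul hU t).add hU (h'.const_smul hU t')).add hU (sb_aff hU B c)

/-- the product with a function of class `C^1` -/
theorem Sb.cut {η : X d → ℝ} (h : Sb q U u D) (hU : IsBounded U) (hη : ContDiff ℝ 1 η) :
    Sb q U (fun z => η z • u z) fun z => η z • D z + (fderiv ℝ η z).smulRight (u z) := by
  obtain ⟨v, hv, g, hg, h⟩ := h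
  obtain ⟨A, A0, hA⟩ := bdd hU hη.continuous
  obtain ⟨B, B0, hB⟩ := bdd hU (cf hη)
  have e : ∀ n z, fderiv ℝ (fun z => η z • v n z) z =
      η z • fderiv ℝ (v n) z + (fderiv ℝ η z).smulRight (v n z) := fun n z =>
    ((df hη z).smul (df (hv n) z)).fderiv
  refine ⟨fun n z => η z • v n z, fun n => hη.smul (hv n), fun z => (A + B) * g z,
    hg.const_mul _, ?_⟩
  filter_upwards [h, hA, hB] with z a a1 a2
  have g0 : 0 ≤ g z := (norm_nonneg _).trans (a.1 0).1
  simp only [e]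
  refine ⟨fun n => ⟨?_, ?_⟩, a.2.1.const_smul _, (a.2.2.const_smul _).add ?_⟩
  · rw [norm_smul]
    nlinarith [mul_le_mul a1 (a.1 n).1 (norm_nonneg _) A0]
  · refine (norm_add_le _ _).trans ?_
    rw [norm_smul, ContinuousLinearMap.norm_smulRight_apply]
    nlinarith [mul_le_mul a1 (a.1 n).2 (norm_nonneg _) A0, mul_le_mul a2 (a.1 n).1 (norm_nonneg _) B0]
  · exact ((ContinuousLinearMap.smulRightL ℝ (X d) E (fderiv ℝ η z)).continuous.tendsto _).comp
      a.2.1

/-- affine changes of the variable -/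
theorem Sb.aff (h : Sb q U u D) (a : X d) (T : X d ≃L[ℝ] X d) (hU : ∀ z ∈ U', a + T z ∈ U) :
    Sb q U' (fun z => u (a + T z)) fun z => (D (a + T z)).comp (T : L d (X d)) := by
  obtain ⟨v, hv, g, hg, h⟩ := h
  obtain ⟨c, hc, hm⟩ := map_le a T hU
  have s : ContDiff ℝ 1 fun z : X d => a + T z := contDiff_const.add T.contDiff
  have e : ∀ n z, fderiv ℝ (fun z => v n (a + T z)) z =
      (fderiv ℝ (v n) (a + T z)).comp (T : L d (X d)) := fun n z =>
    ((df (hv n) _).comp z (T.hasFDerivAt.const_add a)).fderiv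
  have m := s.continuous.measurable.aemeasurable (μ := vo U')
  refine ⟨fun n z => v n (a + T z), fun n => (hv n).comp s,
    fun z => (1 + ‖(T : L d (X d))‖) * g (a + T z),
    ((hg.of_measure_le_smul hc hm).comp_of_map m).const_mul _, ?_⟩
  filter_upwards [ae_of_ae_map m ((Measure.absolutelyContinuous_of_le_smul hm).ae_le h)] with z k
  simp only [e]
  have g0 : 0 ≤ g (a + T z) := (norm_nonneg _).trans (k.1 0).1
  have c' : Continuous fun p : L d E => p.comp (T : L d (X d)) :=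
    continuous_id.clm_comp continuous_const
  refine ⟨fun n => ⟨?_, ?_⟩, k.2.1, (c'.tendsto _).comp k.2.2⟩
  · nlinarith [(k.1 n).1, norm_nonneg (T : L d (X d))]
  · refine (ContinuousLinearMap.opNorm_comp_le _ _).trans ?_
    nlinarith [(k.1 n).2, norm_nonneg (T : L d (X d))]

/-- dilations and translations -/
theorem Sb.sca (h : Sb q U u D) (a : X d) {t : ℝ} (ht : t ≠ 0) (hU : ∀ z ∈ U', a + t • z ∈ U) :
    Sb q U' (fun z => u (a + t • z)) fun z => t • D (a + t • z) :=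
  (h.aff a (ContinuousLinearEquiv.smulLeft (Units.mk0 t ht)) hU).congr
    (Eventually.of_forall fun _ => rfl) (Eventually.of_forall fun _ => by ext; simp)

theorem Sb.shift (h : Sb q U u D) (a : X d) (hU : ∀ z ∈ U', z + a ∈ U) :
    Sb q U' (fun z => u (z + a)) fun z => D (z + a) := by
  simpa only [one_smul, add_comm a] using
    h.sca (U' := U') a one_ne_zero (by simpa only [one_smul, add_comm a] using hU)

end Pool.Agent.MP_815c6c_an.S
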