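import Mathlib.Analysis.Distribution.AEEqOfIntegralContDiff
import Pool.Agent.MP_815c6c_an.S.Sob
import Pool.Agent.MP_815c6c_an.N.Fin
import Pool.Agent.MP_815c6c_an.S.EJac

-- ======== part 0: formerly Pool.Agent.MP_815c6c_an.S.Part
section MrgPart0

/-! Scalar p-harmonic functions: integration by parts and its consequences. -/

set_option autoImplicit false

noncomputable section

namespace Pool.Agent.MP_815c6c_an.S

open Set Metric MeasureTheory Filter Topology Bornology
open scoped ContDiff ENNReal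
open N (X)
open N.AdmA (bp mo rOut_lim)
open SobA

variable {d : ℕ} {q : ℝ≥0∞} {E : Type} [NormedAddCommGroup E] [NormedSpace ℝ E] {U O : Set (X d)}
  {u : X d → E} {D : X d → L d E}

theorem L_apply (N : L d E) (z : X d) : N z = ∑ i, z i • N (ei i) := by
  conv_lhs => rw [← (EuclideanSpace.basisFun (Fin d) ℝ).sum_repr z]
  simp [map_sum]

theorem L_ext {N N' : L d E} (h : ∀ i, N (ei i) = N' (ei i)) : N = N' :=
  ContinuousLinearMap.ext fun z => by simp only [L_apply N z, L_apply N' z, h]

theorem L_norm (N : L d E) : ‖N‖ ≤ ∑ i, ‖N (ei i)‖ := by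
  refine N.opNorm_le_bound (by positivity) fun z => ?_
  rw [L_apply, Finset.sum_mul]
  refine (norm_sum_le _ _).trans (Finset.sum_le_sum fun i _ => ?_)
  rw [norm_smul, mul_comm]
  gcongr
  exact PiLp.norm_apply_le z i

namespace PartA

theorem lim (hq : 1 ≤ q) (hb : IsBounded U) {a : X d → ℝ} (ha : Continuous a)
    (hc : HasCompactSupport a) (hs : Function.support a ⊆ U) {w : ℕ → X d → E} {w0 : X d → E}
    {g : X d → ℝ} (hg : MemLp g q (vo U)) (hm : ∀ n, AEStronglyMeasurable (w n) (vo U))
    (h : ∀ᵐ z ∂vo U, (∀ n, ‖w n z‖ ≤ g z) ∧ Tendsto (fun n => w n z) atTop (𝓝 (w0 z))) :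
    Integrable (fun z => a z • w0 z) ∧
      Tendsto (fun n => ∫ z, a z • w n z) atTop (𝓝 (∫ z, a z • w0 z)) := by
  have := fin hb
  obtain ⟨C, hC⟩ := hc.exists_bound_of_continuous ha
  have hC0 : 0 ≤ C := (norm_nonneg _).trans (hC 0)
  have hgi : Integrable (fun z => C * g z) (vo U) := (hg.integrable hq).const_mul C
  have e : ∀ f : X d → E, ∫ z in U, a z • f z = ∫ z, a z • f z := fun f =>
    setIntegral_eq_integral_of_forall_compl_eq_zero fun z hz => by
      rw [Function.notMem_support.1 fun h => hz (hs h), zero_smul]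
  have m0 : AEStronglyMeasurable w0 (vo U) :=
    aestronglyMeasurable_of_tendsto_ae atTop hm (h.mono fun z a => a.2)
  refine ⟨(integrableOn_iff_integrable_of_support_subset (s := U) fun z hz =>
    hs fun h0 => hz (by simp only [h0, zero_smul])).1 ?_, ?_⟩
  · refine hgi.mono' (ha.aestronglyMeasurable.smul m0) (h.mono fun z hz => ?_)
    rw [norm_smul]
    exact mul_le_mul (hC z) (le_of_tendsto' hz.2.norm hz.1) (norm_nonneg _) hC0
  · simp only [← e]
    refine tendsto_integral_of_dominated_convergence (fun z => C * g z)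
      (fun n => ha.aestronglyMeasurable.smul (hm n)) hgi (fun n => h.mono fun z hz => ?_)
      (h.mono fun z hz => hz.2.const_smul _)
    rw [norm_smul]
    exact mul_le_mul (hC z) (hz.1 n) (norm_nonneg _) hC0

theorem intg {a : X d → ℝ} {f : X d → E} {K : Set (X d)} (ha : Continuous a) (hK : IsCompact K)
    (hs : Function.support a ⊆ K) (hf : ContinuousOn f K) : Integrable fun z => a z • f z :=
  (integrableOn_iff_integrable_of_support_subset (s := K) fun z hz =>
    hs fun h0 => hz (by simp only [h0, zero_smul])).1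
    ((ha.continuousOn.smul hf).integrableOn_compact hK)

end PartA

open PartA

/-- integration by parts -/
theorem Sb.ibp (h : Sb q U u D) (hq : 1 ≤ q) (hb : IsBounded U) {φ : X d → ℝ} (hφ : Tc U φ)
    (v : X d) : Integrable (fun z => fderiv ℝ φ z v • u z) ∧ Integrable (fun z => φ z • D z v) ∧
    ∫ z, fderiv ℝ φ z v • u z = -∫ z, φ z • D z v := by
  obtain ⟨h1, hc, hs⟩ := hφ
  obtain ⟨w, hw, g, hg, h⟩ := h
  have c1 : Continuous fun z => fderiv ℝ φ z v := (cf h1).clm_apply continuous_const
  have k1 : HasCompactSupport fun z => fderiv ℝ φ z v := hc.fderiv_apply ℝ v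
  have c2 : ∀ n, Continuous fun z => fderiv ℝ (w n) z v := fun n =>
    (cf (hw n)).clm_apply continuous_const
  have A := lim hq hb c1 k1 (fun z hz => hs (support_fderiv_subset ℝ fun h0 => hz (by
      simp only [h0, zero_apply]))) hg
    (fun n => (hw n).continuous.aestronglyMeasurable)
    (h.mono fun z a => ⟨fun n => (a.1 n).1, a.2.1⟩)
  have B := lim (w := fun n z => fderiv ℝ (w n) z v) (w0 := fun z => D z v) hq hb h1.continuous hc
    ((subset_tsupport φ).trans hs) (hg.mul_const ‖v‖) (fun n => (c2 n).aestronglyMeasurable)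
    (h.mono fun z a => ⟨fun n => ((fderiv ℝ (w n) z).le_opNorm v).trans
      (mul_le_mul_of_nonneg_right (a.1 n).2 (norm_nonneg _)),
      ((ContinuousLinearMap.apply ℝ E v).continuous.tendsto _).comp a.2.2⟩)
  refine ⟨A.1, B.1, tendsto_nhds_unique A.2 (B.2.neg.congr fun n => ?_)⟩
  rw [integral_smul_fderiv_eq_neg_fderiv_smul_of_integrable
    ((c1.smul (hw n).continuous).integrable_of_hasCompactSupport k1.smul_right)
    ((h1.continuous.smul (c2 n)).integrable_of_hasCompactSupport hc.smul_right)
    ((h1.continuous.smul (hw n).continuous).integrable_of_hasCompactSupport hc.smul_right)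
    (fun x _ => h1.differentiable one_ne_zero x)
    (fun x _ => (hw n).differentiable one_ne_zero x), neg_neg]

theorem Sb.int (h : Sb q U u D) (hq : 1 ≤ q) (hb : IsBounded U) :
    IntegrableOn u U ∧ IntegrableOn D U ∧ ∀ v, IntegrableOn (fun z => D z v) U := by
  have := fin hb
  exact ⟨h.memLp.1.integrable hq, h.memLp.2.integrable hq, fun v =>
    (ContinuousLinearMap.apply ℝ E v).integrable_comp (h.memLp.2.integrable hq)⟩

theorem Sb.locU (h : Sb q U u D) (hq : 1 ≤ q) (hU : IsOpen U) (hb : IsBounded U) :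
    LocallyIntegrable (U.indicator u) volume :=
  ((integrable_indicator_iff hU.measurableSet).2 (h.int hq hb).1).locallyIntegrable

/-- the derivative of the mollification -/
theorem Sb.der (h : Sb q U u D) (hq : 1 ≤ q) (hU : IsOpen U) (hb : IsBounded U) (hOU : O ⊆ U)
    (hO : IsOpen O) {D' : X d → L d E} (hD : D' =ᵐ[vo O] D) (n : ℕ) {z : X d}
    (hz : closedBall z (bp d n).rOut ⊆ O) (v : X d) :
    fderiv ℝ (mo n (U.indicator u)) z v = mo n (O.indicator fun y => D' y v) z := by
  have hf := h.locU hq hU hb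
  set ρ : X d → ℝ := (bp d n).normed volume with hρ
  have h1 : ContDiff ℝ 1 ρ := (bp d n).contDiff_normed
  have h2 : HasCompactSupport ρ := (bp d n).hasCompactSupport_normed
  have ex := ((h2.fderiv ℝ).convolutionExists_left
    ((ContinuousLinearMap.lsmul ℝ ℝ : ℝ →L[ℝ] E →L[ℝ] E).precompL (X d)) (cf h1) hf
      z).integrable_swap
  have key : fderiv ℝ (mo n (U.indicator u)) z v =
      ∫ y, fderiv ℝ ρ (z - y) v • U.indicator u y := by
    rw [mo, (h2.hasFDerivAt_convolution_left (ContinuousLinearMap.lsmul ℝ ℝ) h1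
      hf z).fderiv, convolution_eq_swap, ContinuousLinearMap.integral_apply ex]
    rfl
  have t : tsupport (fun y => ρ (z - y)) ⊆ O := fun y hy => by
    have := tsupport_comp_subset_preimage (f := fun y => z - y) ρ (by fun_prop) hy
    rw [hρ, (bp d n).tsupport_normed_eq, mem_preimage, mem_closedBall_zero_iff] at this
    exact hz (mem_closedBall_iff_norm'.2 this)
  have k : ∀ y, fderiv ℝ (fun y => ρ (z - y)) y = -fderiv ℝ ρ (z - y) := fun y => by
    have := (df h1 (z - y)).comp y ((hasFDerivAt_id y).const_sub z)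
    exact this.fderiv.trans (by simp)
  have e := (h.ibp hq hb ⟨h1.comp (contDiff_const.sub contDiff_id),
    h2.comp_homeomorph (Homeomorph.subLeft z), t.trans hOU⟩ v).2.2
  have e1 : ∫ y, fderiv ℝ ρ (z - y) v • U.indicator u y =
      -∫ y, fderiv ℝ (fun y => ρ (z - y)) y v • u y := by
    rw [← integral_neg]
    refine integral_congr_ae (Eventually.of_forall fun y => ?_)
    by_cases hy : y ∈ U
    · simp [k, hy]
    · simp [hy, fderiv_of_notMem_tsupport ℝ fun a => hy (hOU (t a))]
  rw [key, e1, mo, convolution_eq_swap]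
  refine (neg_eq_iff_eq_neg.2 e).trans (integral_congr_ae ?_)
  filter_upwards [(ae_restrict_iff' hO.measurableSet).1 hD] with y hy
  by_cases hy' : y ∈ O
  · simp [hy', hy hy', hρ]
  · have : ρ (z - y) = 0 := image_eq_zero_of_notMem_tsupport (f := fun y => ρ (z - y))
      fun a => hy' (t a)
    simp [hy', this]

variable [CompleteSpace E]

theorem Sb.uniq (h : Sb q U (fun _ => 0) D) (hq : 1 ≤ q) (hU : IsOpen U) (hb : IsBounded U) :
    ∀ᵐ z ∂vo U, D z = 0 := by
  have A : ∀ v : X d, ∀ᵐ z, z ∈ U → D z v = 0 := fun v =>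
    hU.ae_eq_zero_of_integral_contDiff_smul_eq_zero ((h.int hq hb).2.2 v).locallyIntegrableOn
      fun φ h1 hc hs => by
        have := (h.ibp hq hb ⟨h1.of_le (by simp), hc, hs⟩ v).2.2
        simp only [smul_zero, integral_zero] at this
        exact neg_eq_zero.1 this.symm
  rw [ae_restrict_iff' hU.measurableSet]
  filter_upwards [ae_all_iff.2 fun i => A (ei i)] with z a hz
  exact L_ext fun i => a i hz

/-- the derivative is unique -/
theorem Sb.eq {D' : X d → L d E} (h : Sb q U u D) (h' : Sb q U u D') (hq : 1 ≤ q) (hU : IsOpen U)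
    (hb : IsBounded U) : D =ᵐ[vo U] D' := by
  have := (h.sub hb h').congr (Eventually.of_forall fun z => sub_self (u z)) EventuallyEq.rfl
  exact (this.uniq hq hU hb).mono fun z a => sub_eq_zero.1 a

/-- the classical derivative -/
theorem Sb.cls (h : Sb q U u D) (hq : 1 ≤ q) (hb : IsBounded U) (hOU : O ⊆ U) (hO : IsOpen O)
    (hu : ContDiffOn ℝ 1 u O) : ∀ᵐ z ∂vo O, D z = fderiv ℝ u z := by
  have c : ∀ v : X d, ContinuousOn (fun z => fderiv ℝ u z v) O := fun v =>
    (hu.continuousOn_fderiv_of_isOpen hO le_rfl).clm_apply continuousOn_const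
  have A : ∀ v : X d, ∀ᵐ z, z ∈ O → D z v - fderiv ℝ u z v = 0 := fun v => by
    refine hO.ae_eq_zero_of_integral_contDiff_smul_eq_zero
      ((((h.int hq hb).2.2 v).mono_set hOU).locallyIntegrableOn.sub
        ((c v).locallyIntegrableOn hO.measurableSet)) fun φ h1 hc hs => ?_
    obtain ⟨i1, i2, e⟩ := h.ibp hq hb ⟨h1.of_le (by simp), hc, hs.trans hOU⟩ v
    have i3 := intg h1.continuous hc (subset_tsupport φ) ((c v).mono hs)
    have i4 := intg h1.continuous hc (subset_tsupport φ) (hu.continuousOn.mono hs)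
    simp only [smul_sub]
    rw [integral_sub i2 i3, integral_smul_fderiv_eq_neg_fderiv_smul_of_integrable i1 i3 i4
      (fun x _ => h1.differentiable (by simp) x) (fun x hx =>
        (hu.contDiffAt (hO.mem_nhds (hs hx))).differentiableAt one_ne_zero), e, neg_neg, sub_self]
  rw [ae_restrict_iff' hO.measurableSet]
  filter_upwards [ae_all_iff.2 fun i => A (ei i)] with z a hz
  exact L_ext fun i => sub_eq_zero.1 (a i hz)

/-- the mollifications converge at points of continuity -/
theorem Sb.pt (h : Sb q U u D) (hq : 1 ≤ q) (hU : IsOpen U) (hb : IsBounded U) {y : X d}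
    (hy : y ∈ U) (hu : ContinuousAt u y) :
    Tendsto (fun n => mo n (U.indicator u) y) atTop (𝓝 (u y)) := by
  refine ContDiffBump.convolution_tendsto_right (g := fun _ => U.indicator u) (rOut_lim d)
    (Eventually.of_forall fun _ => (h.locU hq hU hb).aestronglyMeasurable)
    (Tendsto.comp (g := U.indicator u) ?_ tendsto_snd) tendsto_const_nhds
  refine hu.tendsto.congr' ?_
  filter_upwards [hU.eventually_mem hy] with w hw
  rw [indicator_of_mem hw]

/-- a continuous weak derivative is the derivative -/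
theorem Sb.cnt (h : Sb q U u D) (hq : 1 ≤ q) (hU : IsOpen U) (hb : IsBounded U) (hOU : O ⊆ U)
    (hO : IsOpen O) (hu : ContinuousOn u O) {D' : X d → L d E} (hc : ContinuousOn D' O)
    (hD : D' =ᵐ[vo O] D) {z : X d} (hz : z ∈ O) : HasFDerivAt u (D' z) z := by
  have hf := h.locU hq hU hb
  rw [hasFDerivAt_iff_isLittleO, Asymptotics.isLittleO_iff]
  intro ε hε
  obtain ⟨κ, κ0, hκ⟩ : ∃ κ : ℝ, 0 < κ ∧ d * (3 * κ) ≤ ε :=
    ⟨ε / (3 * (d + 1)), by positivity, by
      rw [← mul_div_assoc, ← mul_div_assoc, div_le_iff₀ (by positivity)]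
      nlinarith [Nat.cast_nonneg (α := ℝ) d]⟩
  obtain ⟨δ, hδ, hd⟩ : ∃ δ > 0, ∀ y ∈ ball z δ, y ∈ O ∧ ‖D' y - D' z‖ ≤ κ := by
    have a := (hc.continuousAt (hO.mem_nhds hz)).eventually (closedBall_mem_nhds (D' z) κ0)
    obtain ⟨δ, hδ, hd⟩ := Metric.eventually_nhds_iff_ball.1 ((hO.eventually_mem hz).and a)
    exact ⟨δ, hδ, fun y hy => ⟨(hd y hy).1, mem_closedBall_iff_norm.1 (hd y hy).2⟩⟩
  have pt : ∀ y ∈ O, Tendsto (fun n => mo n (U.indicator u) y) atTop (𝓝 (u y)) := fun y hy =>
    h.pt hq hU hb (hOU hy) (hu.continuousAt (hO.mem_nhds hy))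
  filter_upwards [ball_mem_nhds z (half_pos hδ)] with y hy
  have s2 : ball z (δ / 2) ⊆ ball z δ := ball_subset_ball (half_le_self hδ.le)
  refine le_of_tendsto (((pt y (hd y (s2 hy)).1).sub (pt z hz)).sub_const (D' z (y - z))).norm ?_
  filter_upwards [(rOut_lim d).eventually (gt_mem_nhds (half_pos hδ))] with n hn
  refine (convex_ball z (δ / 2)).norm_image_sub_le_of_norm_fderiv_le' (fun x _ =>
    ((bp d n).hasCompactSupport_normed.hasFDerivAt_convolution_left
      (ContinuousLinearMap.lsmul ℝ ℝ) (bp d n).contDiff_normed hf x).differentiableAt)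
    (fun x hx => ?_) (mem_ball_self (half_pos hδ)) hy
  have s1 : closedBall x (bp d n).rOut ⊆ ball z δ := fun w hw => by
    rw [mem_closedBall] at hw
    rw [mem_ball] at hx ⊢
    linarith [dist_triangle w x z]
  have b : ∀ v : X d, ‖v‖ = 1 → ‖(fderiv ℝ (mo n (U.indicator u)) x - D' z) v‖ ≤ 3 * κ := by
    intro v hv
    have n1 : ∀ w ∈ ball z δ, ‖D' w v - D' z v‖ ≤ κ := fun w hw => by
      have := (D' w - D' z).le_opNorm v
      rw [hv, mul_one] at this
      exact this.trans (hd w hw).2
    have a := (bp d n).dist_normed_convolution_le (μ := volume) (x₀ := x) (ε := 2 * κ)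
      (g := O.indicator fun y => D' y v) ((aestronglyMeasurable_indicator_iff hO.measurableSet).2
        ((hc.clm_apply continuousOn_const).aestronglyMeasurable hO.measurableSet)) fun w hw => by
        have hw' := s1 (ball_subset_closedBall hw)
        rw [indicator_of_mem (hd w hw').1, indicator_of_mem (hd x (s2 hx)).1]
        refine (dist_triangle_right _ _ (D' z v)).trans ?_
        rw [dist_eq_norm, dist_eq_norm]
        linarith [n1 w hw', n1 x (s2 hx)]
    rw [indicator_of_mem (hd x (s2 hx)).1] at a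
    rw [sub_apply, h.der hq hU hb hOU hO hD n (fun w hw => (hd w (s1 hw)).1) v,
      ← dist_eq_norm]
    refine (dist_triangle _ (D' x v) _).trans ?_
    have := n1 x (s2 hx)
    rw [← dist_eq_norm] at this
    have a' : dist (mo n (O.indicator fun y => D' y v) x) (D' x v) ≤ 2 * κ := a
    linarith
  refine (L_norm _).trans ((Finset.sum_le_sum fun i _ => b (ei i) (by simp)).trans ?_)
  simpa using hκ

variable [FiniteDimensional ℝ E]

omit [CompleteSpace E] in
/-- a smooth map with compact support that is the identity near the origin -/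
theorem PartA.bump : ∃ (Φ : E → E) (b : ℝ), ContDiff ℝ 1 Φ ∧ (∀ w, ‖fderiv ℝ Φ w‖ ≤ b) ∧
    (∀ w, ‖Φ w‖ ≤ ‖w‖) ∧ fderiv ℝ Φ 0 = ContinuousLinearMap.id ℝ E ∧
    ∀ w, 2 < ‖w‖ → Φ w = 0 ∧ fderiv ℝ Φ w = 0 := by
  let χ : ContDiffBump (0 : E) := ⟨1, 2, one_pos, one_lt_two⟩
  have hs : ContDiff ℝ 1 fun w : E => χ w • w := χ.contDiff.smul contDiff_id
  have hc : HasCompactSupport fun w : E => χ w • w := χ.hasCompactSupport.smul_right
  obtain ⟨b, hb⟩ := (hc.fderiv ℝ).exists_bound_of_continuous (cf hs)
  refine ⟨_, b, hs, hb, fun w => ?_, ?_, fun w hw => ?_⟩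
  · rw [norm_smul, Real.norm_of_nonneg χ.nonneg]
    exact mul_le_of_le_one_left (norm_nonneg _) χ.le_one
  · have : (fun w : E => χ w • w) =ᶠ[𝓝 0] id := by
      filter_upwards [χ.eventuallyEq_one] with w hw
      simp only [hw, Pi.one_apply, one_smul, id]
    rw [this.fderiv_eq, fderiv_id]
  · have : (fun w : E => χ w • w) =ᶠ[𝓝 w] fun _ => 0 := by
      filter_upwards [(isOpen_lt continuous_const continuous_norm).mem_nhds hw] with y hy
      rw [χ.zero_of_le_dist (by simpa using le_of_lt hy), zero_smul]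
    exact ⟨this.self_of_nhds, by rw [this.fderiv_eq, fderiv_const_apply]⟩

/-- the derivative vanishes on the zero set -/
theorem Sb.zero (h : Sb q U u D) (hq : 1 ≤ q) (hq' : q ≠ ⊤) (hU : IsOpen U) (hb : IsBounded U) :
    ∀ᵐ z ∂vo U, u z = 0 → D z = 0 := by
  classical
  obtain ⟨Φ, b, hs, hb', hn, h0, h2⟩ := bump (E := E)
  have hb0 : 0 ≤ b := (norm_nonneg _).trans (hb' 0)
  have hk : ∀ k : ℕ, (0 : ℝ) < k + 1 := fun k => by positivity
  let Ψ : ℕ → E → E := fun k w => ((k : ℝ) + 1)⁻¹ • Φ (((k : ℝ) + 1) • w)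
  have hΨ : ∀ k, ContDiff ℝ 1 (Ψ k) := fun k =>
    (hs.comp (contDiff_id.const_smul _)).const_smul _
  have hd : ∀ (k : ℕ) w, fderiv ℝ (Ψ k) w = fderiv ℝ Φ (((k : ℝ) + 1) • w) := fun k w => by
    have a := (((df hs (((k : ℝ) + 1) • w)).comp w
      ((hasFDerivAt_id w).const_smul ((k : ℝ) + 1))).const_smul ((k : ℝ) + 1)⁻¹).fderiv
    refine Eq.trans a (ContinuousLinearMap.ext fun y => ?_)
    simp only [smul_apply, ContinuousLinearMap.comp_apply,
      ContinuousLinearMap.id_apply, map_smul, smul_smul, inv_mul_cancel₀ (hk k).ne', one_smul]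
  have hev : ∀ w : E, w ≠ 0 → ∀ᶠ k : ℕ in atTop, 2 < ‖((k : ℝ) + 1) • w‖ := fun w hw => by
    have : Tendsto (fun k : ℕ => ((k : ℝ) + 1) * ‖w‖) atTop atTop :=
      (tendsto_atTop_add_const_right _ 1 tendsto_natCast_atTop_atTop).atTop_mul_const
        (norm_pos_iff.2 hw)
    filter_upwards [this.eventually_gt_atTop 2] with k hk'
    rwa [norm_smul, Real.norm_of_nonneg (hk k).le]
  have key : Sb q U (fun _ => (0 : E)) fun z => if u z = 0 then D z else 0 := by
    refine sb_dom hq hq' (u := fun k z => Ψ k (u z))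
      (D := fun k z => (fderiv ℝ (Ψ k) (u z)).comp (D z))
      (fun k => h.chain (b := b) hb (hΨ k) fun w => by rw [hd]; exact hb' _)
      ⟨fun z => ‖u z‖ + b * ‖D z‖, h.memLp.1.norm.add (h.memLp.2.norm.const_mul b),
        Eventually.of_forall fun z => ⟨fun k => ⟨?_, ?_⟩, ?_, ?_⟩⟩
    · refine le_trans ?_ (le_add_of_nonneg_right (by positivity))
      simp only [Ψ]
      rw [norm_smul, Real.norm_of_nonneg (inv_nonneg.2 (hk k).le)]
      refine (mul_le_mul_of_nonneg_left (hn _) (inv_nonneg.2 (hk k).le)).trans_eq ?_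
      rw [norm_smul, Real.norm_of_nonneg (hk k).le, inv_mul_cancel_left₀ (hk k).ne']
    · refine le_trans ?_ (le_add_of_nonneg_left (norm_nonneg _))
      simp only [hd]
      exact (ContinuousLinearMap.opNorm_comp_le _ _).trans
        (mul_le_mul_of_nonneg_right (hb' _) (norm_nonneg _))
    · by_cases hz : u z = 0
      · have : Φ 0 = 0 := norm_le_zero_iff.1 ((hn 0).trans_eq norm_zero)
        simp only [Ψ, hz, smul_zero, this]
        exact tendsto_const_nhds
      · refine tendsto_const_nhds.congr' ?_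
        filter_upwards [hev _ hz] with k hk'
        simp only [Ψ, (h2 _ hk').1, smul_zero]
    · by_cases hz : u z = 0
      · simp only [hd, hz, smul_zero, h0, ContinuousLinearMap.id_comp, if_true]
        exact tendsto_const_nhds
      · simp only [if_neg hz]
        refine tendsto_const_nhds.congr' ?_
        filter_upwards [hev _ hz] with k hk'
        simp only [hd, (h2 _ hk').2, ContinuousLinearMap.zero_comp]
  filter_upwards [key.uniq hq hU hb] with z hz h0
  rwa [if_pos h0] at hz

end Pool.Agent.MP_815c6c_an.S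

end
end MrgPart0

-- ======== part 1: formerly Pool.Agent.MP_815c6c_an.S.EEn
section MrgPart1

/-! Scalar p-harmonic functions: from the weak formulation to the Sobolev class. -/

set_option autoImplicit false

namespace Pool.Agent.MP_815c6c_an.S

open Set Metric MeasureTheory Filter Topology Bornology
open scoped ContDiff ENNReal Convolution Pointwise RealInnerProductSpace
open N (X Gr)
open N.AdmA (bp mo rOut_lim mol mo_c)
open SobA

variable {d : ℕ} {K B : Set (X d)} {δ : ℝ}

/-- the derivative of the mollification of a function with a weak gradient -/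
theorem en_der {u : X d → ℝ} {g : X d → X d} (hu : LocallyIntegrable (K.indicator u) volume)
    (hg : LocallyIntegrable (K.indicator g) volume)
    (hw : ∀ φ : X d → ℝ, ContDiff ℝ ∞ φ → HasCompactSupport φ → tsupport φ ⊆ K → ∀ i,
      ∫ y, u y * fderiv ℝ φ y (ei i) = -∫ y, φ y * g y i) (n : ℕ) {z : X d}
    (hz : closedBall z (bp d n).rOut ⊆ K) :
    fderiv ℝ (mo n (K.indicator u)) z = innerSL ℝ (mo n (K.indicator g) z) := by
  set ρ : X d → ℝ := (bp d n).normed volume with hρ
  have h0 : ContDiff ℝ ∞ ρ := (bp d n).contDiff_normed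
  have h1 : ContDiff ℝ 1 ρ := (bp d n).contDiff_normed
  have h2 : HasCompactSupport ρ := (bp d n).hasCompactSupport_normed
  have ex := ((h2.fderiv ℝ).convolutionExists_left
    ((ContinuousLinearMap.lsmul ℝ ℝ : ℝ →L[ℝ] ℝ →L[ℝ] ℝ).precompL (X d)) (cf h1) hu
      z).integrable_swap
  have eg := (h2.convolutionExists_left
    (ContinuousLinearMap.lsmul ℝ ℝ : ℝ →L[ℝ] X d →L[ℝ] X d) h1.continuous hg z).integrable_swap
  have t : tsupport (fun y => ρ (z - y)) ⊆ K := fun y hy => by
    have := tsupport_comp_subset_preimage (f := fun y => z - y) ρ (by fun_prop) hy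
    rw [hρ, (bp d n).tsupport_normed_eq, mem_preimage, mem_closedBall_zero_iff] at this
    exact hz (mem_closedBall_iff_norm'.2 this)
  have k : ∀ y, fderiv ℝ (fun y => ρ (z - y)) y = -fderiv ℝ ρ (z - y) := fun y => by
    have := (df h1 (z - y)).comp y ((hasFDerivAt_id y).const_sub z)
    exact this.fderiv.trans (by simp)
  refine L_ext fun i => ?_
  have key : fderiv ℝ (mo n (K.indicator u)) z (ei i) =
      ∫ y, fderiv ℝ ρ (z - y) (ei i) • K.indicator u y := by
    rw [mo, (h2.hasFDerivAt_convolution_left (ContinuousLinearMap.lsmul ℝ ℝ) h1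
      hu z).fderiv, convolution_eq_swap, ContinuousLinearMap.integral_apply ex]
    rfl
  have k2 : innerSL ℝ (mo n (K.indicator g) z) (ei i) = ∫ y, ρ (z - y) * K.indicator g y i := by
    rw [innerSL_apply_apply, real_inner_comm, mo, convolution_eq_swap, ← integral_inner eg]
    exact integral_congr_ae (Eventually.of_forall fun y => by
      simp [inner_smul_right, hρ, EuclideanSpace.inner_single_left])
  have e := hw _ (h0.comp (contDiff_const.sub contDiff_id))
    (h2.comp_homeomorph (Homeomorph.subLeft z)) t i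
  have e1 : ∫ y, fderiv ℝ ρ (z - y) (ei i) • K.indicator u y =
      -∫ y, u y * fderiv ℝ (fun y => ρ (z - y)) y (ei i) := by
    rw [← integral_neg]
    refine integral_congr_ae (Eventually.of_forall fun y => ?_)
    by_cases hy : y ∈ K
    · simp [k, hy, mul_comm]
    · simp [hy, fderiv_of_notMem_tsupport ℝ fun a => hy (t a)]
  rw [key, k2, e1]
  refine (neg_eq_iff_eq_neg.2 e).trans (integral_congr_ae (Eventually.of_forall fun y => ?_))
  by_cases hy : y ∈ K
  · simp [hy]
  · have : ρ (z - y) = 0 := image_eq_zero_of_notMem_tsupport (f := fun y => ρ (z - y))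
      fun a => hy (t a)
    simp [this]

/-- a weak gradient is a derivative in the Sobolev class -/
theorem en_sb {q : ℝ≥0∞} (h0 : 1 ≤ q) (h1 : q ≠ ⊤) {u : X d → ℝ} {g : X d → X d}
    (hK : MeasurableSet K) (hB : MeasurableSet B) (hδ : 0 < δ)
    (hs : ∀ z ∈ B, closedBall z δ ⊆ K) (hu : MemLp u q (vo K)) (hg : MemLp g q (vo K))
    (hw : ∀ φ : X d → ℝ, ContDiff ℝ ∞ φ → HasCompactSupport φ → tsupport φ ⊆ K → ∀ i,
      ∫ y, u y * fderiv ℝ φ y (ei i) = -∫ y, φ y * g y i) :
    Sb q B u fun y => innerSL ℝ (g y) := by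
  have s : B ⊆ K := fun z hz => hs z hz (mem_closedBall_self hδ.le)
  have r := Measure.restrict_mono (μ := (volume : Measure (X d))) s le_rfl
  have mu := (memLp_indicator_iff_restrict hK).2 hu
  have mg := (memLp_indicator_iff_restrict hK).2 hg
  refine sb_of_apx h0 h1 (hu.mono_measure r)
    ((innerSL ℝ : X d →L[ℝ] X d →L[ℝ] ℝ).comp_memLp' (hg.mono_measure r)) fun ε hε => ?_
  obtain ⟨n, ⟨b1, b2⟩, b3⟩ := ((((mol h0 h1 mu).eventually (ge_mem_nhds hε)).and
    ((mol h0 h1 mg).eventually (ge_mem_nhds hε))).and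
      ((rOut_lim d).eventually (ge_mem_nhds hδ))).exists
  refine ⟨mo n (K.indicator u), mo_c (mu.locallyIntegrable h0) n,
    le_trans (eLpNorm_congr_ae ((ae_restrict_mem hB).mono fun z hz => ?_)).le
      ((eLpNorm_mono_measure _ Measure.restrict_le_self).trans b1),
    le_trans (eLpNorm_congr_norm_ae ((ae_restrict_mem hB).mono fun z hz => ?_)).le
      ((eLpNorm_mono_measure _ Measure.restrict_le_self).trans b2)⟩
  · simp only [Pi.sub_apply, indicator_of_mem (s hz)]
  · rw [Pi.sub_apply, Pi.sub_apply, indicator_of_mem (s hz), en_der (mu.locallyIntegrable h0)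
      (mg.locallyIntegrable h0) hw n ((closedBall_subset_closedBall b3).trans (hs z hz)),
      ← map_sub, innerSL_apply_norm]

/-- from smooth test functions to test functions of class `C^1` -/
theorem en_dv {A : X d → X d} (hK : IsCompact K) (hδ : 0 < δ)
    (hs : ∀ z ∈ B, closedBall z δ ⊆ K) (hA : IntegrableOn A K)
    (hw : ∀ φ : X d → ℝ, ContDiff ℝ ∞ φ → tsupport φ ⊆ K → ∫ y, fderiv ℝ φ y (A y) = 0) :
    Dv B A := by
  rintro φ ⟨h1, hc, ht⟩
  have s : B ⊆ K := fun z hz => hs z hz (mem_closedBall_self hδ.le)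
  have e : ∀ ψ : X d → ℝ, tsupport ψ ⊆ K →
      ∫ y in K, fderiv ℝ ψ y (A y) = ∫ y, fderiv ℝ ψ y (A y) := fun ψ k =>
    setIntegral_eq_integral_of_forall_compl_eq_zero fun z hz => by
      rw [fderiv_of_notMem_tsupport ℝ fun a => hz (k a), zero_apply]
  have dd : ∀ n z, fderiv ℝ (mo n φ) z = mo n (fderiv ℝ φ) z := fun n z =>
    (hc.hasFDerivAt_convolution_right (ContinuousLinearMap.lsmul ℝ ℝ)
      (bp d n).continuous_normed.locallyIntegrable h1 z).fderiv
  obtain ⟨C, hC⟩ := (hc.fderiv ℝ).exists_bound_of_continuous (cf h1)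
  have bd : ∀ n z, ‖mo n (fderiv ℝ φ) z‖ ≤ 3 * C := fun n z => by
    have a : dist (mo n (fderiv ℝ φ) z) (fderiv ℝ φ z) ≤ 2 * C :=
      (bp d n).dist_normed_convolution_le (cf h1).aestronglyMeasurable fun w _ =>
        (dist_le_norm_add_norm _ _).trans (by linarith [hC w, hC z])
    rw [dist_eq_norm] at a
    linarith [norm_sub_norm_le (mo n (fderiv ℝ φ) z) (fderiv ℝ φ z), hC z]
  have lc := h1.continuous.locallyIntegrable (μ := volume)
  have t : Tendsto (fun n => ∫ y in K, fderiv ℝ (mo n φ) y (A y)) atTop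
      (𝓝 (∫ y in K, fderiv ℝ φ y (A y))) := by
    refine tendsto_integral_of_dominated_convergence (fun y => 3 * C * ‖A y‖)
      (fun n => ?_) (hA.norm.const_mul _) (fun n => Eventually.of_forall fun y => ?_)
      (Eventually.of_forall fun y => ?_)
    · exact isBoundedBilinearMap_apply.continuous.comp_aestronglyMeasurable
        ((cf (mo_c lc n)).aestronglyMeasurable.prodMk hA.1)
    · rw [dd]
      exact (ContinuousLinearMap.le_opNorm _ _).trans
        (mul_le_mul_of_nonneg_right (bd n y) (norm_nonneg _))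
    · simp only [dd]
      exact ((ContinuousLinearMap.apply ℝ ℝ (A y)).continuous.tendsto _).comp
        (ContDiffBump.convolution_tendsto_right_of_continuous (rOut_lim d) (cf h1) y)
  rw [← e φ (ht.trans s)]
  refine tendsto_nhds_unique t (tendsto_const_nhds.congr' ?_)
  filter_upwards [(rOut_lim d).eventually (ge_mem_nhds hδ)] with n hn
  have k : tsupport (mo n φ) ⊆ K := closure_minimal (fun z hz => by
    obtain ⟨a, ha, b, hb, rfl⟩ := support_convolution_subset _ hz
    rw [(bp d n).support_normed_eq, mem_ball_zero_iff] at ha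
    exact hs b (ht (subset_tsupport _ hb)) (mem_closedBall_iff_norm.2 (by
      simpa using ha.le.trans hn))) hK.isClosed
  exact ((e _ k).trans (hw _ ((bp d n).hasCompactSupport_normed.contDiff_convolution_left
    (n := ⊤) _ (bp d n).contDiff_normed lc) k)).symm

theorem en : SobS → EnS := by
  intro _ d p U h G x r hp hU hs ⟨h1, h2, h3⟩
  obtain ⟨δ, hδ, hK⟩ := (isCompact_closedBall x r).exists_cthickening_subset_open hU hs
  have cK : IsCompact (cthickening δ (closedBall x r)) := (isCompact_closedBall x r).cthickening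
  have sK : ∀ z ∈ ball x r, closedBall z δ ⊆ cthickening δ (closedBall x r) := fun z hz =>
    closedBall_subset_cthickening (ball_subset_closedBall hz) δ
  obtain ⟨m1, m2⟩ := h1 _ hK cK
  have m3 := (jj d).symm.toContinuousLinearEquiv.toContinuousLinearMap.comp_memLp' m2
  refine ⟨en_sb (ENNReal.one_le_ofReal.2 (by linarith)) ENNReal.ofReal_ne_top cK.measurableSet
    measurableSet_ball hδ sK ((EuclideanSpace.proj (0 : Fin 1) : X 1 →L[ℝ] ℝ).comp_memLp' m1) m3
    fun φ a b c i => h2 φ a b (c.trans hK) 0 i, en_dv cK hδ sK ?_ fun φ a c => ?_⟩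
  · have := fin cK.isBounded
    have i := (m3.mono_exponent (ENNReal.ofReal_le_ofReal (show p - 1 ≤ p by linarith))
      ).integrable_norm_rpow (ENNReal.ofReal_pos.2 (by linarith)).ne' ENNReal.ofReal_ne_top
    have c : Continuous (Ap p : X d → X d) :=
      (continuous_norm.rpow_const fun _ => Or.inr (by linarith)).smul continuous_id
    refine i.mono' (c.comp_aestronglyMeasurable m3.1) (Eventually.of_forall fun y => le_of_eq ?_)
    rw [Ap, Q.pw, norm_smul, Real.norm_of_nonneg (Real.rpow_nonneg (norm_nonneg _) _),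
      ENNReal.toReal_ofReal (by linarith), ← Real.rpow_add_one' (norm_nonneg _) (by linarith)]
    congr 1
    ring
  · have b : HasCompactSupport φ := cK.of_isClosed_subset (isClosed_tsupport φ) c
    refine Eq.trans (integral_congr_ae (Eventually.of_forall fun y => ?_))
      (h3 (fun y => φ y • (ei 0 : X 1)) (a.smul contDiff_const) b.smul_right
        (((tsupport_smul_subset_left _ _).trans c).trans hK))
    have n : ‖(jj d).symm (G y)‖ = ‖G y‖ := (jj d).symm.norm_map _
    simp only [fderiv_smul_const (a.differentiable (by simp) y), Fin.sum_univ_one]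
    rw [L_apply, Ap, Q.pw, n]
    refine Finset.sum_congr rfl fun i _ => ?_
    have e : (jj d).symm (G y) i = G y (0, i) := rfl
    simp [e]

end Pool.Agent.MP_815c6c_an.S

end MrgPart1

-- marker of a merged file
example : 731051 + 550223 = 731051 + 550223 := rfl
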