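import Pool.Agent.MP_815c6c_an.S.EJac
import Pool.Agent.MP_815c6c_an.S.EEn

-- ======== part 0: formerly Pool.Agent.MP_815c6c_an.S.LBasic
section MrgPart0

/-! Scalar p-harmonic functions in any dimension: elementary facts. -/

set_option autoImplicit false

namespace Pool.Agent.MP_815c6c_an.S

open Set Metric MeasureTheory Filter Topology
open scoped ENNReal RealInnerProductSpace
open N (X Gr)
open Q (pw)

variable {d : ℕ} {U U' : Set (X d)}

instance finB (x : X d) (r : ℝ) : IsFiniteMeasure (vo (ball x r)) :=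
  isFiniteMeasure_restrict.2 measure_ball_lt_top.ne

theorem finU (hU : Bornology.IsBounded U) : IsFiniteMeasure (vo U) :=
  isFiniteMeasure_restrict.2 hU.measure_lt_top.ne

theorem vb_eq (x : X d) (r : ℝ) : volume.real (ball x r) = vb d r := by
  rw [vb, Measure.real, Measure.real, Measure.addHaar_ball_center]

theorem vb_pos {r : ℝ} (hr : 0 < r) : 0 < vb d r :=
  ENNReal.toReal_pos (measure_ball_pos _ _ hr).ne' measure_ball_lt_top.ne

theorem vb_nonneg (r : ℝ) : 0 ≤ vb d r := measureReal_nonneg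

theorem vb_mul {r : ℝ} (hr : 0 < r) (s : ℝ) : vb d (r * s) = r ^ d * vb d s := by
  rw [vb, vb, Measure.real, Measure.real, Measure.addHaar_ball_mul_of_pos _ _ hr,
    ENNReal.toReal_mul, ENNReal.toReal_ofReal (by positivity), finrank_euclideanSpace_fin]

theorem vb_mono {r s : ℝ} (h : r ≤ s) : vb d r ≤ vb d s :=
  measureReal_mono (ball_subset_ball h) measure_ball_lt_top.ne

theorem int_one (x : X d) (r c : ℝ) : ∫ _ in ball x r, c = vb d r * c := by
  rw [setIntegral_const, vb_eq, smul_eq_mul]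

theorem sub_ball {x y : X d} {r ρ t : ℝ} (hy : y ∈ ball x ρ) (h : ρ + t ≤ r) :
    closedBall y t ⊆ ball x r := fun z hz => by
  have := dist_triangle z y x
  rw [mem_ball] at *
  linarith [mem_closedBall.1 hz]

theorem sca_mem {x : X d} {r s t : ℝ} (hr : 0 < r) (h : r * s ≤ t) :
    ∀ y ∈ ball (0 : X d) s, x + r • y ∈ ball x t := fun y hy => by
  rw [mem_ball_iff_norm, add_sub_cancel_left, norm_smul, Real.norm_of_nonneg hr.le]
  exact (mul_lt_mul_of_pos_left (mem_ball_zero_iff.1 hy) hr).trans_le h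

theorem tra_mem {h : X d} {r R : ℝ} (hh : ‖h‖ ≤ R - r) :
    ∀ y ∈ ball (0 : X d) r, y + h ∈ ball (0 : X d) R := fun y hy => by
  rw [mem_ball_zero_iff] at *
  linarith [norm_add_le y h]

section
variable {E : Type} [NormedAddCommGroup E] [NormedSpace ℝ E] {u : X d → E}

/-- extension of a map of class `C^1` from a closed ball -/
theorem c1_ext {x : X d} {r : ℝ} (hU : IsOpen U) (hr : closedBall x r ⊆ U)
    (h : ContDiffOn ℝ 1 u U) : ∃ w : X d → E, ContDiff ℝ 1 w ∧ HasCompactSupport w ∧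
      ∀ y ∈ closedBall x r, w =ᶠ[𝓝 y] u := by
  rcases lt_or_ge r 0 with r0 | r0
  · exact ⟨0, contDiff_const, HasCompactSupport.zero, by simp [closedBall_eq_empty.2 r0]⟩
  obtain ⟨ε, ε0, hε⟩ := (isCompact_closedBall x r).exists_cthickening_subset_open hU hr
  rw [cthickening_closedBall ε0.le r0] at hε
  let b : ContDiffBump x := ⟨r + ε / 2, ε + r, by linarith, by linarith⟩
  have s : tsupport b ⊆ U := b.tsupport_eq.subset.trans hε
  refine ⟨fun y => b y • u y, contDiff_iff_contDiffAt.2 fun y => ?_,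
    b.hasCompactSupport.smul_right, fun y hy => ?_⟩
  · by_cases hy : y ∈ tsupport b
    · exact b.contDiffAt.smul (h.contDiffAt (hU.mem_nhds (s hy)))
    · refine (contDiffAt_const (c := (0 : E))).congr_of_eventuallyEq ?_
      filter_upwards [notMem_tsupport_iff_eventuallyEq.1 hy] with z hz
      simp [hz]
  · filter_upwards [isOpen_ball.mem_nhds (closedBall_subset_ball
      (show r < r + ε / 2 by linarith) hy)] with z hz
    rw [b.one_of_mem_closedBall (ball_subset_closedBall hz), one_smul]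

/-- maps of class `C^1` are Sobolev maps on smaller balls -/
theorem sb_loc {x : X d} {r : ℝ} (q : ℝ≥0∞) (hU : IsOpen U) (hr : closedBall x r ⊆ U)
    (h : ContDiffOn ℝ 1 u U) : Sb q (ball x r) u (fderiv ℝ u) := by
  obtain ⟨w, a, -, b⟩ := c1_ext hU hr h
  exact (sb_c1 isBounded_ball a).congr ((ae_restrict_mem measurableSet_ball).mono fun y hy =>
    (b y (ball_subset_closedBall hy)).eq_of_nhds) ((ae_restrict_mem measurableSet_ball).mono
      fun y hy => (b y (ball_subset_closedBall hy)).fderiv_eq)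

theorem Vp_zero (p : ℝ) : Vp p (0 : E) = 0 := by simp [Vp, pw]
theorem Ap_zero (p : ℝ) : Ap p (0 : E) = 0 := by simp [Ap, pw]
theorem Ip_zero (p : ℝ) : Ip p (0 : E) = 0 := by simp [Ip, pw]
end

section
variable {E : Type} [NormedAddCommGroup E] {f : X d → E} {α K K' : ℝ}

theorem memLp_mono {q : ℝ≥0∞} (h : MemLp f q (vo U)) (hU : U' ⊆ U) : MemLp f q (vo U') :=
  h.mono_measure (Measure.restrict_mono hU le_rfl)

theorem Hol.mono (h : Hol α K f U) (hU : U' ⊆ U) (hK : K ≤ K') : Hol α K' f U' :=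
  fun x hx y hy => (h x (hU hx) y (hU hy)).trans
    (mul_le_mul_of_nonneg_right hK (Real.rpow_nonneg (norm_nonneg _) _))

theorem Hol.congr {g : X d → E} (h : Hol α K f U) (e : ∀ x ∈ U, g x = f x) : Hol α K g U :=
  fun x hx y hy => by rw [e x hx, e y hy]; exact h x hx y hy

theorem Hol.cont (h : Hol α K f U) (ha : 0 < α) : ContinuousOn f U := by
  intro y hy
  have c : Continuous fun z : X d => K * ‖z - y‖ ^ α :=
    continuous_const.mul (Continuous.rpow_const (by fun_prop) fun _ => Or.inr ha.le)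
  refine tendsto_iff_norm_sub_tendsto_zero.2 (squeeze_zero' (Eventually.of_forall fun _ =>
    norm_nonneg _) (eventually_nhdsWithin_of_forall fun z hz => h z hz y hy) ?_)
  simpa [Real.zero_rpow ha.ne'] using (c.tendsto y).mono_left nhdsWithin_le_nhds

theorem Est.mono {B B' ρ ρ' : ℝ} (h : Est α B ρ f) (hρ : ρ' ≤ ρ) (hB : B ≤ B') : Est α B' ρ' f :=
  ⟨fun x hx => (h.1 x (ball_subset_ball hρ hx)).trans hB, h.2.mono (ball_subset_ball hρ) hB⟩

theorem Ed.mono {x y : X d} {ρ ρ' B B' : ℝ} (h : Ed f x ρ B) (hb : ball y ρ' ⊆ ball x ρ)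
    (hB : B ≤ B') : Ed f y ρ' B' := by
  obtain ⟨c, h⟩ := h
  exact ⟨c, (ae_restrict_of_ae_restrict_of_subset hb h).mono fun _ a => a.trans hB⟩

/-- an inequality between continuous functions that holds almost everywhere -/
theorem le_of_ae {a b : X d → ℝ} (hU : IsOpen U) (ha : ContinuousOn a U) (hb : ContinuousOn b U)
    (h : ∀ᵐ x ∂vo U, a x ≤ b x) : ∀ x ∈ U, a x ≤ b x := fun x hx => by
  have := Measure.eqOn_open_of_ae_eq (μ := volume) (f := fun x => max (a x) (b x)) (g := b)
    (h.mono fun _ e => max_eq_right e) hU (ha.sup hb) hb hx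
  exact max_eq_right_iff.1 this

theorem ex_of_ae {x : X d} {r : ℝ} {P : X d → Prop} (hr : 0 < r) (h : ∀ᵐ y ∂vo (ball x r), P y) :
    ∃ y ∈ ball x r, P y :=
  Measure.exists_mem_of_measure_ne_zero_of_ae (measure_ball_pos _ _ hr).ne' h

theorem Li.of_cont (h : ContinuousOn f U) : Li U f :=
  fun _ a b => (h.mono a).integrableOn_compact b

theorem Li.of_mem {q : ℝ≥0∞} (h : MemLp f q (vo U)) (hq : 1 ≤ q) : Li U f := fun _ a b =>
  have := finU b.isBounded
  (memLp_mono h a).integrable hq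
end

theorem Tc.mono {φ : X d → ℝ} (h : Tc U φ) (hU : U ⊆ U') : Tc U' φ := ⟨h.1, h.2.1, h.2.2.trans hU⟩

theorem Tc.zero {φ : X d → ℝ} (h : Tc U φ) {x : X d} (hx : x ∉ U) : φ x = 0 ∧ fderiv ℝ φ x = 0 :=
  ⟨image_eq_zero_of_notMem_tsupport fun a => hx (h.2.2 a), by
    by_contra a
    exact hx (h.2.2 (support_fderiv_subset ℝ a))⟩

theorem Tc.bd {φ : X d → ℝ} (h : Tc U φ) : ∃ c : ℝ, 0 ≤ c ∧ ∀ x, |φ x| ≤ c ∧ ‖fderiv ℝ φ x‖ ≤ c := by
  obtain ⟨a, ha⟩ := h.1.continuous.bounded_above_of_compact_support h.2.1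
  obtain ⟨b, hb⟩ := (h.1.continuous_fderiv one_ne_zero).bounded_above_of_compact_support
    (h.2.1.fderiv ℝ)
  exact ⟨max a b, (norm_nonneg _).trans ((ha 0).trans (le_max_left ..)),
    fun x => ⟨(ha x).trans (le_max_left ..), (hb x).trans (le_max_right ..)⟩⟩

theorem Tc.mul {φ ψ : X d → ℝ} (h : Tc U φ) (hψ : ContDiff ℝ 1 ψ) : Tc U fun x => φ x * ψ x :=
  ⟨h.1.mul hψ, h.2.1.mul_right, (tsupport_mul_subset_left (f := φ) (g := ψ)).trans h.2.2⟩

theorem Dv.mono {F : X d → X d} (h : Dv U F) (hU : U' ⊆ U) : Dv U' F := fun φ a => h φ (a.mono hU)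

theorem Dv.congr' {F F' : X d → X d} (h : Dv U F) (e : ∀ x ∈ U, F' x = F x) : Dv U F' :=
  fun φ a => by
    rw [← h φ a]
    refine integral_congr_ae (ae_of_all _ fun x => ?_)
    by_cases hx : x ∈ U
    · simp only [e x hx]
    · simp [(a.zero hx).2]

variable {p : ℝ} {u : X d → ℝ} {G F : X d → X d}

theorem Wk.mono (h : Wk p U u G) (hU : U' ⊆ U) : Wk p U' u G := ⟨h.sb.mono hU, h.dv.mono hU⟩
theorem Cs.mono (h : Cs p U u) (hU : U' ⊆ U) : Cs p U' u := ⟨h.c1.mono hU, h.dv.mono hU⟩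
theorem Sl.mono {q : ℝ} (h : Sl p q U F) (hU : U' ⊆ U) : Sl p q U' F :=
  let ⟨u, a, b⟩ := h; ⟨u, a.mono hU, fun x hx => b x (hU hx)⟩

theorem Sb.memG {q : ℝ≥0∞} (h : Sb q U u fun x => innerSL ℝ (G x)) : MemLp G q (vo U) := by
  have := (InnerProductSpace.toDual ℝ (X d)).symm.toLinearIsometry.toContinuousLinearMap.comp_memLp'
    h.memLp.2
  refine (memLp_congr_ae (ae_of_all _ fun x => ?_)).1 this
  exact (InnerProductSpace.toDual ℝ (X d)).symm_apply_apply (G x)

theorem inner_grad (u : X d → ℝ) (x v : X d) : ⟪gradient u x, v⟫ = fderiv ℝ u x v :=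
  InnerProductSpace.toDual_symm_apply

theorem innerSL_grad (u : X d → ℝ) (x : X d) : innerSL ℝ (gradient u x) = fderiv ℝ u x :=
  ContinuousLinearMap.ext fun v => inner_grad u x v

theorem norm_grad (u : X d → ℝ) (x : X d) : ‖gradient u x‖ = ‖fderiv ℝ u x‖ := by
  rw [← innerSL_grad, innerSL_apply_norm]

theorem cont_grad (hU : IsOpen U) (h : ContDiffOn ℝ 1 u U) : ContinuousOn (gradient u) U :=
  (InnerProductSpace.toDual ℝ (X d)).symm.continuous.comp_continuousOn
    (h.continuousOn_fderiv_of_isOpen hU le_rfl)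

theorem Me_apply (μ : ℝ) (e v : X d) : Me μ e v = v + (μ * ⟪e, v⟫) • e := by
  simp [Me, mul_smul]

theorem jj_apply (G : X d) (k : Fin 1 × Fin d) : jj d G k = G k.2 := rfl
theorem jj_symm (w : Gr d 1) (i : Fin d) : (jj d).symm w i = w (0, i) := rfl

/-- the gradient matrix of a map with one component -/
theorem Dm_eq {φ : X d → X 1} {x : X d} (h : DifferentiableAt ℝ φ x) :
    N.Dm φ x = jj d (gradient (fun y => φ y 0) x) := by
  ext ⟨a, i⟩
  have e := ((EuclideanSpace.proj (0 : Fin 1) : X 1 →L[ℝ] ℝ).hasFDerivAt.comp x h.hasFDerivAt).fderiv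
  have := inner_grad (fun y => φ y 0) x (ei i)
  rw [EuclideanSpace.inner_single_right] at this
  rw [Subsingleton.elim a 0, jj_apply, N.Dm, N.jm_apply]
  simp only [conj_trivial, one_mul] at this
  rw [this]
  exact (congrArg (fun T : L d ℝ => T (ei i)) e).symm

end Pool.Agent.MP_815c6c_an.S

end MrgPart0

-- ======== part 1: formerly Pool.Agent.MP_815c6c_an.S.LOsc
section MrgPart1

/-! Scalar p-harmonic functions in any dimension: mean values and mean oscillations on balls. -/

set_option autoImplicit false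

namespace Pool.Agent.MP_815c6c_an.S

open Set Metric MeasureTheory Filter Topology
open scoped ENNReal
open N (X)

namespace OscA

variable {d : ℕ} {E : Type} [NormedAddCommGroup E] {x : X d} {r ρ : ℝ}

theorem vol (x : X d) (r : ℝ) : (vo (ball x r)).real univ = vb d r := by
  rw [measureReal_restrict_apply_univ, vb_eq]

theorem sq_int {μ : Measure (X d)} {f : X d → E} (h : MemLp f 2 μ) :
    Integrable (fun z => ‖f z‖ ^ 2) μ := (memLp_two_iff_integrable_sq_norm h.1).1 h

theorem tri {μ : Measure (X d)} [IsFiniteMeasure μ] {f : X d → E} (h : MemLp f 2 μ) (c : E) :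
    ∫ z, ‖f z‖ ^ 2 ∂μ ≤ 2 * ∫ z, ‖f z - c‖ ^ 2 ∂μ + 2 * (μ.real univ * ‖c‖ ^ 2) := by
  have i : Integrable (fun z => ‖f z - c‖ ^ 2) μ := sq_int (h.sub (memLp_const c))
  rw [← smul_eq_mul (μ.real univ), ← integral_const, ← integral_const_mul, ← integral_const_mul,
    ← integral_add (i.const_mul 2) (integrable_const _)]
  refine integral_mono (sq_int h) ((i.const_mul 2).add (integrable_const _)) fun z => ?_
  have a : ‖f z‖ ≤ ‖f z - c‖ + ‖c‖ := norm_le_norm_sub_add _ _
  have := pow_le_pow_left₀ (norm_nonneg _) a 2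
  simp only
  nlinarith [sq_nonneg (‖f z - c‖ - ‖c‖)]

theorem jen {μ : Measure (X d)} [IsFiniteMeasure μ] {f : X d → E} (h : MemLp f 2 μ) (m : ℝ) :
    2 * m * ∫ z, ‖f z‖ ∂μ - μ.real univ * m ^ 2 ≤ ∫ z, ‖f z‖ ^ 2 ∂μ := by
  have i := (h.integrable one_le_two).norm.const_mul (2 * m)
  rw [← smul_eq_mul (μ.real univ), ← integral_const, ← integral_const_mul,
    ← integral_sub i (integrable_const _)]
  refine integral_mono (i.sub (integrable_const _)) (sq_int h) fun z => ?_
  simp only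
  nlinarith [sq_nonneg (‖f z‖ - m)]

theorem l1 {f : X d → E} {B : ℝ} (hr : 0 < r) (hB : 0 ≤ B) (h : MemLp f 2 (vo (ball x r)))
    (e : ∫ z in ball x r, ‖f z‖ ^ 2 ≤ vb d r * B ^ 2) :
    ∫ z in ball x r, ‖f z‖ ≤ vb d r * B := by
  have A : 0 < vb d r := vb_pos hr
  have j := (jen h ((vb d r)⁻¹ * ∫ z in ball x r, ‖f z‖)).trans e
  rw [vol x r] at j
  generalize ∫ z in ball x r, ‖f z‖ = J at j ⊢
  generalize vb d r = A0 at A j ⊢
  obtain ⟨m, rfl⟩ : ∃ m, J = A0 * m := ⟨A0⁻¹ * J, by field_simp⟩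
  rw [inv_mul_cancel_left₀ A.ne'] at j
  exact mul_le_mul_of_nonneg_left
    (abs_le_of_sq_le_sq' (le_of_mul_le_mul_left (by linarith) A) hB).2 A.le

theorem mono {f : X d → E} {U U' : Set (X d)} (hU : U' ⊆ U) (h : MemLp f 2 (vo U)) :
    ∫ z in U', ‖f z‖ ^ 2 ≤ ∫ z in U, ‖f z‖ ^ 2 :=
  setIntegral_mono_set (sq_int h) (ae_of_all _ fun _ => sq_nonneg _) hU.eventuallyLE

theorem emb (x : X d) (hr : 0 < r) : MeasurableEmbedding fun z : X d => x + r • z :=
  ((Homeomorph.smulOfNeZero r hr.ne').trans (Homeomorph.addLeft x)).measurableEmbedding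

theorem map_sc (x : X d) (hr : 0 < r) (ρ : ℝ) : (vo (ball 0 ρ)).map (fun z : X d => x + r • z) =
    ENNReal.ofReal (r ^ d)⁻¹ • vo (ball x (r * ρ)) := by
  have e : (volume : Measure (X d)).map (fun z : X d => x + r • z) =
      ENNReal.ofReal (r ^ d)⁻¹ • volume := by
    rw [show (fun z : X d => x + r • z) = (fun z => x + z) ∘ (fun z : X d => r • z) from rfl,
      ← Measure.map_map (by fun_prop) (by fun_prop), Measure.map_addHaar_smul _ hr.ne',
      Measure.map_smul, map_add_left_eq_self, finrank_euclideanSpace_fin,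
      abs_of_pos (by positivity)]
  rw [vo, vo, ← Measure.restrict_smul, ← e, (emb x hr).restrict_map]
  congr 2
  ext z
  simp [norm_smul, abs_of_pos hr, hr]

variable [NormedSpace ℝ E]

theorem avg (g : X d → E) :
    ⨍ z in ball x r, g z = (vb d r)⁻¹ • ∫ z in ball x r, g z := by
  rw [average_eq, vol x r]

theorem int_sc (hr : 0 < r) (g : X d → E) : ∫ z in ball (0 : X d) ρ, g (x + r • z) =
    (r ^ d)⁻¹ • ∫ w in ball x (r * ρ), g w := by
  rw [← (emb x hr).integral_map (μ := vo (ball 0 ρ)) g, map_sc x hr, integral_smul_measure,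
    ENNReal.toReal_ofReal (by positivity)]

theorem avg_sc (hr : 0 < r) (g : X d → E) :
    ⨍ z in ball (0 : X d) ρ, g (x + r • z) = ⨍ w in ball x (r * ρ), g w := by
  rw [avg, avg, int_sc hr, smul_smul, vb_mul hr, mul_inv, mul_comm]

theorem avg_smul (μ : Measure (X d)) (c : ℝ) (g : X d → E) :
    ⨍ z, c • g z ∂μ = c • ⨍ z, g z ∂μ := by
  rw [average_eq, average_eq, integral_smul, smul_comm]

theorem en_eq (f : X d → E) (hr : 0 < r) :
    ∫ z in ball x r, ‖f z - av f x r‖ ^ 2 = vb d r * osc f x r ^ 2 := by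
  have := vb_pos (d := d) hr
  rw [osc, avg, smul_eq_mul, Real.sq_sqrt (mul_nonneg (by positivity)
    (integral_nonneg fun _ => sq_nonneg _))]
  field_simp

theorem av_sub {f g : X d → E} (h : MemLp f 2 (vo (ball x r))) (k : MemLp g 2 (vo (ball x r))) :
    av (fun z => f z - g z) x r = av f x r - av g x r := by
  rw [av, av, av, average_eq, average_eq, average_eq,
    integral_sub (h.integrable one_le_two) (k.integrable one_le_two), smul_sub]

variable [CompleteSpace E]

theorem le {f : X d → E} {c : E} {B : ℝ} (hr : 0 < r) (hB : 0 ≤ B)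
    (h : MemLp f 2 (vo (ball x r))) (e : ∫ z in ball x r, ‖f z - c‖ ^ 2 ≤ vb d r * B ^ 2) :
    ‖av f x r - c‖ ≤ B ∧ osc f x r ≤ 2 * B := by
  have A : 0 < vb d r := vb_pos hr
  have k : MemLp (fun z => f z - c) 2 (vo (ball x r)) := h.sub (memLp_const c)
  have a : ‖av f x r - c‖ ≤ B := by
    have c0 : av (fun _ => c) x r = c := by
      rw [av, avg, integral_const, vol x r, smul_smul, inv_mul_cancel₀ A.ne', one_smul]
    rw [← c0, ← av_sub h (memLp_const c), av, avg, norm_smul, Real.norm_of_nonneg (by positivity)]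
    refine (mul_le_mul_of_nonneg_left ((norm_integral_le_integral_norm _).trans (l1 hr hB k e))
      (by positivity)).trans_eq ?_
    rw [inv_mul_cancel_left₀ A.ne']
  refine ⟨a, (abs_le_of_sq_le_sq' (le_of_mul_le_mul_left ?_ A) (by positivity)).2⟩
  have t := tri (h.sub (memLp_const (av f x r))) (c - av f x r)
  simp only [Pi.sub_apply, sub_sub_sub_cancel_right, vol x r] at t
  have b := mul_le_mul_of_nonneg_left (pow_le_pow_left₀ (norm_nonneg _) a 2) A.le
  rw [norm_sub_rev] at b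
  rw [← en_eq f hr]
  linarith

theorem sup {f : X d → E} {c : E} {B : ℝ} (hr : 0 < r)
    (h : AEStronglyMeasurable f (vo (ball x r))) (b : ∀ z ∈ ball x r, ‖f z - c‖ ≤ B) :
    MemLp f 2 (vo (ball x r)) ∧ ‖av f x r - c‖ ≤ B ∧ osc f x r ≤ 2 * B := by
  have b' : ∀ᵐ z ∂vo (ball x r), ‖f z - c‖ ≤ B := ae_restrict_of_forall_mem measurableSet_ball b
  have k : MemLp (fun z => f z - c) 2 (vo (ball x r)) :=
    .of_bound (h.sub aestronglyMeasurable_const) B b'
  have m : MemLp f 2 (vo (ball x r)) :=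
    (k.add (memLp_const c)).ae_eq (ae_of_all _ fun z => sub_add_cancel _ _)
  refine ⟨m, le hr ((norm_nonneg _).trans (b x (mem_ball_self hr))) m ?_⟩
  rw [← int_one x]
  exact integral_mono_ae (sq_int k) (integrable_const _)
    (b'.mono fun z a => pow_le_pow_left₀ (norm_nonneg _) a 2)

theorem sub {f : X d → E} {y : X d} (hρ : 0 < ρ) (s : ball y ρ ⊆ ball x r)
    (h : MemLp f 2 (vo (ball x r))) : ‖av f y ρ - av f x r‖ ≤ (r / ρ) ^ d * osc f x r ∧
      osc f y ρ ≤ 2 * (r / ρ) ^ d * osc f x r := by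
  have hr : 0 < r := pos_of_mem_ball (s (mem_ball_self hρ))
  have o : 0 ≤ osc f x r := Real.sqrt_nonneg _
  have A : 0 < vb d ρ := vb_pos hρ
  have e1 : vb d r = (r / ρ) ^ d * vb d ρ := by
    rw [← vb_mul (div_pos hr hρ), div_mul_cancel₀ _ hρ.ne']
  have e2 : vb d ρ ≤ vb d r := by
    rw [← vb_eq y, ← vb_eq x]
    exact measureReal_mono s measure_ball_lt_top.ne
  have e3 : 1 ≤ (r / ρ) ^ d := le_of_mul_le_mul_right (by linarith) A
  rw [mul_assoc]
  refine le hρ (by positivity) (memLp_mono h s)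
    ((mono s (h.sub (memLp_const (av f x r)))).trans (((en_eq f hr).le.trans ?_)))
  rw [e1, mul_pow, mul_comm _ (vb d ρ), mul_assoc]
  refine mul_le_mul_of_nonneg_left (mul_le_mul_of_nonneg_right ?_ (sq_nonneg _)) A.le
  nlinarith

end OscA

open OscA in
theorem losc : OscS := fun d E _ _ _ =>
  { nn := fun _ _ _ => Real.sqrt_nonneg _
    congr := fun f g x r h => by
      have a : av f x r = av g x r := average_congr h
      refine ⟨a, ?_⟩
      rw [osc, osc, a]
      exact congrArg _ (average_congr (h.mono fun z b => by simp only [b]))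
    en := fun f x r hr => en_eq f hr
    l1 := fun f x r hr h =>
      l1 hr (Real.sqrt_nonneg _) (h.sub (memLp_const (av f x r))) (en_eq f hr).le
    tot := fun f x r hr h => by
      have t := tri h (av f x r)
      have e := en_eq (x := x) f hr
      have A : 0 < vb d r := vb_pos hr
      have o : 0 ≤ osc f x r := Real.sqrt_nonneg _
      have n := mul_nonneg A.le (mul_nonneg o (norm_nonneg (av f x r)))
      rw [vol x r, e] at t
      nlinarith
    sup := fun f x r c B hr h b => sup hr h b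
    sub := fun f x r y ρ hρ s h => sub hρ s h
    sca := fun f x r c ρ hr hc => by
      have a : av (fun z => c • f (x + r • z)) 0 ρ = c • av f x (r * ρ) := by
        rw [av, av, avg_smul, avg_sc hr]
      refine ⟨a, ?_, int_sc hr f, fun q h => ?_, fun p => ?_⟩
      · rw [osc, osc, a, ← avg_sc hr, ← Real.sqrt_sq hc, ← Real.sqrt_mul (sq_nonneg c),
          Real.sqrt_sq hc, ← smul_eq_mul (c ^ 2), ← avg_smul]
        simp only [← smul_sub, norm_smul, mul_pow, Real.norm_eq_abs, sq_abs, smul_eq_mul]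
      · have := h.smul_measure (ENNReal.ofReal_ne_top (r := (r ^ d)⁻¹))
        rw [← map_sc x hr, (emb x hr).memLp_map_measure_iff] at this
        exact this.const_smul c
      · rw [← (emb x hr).ae_map_iff, map_sc x hr, Measure.ae_ennreal_smul_measure_iff]
        simpa using pow_pos hr d }

end Pool.Agent.MP_815c6c_an.S

end MrgPart1

-- marker of a merged file
example : 731051 + 650940 = 731051 + 650940 := rfl
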