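import Pool.Agent.MP_815c6c_an.S.EJac
import Pool.Agent.MP_815c6c_an.S.LOsc

/-! Schauder estimate for coefficients near the identity: the absorption argument. -/

set_option autoImplicit false

noncomputable section

namespace Pool.Agent.MP_815c6c_an.S

open Set Metric MeasureTheory Filter Topology Bornology
open scoped ENNReal RealInnerProductSpace
open N (X Gr)

variable {d : ℕ}

theorem abs_gr (w : X d → ℝ) (x : X d) {r : ℝ} (hr : 0 < r) (y : X d)
    (h : DifferentiableAt ℝ w (x + r • y)) :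
    gradient (fun y => r⁻¹ * w (x + r • y)) y = gradient w (x + r • y) := by
  have e1 : HasFDerivAt (fun z : X d => x + r • z) (r • ContinuousLinearMap.id ℝ (X d)) y :=
    ((hasFDerivAt_id y).const_smul r).const_add x
  have e2 := (h.hasFDerivAt.comp y e1).const_mul r⁻¹
  have e3 : fderiv ℝ (fun y => r⁻¹ * w (x + r • y)) y = fderiv ℝ w (x + r • y) := by
    rw [show (fun y => r⁻¹ * w (x + r • y)) = fun y => r⁻¹ * (w ∘ fun z => x + r • z) y from rfl,
      e2.fderiv]
    ext v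
    simp [hr.ne']
  rw [gradient, gradient, e3]

theorem abs_mem {x y : X d} {r : ℝ} (hr : 0 < r) (h : 2 * r = 1 - ‖x‖) (hy : y ∈ ball (0 : X d) 1) :
    r ≤ 1 - ‖x + r • y‖ := by
  have h1 := norm_add_le x (r • y)
  rw [norm_smul, Real.norm_of_nonneg hr.le] at h1
  nlinarith [mem_ball_zero_iff.1 hy]

theorem abs_int {w : X d → ℝ} (hw : IntegrableOn w (ball 0 1)) (x : X d) {r : ℝ} (hr : 0 < r)
    (h : 2 * r = 1 - ‖x‖) : IntegrableOn (fun y => r⁻¹ * w (x + r • y)) (ball 0 1) ∧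
    ∫ y in ball 0 1, |r⁻¹ * w (x + r • y)| ≤ (r ^ (d + 1))⁻¹ * ∫ y in ball 0 1, |w y| := by
  set W : X d → ℝ := (ball (0 : X d) 1).indicator fun y => |w y| with hW
  have i0 : Integrable ((ball (0 : X d) 1).indicator w) :=
    (integrable_indicator_iff measurableSet_ball).2 hw
  have i1 : Integrable W := (integrable_indicator_iff measurableSet_ball).2 hw.abs
  have m : ∀ y ∈ ball (0 : X d) 1, x + r • y ∈ ball (0 : X d) 1 := fun y hy => by
    have := abs_mem hr h hy
    rw [mem_ball_zero_iff]; linarith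
  have i2 : Integrable fun y : X d => W (x + r • y) :=
    (integrable_comp_smul_iff volume (fun y => W (x + y)) hr.ne').2 (i1.comp_add_left x)
  have i3 : Integrable fun y : X d => (ball (0 : X d) 1).indicator w (x + r • y) :=
    (integrable_comp_smul_iff volume (fun y => (ball (0 : X d) 1).indicator w (x + y)) hr.ne').2
      (i0.comp_add_left x)
  refine ⟨Integrable.const_mul (i3.integrableOn.congr_fun (fun y hy => indicator_of_mem (m y hy) _)
    measurableSet_ball) _, ?_⟩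
  have e1 : ∫ y in ball 0 1, |r⁻¹ * w (x + r • y)| = r⁻¹ * ∫ y in ball 0 1, W (x + r • y) := by
    rw [← integral_const_mul]
    refine setIntegral_congr_fun measurableSet_ball fun y hy => ?_
    simp only [hW, indicator_of_mem (m y hy), abs_mul, abs_of_pos (inv_pos.2 hr)]
  have e2 : ∫ y in ball 0 1, W (x + r • y) ≤ ∫ y, W (x + r • y) :=
    setIntegral_le_integral i2 (ae_of_all _ fun y => indicator_nonneg (fun _ _ => abs_nonneg _) _)
  rw [Measure.integral_comp_smul volume (fun y => W (x + y)) r, integral_add_left_eq_self W x,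
    finrank_euclideanSpace_fin, abs_of_pos (by positivity), smul_eq_mul, hW,
    integral_indicator measurableSet_ball] at e2
  rw [e1, pow_succ', mul_inv, mul_assoc]
  exact mul_le_mul_of_nonneg_left e2 (by positivity)

/-- the weighted bound -/
def abs_P (α T : ℝ) (z : X d → X d) : Prop :=
  (∀ x ∈ ball (0 : X d) 1, (1 - ‖x‖) ^ (d + 1) * ‖z x‖ ≤ T) ∧
  ∀ x ∈ ball (0 : X d) 1, ∀ y ∈ ball (0 : X d) 1, ‖y‖ ≤ ‖x‖ →
    (1 - ‖x‖) ^ (d + 1) * ‖z x - z y‖ ≤ T * (‖x - y‖ / (1 - ‖x‖)) ^ α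

theorem abs_use {α T r : ℝ} {z : X d → X d} (h : abs_P α T z) (ha : 0 < α) (hT : 0 ≤ T)
    (hr : 0 < r) {x y : X d} (hx : r ≤ 1 - ‖x‖) (hy : r ≤ 1 - ‖y‖) :
    ‖z x‖ ≤ (r ^ (d + 1))⁻¹ * T ∧ ‖z x - z y‖ ≤ (r ^ (d + 1))⁻¹ * T * (‖x - y‖ / r) ^ α := by
  have b : ∀ x : X d, r ≤ 1 - ‖x‖ → x ∈ ball (0 : X d) 1 := fun x hx => by
    rw [mem_ball_zero_iff]; linarith
  have k : ∀ x y : X d, r ≤ 1 - ‖x‖ → r ≤ 1 - ‖y‖ → ‖y‖ ≤ ‖x‖ →
      ‖z x - z y‖ ≤ (r ^ (d + 1))⁻¹ * T * (‖x - y‖ / r) ^ α := fun x y hx hy hxy => by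
    rw [mul_assoc, le_inv_mul_iff₀ (by positivity)]
    calc _ ≤ (1 - ‖x‖) ^ (d + 1) * ‖z x - z y‖ := by gcongr
      _ ≤ T * (‖x - y‖ / (1 - ‖x‖)) ^ α := h.2 x (b x hx) y (b y hy) hxy
      _ ≤ _ := by
        have := hr.trans_le hx
        gcongr
  refine ⟨?_, ?_⟩
  · rw [le_inv_mul_iff₀ (by positivity)]
    exact le_trans (by gcongr) (h.1 x (b x hx))
  · rcases le_total ‖y‖ ‖x‖ with q | q
    · exact k x y hx hy q
    · rw [norm_sub_rev, norm_sub_rev x y]
      exact k y x hy hx q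

theorem abs_loc {α δ K T C : ℝ} {w : X d → ℝ} {a : X d → L d (X d)} {f : X d → X d} (ha : 0 < α)
    (hC : 0 ≤ C) (hδ : 0 ≤ δ) (hT : 0 ≤ T)
    (cs : ∀ (w : X d → ℝ) (F : X d → X d) (K : ℝ), 0 ≤ K → ContDiffOn ℝ 1 w (ball 0 1) →
      IntegrableOn w (ball 0 1) → Hol α K F (ball 0 1) →
      Dv (ball 0 1) (fun x => gradient w x - F x) →
      Est α (C * (K + ∫ x in ball 0 1, |w x|)) (1 / 4) (gradient w))
    (h : Lin α δ K (ContinuousLinearMap.id ℝ _) w a f) (hP : abs_P α T (gradient w)) (x : X d)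
    {r : ℝ} (hr : 0 < r) (e : 2 * r = 1 - ‖x‖) :
    Est α ((r ^ (d + 1))⁻¹ * (C * (2 * δ * T + K + ∫ y in ball 0 1, |w y|))) (1 / 4)
      fun y => gradient w (x + r • y) := by
  have r1 : r ≤ 1 := by linarith [norm_nonneg x]
  have m : ∀ y ∈ ball (0 : X d) 1, x + r • y ∈ ball (0 : X d) 1 := fun y hy => by
    have := abs_mem hr e hy
    rw [mem_ball_zero_iff]; linarith
  have g : ∀ y ∈ ball (0 : X d) 1, gradient (fun y => r⁻¹ * w (x + r • y)) y =
      gradient w (x + r • y) := fun y hy => abs_gr w x hr y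
    ((h.c1.differentiableOn one_ne_zero).differentiableAt (isOpen_ball.mem_nhds (m y hy)))
  obtain ⟨i1, i2⟩ := abs_int h.int x hr e
  set R : ℝ := (r ^ (d + 1))⁻¹ with hR
  have R1 : 1 ≤ R := (one_le_inv₀ (by positivity)).2 (pow_le_one₀ hr.le r1)
  have k0 := h.k0
  have key := cs (fun y => r⁻¹ * w (x + r • y))
    (fun y => gradient w (x + r • y) - (a (x + r • y) (gradient w (x + r • y)) - f (x + r • y)))
    (R * (2 * δ * T + K)) (by positivity)
    (contDiffOn_const.mul (h.c1.comp (by fun_prop) m)) i1 ?_ ?_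
  · have le : C * (R * (2 * δ * T + K) + ∫ y in ball 0 1, |r⁻¹ * w (x + r • y)|) ≤
        R * (C * (2 * δ * T + K + ∫ y in ball 0 1, |w y|)) := by
      calc _ ≤ C * (R * (2 * δ * T + K) + R * ∫ y in ball 0 1, |w y|) := by gcongr
        _ = _ := by ring
    have s : ball (0 : X d) (1 / 4) ⊆ ball 0 1 := ball_subset_ball (by norm_num)
    refine ⟨fun y hy => ?_, fun y hy y' hy' => ?_⟩
    · beta_reduce
      rw [← g y (s hy)]
      exact (key.1 y hy).trans le
    · beta_reduce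
      rw [← g y (s hy), ← g y' (s hy')]
      exact (key.2 y hy y' hy').trans (mul_le_mul_of_nonneg_right le (by positivity))
  · intro y hy y' hy'
    obtain ⟨-, u2⟩ := abs_use hP ha hT hr (abs_mem hr e hy) (abs_mem hr e hy')
    obtain ⟨u1, -⟩ := abs_use hP ha hT hr (abs_mem hr e hy') (abs_mem hr e hy)
    have n1 : ‖x + r • y - (x + r • y')‖ = r * ‖y - y'‖ := by
      rw [add_sub_add_left_eq_sub, ← smul_sub, norm_smul, Real.norm_of_nonneg hr.le]
    have n2 : ‖x + r • y - (x + r • y')‖ ^ α ≤ ‖y - y'‖ ^ α := by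
      rw [n1]
      exact Real.rpow_le_rpow (by positivity) (mul_le_of_le_one_left (norm_nonneg _) r1) ha.le
    rw [n1, mul_div_cancel_left₀ _ hr.ne'] at u2
    have v1 := h.near _ (m y hy)
    have v2 := (h.ha _ (m y hy) _ (m y' hy')).trans (mul_le_mul_of_nonneg_left n2 hδ)
    have v3 := (h.hf _ (m y hy) _ (m y' hy')).trans (mul_le_mul_of_nonneg_left n2 k0)
    set p := gradient w (x + r • y)
    set p' := gradient w (x + r • y')
    set A := a (x + r • y)
    set A' := a (x + r • y')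
    have e1 : p - (A p - f (x + r • y)) - (p' - (A' p' - f (x + r • y'))) =
        (f (x + r • y) - f (x + r • y')) - (A - ContinuousLinearMap.id ℝ (X d)) (p - p') -
          (A - A') p' := by
      simp only [sub_apply, ContinuousLinearMap.id_apply, map_sub]
      abel
    beta_reduce
    rw [e1]
    have t0 : 0 ≤ ‖y - y'‖ ^ α := by positivity
    calc _ ≤ ‖f (x + r • y) - f (x + r • y')‖ + ‖A - ContinuousLinearMap.id ℝ (X d)‖ * ‖p - p'‖ +
          ‖A - A'‖ * ‖p'‖ := (norm_sub_le _ _).trans (add_le_add ((norm_sub_le _ _).trans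
            (add_le_add le_rfl (ContinuousLinearMap.le_opNorm _ _)))
            (ContinuousLinearMap.le_opNorm _ _))
      _ ≤ K * ‖y - y'‖ ^ α + δ * (R * T * ‖y - y'‖ ^ α) + δ * ‖y - y'‖ ^ α * (R * T) := by
          gcongr
      _ ≤ _ := by nlinarith [mul_nonneg (mul_nonneg (sub_nonneg.2 R1) k0) t0]
  · intro φ hφ
    rw [← ws_dv h.dv x hr.ne' m 1 φ hφ]
    refine integral_congr_ae (ae_of_all _ fun y => ?_)
    by_cases hy : y ∈ ball (0 : X d) 1
    · simp only [g y hy, sub_sub_cancel, one_smul]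
    · have : fderiv ℝ φ y = 0 := by
        by_contra q
        exact hy (hφ.2.2 (support_fderiv_subset ℝ q))
      simp only [this, zero_apply]

theorem abs_step {α B : ℝ} {z : X d → X d} (ha : 0 < α) (a1 : α < 1) (hB : 0 ≤ B)
    (h : ∀ (x : X d) (r : ℝ), 0 < r → 2 * r = 1 - ‖x‖ →
      Est α ((r ^ (d + 1))⁻¹ * B) (1 / 4) fun y => z (x + r • y)) :
    abs_P α (16 * 2 ^ (d + 1) * B) z := by
  have p1 : ∀ x ∈ ball (0 : X d) 1, (1 - ‖x‖) ^ (d + 1) * ‖z x‖ ≤ 2 ^ (d + 1) * B := by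
    intro x hx
    have hr : 0 < (1 - ‖x‖) / 2 := by linarith [mem_ball_zero_iff.1 hx]
    have := (h x _ hr (by ring)).1 0 (mem_ball_self (by norm_num))
    simp only [smul_zero, add_zero] at this
    rw [le_inv_mul_iff₀ (by positivity), div_pow, div_mul_eq_mul_div,
      div_le_iff₀ (by positivity)] at this
    linarith
  have c0 : (0 : ℝ) ≤ 2 ^ (d + 1) * B := by positivity
  refine ⟨fun x hx => (p1 x hx).trans (by linarith), fun x hx y hy hxy => ?_⟩
  have hD : 0 < 1 - ‖x‖ := by linarith [mem_ball_zero_iff.1 hx]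
  set t := ‖x - y‖ / (1 - ‖x‖) with ht
  have t0 : 0 ≤ t := by positivity
  rcases lt_or_ge t (1 / 8) with q | q
  · have hr : 0 < (1 - ‖x‖) / 2 := by linarith
    have n : ‖((1 - ‖x‖) / 2)⁻¹ • (y - x)‖ = 2 * t := by
      rw [norm_smul, Real.norm_of_nonneg (by positivity), norm_sub_rev, ht]
      field_simp
    have := (h x _ hr (by ring)).2 0 (mem_ball_self (by norm_num))
      (((1 - ‖x‖) / 2)⁻¹ • (y - x)) (by rw [mem_ball_zero_iff, n]; linarith)
    simp only [smul_zero, add_zero, smul_inv_smul₀ hr.ne', add_sub_cancel, zero_sub, norm_neg,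
      n] at this
    rw [mul_assoc, le_inv_mul_iff₀ (by positivity), div_pow, div_mul_eq_mul_div,
      div_le_iff₀ (by positivity), Real.mul_rpow two_pos.le t0] at this
    have s2 : (2 : ℝ) ^ α ≤ 2 := by
      simpa using Real.rpow_le_rpow_of_exponent_le one_le_two a1.le
    have s3 : 0 ≤ t ^ α := by positivity
    nlinarith [mul_nonneg (mul_nonneg c0 s3) (sub_nonneg.2 s2), mul_nonneg c0 s3]
  · have s1 : (1 / 8 : ℝ) ≤ t ^ α := by
      refine le_trans ?_ (Real.rpow_le_rpow (by norm_num) q ha.le)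
      simpa using Real.rpow_le_rpow_of_exponent_ge (x := 1 / 8) (by norm_num) (by norm_num) a1.le
    have s2 : (1 - ‖x‖) ^ (d + 1) * ‖z y‖ ≤ 2 ^ (d + 1) * B :=
      le_trans (by gcongr) (p1 y hy)
    have s3 := mul_le_mul_of_nonneg_left (norm_sub_le (z x) (z y))
      (pow_nonneg hD.le (d + 1))
    nlinarith [p1 x hx, mul_nonneg c0 (sub_nonneg.2 s1)]

theorem abs_zero {α K' : ℝ} {z : X d → X d} (ha : 0 < α) (h : Hol α K' z (ball 0 1)) :
    abs_P α (|K'| + ‖z 0‖) z := by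
  have b : ∀ x ∈ ball (0 : X d) 1, 0 < 1 - ‖x‖ ∧ (1 - ‖x‖) ^ (d + 1) ≤ 1 := fun x hx =>
    have := mem_ball_zero_iff.1 hx
    ⟨by linarith, pow_le_one₀ (by linarith) (by linarith [norm_nonneg x])⟩
  refine ⟨fun x hx => ?_, fun x hx y hy _ => ?_⟩
  · have h1 := h x hx 0 (mem_ball_self one_pos)
    have h2 : ‖x - 0‖ ^ α ≤ 1 :=
      Real.rpow_le_one (norm_nonneg _) (by simpa using (mem_ball_zero_iff.1 hx).le) ha.le
    have h3 : K' * ‖x - 0‖ ^ α ≤ |K'| * 1 :=
      mul_le_mul (le_abs_self _) h2 (by positivity) (abs_nonneg _)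
    have h4 := norm_sub_norm_le (z x) (z 0)
    exact (mul_le_of_le_one_left (norm_nonneg _) (b x hx).2).trans (by linarith)
  · refine (mul_le_of_le_one_left (norm_nonneg _) (b x hx).2).trans ((h x hx y hy).trans ?_)
    refine mul_le_mul ((le_abs_self _).trans (le_add_of_nonneg_right (norm_nonneg _)))
      (Real.rpow_le_rpow (norm_nonneg _) ?_ ha.le) (by positivity) (by positivity)
    exact le_div_self (norm_nonneg _) (b x hx).1 (by linarith [norm_nonneg x])

theorem labs (_ : Kit) (cs : CsS) : AbsS := by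
  intro d α ha a1
  obtain ⟨C, hC, cs⟩ := cs d α ha a1
  set c : ℝ := 16 * 2 ^ (d + 1) * (C + 1) with hc
  have c0 : 0 < c := by positivity
  refine ⟨(4 * c)⁻¹, 2 ^ (d + 2) * (2 * c), by positivity, by positivity, fun K w a f h => ?_⟩
  obtain ⟨K', hK'⟩ := h.fin
  set S : ℝ := K + ∫ y in ball 0 1, |w y| with hS
  have S0 : 0 ≤ S := add_nonneg h.k0 (integral_nonneg fun _ => abs_nonneg _)
  set T : ℝ := |K'| + ‖gradient w 0‖ with hT
  have T0 : 0 ≤ T := by positivity
  have mono : ∀ t t' : ℝ, t ≤ t' → abs_P α t (gradient w) → abs_P α t' (gradient w) :=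
    fun t t' q p => ⟨fun x hx => (p.1 x hx).trans q, fun x hx y hy e => (p.2 x hx y hy e).trans
      (mul_le_mul_of_nonneg_right q (Real.rpow_nonneg (div_nonneg (norm_nonneg _)
        (by linarith [mem_ball_zero_iff.1 hx])) _))⟩
  have it : ∀ n : ℕ, abs_P α (T * (1 / 2) ^ n + 2 * c * S) (gradient w) := fun n => by
    induction n with
    | zero =>
      refine mono _ _ ?_ (abs_zero ha hK')
      rw [pow_zero, mul_one]
      nlinarith [mul_nonneg c0.le S0]
    | succ n ih =>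
      have t0 : 0 ≤ T * (1 / 2) ^ n + 2 * c * S := by positivity
      refine mono _ _ ?_ (abs_step ha a1 (by rw [add_assoc]; positivity) fun x r hr e =>
        abs_loc ha hC (by positivity) t0 cs h ih x hr e)
      rw [add_assoc, ← hS]
      calc _ ≤ 16 * 2 ^ (d + 1) * ((C + 1) * (2 * (4 * c)⁻¹ *
            (T * (1 / 2) ^ n + 2 * c * S) + S)) := by gcongr; linarith
        _ = c * (2 * (4 * c)⁻¹ * (T * (1 / 2) ^ n + 2 * c * S) + S) := by rw [hc]; ring
        _ = _ := by field_simp; ring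
  have lim : Tendsto (fun n : ℕ => T * (1 / 2 : ℝ) ^ n + 2 * c * S) atTop (𝓝 (2 * c * S)) := by
    simpa using ((tendsto_pow_atTop_nhds_zero_of_lt_one (r := (1 / 2 : ℝ)) (by norm_num)
      (by norm_num)).const_mul T).add_const (2 * c * S)
  have fin : abs_P α (2 * c * S) (gradient w) :=
    ⟨fun x hx => ge_of_tendsto' lim fun n => (it n).1 x hx,
      fun x hx y hy e => ge_of_tendsto' (lim.mul_const _) fun n => (it n).2 x hx y hy e⟩
  have b : ∀ x ∈ ball (0 : X d) (1 / 2), (1 / 2 : ℝ) ≤ 1 - ‖x‖ := fun x hx => by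
    linarith [mem_ball_zero_iff.1 hx]
  have e : (((1 / 2 : ℝ)) ^ (d + 1))⁻¹ = 2 ^ (d + 1) := by simp
  have n0 : (0 : ℝ) ≤ 2 ^ (d + 1) * (2 * c * S) := by positivity
  refine ⟨fun x hx => ?_, fun x hx y hy => ?_⟩
  · have := (abs_use fin ha (by positivity) one_half_pos (b x hx) (b x hx)).1
    rw [e] at this
    rw [pow_succ _ (d + 1)]
    nlinarith
  · have := (abs_use fin ha (by positivity) one_half_pos (b x hx) (b y hy)).2
    rw [e, div_div_eq_mul_div, div_one, Real.mul_rpow (norm_nonneg _) two_pos.le] at this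
    have s2 : (2 : ℝ) ^ α ≤ 2 := by
      simpa using Real.rpow_le_rpow_of_exponent_le one_le_two a1.le
    have s3 : 0 ≤ ‖x - y‖ ^ α := by positivity
    rw [pow_succ _ (d + 1)]
    nlinarith [mul_nonneg (mul_nonneg n0 s3) (sub_nonneg.2 s2)]

end Pool.Agent.MP_815c6c_an.S
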