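import Pool.Agent.MP_815c6c_an.S.LOsc

/-! Scalar p-harmonic functions in any dimension: the gradient bound from the two regimes. -/

set_option autoImplicit false

namespace Pool.Agent.MP_815c6c_an.S

open Set Metric MeasureTheory Filter Topology
open scoped ENNReal RealInnerProductSpace
open N (X Gr)

namespace LCorA

variable {d : ℕ} {E : Type} [NormedAddCommGroup E] [NormedSpace ℝ E] {F : X d → E} {y : X d}
  {R δ ε C : ℝ}

/-- a small radius with small oscillation at a point which is not a zero -/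
theorem good (ho : Osc d E) (hR : 0 < R) (hδ : 0 < δ) (hc : ContinuousOn F (ball y R))
    (h0 : F y ≠ 0) : ∃ t ∈ Ioc 0 R, osc F y t < δ * ‖av F y t‖ := by
  have hn := norm_pos_iff.2 h0
  obtain ⟨B, hB, e⟩ : ∃ B, 0 < B ∧ B * (2 * (2 + δ)) = δ * ‖F y‖ :=
    ⟨δ * ‖F y‖ / (2 * (2 + δ)), by positivity, div_mul_cancel₀ _ (by positivity)⟩
  obtain ⟨t, ht, h⟩ := Metric.continuousAt_iff.1 (hc.continuousAt (ball_mem_nhds y hR)) B hB
  have hs : ball y (min t R) ⊆ ball y R := ball_subset_ball (min_le_right _ _)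
  obtain ⟨-, h1, h2⟩ := ho.sup F y (min t R) (F y) B (lt_min ht hR)
    ((hc.mono hs).aestronglyMeasurable measurableSet_ball) fun z hz => by
      rw [← dist_eq_norm]; exact (h (hz.trans_le (min_le_left _ _))).le
  refine ⟨_, ⟨lt_min ht hR, min_le_right _ _⟩, ?_⟩
  have h3 := norm_sub_norm_le (F y) (av F y (min t R))
  rw [norm_sub_rev] at h3
  nlinarith

/-- a good radius with the decay of the degenerate regime -/
theorem last (ho : Osc d E) (hε : 0 < ε) (hC : 0 ≤ C) (hm : MemLp F 2 (vo (ball y R)))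
    (hd : ∀ ρ, 0 < ρ → ρ ≤ R → (∀ t ∈ Icc ρ R, δ * ‖av F y t‖ ≤ osc F y t) →
      osc F y ρ ≤ C * (ρ / R) ^ (1 + ε) * osc F y R)
    (hg : ∃ t ∈ Ioc 0 R, osc F y t < δ * ‖av F y t‖) :
    ∃ ρ ∈ Ioc 0 R, osc F y ρ < δ * ‖av F y ρ‖ ∧
      osc F y ρ ≤ 2 * 2 ^ d * (C + 1) * 2 ^ (1 + ε) * (ρ / R) ^ (1 + ε) * osc F y R := by
  obtain ⟨S, hS⟩ : ∃ S : Set ℝ, S = {t | t ∈ Ioc 0 R ∧ osc F y t < δ * ‖av F y t‖} := ⟨_, rfl⟩
  have hb : BddAbove S := ⟨R, fun t ht => by rw [hS] at ht; exact ht.1.2⟩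
  obtain ⟨t, ht⟩ : S.Nonempty := by rw [hS]; exact hg
  have hp : 0 < sSup S := lt_of_lt_of_le (by rw [hS] at ht; exact ht.1.1) (le_csSup hb ht)
  obtain ⟨ρ, hρ, h1⟩ := exists_lt_of_lt_csSup ⟨t, ht⟩ (half_lt_self hp)
  rw [hS] at hρ
  obtain ⟨⟨h2, h3⟩, h4⟩ := hρ
  have hR := h2.trans_le h3
  have hO := ho.nn F y R
  refine ⟨ρ, ⟨h2, h3⟩, h4, ?_⟩
  rw [mul_assoc (2 * 2 ^ d * (C + 1)), ← Real.mul_rpow zero_le_two (by positivity),
    ← mul_div_assoc]
  rcases le_total (2 * ρ) R with h | h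
  · have h5 := hd (2 * ρ) (by positivity) h fun u hu => not_lt.1 fun hu' => by
      have := le_csSup hb (show u ∈ S by rw [hS]; exact ⟨⟨by linarith [hu.1], hu.2⟩, hu'⟩)
      linarith [hu.1]
    have h6 := (ho.sub F y (2 * ρ) y ρ h2 (ball_subset_ball (by linarith))
      (memLp_mono hm (ball_subset_ball h))).2
    rw [mul_div_assoc, div_self h2.ne', mul_one] at h6
    calc _ ≤ 2 * 2 ^ d * (C * (2 * ρ / R) ^ (1 + ε) * osc F y R) := h6.trans (by gcongr)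
      _ = 2 * 2 ^ d * C * (2 * ρ / R) ^ (1 + ε) * osc F y R := by ring
      _ ≤ _ := by gcongr; linarith
  · have h6 := (ho.sub F y R y ρ h2 (ball_subset_ball h3) hm).2
    have h7 : R / ρ ≤ 2 := (div_le_iff₀ h2).2 h
    have h8 : 1 ≤ (2 * ρ / R) ^ (1 + ε) :=
      Real.one_le_rpow ((one_le_div hR).2 h) (by positivity)
    calc _ ≤ 2 * 2 ^ d * osc F y R := h6.trans (by gcongr)
      _ = 2 * 2 ^ d * (0 + 1) * 1 * osc F y R := by ring
      _ ≤ _ := by gcongr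

/-- a power of the distance tends to zero -/
theorem pow0 (hε : 0 < ε) (a b : ℝ) (y : X d) :
    Tendsto (fun z : X d => a * (b * ‖z - y‖) ^ ε) (𝓝 y) (𝓝 0) := by
  have h : Continuous fun z : X d => a * (b * ‖z - y‖) ^ ε :=
    continuous_const.mul (Continuous.rpow_const (by fun_prop) fun _ => Or.inr hε.le)
  simpa [Real.zero_rpow hε.ne'] using h.tendsto y

/-- the derivative vanishes where the oscillation decays faster than the radius -/
theorem flat (hR : 0 < R) (hε : 0 < ε)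
    (h : ∀ ρ ∈ Ioc 0 R, ∀ z ∈ ball y (ρ / 8), ‖F z - F y‖ ≤ C * (ρ / R) ^ (1 + ε)) :
    HasFDerivAt F (0 : L d E) y := by
  rw [hasFDerivAt_iff_isLittleO, Asymptotics.isLittleO_iff]
  intro c hc
  filter_upwards [ball_mem_nhds y (show 0 < R / 16 by positivity),
    (pow0 hε (C * (16 / R)) (16 / R) y).eventually (gt_mem_nhds hc)] with z h1 h2
  rcases eq_or_ne z y with rfl | hz
  · simp
  have h3 := norm_pos_iff.2 (sub_ne_zero.2 hz)
  rw [mem_ball, dist_eq_norm] at h1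
  have h4 := h (16 * ‖z - y‖) ⟨by positivity, by linarith⟩ z
    (by rw [mem_ball, dist_eq_norm]; linarith)
  rw [Real.rpow_add (by positivity), Real.rpow_one, mul_div_right_comm] at h4
  rw [zero_apply, sub_zero]
  nlinarith

end LCorA

open LCorA in
theorem lcor : Kit → ∀ d p q, 2 < p → 2 < q → SupS d p q → NdS d p q → DegS d p q →
    CorS d p q := by
  intro k d p q hp hq ⟨C3, h3, su⟩ ⟨δ, c, C1, hδ, hc, h1, nd⟩ ⟨ε, hε, dg⟩
  obtain ⟨C2, h2, dg⟩ := dg δ hδ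
  have ho := k.osc d (X d)
  obtain ⟨C, hC, eC⟩ : ∃ C, 0 ≤ C ∧ C = C1 * (2 * 2 ^ d * (C2 + 1) * 2 ^ (1 + ε)) :=
    ⟨_, by positivity, rfl⟩
  have pt : ∀ (F : X d → X d) (y : X d) (R : ℝ), 0 < R → Sl p q (ball y R) F →
      MemLp F 2 (vo (ball y R)) → (F y = 0 → HasFDerivAt F (0 : L d (X d)) y) ∧
      (F y ≠ 0 → ContDiffAt ℝ 1 F y ∧ ∃ ρ ∈ Ioc 0 R, (∀ z ∈ ball y (c * ρ), F z ≠ 0) ∧
        ‖fderiv ℝ F y‖ ≤ C * osc F y R / R * (ρ / R) ^ ε) := fun F y R hR hs hm => by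
    have sm : ∀ ρ, ρ ≤ R → Sl p q (ball y ρ) F ∧ MemLp F 2 (vo (ball y ρ)) := fun ρ h =>
      ⟨hs.mono (ball_subset_ball h), memLp_mono hm (ball_subset_ball h)⟩
    have hO := ho.nn F y R
    refine ⟨fun h0 => flat (C := C3 * (1 + δ⁻¹) * C2 * osc F y R) hR hε
      fun ρ hρ z hz => ?_, fun h0 => ?_⟩
    · have g : ∀ t ∈ Ioc 0 R, δ * ‖av F y t‖ ≤ osc F y t := fun t ht => not_lt.1 fun h =>
        ((nd F y t ht.1 (sm t ht.2).1 (sm t ht.2).2 h).1 y
          (mem_ball_self (mul_pos hc ht.1))).1 h0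
      have a := dg F y R ρ hρ.1 hρ.2 hs hm fun t ht => g t ⟨hρ.1.trans_le ht.1, ht.2⟩
      have b := su F y ρ hρ.1 (sm ρ hρ.2).1 (sm ρ hρ.2).2 z hz
      have e : ‖av F y ρ‖ ≤ δ⁻¹ * osc F y ρ := (le_inv_mul_iff₀ hδ).2 (g ρ hρ)
      rw [h0, sub_zero]
      calc _ ≤ C3 * (osc F y ρ + δ⁻¹ * osc F y ρ) := b.trans (by gcongr)
        _ = C3 * (1 + δ⁻¹) * osc F y ρ := by ring
        _ ≤ C3 * (1 + δ⁻¹) * (C2 * (ρ / R) ^ (1 + ε) * osc F y R) := by gcongr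
        _ = _ := by ring
    · obtain ⟨ρ, hρ, a, b⟩ := last ho hε h2 hm (fun ρ a b => dg F y R ρ a b hs hm)
        (good ho hR hδ ((k.sca d p hp).co _ F q hq isOpen_ball hs) h0)
      have p0 := hρ.1
      obtain ⟨e, f⟩ := nd F y ρ p0 (sm ρ hρ.2).1 (sm ρ hρ.2).2 a
      refine ⟨f.contDiffAt (ball_mem_nhds y (by positivity)), ρ, hρ, fun z hz => (e z hz).1,
        (e y (mem_ball_self (by positivity))).2.trans ?_⟩
      rw [Real.rpow_add (div_pos p0 hR), Real.rpow_one] at b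
      calc _ ≤ C1 * (2 * 2 ^ d * (C2 + 1) * 2 ^ (1 + ε) * (ρ / R * (ρ / R) ^ ε) * osc F y R) /
            ρ := by gcongr
        _ = _ := by rw [eC]; field_simp
  refine ⟨4 * 2 ^ d * C, by positivity, fun F x r hr hs hm => ?_⟩
  have hO := ho.nn F x r
  have pt' : ∀ y ∈ ball x (r / 4), (F y = 0 → HasFDerivAt F (0 : L d (X d)) y) ∧
      (F y ≠ 0 → ContDiffAt ℝ 1 F y ∧ ∃ ρ ∈ Ioc 0 (r / 2), (∀ z ∈ ball y (c * ρ), F z ≠ 0) ∧
        ‖fderiv ℝ F y‖ ≤ 4 * 2 ^ d * C * osc F x r / r * (ρ / (r / 2)) ^ ε) := fun y hy => by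
    have hb : ball y (r / 2) ⊆ ball x r :=
      ball_subset_ball' (by linarith [mem_ball.1 hy])
    obtain ⟨a, b⟩ := pt F y (r / 2) (by positivity) (hs.mono hb) (memLp_mono hm hb)
    refine ⟨a, fun h0 => ⟨(b h0).1, ?_⟩⟩
    obtain ⟨ρ, hρ, e, f⟩ := (b h0).2
    have p0 := hρ.1
    have g := (ho.sub F x r y (r / 2) (by positivity) hb hm).2
    rw [show r / (r / 2) = 2 by field_simp] at g
    refine ⟨ρ, hρ, e, f.trans ?_⟩
    calc _ ≤ C * (2 * 2 ^ d * osc F x r) / (r / 2) * (ρ / (r / 2)) ^ ε := by gcongr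
      _ = _ := by field_simp; ring
  have hK : 0 ≤ 4 * 2 ^ d * C * osc F x r / r := by positivity
  refine ⟨(contDiffOn_succ_iff_fderiv_of_isOpen (n := 0) isOpen_ball).2
    ⟨fun y hy => DifferentiableAt.differentiableWithinAt ?_, by simp,
      contDiffOn_zero.2 fun y hy => ContinuousAt.continuousWithinAt ?_⟩, fun y hy => ?_⟩
  · by_cases h0 : F y = 0
    exacts [((pt' y hy).1 h0).differentiableAt, ((pt' y hy).2 h0).1.differentiableAt one_ne_zero]
  · by_cases h0 : F y = 0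
    swap
    · exact ((pt' y hy).2 h0).1.continuousAt_fderiv one_ne_zero
    rw [ContinuousAt, ((pt' y hy).1 h0).fderiv]
    refine squeeze_zero_norm' ?_ (pow0 hε (4 * 2 ^ d * C * osc F x r / r) (c⁻¹ / (r / 2)) y)
    filter_upwards [isOpen_ball.mem_nhds hy] with z hz
    by_cases h : F z = 0
    · rw [((pt' z hz).1 h).fderiv, norm_zero]; positivity
    obtain ⟨ρ, hρ, a, b⟩ := ((pt' z hz).2 h).2
    have p0 := hρ.1
    have e : ρ ≤ c⁻¹ * ‖z - y‖ := by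
      have := mt (a y) (not_not.2 h0)
      rw [mem_ball, dist_comm, dist_eq_norm, not_lt] at this
      exact (le_inv_mul_iff₀ hc).2 this
    rw [div_mul_eq_mul_div c⁻¹]
    exact b.trans (by gcongr)
  · by_cases h0 : F y = 0
    · rwa [((pt' y hy).1 h0).fderiv, norm_zero]
    obtain ⟨ρ, hρ, -, b⟩ := ((pt' y hy).2 h0).2
    have p0 := hρ.1
    exact b.trans (mul_le_of_le_one_right hK
      (Real.rpow_le_one (by positivity) (div_le_one_of_le₀ hρ.2 (by positivity)) hε.le))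

end Pool.Agent.MP_815c6c_an.S
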