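import Pool.Agent.MP_815c6c_an.S.LOsc

/-! The Schauder estimate for the Laplace operator, by mean values at dyadic scales. -/

set_option autoImplicit false

namespace Pool.Agent.MP_815c6c_an.S

open Set Metric MeasureTheory Filter Topology
open scoped ENNReal RealInnerProductSpace
open N (X Gr He Dm bb HH Ht sh sc AH WG Ts Ib L1 act ap tens kk pa)

namespace LCsA

variable {d n : ℕ}

theorem sc_sh {E : Type} (x : X d) (s t : ℝ) (z : X d → E) : sc s (sh x t z) = sh x (t * s) z := by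
  funext y
  simp only [sc, sh, mul_smul]

theorem c_sh {E : Type} [TopologicalSpace E] {z : X d → E} (hz : Continuous z) (x : X d) (t : ℝ) :
    Continuous (sh x t z) := hz.comp (by fun_prop)

/-- the estimate from the almost harmonicity at all scales -/
theorem core (nk : N.Kit) (ev : N.EvS) (mol : N.MolS) (d n : ℕ) {α : ℝ} (h0 : 0 < α) (h1 : α < 1) :
    ∃ C : ℝ, 0 ≤ C ∧ ∀ (v : X d → X n) (K : ℝ), 0 ≤ K → ContDiff ℝ 1 v →
      (∀ x ∈ ball (0 : X d) (1 / 2), ∀ t : ℝ, 0 < t → t ≤ 1 / 2 →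
        AH (K * t ^ α) (sh x t (Dm v))) →
      (∀ x ∈ ball (0 : X d) (1 / 2), ‖bb (sh x (1 / 2) (Dm v))‖ ≤ K ∧
        ‖HH (sh x (1 / 2) (Dm v))‖ ≤ K) → Est α (C * K) (1 / 2) (Dm v) := by
  obtain ⟨f, C, -, C0, -, -, ev⟩ := ev d n (1 / 2) (by norm_num) (by norm_num)
  obtain ⟨σ, hσ⟩ : ∃ σ : ℝ, σ = (1 / 2) ^ α := ⟨_, rfl⟩
  have s1 : σ < 1 := hσ ▸ Real.rpow_lt_one (by norm_num) (by norm_num) h0
  have s0 : 1 / 2 < σ := by
    rw [hσ]
    simpa using Real.rpow_lt_rpow_of_exponent_gt (x := 1 / 2) (by norm_num) (by norm_num) h1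
  have sp : ∀ j : ℕ, ((1 / 2 : ℝ) ^ j) ^ α = σ ^ j := fun j => by
    rw [hσ, ← Real.rpow_natCast, ← Real.rpow_mul (by norm_num), mul_comm,
      Real.rpow_mul (by norm_num), Real.rpow_natCast]
  obtain ⟨A, A2, hA⟩ : ∃ A : ℝ, 2 ≤ A ∧ A + C ≤ 2 * σ * A :=
    ⟨2 + C / (2 * σ - 1), le_add_of_nonneg_right (div_nonneg C0 (by linarith)), by
      have : C / (2 * σ - 1) * (2 * σ - 1) = C := div_mul_cancel₀ _ (by linarith)
      nlinarith⟩
  obtain ⟨B, B0, hB⟩ : ∃ B : ℝ, 0 ≤ B ∧ B = C / (1 - σ) := ⟨_, div_nonneg C0 (by linarith), rfl⟩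
  refine ⟨1 + 2 * B + 2 * A, by positivity, fun v K K0 hv ah init => ?_⟩
  have bs := nk.bas d n
  have pr := nk.par d n
  have cz := bs.c_Dm v hv
  set z := Dm v with hz
  have t0 : ∀ j : ℕ, (0 : ℝ) < (1 / 2) ^ (j + 1) := fun j => by positivity
  have t1 : ∀ j : ℕ, (1 / 2 : ℝ) ^ (j + 1) ≤ 1 / 2 := fun j => by
    rw [pow_succ]
    exact mul_le_of_le_one_left (by norm_num) (pow_le_one₀ (by norm_num) (by norm_num))
  have step : ∀ x ∈ ball (0 : X d) (1 / 2), ∀ j : ℕ,
      ‖(2 : ℝ) • HH (sh x ((1 / 2) ^ (j + 2)) z) - HH (sh x ((1 / 2) ^ (j + 1)) z)‖ ≤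
        C * (K * σ ^ (j + 1)) ∧
      ‖bb (sh x ((1 / 2) ^ (j + 2)) z) - bb (sh x ((1 / 2) ^ (j + 1)) z)‖ ≤
        C * (K * σ ^ (j + 1)) := fun x hx j => by
    have a := ah x hx _ (t0 j) (t1 j)
    rw [sp] at a
    have b := (ev _ _ (pr.ib_c _ ((c_sh hv.continuous x _).const_smul ((1 / 2 : ℝ) ^ (j + 1))⁻¹))
      (pr.ib_c _ (c_sh cz x _)) ((nk.sca d n).wg v z x _ (t0 j)
        (by linarith [mem_ball_zero_iff.1 hx, t1 j]) (pr.wg_c1 v hv))).2 _ (by positivity) a
    rw [Ht, sc_sh, ← pow_succ, one_div, inv_inv, ← one_div] at b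
    exact ⟨b.1, b.2.1⟩
  have hH : ∀ x ∈ ball (0 : X d) (1 / 2), ∀ j : ℕ,
      ‖HH (sh x ((1 / 2) ^ (j + 1)) z)‖ ≤ A * K * σ ^ (j + 1) := fun x hx j => by
    induction j with
    | zero =>
      rw [zero_add, pow_one, pow_one]
      nlinarith [(init x hx).2, mul_nonneg K0 (show 0 ≤ A * σ - 1 by nlinarith)]
    | succ j ih =>
      have a := norm_le_norm_add_norm_sub' ((2 : ℝ) • HH (sh x ((1 / 2) ^ (j + 2)) z))
        (HH (sh x ((1 / 2) ^ (j + 1)) z))
      rw [norm_smul, Real.norm_two] at a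
      have b := mul_le_mul_of_nonneg_right hA (show 0 ≤ K * σ ^ (j + 1) by positivity)
      rw [pow_succ σ (j + 1)]
      nlinarith [(step x hx j).1]
  obtain ⟨der, lim⟩ := mol d n z (pr.ib_c _ cz)
  have e : ∀ (j : ℕ) (y : X d), sc ((1 / 2) ^ j) (sh y (1 / 2) z) = sh y ((1 / 2) ^ (j + 1)) z :=
    fun j y => by rw [sc_sh, pow_succ']
  have dj : ∀ j : ℕ, ∀ x ∈ ball (0 : X d) (1 / 2), ∃ D, HasFDerivAt
      (fun y => bb (sh y ((1 / 2) ^ (j + 1)) z)) D x ∧ ‖D‖ ≤ 2 * 2 ^ j * (A * K * σ ^ (j + 1)) :=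
    fun j x hx => by
      have a := (der ((1 / 2) ^ j) (by positivity) (pow_le_one₀ (by norm_num) (by norm_num))).1 x hx
      simp only [e] at a
      refine ⟨_, a, (bs.n_apL _).trans ?_⟩
      rw [Ht, e, norm_smul, norm_smul, Real.norm_two, show ((1 / 2 : ℝ) ^ j)⁻¹ = 2 ^ j by simp,
        Real.norm_of_nonneg (by positivity), mul_assoc]
      gcongr
      exact hH x hx j
  have tail : ∀ j : ℕ, ∀ x ∈ ball (0 : X d) (1 / 2),
      ‖bb (sh x ((1 / 2) ^ (j + 1)) z) - z x‖ ≤ B * K * σ ^ (j + 1) := fun j => by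
    refine le_of_ae isOpen_ball (ContinuousOn.norm (ContinuousOn.sub (fun x hx => ?_)
      cz.continuousOn)) continuousOn_const ?_
    · exact (dj j x hx).choose_spec.1.continuousAt.continuousWithinAt
    filter_upwards [lim (1 / 2) (by norm_num) (by norm_num), ae_restrict_mem measurableSet_ball]
      with x a hx
    simp only [e] at a
    have := dist_le_of_le_geometric_of_tendsto σ (C * K * σ) s1 (fun i => by
      rw [dist_comm, dist_eq_norm]
      exact (step x hx i).2.trans_eq (by ring)) a j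
    rw [dist_eq_norm] at this
    exact this.trans_eq (by rw [hB]; ring)
  refine ⟨fun x hx => ?_, fun x hx y hy => ?_⟩
  · have a := tail 0 x hx
    rw [zero_add, pow_one, pow_one] at a
    have b := norm_le_norm_add_norm_sub (bb (sh x (1 / 2) z)) (z x)
    nlinarith [(init x hx).1, mul_nonneg B0 K0, mul_nonneg (zero_le_two.trans A2) K0]
  · rcases (norm_nonneg (x - y)).eq_or_lt with h | h
    · rw [sub_eq_zero.1 (norm_eq_zero.1 h.symm), sub_self, norm_zero]
      positivity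
    have h' : ‖x - y‖ ≤ 1 := by
      linarith [norm_sub_le x y, mem_ball_zero_iff.1 hx, mem_ball_zero_iff.1 hy]
    obtain ⟨j, a, b⟩ := exists_nat_pow_near_of_lt_one h h' (y := (1 / 2 : ℝ)) (by norm_num)
      (by norm_num)
    choose! D D1 D2 using dj j
    have c := (convex_ball (0 : X d) (1 / 2)).norm_image_sub_le_of_norm_hasFDerivWithin_le
      (fun w hw => (D1 w hw).hasFDerivWithinAt) D2 hy hx
    have f' : 2 * 2 ^ j * (A * K * σ ^ (j + 1)) * ‖x - y‖ ≤ 2 * (A * K * σ ^ (j + 1)) := by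
      refine (mul_le_mul_of_nonneg_left b (by positivity)).trans_eq ?_
      rw [one_div, inv_pow]
      field_simp
    have g : σ ^ (j + 1) ≤ ‖x - y‖ ^ α := sp _ ▸ Real.rpow_le_rpow (t0 j).le a.le h0.le
    have i := dist_triangle4 (z x) (bb (sh x ((1 / 2) ^ (j + 1)) z))
      (bb (sh y ((1 / 2) ^ (j + 1)) z)) (z y)
    rw [dist_comm (z x) (bb _), dist_eq_norm, dist_eq_norm, dist_eq_norm, dist_eq_norm] at i
    refine le_trans ?_ (mul_le_mul_of_nonneg_left g (by positivity))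
    nlinarith [tail j x hx, tail j y hy, mul_nonneg K0 (pow_nonneg (by linarith : 0 ≤ σ) (j + 1))]

/-- weighted means of a gradient are bounded by the potential -/
theorem pot (nk : N.Kit) {ψ : X d → ℝ} (hψ : Ts ψ) : ∃ c : ℝ, 0 ≤ c ∧
    ∀ (v : X d → X n) (z : X d → Gr d n), Continuous v → Continuous z → WG v z →
      Integrable (fun x => ψ x • z x) ∧ ‖∫ x, ψ x • z x‖ ≤ c * L1 v := by
  obtain ⟨h1, r, r1, hr⟩ := id hψ
  have T : Tc (ball 0 1) ψ := by
    have s : tsupport ψ ⊆ closedBall 0 r := closure_minimal (fun x hx => by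
      by_contra a
      exact hx (hr x (not_le.1 (mt mem_closedBall_zero_iff.2 a)).le)) isClosed_closedBall
    exact ⟨h1, (isCompact_closedBall 0 r).of_isClosed_subset (isClosed_tsupport ψ) s,
      s.trans (closedBall_subset_ball r1)⟩
  obtain ⟨c, c0, hc⟩ := T.bd
  refine ⟨d * c, by positivity, fun v z cv cz wg => ?_⟩
  have i : Integrable fun x => ψ x • z x :=
    (h1.continuous.smul cz).integrable_of_hasCompactSupport T.2.1.smul_right
  have l0 : 0 ≤ L1 v := integral_nonneg fun _ => norm_nonneg _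
  refine ⟨i, ?_⟩
  rw [← (nk.bas d n).jm_act (∫ x, ψ x • z x), mul_assoc]
  refine ((nk.bas d n).n_jm _).trans (mul_le_mul_of_nonneg_left
    (ContinuousLinearMap.opNorm_le_bound _ (by positivity) fun y => ?_) d.cast_nonneg)
  have e := ((act (d := d) (n := n)).flip y).integral_comp_comm i
  simp only [ContinuousLinearMap.flip_apply, map_smul] at e
  rw [← e, ← norm_neg, ← wg ψ hψ y, ← setIntegral_eq_integral_of_forall_compl_eq_zero
    (s := ball 0 1) fun x hx => by simp [(T.zero hx).2], mul_right_comm, L1, ← integral_const_mul]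
  refine norm_integral_le_of_norm_le (((nk.par d n).ib_c v cv).norm.const_mul _)
    (ae_of_all _ fun x => ?_)
  rw [norm_smul]
  exact mul_le_mul_of_nonneg_right ((fderiv ℝ ψ x).le_of_opNorm_le (hc x).2 y) (norm_nonneg _)

theorem ini (nk : N.Kit) (d n : ℕ) : ∃ c : ℝ, 0 ≤ c ∧ ∀ (v : X d → X n) (z : X d → Gr d n),
    Continuous v → Continuous z → WG v z → ‖bb z‖ ≤ c * L1 v ∧ ‖HH z‖ ≤ c * L1 v := by
  have kr := nk.ker d n
  have k2 : ContDiff ℝ 2 (kk : X d → ℝ) := contDiff_infty.1 kr.sm 2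
  have k1 : ContDiff ℝ 1 (fderiv ℝ (kk : X d → ℝ)) := k2.fderiv_right (by norm_num)
  obtain ⟨c, c0, hc⟩ := pot (n := n) nk (ψ := (kk : X d → ℝ))
    ⟨k2.of_le one_le_two, 1 / 2, by norm_num, fun x hx => (kr.zero x hx).1⟩
  choose a a0 ha using fun j : Fin d => pot (n := n) nk (ψ := fun x => ⟪gradient kk x, ei j⟫)
    ⟨by simpa only [inner_grad] using k1.clm_apply contDiff_const, 1 / 2, by norm_num,
      fun x hx => by simp only [(kr.zero x hx).2, inner_zero_left]⟩
  have s0 : 0 ≤ ∑ j, a j := Finset.sum_nonneg fun j _ => a0 j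
  refine ⟨c + ∑ j, a j, by positivity, fun v z cv cz wg => ?_⟩
  have l0 : 0 ≤ L1 v := integral_nonneg fun _ => norm_nonneg _
  refine ⟨(hc v z cv cz wg).2.trans (by nlinarith), ?_⟩
  have e : ∀ x, tens (z x) (gradient kk x) =
      ∑ j, tens.flip (ei j) (⟪gradient kk x, ei j⟫ • z x) := fun x => by
    generalize gradient kk x = g
    ext k
    simp [N.tens_apply, mul_comm, EuclideanSpace.inner_single_right]
  rw [HH, norm_neg]
  simp only [e]
  rw [integral_finsetSum _ fun j _ => (tens.flip (ei j)).integrable_comp (ha j v z cv cz wg).1]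
  refine (norm_sum_le _ _).trans (le_trans (Finset.sum_le_sum (g := fun j => a j * L1 v)
    fun j _ => ?_) (by rw [← Finset.sum_mul]; nlinarith))
  rw [(tens.flip (ei j)).integral_comp_comm (ha j v z cv cz wg).1,
    ContinuousLinearMap.flip_apply, (nk.bas d n).n_tens]
  simpa using (ha j v z cv cz wg).2

/-- almost harmonicity from the equation -/
theorem ahs (nk : N.Kit) {g F : X d → X d} {B : ℝ} (cg : Continuous g)
    (cF : ContinuousOn F (closedBall 0 1)) (hB : ∀ y ∈ ball (0 : X d) 1, ‖F y - F 0‖ ≤ B)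
    (dv : Dv (ball 0 1) fun y => g y - F y) : AH (vb d 1 * B) fun y => jj d (g y) := by
  intro φ c hφ b1 b2
  have pr := nk.par d 1
  have c0 : 0 ≤ c := (norm_nonneg _).trans (b1 0)
  have iF : Ib fun y => jj d (F y) := (((jj d).continuous.comp_continuousOn cF).integrableOn_compact
    (isCompact_closedBall 0 1)).mono_set ball_subset_closedBall
  have ig : Ib fun y => jj d (g y) := pr.ib_c _ ((jj d).continuous.comp cg)
  have ic : Ib fun _ : X d => jj d (F 0) := pr.ib_c _ continuous_const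
  obtain ⟨h1, r, r1, hr⟩ := id hφ
  have T : Tc (ball 0 1) fun y => φ y 0 := by
    have s : tsupport (fun y => φ y 0) ⊆ closedBall 0 r := closure_minimal (fun x hx => by
      by_contra a
      exact hx (by simp [hr x (not_le.1 (mt mem_closedBall_zero_iff.2 a)).le])) isClosed_closedBall
    exact ⟨(EuclideanSpace.proj (0 : Fin 1) : X 1 →L[ℝ] ℝ).contDiff.comp h1,
      (isCompact_closedBall 0 r).of_isClosed_subset (isClosed_tsupport _) s,
      s.trans (closedBall_subset_ball r1)⟩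
  have e1 := pr.add _ _ 1 (-1) φ ig iF hφ
  have e2 := pr.add _ _ 1 (-1) φ iF ic hφ
  have e3 := pr.aff (jj d (F 0)) 0 φ hφ
  have e4 : pa (fun y => (1 : ℝ) • jj d (g y) + (-1 : ℝ) • jj d (F y)) φ = 0 := by
    rw [← dv _ T, pa]
    refine integral_congr_ae (ae_of_all _ fun y => ?_)
    simp only [Dm_eq (h1.differentiable one_ne_zero y), one_smul, neg_smul, ← sub_eq_add_neg,
      ← map_sub, LinearIsometryEquiv.inner_map_map]
    rw [real_inner_comm, inner_grad]
  simp only [map_zero, zero_apply, add_zero, inner_zero_left, integral_zero,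
    neg_zero] at e3
  have i2 : Ib fun y => (1 : ℝ) • jj d (F y) + (-1 : ℝ) • jj d (F 0) :=
    (iF.smul (1 : ℝ)).add (ic.smul (-1 : ℝ))
  have := pr.ah _ i2 φ c hφ b1 b2
  rw [e2, e3] at this
  rw [show pa (fun y => jj d (g y)) φ = 1 * pa (fun y => jj d (F y)) φ + -1 * 0 by linarith]
  refine this.trans (mul_le_mul_of_nonneg_right ?_ c0)
  rw [L1, ← int_one 0]
  refine setIntegral_mono_on i2.norm (integrableOn_const measure_ball_lt_top.ne) measurableSet_ball
    fun y hy => ?_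
  simpa only [one_smul, neg_smul, ← sub_eq_add_neg, ← map_sub, LinearIsometryEquiv.norm_map]
    using hB y hy

end LCsA

open LCsA in
theorem lcs : Kit → N.Kit → N.EvS → N.MolS → CsS := by
  intro k nk ev mol d α h0 h1
  obtain ⟨C, C0, core⟩ := core nk ev mol d 1 h0 h1
  obtain ⟨c, c0, ini⟩ := ini nk d 1
  have v0 : 0 ≤ vb d 1 := vb_nonneg 1
  obtain ⟨A, hA⟩ : ∃ A : ℝ, A = c * (2 * (1 / (3 / 4)) * ((3 / 4 * (1 / 2)) ^ d)⁻¹) := ⟨_, rfl⟩
  have A0 : 0 ≤ A := by rw [hA]; positivity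
  refine ⟨2 * (C * (vb d 1 + A)), by positivity, fun w F K K0 hw iw hF dv => ?_⟩
  obtain ⟨w', c1, -, e⟩ := c1_ext isOpen_ball (closedBall_subset_ball (x := (0 : X d))
    (show (7 / 8 : ℝ) < 1 by norm_num)) hw
  have eg : ∀ y ∈ closedBall (0 : X d) (7 / 8), gradient w' y = gradient w y :=
    fun y hy => (e y hy).gradient_eq
  have W0 : 0 ≤ ∫ x in ball 0 1, |w x| := integral_nonneg fun _ => abs_nonneg _
  have cg : Continuous (gradient w') := continuousOn_univ.1 (cont_grad isOpen_univ c1.contDiffOn)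
  let v : X d → X 1 := fun y => (1 / (3 / 4) * w' (0 + (3 / 4 : ℝ) • y)) • ei 0
  have cv : ContDiff ℝ 1 v := (contDiff_const.mul (c1.comp (by fun_prop))).smul contDiff_const
  have ez : ∀ y, Dm v y = jj d (gradient w' ((3 / 4 : ℝ) • y)) := fun y => by
    have := (k.sca d 3 (by norm_num)).gr w' 0 (3 / 4) 1 (by norm_num) y
    rw [one_smul, zero_add] at this
    rw [Dm_eq (cv.differentiable one_ne_zero y), ← this]
    simp [v]
  have mem : ∀ x ∈ ball (0 : X d) (1 / 2), ∀ t : ℝ, 0 < t → t ≤ 1 / 2 → ∀ y ∈ closedBall (0 : X d) 1,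
      (3 / 4 : ℝ) • x + (3 / 4 * t) • y ∈ closedBall (0 : X d) (3 / 4) := fun x hx t t0 t1 y hy => by
    rw [mem_closedBall_zero_iff] at hy ⊢
    refine (norm_add_le _ _).trans ?_
    rw [norm_smul, norm_smul, Real.norm_of_nonneg (by norm_num), Real.norm_of_nonneg (by positivity)]
    nlinarith [mem_ball_zero_iff.1 hx]
  have s1 : closedBall (0 : X d) (3 / 4) ⊆ ball 0 1 := closedBall_subset_ball (by norm_num)
  have s2 : closedBall (0 : X d) (3 / 4) ⊆ closedBall 0 (7 / 8) :=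
    closedBall_subset_closedBall (by norm_num)
  have est := core v ((vb d 1 + A) * (K + ∫ x in ball 0 1, |w x|)) (by positivity) cv
    (fun x hx t t0 t1 φ b hφ b1 b2 => ?_) fun x hx => ?_
  · have m : ∀ x ∈ ball (0 : X d) (1 / 4), (4 / 3 : ℝ) • x ∈ ball (0 : X d) (1 / 2) ∧
        Dm v ((4 / 3 : ℝ) • x) = jj d (gradient w x) := fun x hx => by
      rw [mem_ball_zero_iff] at hx
      rw [mem_ball_zero_iff, norm_smul, Real.norm_of_nonneg (by norm_num), ez, smul_smul,
        show (3 / 4 * (4 / 3) : ℝ) = 1 by norm_num, one_smul,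
        eg x (mem_closedBall_zero_iff.2 (by linarith))]
      exact ⟨by linarith, rfl⟩
    have P0 : 0 ≤ C * ((vb d 1 + A) * (K + ∫ x in ball 0 1, |w x|)) := by positivity
    refine ⟨fun x hx => ?_, fun x hx y hy => ?_⟩
    · have := est.1 _ (m x hx).1
      rw [(m x hx).2, LinearIsometryEquiv.norm_map] at this
      linarith
    · have := est.2 _ (m x hx).1 _ (m y hy).1
      rw [(m x hx).2, (m y hy).2, ← map_sub, LinearIsometryEquiv.norm_map, ← smul_sub, norm_smul,
        Real.norm_of_nonneg (by norm_num), Real.mul_rpow (by norm_num) (norm_nonneg _)] at this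
      have q : (4 / 3 : ℝ) ^ α ≤ 2 :=
        (Real.rpow_le_self_of_one_le (by norm_num) h1.le).trans (by norm_num)
      have := this.trans (mul_le_mul_of_nonneg_left (mul_le_mul_of_nonneg_right q
        (Real.rpow_nonneg (norm_nonneg _) _)) P0)
      linarith
  · have := ahs nk (g := fun y => gradient w' ((3 / 4 : ℝ) • x + (3 / 4 * t) • y))
      (F := fun y => F ((3 / 4 : ℝ) • x + (3 / 4 * t) • y)) (B := K * t ^ α)
      (cg.comp (by fun_prop))
      ((hF.cont h0).comp (by fun_prop) fun y hy => s1 (mem x hx t t0 t1 y hy))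
      (fun y hy => (hF _ (s1 (mem x hx t t0 t1 y (ball_subset_closedBall hy))) _
        (s1 (mem x hx t t0 t1 0 (mem_closedBall_self zero_le_one)))).trans ?_)
      (((k.dv d).sca _ _ _ ((3 / 4 : ℝ) • x) (3 / 4 * t) (by positivity) (fun y hy =>
        s1 (mem x hx t t0 t1 y (ball_subset_closedBall hy))) dv).congr' fun y hy => by
          rw [eg _ (s2 (mem x hx t t0 t1 y (ball_subset_closedBall hy)))]) φ b hφ b1 b2
    · have e' : sh x t (Dm v) = fun y => jj d (gradient w' ((3 / 4 : ℝ) • x + (3 / 4 * t) • y)) := by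
        funext y
        rw [sh, ez, smul_add, smul_smul]
      rw [e']
      refine this.trans (mul_le_mul_of_nonneg_right ?_ ((norm_nonneg _).trans (b1 0)))
      have : 0 ≤ t ^ α := by positivity
      rw [← mul_assoc]
      gcongr <;> linarith
    · rw [smul_zero, add_zero, add_sub_cancel_left, norm_smul, Real.norm_of_nonneg (by positivity)]
      gcongr
      nlinarith [mem_ball_zero_iff.1 hy, norm_nonneg y]
  · have a := ini _ _ ((c_sh cv.continuous x _).const_smul (1 / 2 : ℝ)⁻¹)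
      (c_sh ((nk.bas d 1).c_Dm v cv) x _) ((nk.sca d 1).wg v _ x (1 / 2) (by norm_num)
        (by linarith [mem_ball_zero_iff.1 hx]) ((nk.par d 1).wg_c1 v cv))
    have sb : ball ((3 / 4 : ℝ) • x) (3 / 4 * (1 / 2) * 1) ⊆ closedBall 0 (3 / 4) := fun y hy => by
      have := norm_le_norm_add_norm_sub' y ((3 / 4 : ℝ) • x)
      rw [norm_smul, Real.norm_of_nonneg (by norm_num)] at this
      rw [mem_closedBall_zero_iff]
      linarith [mem_ball_iff_norm.1 hy, mem_ball_zero_iff.1 hx]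
    have b : c * L1 (fun y => (1 / 2 : ℝ)⁻¹ • sh x (1 / 2) v y) ≤ A * ∫ x in ball 0 1, |w x| := by
      have f := ((k.osc d ℝ).sca (fun y => |w' y|) ((3 / 4 : ℝ) • x) (3 / 4 * (1 / 2)) 1 1
        (by norm_num) zero_le_one).2.2.1
      have g : ∀ y, ‖(1 / 2 : ℝ)⁻¹ • sh x (1 / 2) v y‖ =
          2 * (1 / (3 / 4)) * |w' ((3 / 4 : ℝ) • x + (3 / 4 * (1 / 2) : ℝ) • y)| := fun y => by
        simp only [sh, v, norm_smul, zero_add, smul_add, smul_smul, norm_mul, Real.norm_eq_abs]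
        norm_num
        ring
      simp only [L1, g]
      rw [integral_const_mul, f, hA, smul_eq_mul, mul_assoc c, ← mul_assoc _ _ (∫ _ in _, _)]
      gcongr
      rw [setIntegral_congr_fun measurableSet_ball (g := fun y => |w y|) fun y hy => by
        simp only [(e y (s2 (sb hy))).eq_of_nhds]]
      exact setIntegral_mono_set iw.abs (ae_of_all _ fun _ => abs_nonneg _)
        (sb.trans s1).eventuallyLE
    have : A * ∫ x in ball 0 1, |w x| ≤ (vb d 1 + A) * (K + ∫ x in ball 0 1, |w x|) := by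
      nlinarith [mul_nonneg v0 W0, mul_nonneg A0 K0, mul_nonneg v0 K0]
    exact ⟨a.1.trans (b.trans this), a.2.trans (b.trans this)⟩

end Pool.Agent.MP_815c6c_an.S
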