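import Pool.Agent.MP_815c6c_an.S.LOsc

/-! Scalar p-harmonic functions in any dimension: the nondegenerate regime. -/

set_option autoImplicit false

namespace Pool.Agent.MP_815c6c_an.S

open Set Metric MeasureTheory Filter Topology
open scoped ENNReal RealInnerProductSpace
open N (X Gr)
open Q (pw)

namespace LNdA

variable {d : ℕ}

theorem back_mem {x z : X d} {r ρ : ℝ} (hr : 0 < r) (hz : z ∈ ball x (ρ * r)) :
    r⁻¹ • (z - x) ∈ ball (0 : X d) ρ := by
  rw [mem_ball_zero_iff, norm_smul, Real.norm_of_nonneg (inv_pos.2 hr).le, inv_mul_lt_iff₀ hr,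
    mul_comm]
  exact mem_ball_iff_norm.1 hz

theorem back_eq (x z : X d) {r : ℝ} (hr : 0 < r) : x + r • r⁻¹ • (z - x) = z := by
  rw [smul_inv_smul₀ hr.ne', add_sub_cancel]

/-- derivatives after a change of scale -/
theorem transfer {f g : X d → X d} {x : X d} {a r ρ B : ℝ} (ha : 0 ≤ a) (hr : 0 < r)
    (hg : ContDiffOn ℝ 1 g (ball 0 ρ)) (hB : ∀ y ∈ ball (0 : X d) ρ, ‖fderiv ℝ g y‖ ≤ B)
    (e : ∀ z ∈ ball x (ρ * r), f z = a • g (r⁻¹ • (z - x))) :
    ContDiffOn ℝ 1 f (ball x (ρ * r)) ∧ ∀ z ∈ ball x (ρ * r), ‖fderiv ℝ f z‖ ≤ a * B / r := by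
  have hA : ContDiff ℝ 1 fun z : X d => r⁻¹ • (z - x) := by fun_prop
  refine ⟨((hg.comp hA.contDiffOn fun z hz => back_mem hr hz).const_smul a).congr e,
    fun z hz => ?_⟩
  have m := back_mem hr hz
  have h1 : HasFDerivAt (fun z : X d => r⁻¹ • (z - x)) (r⁻¹ • ContinuousLinearMap.id ℝ (X d)) z :=
    ((hasFDerivAt_id z).sub_const x).const_smul r⁻¹
  have h2 : HasFDerivAt g (fderiv ℝ g (r⁻¹ • (z - x))) (r⁻¹ • (z - x)) :=
    ((hg.contDiffAt (isOpen_ball.mem_nhds m)).differentiableAt one_ne_zero).hasFDerivAt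
  have h3 := ((h2.comp z h1).const_smul a).congr_of_eventuallyEq
    (f₁ := f) (by filter_upwards [isOpen_ball.mem_nhds hz] with w hw using e w hw)
  rw [h3.fderiv, norm_smul, Real.norm_of_nonneg ha, mul_div_assoc]
  refine mul_le_mul_of_nonneg_left ((ContinuousLinearMap.opNorm_comp_le _ _).trans ?_) ha
  rw [norm_smul, Real.norm_of_nonneg (inv_pos.2 hr).le, div_eq_mul_inv]
  refine mul_le_mul (hB _ m) ?_ (by positivity) ((norm_nonneg _).trans (hB _ m))
  exact mul_le_of_le_one_right (inv_pos.2 hr).le ContinuousLinearMap.norm_id_le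

theorem small {K α ε : ℝ} (ha : 0 < α) (he : 0 < ε) :
    ∃ t : ℝ, 0 < t ∧ t ≤ 1 / 16 ∧ K * t ^ α ≤ ε := by
  have c : Continuous fun t : ℝ => K * t ^ α :=
    continuous_const.mul (Continuous.rpow_const continuous_id fun _ => Or.inr ha.le)
  have h1 : ∀ᶠ t : ℝ in 𝓝 0, K * t ^ α < ε :=
    c.continuousAt.eventually_lt continuousAt_const (by simpa [Real.zero_rpow ha.ne'] using he)
  have h2 : ∀ᶠ t : ℝ in 𝓝 0, t < 1 / 16 := eventually_lt_nhds (by norm_num)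
  obtain ⟨t, ⟨a, b⟩, e⟩ :=
    (((h1.and h2).filter_mono nhdsWithin_le_nhds).and (self_mem_nhdsWithin (s := Ioi 0))).exists
  exact ⟨t, e, b.le, a.le⟩

/-- the normalised statement -/
theorem norm_case (k : Kit) (c2 : C2S) (d : ℕ) (p q : ℝ) (hp : 2 < p) (hq : 2 < q)
    (rg : RegS d p) (su : SupS d p q) : ∃ δ c C : ℝ, 0 < δ ∧ 0 < c ∧ 0 ≤ C ∧
    ∀ F : X d → X d, Sl p q (ball 0 1) F → MemLp F 2 (vo (ball 0 1)) → ‖av F 0 1‖ = 1 →
      osc F 0 1 < δ → (∀ y ∈ ball (0 : X d) c, F y ≠ 0 ∧ ‖fderiv ℝ F y‖ ≤ C * osc F 0 1) ∧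
        ContDiffOn ℝ 1 F (ball 0 c) := by
  obtain ⟨α, CR, rg⟩ := rg
  obtain ⟨CS, cs0, su⟩ := su
  have al := k.alg (X d) q hq
  have sc := k.sca d p hp
  have os := k.osc d (X d)
  obtain ⟨CL, cl0, low⟩ := al.low
  obtain ⟨δ2, κ, C2, d0, d1, k0, k1, c20, c2⟩ := c2 d p α hp rg.a0 rg.a1
  obtain ⟨M, hM⟩ : ∃ M, M = CL * (2 * CS + 1) + 1 := ⟨_, rfl⟩
  obtain ⟨K, hK⟩ : ∃ K, K = CR * M / (1 / 8) ^ α := ⟨_, rfl⟩
  have K0 : 0 ≤ K := by
    have := rg.c0
    rw [hK, hM]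
    positivity
  obtain ⟨t, t0, t1, t2⟩ := small (K := K) rg.a0 (half_pos d0)
  obtain ⟨s, rfl⟩ : ∃ s, t = 4 * s := ⟨t / 4, by ring⟩
  have s0 : 0 < s := by linarith
  have v1 : 0 < vb d 1 := vb_pos one_pos
  have v2 : 0 < vb d (s * 2) := vb_pos (by linarith)
  refine ⟨min 1 (vb d (s * 2) * (δ2 / 2) / (CL * vb d 1)), κ * s,
    q / 2 * 2 ^ (q / 2 - 1) * (C2 * ((s ^ d)⁻¹ * (CL * vb d 1))) / s, by positivity,
    by positivity, by positivity, fun F hF m2 hm ho => ?_⟩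
  have o0 := os.nn F 0 1
  have o1 : osc F 0 1 ≤ 1 := ho.le.trans (min_le_left ..)
  have o2 : CL * vb d 1 * osc F 0 1 < vb d (s * 2) * (δ2 / 2) := by
    have := ho.trans_le (min_le_right ..)
    rwa [lt_div_iff₀ (by positivity), mul_comm] at this
  have sup := su F 0 1 one_pos hF m2
  have l1 := os.l1 F 0 1 one_pos m2
  obtain ⟨u, hu, eF⟩ := hF
  generalize av F 0 1 = m at hm sup l1
  have lw : ∀ y ∈ ball (0 : X d) 1, ‖gradient u y - m‖ ≤ CL * ‖F y - m‖ := fun y hy => by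
    have := low (gradient u y) m hm
    rwa [al.unit m hm, ← eF y hy] at this
  have b1 : ball (0 : X d) (1 / 8) ⊆ ball 0 1 := ball_subset_ball (by norm_num)
  have b2 : ball (0 : X d) (s * 2) ⊆ ball 0 1 := ball_subset_ball (by linarith)
  have b3 : ball (0 : X d) (s * 2) ⊆ ball 0 (1 / 8 / 4) := ball_subset_ball (by linarith)
  have gM : ∀ y ∈ ball (0 : X d) (1 / 8), ‖gradient u y‖ ≤ M := fun y hy => by
    have a1 := lw y (b1 hy)
    have a2 := sup y hy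
    have a3 := norm_sub_le (F y) m
    have a4 := norm_le_norm_sub_add (gradient u y) m
    have a5 : CS * (osc F 0 1 + ‖m‖) ≤ CS * 2 := mul_le_mul_of_nonneg_left (by linarith) cs0
    have a6 : CL * ‖F y - m‖ ≤ CL * (2 * CS + 1) := mul_le_mul_of_nonneg_left (by linarith) cl0.le
    linarith
  have hol : Hol α K (gradient u) (ball 0 (s * 2)) :=
    (rg.hol u 0 (1 / 8) M (by norm_num) (hu.mono b1) gM).mono b3 hK.ge
  have in1 : IntegrableOn (fun z => CL * ‖F z - m‖) (ball 0 1) :=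
    (((m2.integrable one_le_two).sub (integrable_const m)).norm).const_mul CL
  have in2 : ∫ z in ball 0 (s * 2), CL * ‖F z - m‖ ≤ CL * vb d 1 * osc F 0 1 := by
    refine (setIntegral_mono_set in1 (ae_of_all _ fun z => by positivity)
      (LE.le.eventuallyLE b2)).trans ?_
    rw [integral_const_mul, mul_assoc]
    exact mul_le_mul_of_nonneg_left l1 cl0.le
  have in3 : ∫ z in ball 0 (s * 2), ‖gradient u z - m‖ ≤ CL * vb d 1 * osc F 0 1 :=
    (integral_mono_of_nonneg (ae_of_all _ fun z => norm_nonneg _) (in1.mono_set b2)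
      ((ae_restrict_mem measurableSet_ball).mono fun z hz => lw z (b2 hz))).trans in2
  obtain ⟨y0, hy0, ny0⟩ : ∃ y0 ∈ ball (0 : X d) (s * 2), ‖gradient u y0 - m‖ ≤ δ2 / 2 := by
    by_contra h
    push Not at h
    have : ∫ _ in ball (0 : X d) (s * 2), δ2 / 2 ≤ ∫ z in ball 0 (s * 2), CL * ‖F z - m‖ :=
      integral_mono_of_nonneg (ae_of_all _ fun z => (half_pos d0).le) (in1.mono_set b2)
        ((ae_restrict_mem measurableSet_ball).mono fun z hz => (h z hz).le.trans (lw z (b2 hz)))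
    rw [int_one] at this
    linarith
  have near : ∀ y ∈ ball (0 : X d) (s * 2), ‖gradient u y - m‖ ≤ δ2 := fun y hy => by
    have a1 := hol y hy y0 hy0
    have a2 : ‖y - y0‖ ≤ 4 * s := by
      have := norm_sub_le y y0
      rw [mem_ball_zero_iff] at hy hy0
      linarith
    have a3 : K * ‖y - y0‖ ^ α ≤ K * (4 * s) ^ α :=
      mul_le_mul_of_nonneg_left (Real.rpow_le_rpow (norm_nonneg _) a2 rg.a0.le) K0
    have a4 := norm_sub_le_norm_sub_add_norm_sub (gradient u y) (gradient u y0) m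
    linarith
  have sm : ∀ y ∈ ball (0 : X d) 2, 0 + s • y ∈ ball (0 : X d) (s * 2) := sca_mem s0 le_rfl
  obtain ⟨v, hv⟩ : ∃ v : X d → ℝ, v = fun y => 1 / s * u (0 + s • y) := ⟨_, rfl⟩
  have gv : ∀ y, gradient v y = gradient u (0 + s • y) := fun y => by
    rw [hv, sc.gr u 0 s 1 s0, one_smul]
  have fl : Flat p α δ2 m v := by
    refine ⟨hm, hv ▸ sc.cs _ _ u 0 s 1 s0 one_pos (fun y hy => b2 (sm y hy)) hu,
      fun y hy => gv y ▸ near _ (sm y hy), ?_⟩
    refine ((sc.hol _ _ (gradient u) 0 α K s 1 s0 zero_le_one sm hol).congr fun y _ => by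
      rw [gv, one_smul]).mono Subset.rfl ?_
    have : s ^ α ≤ (4 * s) ^ α := Real.rpow_le_rpow s0.le (by linarith) rg.a0.le
    have := mul_le_mul_of_nonneg_left this K0
    linarith
  obtain ⟨e1, e2, -⟩ := c2 m v fl
  have e3 : ∫ x in ball 0 2, ‖gradient v x - m‖ ≤ (s ^ d)⁻¹ * (CL * vb d 1 * osc F 0 1) := by
    simp only [gv]
    rw [((k.osc d ℝ).sca (fun z => ‖gradient u z - m‖) 0 s 1 2 s0 zero_le_one).2.2.1, smul_eq_mul]
    exact mul_le_mul_of_nonneg_left in3 (by positivity)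
  have bk : ball (0 : X d) κ ⊆ ball 0 2 := ball_subset_ball (by linarith)
  have bc : ball (0 : X d) (κ * s) ⊆ ball 0 (s * 2) := ball_subset_ball (by nlinarith)
  have g1 : ContDiffOn ℝ 1 (fun y => Vp q (gradient v y)) (ball 0 κ) :=
    al.cV.1.comp_contDiffOn e1
  have g2 : ∀ y ∈ ball (0 : X d) κ, ‖fderiv ℝ (fun y => Vp q (gradient v y)) y‖ ≤
      q / 2 * 2 ^ (q / 2 - 1) * (C2 * ((s ^ d)⁻¹ * (CL * vb d 1 * osc F 0 1))) := fun y hy => by
    have h1 := ((e1.contDiffAt (isOpen_ball.mem_nhds hy)).differentiableAt one_ne_zero).hasFDerivAt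
    have h2 := ((al.cV.1.differentiable one_ne_zero (gradient v y)).hasFDerivAt.comp y h1).fderiv
    have h3 : ‖gradient v y‖ ≤ 2 := by
      have := fl.near y (bk hy)
      have := norm_le_norm_sub_add (gradient v y) m
      linarith
    have h4 : ‖gradient v y‖ ^ (q / 2 - 1) ≤ 2 ^ (q / 2 - 1) :=
      Real.rpow_le_rpow (norm_nonneg _) h3 (by linarith)
    refine (le_of_eq (congrArg norm h2)).trans ((ContinuousLinearMap.opNorm_comp_le _ _).trans ?_)
    exact mul_le_mul ((al.cV.2 _).trans (mul_le_mul_of_nonneg_left h4 (by linarith)))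
      ((e2 y hy).trans (mul_le_mul_of_nonneg_left e3 c20)) (norm_nonneg _) (by positivity)
  obtain ⟨r1, r2⟩ := transfer (f := F) (x := 0) zero_le_one s0 g1 g2 fun z hz => by
    rw [one_smul, gv, back_eq 0 z s0, eF z (b2 (bc hz))]
  refine ⟨fun y hy => ⟨fun h => ?_, (r2 y hy).trans (le_of_eq (by ring))⟩, r1⟩
  have := near y (bc hy)
  rw [eF y (b2 (bc hy)), al.ne] at h
  rw [h, zero_sub, norm_neg] at this
  linarith

end LNdA

theorem lnd : Kit → C2S → ∀ d p q, 2 < p → 2 < q → RegS d p → SupS d p q → NdS d p q := by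
  intro k c2 d p q hp hq rg su
  obtain ⟨δ, c, C, d0, c0, C0, h⟩ := LNdA.norm_case k c2 d p q hp hq rg su
  refine ⟨δ, c, C, d0, c0, C0, fun F x r hr hF m2 ho => ?_⟩
  have os := k.osc d (X d)
  have a0 : 0 < ‖av F x r‖ := pos_of_mul_pos_right ((os.nn F x r).trans_lt ho) d0.le
  obtain ⟨a, ha⟩ : ∃ a, a = ‖av F x r‖ := ⟨_, rfl⟩
  rw [← ha] at a0 ho
  obtain ⟨e1, e2, -, e4, -⟩ := os.sca F x r a⁻¹ 1 hr (inv_pos.2 a0).le
  rw [mul_one] at e1 e2 e4
  obtain ⟨h1, h2⟩ := h (fun z => a⁻¹ • F (x + r • z))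
    ((k.sca d p hp).sol _ _ F x q r a⁻¹ hq hr (inv_pos.2 a0) (sca_mem hr (mul_one r).le) hF)
    (e4 2 m2) (by rw [e1, norm_smul, Real.norm_of_nonneg (inv_pos.2 a0).le, ← ha,
      inv_mul_cancel₀ a0.ne']) (by rwa [e2, inv_mul_lt_iff₀ a0, mul_comm])
  obtain ⟨r1, r2⟩ := LNdA.transfer (f := F) (x := x) a0.le hr h2 (fun y hy => (h1 y hy).2)
    fun z _ => by rw [LNdA.back_eq x z hr, smul_inv_smul₀ a0.ne']
  refine ⟨fun y hy => ⟨fun k => (h1 _ (LNdA.back_mem hr hy)).1 ?_, (r2 y hy).trans (le_of_eq ?_)⟩,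
    r1⟩
  · simp only [LNdA.back_eq x y hr, k, smul_zero]
  · rw [e2]
    field_simp

end Pool.Agent.MP_815c6c_an.S
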