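import Pool.Agent.MP_815c6c_an.S.LOsc

/-! Scalar p-harmonic functions in any dimension: the Hölder representative. -/

set_option autoImplicit false

namespace Pool.Agent.MP_815c6c_an.S

open Set Metric MeasureTheory Filter Topology
open N (X Gr)

namespace LRepA

variable {d : ℕ}

theorem ev {y y' : X d} {ρ : ℝ} {P : X d → Prop} (hy : y ∈ ball y' ρ)
    (h : ∀ᵐ z ∂vo (ball y' ρ), P z) : ∀ᶠ z in 𝓝 y ⊓ ae volume, P z := by
  filter_upwards [mem_inf_of_left (isOpen_ball.mem_nhds hy),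
    mem_inf_of_right ((ae_restrict_iff' measurableSet_ball).1 h)] with z a b using b a

theorem nb (y : X d) : (𝓝 y ⊓ ae volume).NeBot :=
  inf_neBot_iff.2 fun _ hs _ ht => Measure.exists_mem_of_measure_ne_zero_of_ae
    (Measure.measure_pos_of_mem_nhds volume hs).ne' (ae_restrict_of_ae ht)

theorem small {α r ε : ℝ} (K : ℝ) (ha : 0 < α) (hr : 0 < r) (he : 0 < ε) :
    ∃ ρ ∈ Ioc (0 : ℝ) r, K * (ρ / r) ^ α ≤ ε := by
  have c : Continuous fun ρ : ℝ => K * (ρ / r) ^ α :=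
    continuous_const.mul (Continuous.rpow_const (by fun_prop) fun _ => Or.inr ha.le)
  have t : Tendsto (fun ρ : ℝ => K * (ρ / r) ^ α) (𝓝[>] 0) (𝓝 0) := by
    simpa [Real.zero_rpow ha.ne'] using (c.tendsto 0).mono_left nhdsWithin_le_nhds
  obtain ⟨ρ, a, b⟩ := ((t.eventually_le_const he).and (Ioc_mem_nhdsGT hr)).exists
  exact ⟨ρ, b, a⟩

end LRepA

open LRepA in
theorem lrep : RepS := by
  intro d α ha _
  refine ⟨2 * 2 ^ α, by positivity, fun f x r K hr hK h => ?_⟩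
  have ex : ∀ y : X d, ∃ w, y ∈ ball x r → Tendsto f (𝓝 y ⊓ ae volume) (𝓝 w) := fun y => by
    by_cases hy : y ∈ ball x r
    · have := nb y
      refine (CompleteSpace.complete (Metric.cauchy_iff.2 ⟨map_neBot, fun ε he => ?_⟩)).imp
        fun _ a _ => a
      obtain ⟨ρ, a, b⟩ := small K ha hr (show 0 < ε / 3 by positivity)
      obtain ⟨c, hc⟩ := h y hy ρ a
      refine ⟨closedBall c (ε / 3), (ev (mem_ball_self a.1) hc).mono fun z hz =>
        mem_closedBall_iff_norm.2 (hz.trans b), fun u hu v hv => ?_⟩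
      have := dist_triangle_right u v c
      linarith [mem_closedBall.1 hu, mem_closedBall.1 hv]
    · exact ⟨0, fun a => absurd a hy⟩
  choose W hW using ex
  have key : ∀ y ∈ ball x r, ∀ (y' : X d) (ρ B : ℝ) (c : X d), y ∈ ball y' ρ →
      (∀ᵐ z ∂vo (ball y' ρ), ‖f z - c‖ ≤ B) → ‖W y - c‖ ≤ B := fun y hy y' ρ B c a b =>
    have := nb y
    le_of_tendsto ((hW y hy).sub_const c).norm (ev a b)
  refine ⟨W, ?_, fun y hy z hz => ?_⟩
  · have a : ∀ n : ℕ, ∀ᵐ z ∂vo (ball x r), ‖W z - f z‖ ≤ 1 / (n + 1 : ℝ) := fun n => by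
      rw [ae_restrict_iff' measurableSet_ball, ae_iff]
      refine measure_null_of_locally_null _ fun y hy => ?_
      obtain ⟨ρ, a, b⟩ := small K ha hr (show 0 < 1 / (n + 1 : ℝ) / 2 by positivity)
      obtain ⟨c, hc⟩ := h y (Classical.not_imp.1 hy).1 ρ a
      refine ⟨_, inter_mem_nhdsWithin _ (ball_mem_nhds y a.1), measure_mono_null ?_
        (ae_iff.1 ((ae_restrict_iff' measurableSet_ball).1 hc))⟩
      rintro z ⟨h1, h2⟩ h3
      refine h1 fun h4 => ?_
      have := norm_sub_le_norm_sub_add_norm_sub (W z) c (f z)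
      rw [norm_sub_rev c] at this
      linarith [key z h4 y ρ _ c h2 hc, h3 h2]
    filter_upwards [ae_all_iff.2 a] with z hz
    exact sub_eq_zero.1 (norm_le_zero_iff.1
      (ge_of_tendsto' tendsto_one_div_add_atTop_nhds_zero_nat hz))
  · rcases eq_or_ne y z with rfl | hne
    · rw [sub_self, norm_zero]
      positivity
    have s0 : 0 < ‖y - z‖ := norm_pos_iff.2 (sub_ne_zero.2 hne)
    obtain ⟨y', ρ, h1, h2, h3, h4, h5⟩ : ∃ (y' : X d) (ρ : ℝ), y' ∈ ball x r ∧ ρ ∈ Ioc 0 r ∧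
        y ∈ ball y' ρ ∧ z ∈ ball y' ρ ∧ ρ ≤ 2 * ‖y - z‖ := by
      rcases le_total (2 * ‖y - z‖) r with a | a
      · exact ⟨y, _, hy, ⟨by positivity, a⟩, mem_ball_self (by positivity),
          mem_ball_iff_norm'.2 (by linarith), le_rfl⟩
      · exact ⟨x, r, mem_ball_self hr, ⟨hr, le_rfl⟩, hy, hz, a⟩
    obtain ⟨c, hc⟩ := h y' h1 ρ h2
    have a := norm_sub_le_norm_sub_add_norm_sub (W y) c (W z)
    rw [norm_sub_rev c] at a
    have b : K * (ρ / r) ^ α ≤ K * (2 ^ α * ‖y - z‖ ^ α / r ^ α) := by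
      rw [← Real.mul_rpow zero_le_two s0.le, ← Real.div_rpow (by positivity) hr.le]
      have := h2.1
      gcongr
    have e : 2 * 2 ^ α * K / r ^ α * ‖y - z‖ ^ α = 2 * (K * (2 ^ α * ‖y - z‖ ^ α / r ^ α)) := by
      ring
    linarith [key y hy y' ρ _ c h3 hc, key z hz y' ρ _ c h4 hc]

end Pool.Agent.MP_815c6c_an.S
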