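import Pool.Agent.MP_815c6c_an.S.LOsc

/-! The secant coefficients. -/

set_option autoImplicit false

namespace Pool.Agent.MP_815c6c_an.S

open Set Metric MeasureTheory Filter Topology
open scoped RealInnerProductSpace
open N (X)

theorem lsec (al : AlgS) : SecS := by
  intro d p hp
  obtain ⟨c1, c3⟩ := (al (X d) p hp).cA
  have cD : Continuous (fderiv ℝ (Ap p : X d → X d)) := c1.continuous_fderiv one_ne_zero
  have c2 : ∀ x : X d, 1 / 2 ≤ ‖x‖ → ContDiffAt ℝ 1 (fderiv ℝ (Ap p : X d → X d)) x := fun x hx =>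
    (c3 x (norm_pos_iff.1 (by linarith))).1.fderiv_right (by norm_cast)
  have cs : IsCompact (closedBall (0 : X d) (3 / 2) \ ball 0 (1 / 2)) :=
    (isCompact_closedBall _ _).diff isOpen_ball
  obtain ⟨B, hB⟩ := cs.exists_bound_of_continuousOn
    (f := fderiv ℝ (fderiv ℝ (Ap p : X d → X d))) fun x hx =>
      ((c2 x (not_lt.1 fun k => hx.2 (mem_ball_zero_iff.2 k))).continuousAt_fderiv
        one_ne_zero).continuousWithinAt
  have hi : ∀ ξ ξ' : X d, IntervalIntegrable
      (fun t : ℝ => fderiv ℝ (Ap p : X d → X d) (ξ + t • (ξ' - ξ))) volume 0 1 := fun ξ ξ' =>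
    (cD.comp (by fun_prop)).intervalIntegrable _ _
  refine ⟨max B 0, fun ξ ξ' => ∫ t in (0 : ℝ)..1, fderiv ℝ (Ap p) (ξ + t • (ξ' - ξ)),
    le_max_right _ _, fun e he => ⟨?_, fun ξ hξ ξ' hξ' => ⟨?_, fun ζ hζ ζ' hζ' => ?_⟩⟩⟩
  · ext1 Z
    have := (c3 e (norm_pos_iff.1 (by rw [he]; exact one_pos))).2 Z
    simp only [sub_self, smul_zero, add_zero, intervalIntegral.integral_const, sub_zero, one_smul]
    rw [this, Me_apply, he]
    simp
  · rw [ContinuousLinearMap.intervalIntegral_apply (hi ξ ξ'),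
      intervalIntegral.integral_eq_sub_of_hasDerivAt (f := fun t : ℝ => Ap p (ξ + t • (ξ' - ξ)))]
    · simp
    · intro t _
      have h1 : HasDerivAt (fun t : ℝ => ξ + t • (ξ' - ξ)) (ξ' - ξ) t := by
        simpa using ((hasDerivAt_id t).smul_const (ξ' - ξ)).const_add ξ
      exact (c1.differentiable one_ne_zero _).hasFDerivAt.comp_hasDerivAt t h1
    · exact ((cD.comp (by fun_prop)).clm_apply continuous_const).intervalIntegrable _ _
  · have sh : ∀ x ∈ closedBall e (1 / 2), 1 / 2 ≤ ‖x‖ ∧ ‖x‖ ≤ 3 / 2 := by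
      intro x hx
      have h1 := abs_le.1 ((abs_norm_sub_norm_le x e).trans (mem_closedBall_iff_norm.1 hx))
      constructor <;> linarith [h1.1, h1.2]
    have cv := convex_closedBall e (1 / 2 : ℝ)
    rw [← intervalIntegral.integral_sub (hi ξ ξ') (hi ζ ζ')]
    refine (intervalIntegral.norm_integral_le_of_norm_le_const
      (C := max B 0 * (‖ξ - ζ‖ + ‖ξ' - ζ'‖)) fun t ht => ?_).trans_eq (by simp)
    rw [uIoc_of_le zero_le_one] at ht
    refine (cv.norm_image_sub_le_of_norm_fderiv_le (𝕜 := ℝ) (C := max B 0)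
      (fun x hx => (c2 x (sh x hx).1).differentiableAt one_ne_zero)
      (fun x hx => (hB x ⟨mem_closedBall_zero_iff.2 (sh x hx).2, fun k =>
        (mem_ball_zero_iff.1 k).not_ge (sh x hx).1⟩).trans (le_max_left _ _))
      (cv.add_smul_sub_mem hζ hζ' ⟨ht.1.le, ht.2⟩)
      (cv.add_smul_sub_mem hξ hξ' ⟨ht.1.le, ht.2⟩)).trans
      (mul_le_mul_of_nonneg_left ?_ (le_max_right _ _))
    have e1 : ξ + t • (ξ' - ξ) - (ζ + t • (ζ' - ζ)) = (1 - t) • (ξ - ζ) + t • (ξ' - ζ') := by
      module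
    rw [e1]
    refine (norm_add_le _ _).trans (add_le_add ?_ ?_)
    · rw [norm_smul, Real.norm_of_nonneg (by linarith [ht.2])]
      exact mul_le_of_le_one_left (norm_nonneg _) (by linarith [ht.1])
    · rw [norm_smul, Real.norm_of_nonneg ht.1.le]
      exact mul_le_of_le_one_left (norm_nonneg _) ht.2

end Pool.Agent.MP_815c6c_an.S
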