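import Pool.Agent.MP_815c6c_an.S.EJac
import Pool.Agent.MP_815c6c_an.S.EEn
import Pool.Agent.MP_815c6c_an.S.LOsc
import Pool.Agent.MP_815c6c_an.S.CalA
import Pool.Agent.MP_815c6c_an.N.Fin
import Pool.Agent.MP_815c6c_an.N.Tst
import Pool.Agent.MP_815c6c_an.N.Al2
import Pool.Agent.MP_815c6c_an.N.Al3
import Pool.Agent.MP_815c6c_an.N.Shl
import Pool.Agent.MP_815c6c_an.N.Mol
import Pool.Agent.MP_815c6c_an.N.Tau
import Pool.Agent.MP_815c6c_an.N.Wgt
import Pool.Agent.MP_815c6c_an.N.Pl0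
import Pool.Agent.MP_815c6c_an.Q.Shell
import Pool.Agent.MP_815c6c_an.S.EDq
import Pool.Agent.MP_815c6c_an.S.LAbs
import Pool.Agent.MP_815c6c_an.S.LCor
import Pool.Agent.MP_815c6c_an.S.LCs
import Pool.Agent.MP_815c6c_an.S.LNd
import Pool.Agent.MP_815c6c_an.S.LRep
import Pool.Agent.MP_815c6c_an.S.LSec

-- ======== part 0: formerly Pool.Agent.MP_815c6c_an.S.ELl
section MrgPart0

/-! Scalar p-harmonic functions: the mean value inequality for Sobolev functions. -/

set_option autoImplicit false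

noncomputable section

namespace Pool.Agent.MP_815c6c_an.S

open Set Metric MeasureTheory Filter Topology Bornology
open scoped ENNReal
open N (X)
open N.AdmA (bp mo rOut_lim)

variable {d : ℕ} {q : ℝ≥0∞} {x : X d} {r M : ℝ} {u : X d → ℝ} {D : X d → L d ℝ} {c : L d ℝ}

theorem ll_der (hq : 1 ≤ q) (h : Sb q (ball x r) u D) (hM : 0 ≤ M)
    (hD : ∀ᵐ y ∂vo (ball x r), ‖D y - c‖ ≤ M) (n : ℕ) {w : X d}
    (hw : closedBall w (bp d n).rOut ⊆ ball x r) :
    ‖fderiv ℝ (mo n ((ball x r).indicator u)) w - c‖ ≤ M := by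
  classical
  let D' : X d → L d ℝ := fun y => if ‖D y - c‖ ≤ M then D y else c
  have e : D' =ᵐ[vo (ball x r)] D := hD.mono fun y hy => if_pos hy
  have b : ∀ y, ‖D' y - c‖ ≤ M := fun y => by
    simp only [D']
    split_ifs with hy
    · exact hy
    · simpa using hM
  refine ContinuousLinearMap.opNorm_le_bound _ hM fun v => ?_
  rw [sub_apply, h.der hq isOpen_ball isBounded_ball Subset.rfl isOpen_ball e n
    hw v, ← dist_eq_norm]
  refine dist_convolution_le (R := (bp d n).rOut) (by positivity)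
    (bp d n).support_normed_eq.subset (bp d n).nonneg_normed (bp d n).integral_normed
    ((aestronglyMeasurable_indicator_iff measurableSet_ball).2
      (((h.int hq isBounded_ball).2.2 v).aestronglyMeasurable.congr
        (e.mono fun y hy => by simp only [hy]))) fun y hy => ?_
  rw [indicator_of_mem (hw (ball_subset_closedBall hy)), dist_eq_norm,
    ← sub_apply]
  exact ((D' y - c).le_opNorm v).trans (mul_le_mul_of_nonneg_right (b y) (norm_nonneg _))

theorem ll_key (hq : 1 ≤ q) (h : Sb q (ball x r) u D) (hM : 0 ≤ M)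
    (hD : ∀ᵐ y ∂vo (ball x r), ‖D y - c‖ ≤ M) {y z : X d} (hy : y ∈ ball x r) (hz : z ∈ ball x r)
    (ty : Tendsto (fun n => mo n ((ball x r).indicator u) y) atTop (𝓝 (u y)))
    (tz : Tendsto (fun n => mo n ((ball x r).indicator u) z) atTop (𝓝 (u z))) :
    |u y - u z - c (y - z)| ≤ M * ‖y - z‖ := by
  have hf := h.locU hq isOpen_ball isBounded_ball
  obtain ⟨s, hs, hs'⟩ := exists_between (max_lt (mem_ball.1 hy) (mem_ball.1 hz))
  refine le_of_tendsto ((ty.sub tz).sub_const (c (y - z))).norm ?_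
  filter_upwards [(rOut_lim d).eventually (gt_mem_nhds (sub_pos.2 hs'))] with n hn
  refine (convex_ball x s).norm_image_sub_le_of_norm_fderiv_le' (fun w _ =>
    ((bp d n).hasCompactSupport_normed.hasFDerivAt_convolution_left
      (ContinuousLinearMap.lsmul ℝ ℝ) (bp d n).contDiff_normed hf w).differentiableAt)
    (fun w hw => ll_der hq h hM hD n fun t ht => ?_) (mem_ball.2 ((le_max_right _ _).trans_lt hs))
    (mem_ball.2 ((le_max_left _ _).trans_lt hs))
  rw [mem_closedBall] at ht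
  rw [mem_ball] at hw ⊢
  linarith [dist_triangle t w x]

theorem ll : SobS → LlS := by
  intro _ d q x r M u D c hq h hD
  rcases le_or_gt r 0 with hr | hr
  · refine ⟨⟨u, EventuallyEq.rfl, ?_⟩, fun _ => ?_⟩ <;> simp [ball_eq_empty.2 hr]
  have : (ae (vo (ball x r))).NeBot :=
    ae_neBot.2 (Measure.restrict_eq_zero.not.2 (measure_ball_pos volume x hr).ne')
  have hM : 0 ≤ M := hD.exists.elim fun y hy => (norm_nonneg _).trans hy
  refine ⟨?_, fun hu y hy z hz => ll_key hq h hM hD hy hz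
    (h.pt hq isOpen_ball isBounded_ball hy (hu.continuousAt (isOpen_ball.mem_nhds hy)))
    (h.pt hq isOpen_ball isBounded_ball hz (hu.continuousAt (isOpen_ball.mem_nhds hz)))⟩
  let S : Set (X d) := {y | y ∈ ball x r ∧
    Tendsto (fun n => mo n ((ball x r).indicator u) y) atTop (𝓝 (u y))}
  have hS : ∀ᵐ y ∂vo (ball x r), y ∈ S := by
    have a := ContDiffBump.ae_convolution_tendsto_right_of_locallyIntegrable (μ := volume)
      (φ := bp d) (K := 2) (rOut_lim d) (Eventually.of_forall fun n => by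
        simp only [bp]; exact le_of_eq (by ring)) (h.locU hq isOpen_ball isBounded_ball)
    rw [ae_restrict_iff' measurableSet_ball]
    filter_upwards [a] with y hy hy'
    rw [indicator_of_mem hy'] at hy
    exact ⟨hy', hy⟩
  have hl : LipschitzOnWith ⟨M, hM⟩ (fun y => u y - c y) S :=
    LipschitzOnWith.of_dist_le_mul fun y hy z hz => by
      have := ll_key hq h hM hD hy.1 hz.1 hy.2 hz.2
      rw [map_sub] at this
      rw [Real.dist_eq, dist_eq_norm]
      refine le_of_eq_of_le ?_ this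
      congr 1
      ring
  obtain ⟨g, hg, e⟩ := hl.extend_real
  refine ⟨fun y => g y + c y, hS.mono fun y hy => ?_, fun y _ z _ => ?_⟩
  · have := e hy
    simp only at this ⊢
    linarith
  · have := hg.dist_le_mul y z
    rw [Real.dist_eq, dist_eq_norm] at this
    rw [map_sub]
    refine le_of_eq_of_le ?_ this
    congr 1
    ring

end Pool.Agent.MP_815c6c_an.S

end
end MrgPart0

-- ======== part 1: formerly Pool.Agent.MP_815c6c_an.S.LAlg
section MrgPart1

/-! Scalar p-harmonic functions in any dimension: the algebra of the radial powers. -/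

set_option autoImplicit false

namespace Pool.Agent.MP_815c6c_an.S

open Set
open scoped RealInnerProductSpace
open Q (pw)

theorem lalg (hP : Q.PowS) (hA : N.Al1S) : AlgS := by
  intro E _ _ p hp
  have P := hP E
  have A := hA E
  have a0 : 0 ≤ p / 2 - 1 := by linarith
  have nv : ∀ x : E, ‖Vp p x‖ = ‖x‖ ^ (p / 2) := fun x => by
    rw [Vp, P.norm _ _ (by linarith), sub_add_cancel]
  refine ⟨fun x => ⟨nv x, ?_⟩, fun x => ?_, fun x hx => ?_, fun c x hc => ⟨?_, ?_⟩,
    ⟨(A.c1 _ a0).1, fun x => ?_⟩, ⟨(A.c1 (p - 2) (by linarith)).1, fun x hx => ⟨?_, fun Z => ?_⟩⟩,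
    ?_, ?_⟩
  · rw [nv, ← Real.rpow_natCast, ← Real.rpow_mul (norm_nonneg x)]
    congr 1
    push_cast
    ring
  · rw [← norm_eq_zero, nv, Real.rpow_eq_zero (norm_nonneg x) (by linarith), norm_eq_zero]
  · rw [Vp, pw, hx, Real.one_rpow, one_smul]
  · rw [Vp, Vp, P.smul _ _ _ hc, sub_add_cancel]
  · rw [Ap, Ap, P.smul _ _ _ hc, show p - 2 + 1 = p - 1 by ring]
  · have := (A.c1 _ a0).2 x
    rw [show 1 + (p / 2 - 1) = p / 2 by ring] at this
    exact this
  · exact ((P.sm (p - 2)).contDiffAt (isOpen_compl_singleton.mem_nhds hx)).of_le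
      (WithTop.coe_le_coe.2 (le_top : (3 : ℕ∞) ≤ ⊤))
  · exact P.der (p - 2) x Z hx
  · obtain ⟨C, c0, c1⟩ := P.lip _ a0
    exact ⟨C, c0.le, c1⟩
  · obtain ⟨C, c0, c1⟩ := A.low _ a0
    refine ⟨C, by linarith, fun x y hy => le_trans ?_ (c1 x y)⟩
    exact le_mul_of_one_le_left (norm_nonneg _)
      (Real.one_le_rpow (by linarith [norm_nonneg x]) a0)

end Pool.Agent.MP_815c6c_an.S

end MrgPart1

-- ======== part 2: formerly Pool.Agent.MP_815c6c_an.S.LAni
section MrgPart2

/-! Schauder estimates near the frozen coefficients: a linear change of variables. -/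

set_option autoImplicit false

namespace Pool.Agent.MP_815c6c_an.S

open Set Metric MeasureTheory Filter Topology
open scoped ENNReal RealInnerProductSpace
open N (X Gr)

namespace LAniA

variable {d : ℕ} {e : X d}

theorem Me_Me (he : ‖e‖ = 1) (a b : ℝ) (v : X d) :
    Me a e (Me b e v) = Me (a + b + a * b) e v := by
  simp only [Me_apply, inner_add_right, inner_smul_right, real_inner_self_eq_norm_sq, he]
  rw [add_assoc, ← add_smul]
  congr 2
  ring

theorem Me_sq (he : ‖e‖ = 1) (a : ℝ) (v : X d) :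
    ‖Me a e v‖ ^ 2 = ‖v‖ ^ 2 + ((1 + a) ^ 2 - 1) * ⟪e, v⟫ ^ 2 := by
  rw [Me_apply, norm_add_sq_real, inner_smul_right, norm_smul, he, real_inner_comm e v, mul_one,
    Real.norm_eq_abs, sq_abs]
  ring

theorem Me_symm (a : ℝ) (u v : X d) : ⟪Me a e u, v⟫ = ⟪u, Me a e v⟫ := by
  simp only [Me_apply, inner_add_right, inner_add_left, inner_smul_right, real_inner_smul_left,
    real_inner_comm u e]
  ring

/-- the change of variables -/
theorem exT (he : ‖e‖ = 1) {s : ℝ} (hs : 1 ≤ s) : ∃ T : X d ≃L[ℝ] X d, (∀ v, ‖T v‖ ≤ ‖v‖) ∧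
    (∀ v, ‖T.symm v‖ ≤ s * ‖v‖) ∧ (∀ u v, ⟪T u, v⟫ = ⟪u, T v⟫) ∧
    ∀ v, T.symm (Me (s ^ 2 - 1) e (T.symm v)) = s ^ 2 • v := by
  have s0 : 0 < s := by linarith
  have z : ∀ v : X d, Me 0 e v = v := fun v => by simp [Me_apply]
  have cs : ∀ v : X d, ⟪e, v⟫ ^ 2 ≤ ‖v‖ ^ 2 := fun v => by
    have := abs_real_inner_le_norm e v
    rw [he, one_mul] at this
    exact sq_le_sq' (abs_le.1 this).1 (abs_le.1 this).2
  refine ⟨ContinuousLinearEquiv.equivOfInverse (s⁻¹ • Me (s - 1) e) (s • Me (s⁻¹ - 1) e)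
    (fun v => ?_) fun v => ?_, fun v => ?_, fun v => ?_, fun u v => ?_, fun v => ?_⟩
  · simp only [ContinuousLinearMap.smul_apply, map_smul, Me_Me he, smul_smul]
    rw [show s⁻¹ - 1 + (s - 1) + (s⁻¹ - 1) * (s - 1) = 0 by field_simp; ring, z,
      inv_mul_cancel₀ s0.ne', one_smul]
  · simp only [ContinuousLinearMap.smul_apply, map_smul, Me_Me he, smul_smul]
    rw [show s - 1 + (s⁻¹ - 1) + (s - 1) * (s⁻¹ - 1) = 0 by field_simp; ring, z,
      mul_inv_cancel₀ s0.ne', one_smul]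
  · show ‖s⁻¹ • Me (s - 1) e v‖ ≤ ‖v‖
    rw [norm_smul, norm_inv, Real.norm_of_nonneg s0.le, inv_mul_le_iff₀ s0]
    refine abs_le_of_sq_le_sq' ?_ (by positivity) |>.2
    rw [Me_sq he]
    have := mul_le_mul_of_nonneg_left (cs v) (show 0 ≤ s ^ 2 - 1 by nlinarith)
    nlinarith
  · show ‖s • Me (s⁻¹ - 1) e v‖ ≤ s * ‖v‖
    rw [norm_smul, Real.norm_of_nonneg s0.le]
    refine mul_le_mul_of_nonneg_left (abs_le_of_sq_le_sq' ?_ (norm_nonneg _)).2 s0.le
    rw [Me_sq he]
    have a : s⁻¹ ≤ 1 := inv_le_one_of_one_le₀ hs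
    have b : 0 < s⁻¹ := inv_pos.2 s0
    have := mul_nonneg (show 0 ≤ 1 - s⁻¹ ^ 2 by nlinarith) (sq_nonneg ⟪e, v⟫)
    nlinarith
  · show ⟪s⁻¹ • Me (s - 1) e u, v⟫ = ⟪u, s⁻¹ • Me (s - 1) e v⟫
    rw [real_inner_smul_left, inner_smul_right, Me_symm]
  · show s • Me (s⁻¹ - 1) e (Me (s ^ 2 - 1) e (s • Me (s⁻¹ - 1) e v)) = s ^ 2 • v
    simp only [map_smul, Me_Me he, smul_smul]
    rw [show s⁻¹ - 1 + (s ^ 2 - 1 + (s⁻¹ - 1) + (s ^ 2 - 1) * (s⁻¹ - 1)) +
      (s⁻¹ - 1) * (s ^ 2 - 1 + (s⁻¹ - 1) + (s ^ 2 - 1) * (s⁻¹ - 1)) = 0 by field_simp; ring, z, sq]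

/-- integrals after the change of variables -/
theorem chg (T : X d ≃L[ℝ] X d) {s : ℝ} (s0 : 0 < s) (h1 : ∀ v, ‖T v‖ ≤ ‖v‖)
    (h2 : ∀ v, ‖T.symm v‖ ≤ s * ‖v‖) {w : X d → ℝ} (hw : IntegrableOn w (ball 0 1)) :
    IntegrableOn (w ∘ T) (ball 0 1) ∧
      ∫ x in ball 0 1, |(w ∘ T) x| ≤ s ^ d * ∫ x in ball 0 1, |w x| := by
  obtain ⟨J, J0, hJ⟩ : ∃ J : ℝ, 0 ≤ J ∧
      Measure.map T (volume : Measure (X d)) = ENNReal.ofReal J • volume :=
    ⟨_, abs_nonneg _, Measure.map_linearMap_addHaar_eq_smul_addHaar volume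
      (f := (T.toLinearEquiv : X d →ₗ[ℝ] X d)) T.toLinearEquiv.isUnit_det'.ne_zero⟩
  have me : MeasurableEmbedding T := T.toHomeomorph.measurableEmbedding
  have sb : ball (0 : X d) 1 ⊆ T ⁻¹' ball 0 1 := fun x hx =>
    mem_ball_zero_iff.2 ((h1 x).trans_lt (mem_ball_zero_iff.1 hx))
  have Js : J ≤ s ^ d := by
    have a : volume (T ⁻¹' ball (0 : X d) 1) ≤ volume (ball (0 : X d) s) :=
      measure_mono fun x hx => mem_ball_zero_iff.2 (by
        have := h2 (T x)
        rw [T.symm_apply_apply] at this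
        exact this.trans_lt (mul_lt_of_lt_one_right s0 (mem_ball_zero_iff.1 hx)))
    rw [← me.map_apply, hJ, Measure.smul_apply, smul_eq_mul, Measure.addHaar_ball_of_pos _ _ s0,
      finrank_euclideanSpace_fin, ENNReal.mul_le_mul_iff_left
        (measure_ball_pos _ _ one_pos).ne' measure_ball_lt_top.ne] at a
    exact (ENNReal.ofReal_le_ofReal_iff (by positivity)).1 a
  have i1 : IntegrableOn w (ball 0 1) (Measure.map T volume) := by
    rw [hJ, IntegrableOn, Measure.restrict_smul]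
    exact Integrable.smul_measure hw ENNReal.ofReal_ne_top
  have i2 : IntegrableOn (w ∘ T) (T ⁻¹' ball 0 1) := me.integrableOn_map_iff.1 i1
  refine ⟨i2.mono_set sb, (setIntegral_mono_set i2.abs (ae_of_all _ fun _ => abs_nonneg _)
    sb.eventuallyLE).trans ?_⟩
  have := me.setIntegral_map (μ := volume) (fun x => |w x|) (ball 0 1)
  rw [hJ, Measure.restrict_smul, integral_smul_measure, ENNReal.toReal_ofReal J0,
    smul_eq_mul] at this
  exact this.symm.le.trans (mul_le_mul_of_nonneg_right Js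
    (integral_nonneg fun _ => abs_nonneg _))

theorem grad_comp (T : X d ≃L[ℝ] X d) (h : ∀ u v, ⟪T u, v⟫ = ⟪u, T v⟫) (w : X d → ℝ) (y : X d) :
    gradient (w ∘ T) y = T (gradient w (T y)) :=
  ext_inner_right ℝ fun v => by
    rw [inner_grad, h, inner_grad, T.comp_right_fderiv]
    rfl

theorem pw_le {α c : ℝ} (a0 : 0 ≤ α) (a1 : α ≤ 1) (hc : 1 ≤ c) {u v : X d} (h : ‖u‖ ≤ c * ‖v‖) :
    ‖u‖ ^ α ≤ c * ‖v‖ ^ α := by
  refine (Real.rpow_le_rpow (norm_nonneg _) h a0).trans ?_
  rw [Real.mul_rpow (by linarith) (norm_nonneg _)]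
  exact mul_le_mul_of_nonneg_right (Real.rpow_le_self_of_one_le hc a1) (by positivity)

end LAniA

open LAniA in
theorem lani : Kit → AbsS → AniS := by
  intro k hA d α μ a0 a1 m0
  obtain ⟨δ, C, δ0, C0, H⟩ := hA d α a0 a1
  obtain ⟨s, hs, e2⟩ : ∃ s : ℝ, 1 ≤ s ∧ μ = s ^ 2 - 1 :=
    ⟨√(1 + μ), Real.one_le_sqrt.2 (by linarith), by rw [Real.sq_sqrt (by linarith)]; ring⟩
  subst e2
  have s0 : 0 < s := by linarith
  refine ⟨δ, 1 / (2 * s), s ^ 2 * s ^ d * C, δ0, by positivity,
    (div_le_one (by positivity)).2 (by linarith), by positivity, fun e K w a f he l => ?_⟩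
  obtain ⟨T, t1, t2, t3, t4⟩ := exT he hs
  have tb : ∀ y ∈ ball (0 : X d) 1, T y ∈ ball (0 : X d) 1 := fun x hx =>
    mem_ball_zero_iff.2 ((t1 x).trans_lt (mem_ball_zero_iff.1 hx))
  have tp : ∀ x y : X d, ‖T x - T y‖ ^ α ≤ ‖x - y‖ ^ α := fun x y =>
    Real.rpow_le_rpow (norm_nonneg _) (by rw [← map_sub]; exact t1 _) a0.le
  obtain ⟨i1, i2⟩ := chg T s0 t1 t2 l.int
  let Φ : L d (X d) → L d (X d) := fun b =>
    (s ^ 2)⁻¹ • (T.symm : X d →L[ℝ] X d).comp (b.comp (T.symm : X d →L[ℝ] X d))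
  have Φa : ∀ b v, Φ b v = (s ^ 2)⁻¹ • T.symm (b (T.symm v)) := fun _ _ => rfl
  have Φl : ∀ b b', ‖Φ b - Φ b'‖ ≤ ‖b - b'‖ := fun b b' =>
    ContinuousLinearMap.opNorm_le_bound _ (norm_nonneg _) fun v => by
      rw [ContinuousLinearMap.sub_apply, Φa, Φa, ← smul_sub, ← map_sub,
        ← ContinuousLinearMap.sub_apply, norm_smul, Real.norm_of_nonneg (by positivity),
        inv_mul_le_iff₀ (by positivity)]
      refine (t2 _).trans ?_
      have := mul_le_mul_of_nonneg_left (((b - b').le_opNorm (T.symm v)).trans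
        (mul_le_mul_of_nonneg_left (t2 v) (norm_nonneg _))) s0.le
      linarith
  have Φ1 : Φ (Me (s ^ 2 - 1) e) = ContinuousLinearMap.id ℝ _ := by
    ext1 v
    rw [Φa, t4, smul_smul, inv_mul_cancel₀ (by positivity), one_smul]
    rfl
  have l1 : Lin α δ K (ContinuousLinearMap.id ℝ _) (w ∘ T) (fun y => Φ (a (T y)))
      fun y => (s ^ 2)⁻¹ • T.symm (f (T y)) := by
    refine ⟨l.k0, l.c1.comp T.contDiff.contDiffOn tb, i1, ?_, fun x hx => ?_,
      fun x hx y hy => ?_, fun x hx y hy => ?_, ?_⟩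
    · obtain ⟨K', h⟩ := l.fin
      refine ⟨|K'|, fun x hx y hy => ?_⟩
      rw [grad_comp T t3, grad_comp T t3, ← map_sub]
      exact (t1 _).trans ((h _ (tb x hx) _ (tb y hy)).trans
        (mul_le_mul (le_abs_self _) (tp x y) (by positivity) (abs_nonneg _)))
    · rw [← Φ1]
      exact (Φl _ _).trans (l.near _ (tb x hx))
    · exact (Φl _ _).trans ((l.ha _ (tb x hx) _ (tb y hy)).trans
        (mul_le_mul_of_nonneg_left (tp x y) δ0.le))
    · rw [← smul_sub, ← map_sub, norm_smul, Real.norm_of_nonneg (by positivity),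
        inv_mul_le_iff₀ (by positivity)]
      have b1 := (l.hf _ (tb x hx) _ (tb y hy)).trans (mul_le_mul_of_nonneg_left (tp x y) l.k0)
      exact (t2 _).trans (mul_le_mul (by nlinarith) b1 (norm_nonneg _) (by positivity))
    · refine ((k.dv d).smul _ _ (s ^ 2)⁻¹ ((k.dv d).aff _ (ball 0 1) _ 0 T
        (fun y hy => by rw [zero_add]; exact tb y hy) l.dv)).congr' fun x _ => ?_
      rw [Φa, grad_comp T t3, T.symm_apply_apply, zero_add, map_sub, smul_sub]
  obtain ⟨b1, b2⟩ := H K _ _ _ l1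
  have w0 : 0 ≤ ∫ x in ball (0 : X d) 1, |w x| := integral_nonneg fun _ => abs_nonneg _
  have sd : 1 ≤ s ^ d := one_le_pow₀ hs
  have bb : C * (K + ∫ x in ball 0 1, |(w ∘ T) x|) ≤ s ^ d * C * (K + ∫ x in ball 0 1, |w x|) := by
    have := mul_le_mul_of_nonneg_right sd l.k0
    have := mul_le_mul_of_nonneg_left
      (show K + ∫ x in ball 0 1, |(w ∘ T) x| ≤ s ^ d * (K + ∫ x in ball 0 1, |w x|) by linarith) C0
    linarith
  have B0 : 0 ≤ s ^ d * C * (K + ∫ x in ball 0 1, |w x|) := by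
    have := l.k0
    positivity
  have sb : ∀ x ∈ ball (0 : X d) (1 / (2 * s)), T.symm x ∈ ball (0 : X d) (1 / 2) := fun x hx => by
    rw [mem_ball_zero_iff] at *
    refine (t2 x).trans_lt ((mul_lt_mul_of_pos_left hx s0).trans_eq ?_)
    field_simp
  have gr : ∀ x, gradient w x = T.symm (gradient (w ∘ T) (T.symm x)) := fun x => by
    rw [grad_comp T t3, T.symm_apply_apply, T.apply_symm_apply]
  refine ⟨fun x hx => ?_, fun x hx y hy => ?_⟩
  · rw [gr, mul_assoc (s ^ 2), mul_assoc (s ^ 2)]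
    exact (t2 _).trans (mul_le_mul (by nlinarith) ((b1 _ (sb x hx)).trans bb) (norm_nonneg _)
      (by positivity))
  · rw [gr, gr y, ← map_sub]
    have c1 := pw_le a0.le a1.le hs (u := T.symm x - T.symm y) (v := x - y)
      (by rw [← map_sub]; exact t2 _)
    have c2 := (b2 _ (sb x hx) _ (sb y hy)).trans (mul_le_mul bb c1 (by positivity) B0)
    exact (t2 _).trans ((mul_le_mul_of_nonneg_left c2 s0.le).trans_eq (by ring))

end Pool.Agent.MP_815c6c_an.S

end MrgPart2

-- ======== part 3: formerly Pool.Agent.MP_815c6c_an.S.LC2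
section MrgPart3

/-! Second derivatives of solutions with almost constant gradient. -/

set_option autoImplicit false

namespace Pool.Agent.MP_815c6c_an.S

open Set Metric MeasureTheory Filter Topology
open scoped ENNReal RealInnerProductSpace
open N (X Gr)
open Q (pw)

namespace LC2A

variable {d : ℕ} {u : X d → ℝ} {e h : X d}

theorem diff (hu : ContDiffOn ℝ 1 u (ball 0 2)) {x : X d} (hx : x ∈ ball (0 : X d) 2) :
    HasFDerivAt u (innerSL ℝ (gradient u x)) x := by
  rw [innerSL_grad]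
  exact ((hu.contDiffAt (isOpen_ball.mem_nhds hx)).differentiableAt one_ne_zero).hasFDerivAt

theorem grad_quo (hu : ContDiffOn ℝ 1 u (ball 0 2)) (t c : ℝ) {x : X d}
    (hx : x ∈ ball (0 : X d) 2) (hx' : x + h ∈ ball (0 : X d) 2) :
    gradient (fun y => t * (u (y + h) - u y - c)) x =
      t • (gradient u (x + h) - gradient u x) := by
  have h1 : HasFDerivAt (fun y => u (y + h)) (innerSL ℝ (gradient u (x + h))) x :=
    (hasFDerivAt_comp_add_right h).2 (diff hu hx')
  have h2 := (((h1.sub (diff hu hx)).sub_const c).const_mul t).fderiv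
  refine ext_inner_right ℝ fun v => ?_
  rw [inner_grad]
  refine (congrArg (fun T : L d ℝ => T v) h2).trans ?_
  simp [inner_smul_left, inner_sub_left]

theorem c1_quo (hu : ContDiffOn ℝ 1 u (ball 0 2)) (hh : ‖h‖ ≤ 2 - 3 / 2) :
    ContDiffOn ℝ 1 (fun y => u (y + h) - u y) (ball 0 (3 / 2)) :=
  (hu.comp (contDiff_id.add contDiff_const).contDiffOn (tra_mem hh)).sub
    (hu.mono (ball_subset_ball (by norm_num)))

theorem int_quo (tr : TrS) (hu : ContDiffOn ℝ 1 u (ball 0 2)) (hh : ‖h‖ ≤ 2 - 3 / 2)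
    (hi : IntegrableOn (fun x => ‖gradient u x - e‖) (ball 0 2)) :
    ∫ x in ball 0 1, |u (x + h) - u x - ⟪e, h⟫| ≤ ‖h‖ * ∫ x in ball 0 2, ‖gradient u x - e‖ := by
  have hv : ContDiffOn ℝ 1 (fun x => u x - innerSL ℝ e x) (ball 0 2) :=
    hu.sub (innerSL ℝ e).contDiff.contDiffOn
  have hs := sb_loc (x := 0) (r := 3 / 2) (ENNReal.ofReal 1) isOpen_ball
    (closedBall_subset_ball (by norm_num)) hv
  have h1 := tr d 1 1 (3 / 2) _ _ h le_rfl (by linarith) hs
  have h2 : Integrable (fderiv ℝ fun x => u x - innerSL ℝ e x) (vo (ball 0 (3 / 2))) :=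
    hs.memLp.2.integrable (by simp)
  have e1 : (fun x => (u (x + h) - innerSL ℝ e (x + h)) - (u x - innerSL ℝ e x)) =
      fun x => u (x + h) - u x - ⟪e, h⟫ := by
    funext x
    rw [map_add, innerSL_apply_apply ℝ e h]
    ring
  have h3 : IntegrableOn (fun x => u (x + h) - u x - ⟪e, h⟫) (ball 0 1) :=
    (((((c1_quo hu hh).sub contDiffOn_const).continuousOn).mono
      (closedBall_subset_ball (by norm_num))).integrableOn_compact
        (isCompact_closedBall (0 : X d) 1)).mono_set ball_subset_closedBall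
  rw [e1, ENNReal.ofReal_one, eLpNorm_one_eq_lintegral_enorm, eLpNorm_one_eq_lintegral_enorm,
    ← ofReal_integral_norm_eq_lintegral_enorm h2, ← ofReal_integral_norm_eq_lintegral_enorm h3,
    ← ofReal_norm, ← ENNReal.ofReal_mul (norm_nonneg h), ENNReal.ofReal_le_ofReal_iff
      (mul_nonneg (norm_nonneg h) (integral_nonneg fun _ => norm_nonneg _))] at h1
  refine h1.trans (mul_le_mul_of_nonneg_left ?_ (norm_nonneg h))
  have h4 : ∫ x in ball 0 (3 / 2), ‖fderiv ℝ (fun x => u x - innerSL ℝ e x) x‖ =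
      ∫ x in ball 0 (3 / 2), ‖gradient u x - e‖ := by
    refine setIntegral_congr_fun measurableSet_ball fun x hx => ?_
    have h5 := ((diff hu (ball_subset_ball (by norm_num) hx)).sub (innerSL ℝ e).hasFDerivAt).fderiv
    rw [← map_sub] at h5
    exact (congrArg norm h5).trans (innerSL_apply_norm ℝ _)
  rw [h4]
  exact setIntegral_mono_set hi (ae_of_all _ fun _ => norm_nonneg _)
    (ball_subset_ball (by norm_num)).eventuallyLE

end LC2A

open LC2A in
theorem lc2 : Kit → TrS → AniS → DifS → SecS → C2S := by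
  intro k tr ani dif sec d p α hp ha0 ha1
  obtain ⟨δA, κ, C, hδA, hκ, hκ1, hC, hani⟩ := ani d α (p - 2) ha0 ha1 (by linarith)
  obtain ⟨B, a, hB, hsec⟩ := sec d p hp
  have hδ : 0 < min (1 / 2 : ℝ) (δA / (2 * (B + 1))) := by positivity
  have hδ1 : min (1 / 2 : ℝ) (δA / (2 * (B + 1))) ≤ 1 / 2 := min_le_left _ _
  have hδ2 : B * (2 * min (1 / 2 : ℝ) (δA / (2 * (B + 1)))) ≤ δA := by
    have h1 := (le_div_iff₀ (by positivity)).1 (min_le_right (1 / 2 : ℝ) (δA / (2 * (B + 1))))
    nlinarith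
  generalize min (1 / 2 : ℝ) (δA / (2 * (B + 1))) = δ at hδ hδ1 hδ2
  refine ⟨δ, κ, C, hδ, hδ1, hκ, hκ1, hC, fun e u hF => ?_⟩
  obtain ⟨hee, hs⟩ := hsec e hF.unit
  have hu := hF.cs.c1
  have hg : ContinuousOn (gradient u) (ball 0 2) := cont_grad isOpen_ball hu
  have hi : IntegrableOn (fun x => ‖gradient u x - e‖) (ball 0 2) := by
    refine Integrable.of_bound ?_ δ ?_
    · exact (hg.sub continuousOn_const).norm.aestronglyMeasurable measurableSet_ball
    · filter_upwards [ae_restrict_mem measurableSet_ball] with x hx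
      rw [norm_norm]
      exact hF.near x hx
  have hm : ∀ x ∈ ball (0 : X d) 2, gradient u x ∈ closedBall e (1 / 2) := fun x hx =>
    mem_closedBall_iff_norm.2 ((hF.near x hx).trans hδ1)
  refine dif d _ α _ κ (1 / 2) ha0 (by norm_num)
    (mul_nonneg hC (integral_nonneg fun _ => norm_nonneg _)) fun h h0 hh => ?_
  have hh' : ‖h‖ ≤ 2 - 3 / 2 := by linarith
  have hp0 : 0 < ‖h‖ := norm_pos_iff.2 h0
  have m1 : ∀ x ∈ ball (0 : X d) 1, x ∈ ball (0 : X d) 2 := ball_subset_ball (by norm_num)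
  have m2 : ∀ x ∈ ball (0 : X d) 1, x + h ∈ ball (0 : X d) 2 := tra_mem (by linarith)
  have hw : ∀ x ∈ ball (0 : X d) 1, gradient (fun y => ‖h‖⁻¹ * (u (y + h) - u y - ⟪e, h⟫)) x =
      ‖h‖⁻¹ • (gradient u (x + h) - gradient u x) := fun x hx =>
    grad_quo hu _ _ (m1 x hx) (m2 x hx)
  have hc : ContDiffOn ℝ 1 (fun y => ‖h‖⁻¹ * (u (y + h) - u y - ⟪e, h⟫)) (ball 0 (3 / 2)) :=
    contDiffOn_const.mul ((c1_quo hu hh').sub contDiffOn_const)
  have hol : ∀ x ∈ ball (0 : X d) 1, ∀ y ∈ ball (0 : X d) 1,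
      ‖gradient u x - gradient u y‖ + ‖gradient u (x + h) - gradient u (y + h)‖ ≤
        2 * δ * ‖x - y‖ ^ α := fun x hx y hy => by
    have h1 := hF.hol x (m1 x hx) y (m1 y hy)
    have h2 := hF.hol _ (m2 x hx) _ (m2 y hy)
    rw [add_sub_add_right_eq_sub] at h2
    linarith
  have hA : ContinuousOn (fun x => Ap p (gradient u x)) (ball 0 2) :=
    (k.alg (X d) p hp).cA.1.continuous.comp_continuousOn hg
  have lin : Lin α δA 0 (Me (p - 2) e) (fun y => ‖h‖⁻¹ * (u (y + h) - u y - ⟪e, h⟫))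
      (fun x => a (gradient u x) (gradient u (x + h))) fun _ => 0 := by
    refine ⟨le_rfl, hc.mono (ball_subset_ball (by norm_num)), ?_, ⟨‖h‖⁻¹ * (2 * δ), ?_⟩,
      fun x hx => ?_, fun x hx y hy => ?_, fun x _ y _ => by simp, ?_⟩
    · exact ((hc.continuousOn.mono (closedBall_subset_ball (by norm_num))).integrableOn_compact
        (isCompact_closedBall (0 : X d) 1)).mono_set ball_subset_closedBall
    · intro x hx y hy
      rw [hw x hx, hw y hy, ← smul_sub, norm_smul, norm_inv, norm_norm, mul_assoc]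
      refine mul_le_mul_of_nonneg_left (le_trans ?_ (hol x hx y hy)) (by positivity)
      rw [sub_sub_sub_comm]
      exact (norm_sub_le _ _).trans (add_comm _ _).le
    · have he : e ∈ closedBall e (1 / 2) := mem_closedBall_self (by norm_num)
      have h1 := (hs _ (hm x (m1 x hx)) _ (hm _ (m2 x hx))).2 e he e he
      have h2 := hF.near x (m1 x hx)
      have h3 := hF.near _ (m2 x hx)
      rw [hee] at h1
      exact h1.trans ((mul_le_mul_of_nonneg_left (by linarith) hB).trans hδ2)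
    · refine ((hs _ (hm x (m1 x hx)) _ (hm _ (m2 x hx))).2 _ (hm y (m1 y hy)) _
        (hm _ (m2 y hy))).trans ((mul_le_mul_of_nonneg_left (hol x hx y hy) hB).trans ?_)
      rw [← mul_assoc]
      exact mul_le_mul_of_nonneg_right hδ2 (Real.rpow_nonneg (norm_nonneg _) _)
    · have d1 := (k.dv d).tra _ _ _ h m2 hF.cs.dv
      have d2 := (k.dv d).sub _ _ _
        (Li.of_cont (hA.comp (continuous_id.add continuous_const).continuousOn m2))
        (Li.of_cont (hA.mono m1)) d1 (hF.cs.dv.mono m1)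
      refine ((k.dv d).smul _ _ ‖h‖⁻¹ d2).congr' fun x hx => ?_
      rw [sub_zero, hw x hx, map_smul, (hs _ (hm x (m1 x hx)) _ (hm _ (m2 x hx))).1]
      rfl
  have est := hani e 0 _ _ _ hF.unit lin
  have hb : C * (0 + ∫ x in ball 0 1, |‖h‖⁻¹ * (u (x + h) - u x - ⟪e, h⟫)|) ≤
      C * ∫ x in ball 0 2, ‖gradient u x - e‖ := by
    refine mul_le_mul_of_nonneg_left ?_ hC
    simp only [abs_mul, abs_inv, abs_norm]
    rw [zero_add, integral_const_mul, inv_mul_le_iff₀ hp0]
    exact int_quo tr hu hh' hi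
  have est2 := est.mono le_rfl hb
  have m3 : ∀ x ∈ ball (0 : X d) κ, x ∈ ball (0 : X d) 1 := ball_subset_ball hκ1
  exact ⟨fun x hx => (congrArg norm (hw x (m3 x hx))).symm.le.trans (est2.1 x hx),
    est2.2.congr fun x hx => (hw x (m3 x hx)).symm⟩

end Pool.Agent.MP_815c6c_an.S

end MrgPart3

-- ======== part 4: formerly Pool.Agent.MP_815c6c_an.S.LDeg
section MrgPart4

/-! Scalar p-harmonic functions in any dimension: the degenerate regime. -/

set_option autoImplicit false

namespace Pool.Agent.MP_815c6c_an.S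

open Set Metric MeasureTheory Filter Topology
open scoped ENNReal RealInnerProductSpace
open N (X Gr)

namespace LDegA

theorem expo {Λ b : ℝ} (h1 : 1 < Λ) (h2 : Λ < 2 ^ b) :
    ∃ ε : ℝ, 0 < ε ∧ Λ ^ (1 + ε) = 2 ^ b := by
  have l0 : 0 < Real.log Λ := Real.log_pos h1
  have l1 : Real.log Λ < Real.log (2 ^ b) := Real.log_lt_log (by linarith) h2
  refine ⟨Real.log (2 ^ b) / Real.log Λ - 1, ?_, ?_⟩
  · rw [sub_pos, one_lt_div l0]
    exact l1
  · rw [add_sub_cancel, Real.rpow_def_of_pos (by linarith), mul_div_cancel₀ _ l0.ne',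
      Real.exp_log (by positivity)]

theorem pw_half {Λ b s B : ℝ} (hb : 0 < b) (h1 : 0 < Λ) (h : Λ ^ s = 2 ^ b) (hB : 0 < B) (j : ℕ) :
    (B ^ b⁻¹ / 2 ^ j) ^ b = B * ((Λ ^ j)⁻¹) ^ s := by
  rw [Real.div_rpow (by positivity) (by positivity), Real.rpow_inv_rpow hB.le hb.ne',
    Real.inv_rpow (by positivity), ← Real.rpow_natCast, ← Real.rpow_natCast,
    ← Real.rpow_mul (by norm_num), ← Real.rpow_mul h1.le, mul_comm (j : ℝ), mul_comm (j : ℝ),
    Real.rpow_mul (by norm_num), Real.rpow_mul h1.le, h, div_eq_mul_inv]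

end LDegA

open LDegA in
theorem ldeg : Kit → ∀ d p q, 2 < p → 2 < q → SupS d p q → NscS d p q → DegS d p q := by
  intro k d p q _ hq ⟨Cs, c0, hs⟩ ⟨Λ, l1, l2, hn⟩
  have O := k.osc d (X d)
  have A := k.alg (X d) q hq
  have b0 : 0 < q / 2 := by linarith
  have l0 : 0 < Λ := by linarith
  obtain ⟨ε, e0, he⟩ := expo l1 l2
  refine ⟨ε, e0, fun δ d0 => ?_⟩
  obtain ⟨t, t0, t1, hn⟩ := hn δ d0
  have t2 : t ≤ 1 := by nlinarith
  have K0 : 0 < Cs * (1 + 1 / δ) + 1 := by positivity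
  generalize hK : Cs * (1 + 1 / δ) + 1 = K at K0
  refine ⟨2 * (8 / t) ^ (1 + ε) * ((8 / t) ^ d + K), by positivity,
    fun F x r ρ p0 p1 hF m h => ?_⟩
  have r0 : 0 < r := by linarith
  have w0 := O.nn F x r
  have sub := (O.sub F x r x ρ p0 (ball_subset_ball p1) m).2
  rcases w0.eq_or_lt with w | w
  · rw [← w] at sub ⊢
    simpa using sub
  have hS := hs F x r r0 hF m
  obtain ⟨u, hu, hV⟩ := hF
  generalize hw : osc F x r = ω at *
  have B0 : 0 < K * ω := by positivity
  have a0 : ‖av F x r‖ ≤ ω / δ := by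
    rw [le_div_iff₀ d0, mul_comm, ← hw]
    exact h r ⟨p1, le_rfl⟩
  have sb : ∀ j : ℕ, r / 8 / Λ ^ j ≤ r := fun j =>
    (div_le_self (by positivity) (one_le_pow₀ l1.le)).trans (by linarith)
  have key : ∀ j : ℕ, (∀ i < j, ρ ≤ t * (r / 8 / Λ ^ i)) →
      ∀ y ∈ ball x (r / 8 / Λ ^ j), ‖gradient u y‖ ≤ (K * ω) ^ (q / 2)⁻¹ / 2 ^ j := by
    intro j
    induction j with
    | zero =>
      intro _ y hy
      rw [pow_zero, div_one] at *
      rw [Real.le_rpow_inv_iff_of_pos (norm_nonneg _) B0.le b0, ← (A.nV _).1,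
        ← hV y (ball_subset_ball (by linarith) hy)]
      refine (hS y hy).trans ?_
      have : Cs * (ω + ‖av F x r‖) ≤ Cs * (ω + ω / δ) := by gcongr
      have e : K * ω = Cs * (ω + ω / δ) + ω := by rw [← hK]; ring
      linarith
    | succ j ih =>
      intro hj
      have R0 : 0 < r / 8 / Λ ^ j := by positivity
      have tr : t * (r / 8 / Λ ^ j) ≤ r := by nlinarith [sb j]
      rcases hn u x _ _ R0 (by positivity) (hu.mono (ball_subset_ball (sb j)))
        (ih fun i hi => hj i (by omega)) with a | a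
      · intro y hy
        rw [pow_succ, ← div_div] at hy ⊢
        exact a y hy
      · have c := O.congr F (fun y => Vp q (gradient u y)) x (t * (r / 8 / Λ ^ j))
          ((ae_restrict_mem measurableSet_ball).mono fun y hy => hV y (ball_subset_ball tr hy))
        rw [← c.1, ← c.2] at a
        exact absurd (h _ ⟨hj j (by omega), tr⟩) (not_le.2 a)
  have ex : ∃ j : ℕ, t * (r / 8 / Λ ^ j) < ρ := by
    obtain ⟨j, hj⟩ := pow_unbounded_of_one_lt (t * (r / 8) / ρ) l1
    refine ⟨j, ?_⟩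
    rw [div_lt_iff₀ p0] at hj
    rw [← mul_div_assoc, div_lt_iff₀ (by positivity)]
    linarith
  classical
  have hj := Nat.find_spec ex
  have hi : ∀ i < Nat.find ex, ρ ≤ t * (r / 8 / Λ ^ i) := fun i hi => not_lt.1 (Nat.find_min ex hi)
  generalize Nat.find ex = j at hj hi
  have s1 : ((Λ ^ j)⁻¹) ^ (1 + ε) ≤ (8 / t) ^ (1 + ε) * (ρ / r) ^ (1 + ε) := by
    rw [← Real.mul_rpow (by positivity) (by positivity)]
    refine Real.rpow_le_rpow (by positivity) ?_ (by linarith)
    have e : (Λ ^ j)⁻¹ = 8 / t * (t * (r / 8 / Λ ^ j) / r) := by field_simp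
    rw [e]
    gcongr
  have P0 : 0 < (8 / t) ^ (1 + ε) * (ρ / r) ^ (1 + ε) := by positivity
  have e : 2 * (8 / t) ^ (1 + ε) * ((8 / t) ^ d + K) * (ρ / r) ^ (1 + ε) * ω =
      2 * (8 / t) ^ d * ω * ((8 / t) ^ (1 + ε) * (ρ / r) ^ (1 + ε)) +
      2 * (K * ω * ((8 / t) ^ (1 + ε) * (ρ / r) ^ (1 + ε))) := by ring
  rw [e]
  generalize (8 / t) ^ (1 + ε) * (ρ / r) ^ (1 + ε) = P at s1 P0
  cases j with
  | zero =>
    rw [pow_zero, inv_one, Real.one_rpow] at s1
    rw [pow_zero, div_one] at hj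
    have a1 : r / ρ ≤ 8 / t := by
      rw [div_le_div_iff₀ p0 t0]
      linarith
    have a2 : 2 * (r / ρ) ^ d * ω ≤ 2 * (8 / t) ^ d * ω := by gcongr
    have a3 : 2 * (8 / t) ^ d * ω ≤ 2 * (8 / t) ^ d * ω * P :=
      le_mul_of_one_le_right (by positivity) s1
    have a4 : 0 ≤ 2 * (K * ω * P) := by positivity
    linarith
  | succ j =>
    have a1 : ρ ≤ r / 8 / Λ ^ (j + 1) := by
      refine (hi j (by omega)).trans ?_
      have e : t * (r / 8 / Λ ^ j) = t * Λ * (r / 8 / Λ ^ (j + 1)) := by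
        rw [pow_succ]
        field_simp
      rw [e]
      exact mul_le_of_le_one_left (by positivity) t1
    have a2 := (O.sup F x ρ 0 (K * ω * P) p0 (memLp_mono m (ball_subset_ball p1)).1 fun z hz => by
      rw [sub_zero, hV z (ball_subset_ball p1 hz), (A.nV _).1]
      refine (Real.rpow_le_rpow (norm_nonneg _) (key _ hi z (ball_subset_ball a1 hz))
        b0.le).trans ?_
      rw [pw_half b0 l0 he B0]
      gcongr).2.2
    have a3 : 0 ≤ 2 * (8 / t) ^ d * ω * P := by positivity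
    linarith

end Pool.Agent.MP_815c6c_an.S

end MrgPart4

-- ======== part 5: formerly Pool.Agent.MP_815c6c_an.S.LDif
section MrgPart5

/-! Estimates for difference quotients give a derivative. -/

set_option autoImplicit false

namespace Pool.Agent.MP_815c6c_an.S

theorem ldif : DifS := fun _ => cal_dif

end Pool.Agent.MP_815c6c_an.S

end MrgPart5

-- ======== part 6: formerly Pool.Agent.MP_815c6c_an.S.LDv
section MrgPart6

/-! Scalar p-harmonic functions in any dimension: divergence free fields. -/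

set_option autoImplicit false

namespace Pool.Agent.MP_815c6c_an.S

open Set Metric MeasureTheory Filter Topology
open N (X Gr)

namespace LDvA

variable {d : ℕ}

theorem smul (U : Set (X d)) (F : X d → X d) (c : ℝ) (h : Dv U F) : Dv U fun x => c • F x :=
  fun φ a => by
    simp only [map_smul]
    rw [integral_smul, h φ a, smul_zero]

theorem int (U : Set (X d)) (F : X d → X d) (φ : X d → ℝ) (h : Li U F) (a : Tc U φ) :
    Integrable fun x => fderiv ℝ φ x (F x) := by
  have i := h _ a.2.2 a.2.1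
  obtain ⟨c, -, hc⟩ := a.bd
  have m : MeasurableSet (tsupport φ) := (isClosed_tsupport φ).measurableSet
  have j : IntegrableOn (fun x => fderiv ℝ φ x (F x)) (tsupport φ) := by
    refine (i.norm.const_mul c).mono' ?_ (ae_of_all _ fun x => ?_)
    · exact (isBoundedBilinearMap_apply (𝕜 := ℝ) (E := X d) (F := ℝ)).continuous.comp_aestronglyMeasurable
        ((a.1.continuous_fderiv one_ne_zero).aestronglyMeasurable.prodMk i.1)
    · exact ((fderiv ℝ φ x).le_opNorm _).trans
        (mul_le_mul_of_nonneg_right (hc x).2 (norm_nonneg _))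
  refine (integrableOn_iff_integrable_of_support_subset fun x hx => ?_).1 j
  by_contra b
  refine hx ?_
  have : fderiv ℝ φ x = 0 := by
    by_contra e
    exact b (support_fderiv_subset ℝ e)
  simp [this]

theorem aff (U U' : Set (X d)) (F : X d → X d) (a : X d) (T : X d ≃L[ℝ] X d)
    (hU : ∀ y ∈ U', a + T y ∈ U) (h : Dv U F) : Dv U' fun y => T.symm (F (a + T y)) := by
  intro φ t
  have D : ∀ x, HasFDerivAt (fun x : X d => T.symm (x - a)) (T.symm : X d →L[ℝ] X d) x := fun x => by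
    have := (T.symm : X d →L[ℝ] X d).hasFDerivAt.comp x ((hasFDerivAt_id x).sub_const a)
    rw [ContinuousLinearMap.comp_id] at this
    exact this
  let e : X d ≃ₜ X d := (Homeomorph.subRight a).trans T.symm.toHomeomorph
  have t' : Tc U fun x => φ (T.symm (x - a)) := by
    refine ⟨t.1.comp (T.symm.contDiff.comp (contDiff_id.sub contDiff_const)),
      t.2.1.comp_homeomorph e, fun x hx => ?_⟩
    have : x ∈ (fun x : X d => T.symm (x - a)) ⁻¹' tsupport φ := by
      refine closure_minimal (fun z hz => ?_)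
        ((isClosed_tsupport φ).preimage e.continuous) hx
      exact subset_tsupport φ hz
    simpa using hU _ (t.2.2 this)
  have z := h _ t'
  have c := integral_image_eq_integral_abs_det_fderiv_smul (volume : Measure (X d))
    (s := univ) (f := fun x : X d => T.symm (x - a)) (f' := fun _ => (T.symm : X d →L[ℝ] X d))
    MeasurableSet.univ (fun x _ => (D x).hasFDerivWithinAt) e.injective.injOn
    fun y => fderiv ℝ φ y (T.symm (F (a + T y)))
  have s : (fun x : X d => T.symm (x - a)) '' univ = univ := by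
    rw [image_univ]; exact e.surjective.range_eq
  rw [s, Measure.restrict_univ, integral_smul] at c
  rw [c]
  refine smul_eq_zero_of_right _ (Eq.trans (integral_congr_ae (ae_of_all _ fun x => ?_)) z)
  have k := (((t.1.differentiable one_ne_zero) (T.symm (x - a))).hasFDerivAt.comp x (D x)).fderiv
  have k' : fderiv ℝ (fun x => φ (T.symm (x - a))) x = _ := k
  beta_reduce
  rw [k', T.apply_symm_apply, add_sub_cancel]
  rfl

theorem sca (U U' : Set (X d)) (F : X d → X d) (a : X d) (r : ℝ) (hr : 0 < r)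
    (hU : ∀ y ∈ U', a + r • y ∈ U) (h : Dv U F) : Dv U' fun y => F (a + r • y) := by
  let T : X d ≃L[ℝ] X d := ContinuousLinearEquiv.equivOfInverse
    (r • ContinuousLinearMap.id ℝ (X d)) (r⁻¹ • ContinuousLinearMap.id ℝ (X d))
    (fun x => by simp [smul_smul, hr.ne']) fun x => by simp [smul_smul, hr.ne']
  refine (smul _ _ r (aff U U' F a T hU h)).congr' fun x _ => ?_
  change F (a + r • x) = r • r⁻¹ • F (a + r • x)
  rw [smul_inv_smul₀ hr.ne']

end LDvA

theorem ldv : DvS := fun d =>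
  { congr := fun U F F' hU e h φ a => by
      rw [← h φ a]
      refine integral_congr_ae (((ae_restrict_iff' hU).1 e).mono fun x hx => ?_)
      by_cases b : x ∈ U
      · simp only [hx b]
      · simp [(a.zero b).2]
    smul := LDvA.smul
    int := LDvA.int
    sub := fun U F F' i i' h h' φ a => by
      simp only [map_sub]
      rw [integral_sub (LDvA.int U F φ i a) (LDvA.int U F' φ i' a), h φ a, h' φ a, sub_zero]
    aff := LDvA.aff
    sca := LDvA.sca
    tra := fun U U' F h hU k => by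
      simpa [add_comm] using LDvA.sca U U' F h 1 one_pos (by simpa [add_comm] using hU) k }

end Pool.Agent.MP_815c6c_an.S

end MrgPart6

-- ======== part 7: formerly Pool.Agent.MP_815c6c_an.S.LFin
section MrgPart7

/-! Scalar p-harmonic functions in any dimension: the representative and the linear decay. -/

set_option autoImplicit false

namespace Pool.Agent.MP_815c6c_an.S

open Set Metric MeasureTheory Filter Topology
open scoped ENNReal RealInnerProductSpace
open N (X Gr)
open Q (pw)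

namespace LFinA

variable {d : ℕ}

theorem osc_jj (f : X d → Gr d 1) (x : X d) (r : ℝ) :
    N.osc f x r = osc (fun z => (jj d).symm (f z)) x r := by
  have e : av (fun z => (jj d).symm (f z)) x r = (jj d).symm (⨍ z in ball x r, f z) := by
    rw [av, average_eq', average_eq']
    exact (jj d).symm.toLinearIsometry.integral_comp_comm f
  simp only [N.osc, osc, e, ← map_sub, LinearIsometryEquiv.norm_map]

theorem loc {p q α C : ℝ} (en : EnS) (hp : 2 < p) (rg : Reg d p α C) {U : Set (X d)}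
    {h : X d → X 1} {G : X d → Gr d 1} (hU : IsOpen U) (hh : N.Harm p U h G) {x : X d} {r : ℝ}
    (r0 : 0 < r) (hr : closedBall x r ⊆ U) : ∃ F, Sl p q (ball x (r / 8)) F ∧
      F =ᵐ[vo (ball x (r / 8))] fun z => (jj d).symm (‖G z‖ ^ (q / 2 - 1) • G z) := by
  obtain ⟨v, a, b⟩ := rg.rep _ _ x r r0 (en d p U h G x r hp hU hr hh)
  refine ⟨fun z => Vp q (gradient v z), ⟨v, a, fun _ _ => rfl⟩, b.mono fun z hz => ?_⟩
  simp only [hz, Vp, pw, map_smul, LinearIsometryEquiv.norm_map]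

end LFinA

open LFinA

theorem lfin : Kit → N.GluS → EnS → ∀ d p q, 2 < p → 2 < q → RegS d p → CorS d p q →
    Out d p q := by
  rintro k glu en d p q hp hq ⟨α, C', rg⟩ ⟨C, C0, core⟩
  have o := k.osc d (X d)
  refine ⟨64 * C * 16 ^ d + 128 * 64 ^ d, fun U h G hU hh => ⟨glu d 1 U _ hU fun x hx => ?_, ?_⟩⟩
  · obtain ⟨r, r0, hr⟩ := nhds_basis_closedBall.mem_iff.1 (hU.mem_nhds hx)
    obtain ⟨F, a, b⟩ := loc (q := q) en hp rg hU hh r0 hr
    have c := (k.sca d p hp).co _ F q hq isOpen_ball a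
    have s1 : closedBall x (r / 16) ⊆ ball x (r / 8) := closedBall_subset_ball (by linarith)
    have s2 : ball x (r / 16) ⊆ ball x (r / 8) := ball_subset_closedBall.trans s1
    obtain ⟨B, hB⟩ := (isCompact_closedBall x (r / 16)).exists_bound_of_continuousOn (c.mono s1)
    have m := (o.sup F x (r / 16) 0 B (by positivity)
      ((c.mono s2).aestronglyMeasurable measurableSet_ball)
      fun z hz => by simpa using hB z (ball_subset_closedBall hz)).1
    refine ⟨r / 16 / 4, by positivity, fun z => jj d (F z),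
      (jj d).contDiff.comp_contDiffOn (core F x _ (by positivity) (a.mono s2) m).1, ?_⟩
    refine (ae_restrict_of_ae_restrict_of_subset
      (ball_subset_ball (show r / 16 / 4 ≤ r / 8 by linarith)) b).mono fun z hz => ?_
    simp only [hz, LinearIsometryEquiv.apply_symm_apply]
  intro x r r0 hr m0 θ hθ
  rw [osc_jj, osc_jj]
  have m : MemLp (fun z => (jj d).symm (‖G z‖ ^ (q / 2 - 1) • G z)) 2 (vo (ball x r)) :=
    (jj d).symm.toLinearIsometry.toContinuousLinearMap.comp_memLp' m0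
  obtain ⟨F, a, e⟩ := loc (q := q) en hp rg hU hh (half_pos r0)
    ((closedBall_subset_ball (half_lt_self r0)).trans hr)
  generalize (fun z => (jj d).symm (‖G z‖ ^ (q / 2 - 1) • G z)) = f at m e ⊢
  have θ0 := hθ.1
  have O0 := o.nn f x r
  have sub : ball x (θ * r) ⊆ ball x r := ball_subset_ball (mul_le_of_le_one_left r0.le hθ.2)
  have p1 : 0 ≤ 64 * C * 16 ^ d * θ * osc f x r := by positivity
  have p2 : 0 ≤ 128 * 64 ^ d * θ * osc f x r := by positivity
  rcases le_total θ (1 / 64) with h1 | h1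
  · have s1 : ball x (r / 2 / 8) ⊆ ball x r := ball_subset_ball (by linarith)
    obtain ⟨c, b⟩ := core F x _ (by positivity) a ((memLp_congr_ae e).2 (memLp_mono m s1))
    rw [(o.congr F f x _ e).2] at b
    have t := (o.sub f x r x (r / 2 / 8) (by positivity) s1 m).2
    rw [show r / (r / 2 / 8) = 16 by field_simp; norm_num] at t
    have ss : ball x (θ * r) ⊆ ball x (r / 2 / 8 / 4) := ball_subset_ball (by nlinarith)
    rw [← (o.congr F f x _ (ae_restrict_of_ae_restrict_of_subset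
      (ss.trans (ball_subset_ball (by linarith))) e)).2]
    have O1 := o.nn f x (r / 2 / 8)
    refine (o.sup F x (θ * r) (F x) (16 * C * osc f x (r / 2 / 8) * θ) (by positivity)
      ((c.continuousOn.mono ss).aestronglyMeasurable measurableSet_ball) fun z hz => ?_).2.2.trans
      ?_
    · refine ((convex_ball x (r / 2 / 8 / 4)).norm_image_sub_le_of_norm_fderiv_le (𝕜 := ℝ)
        (fun y hy => (c.contDiffAt (isOpen_ball.mem_nhds hy)).differentiableAt one_ne_zero) b
        (mem_ball_self (by positivity)) (ss hz)).trans ?_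
      refine (mul_le_mul_of_nonneg_left (mem_ball_iff_norm.1 hz).le (by positivity)).trans_eq ?_
      field_simp
      ring
    · have := mul_le_mul_of_nonneg_left t (show 0 ≤ 32 * C * θ by positivity)
      nlinarith
  · refine (o.sub f x r x (θ * r) (by positivity) sub m).2.trans ?_
    have t : (r / (θ * r)) ^ d ≤ 64 ^ d := by
      refine pow_le_pow_left₀ (by positivity) ?_ d
      rw [div_le_iff₀ (by positivity)]
      nlinarith
    have t1 := mul_le_mul_of_nonneg_right t O0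
    have t2 := mul_le_mul_of_nonneg_right h1 (show 0 ≤ 64 ^ d * osc f x r by positivity)
    nlinarith

end Pool.Agent.MP_815c6c_an.S

end MrgPart7

-- ======== part 8: formerly Pool.Agent.MP_815c6c_an.S.LHli
section MrgPart8

/-! Scalar p-harmonic functions in any dimension: the decay of the essential oscillation of a
bounded gradient. -/

set_option autoImplicit false

namespace Pool.Agent.MP_815c6c_an.S

open Set Metric MeasureTheory Filter Topology
open scoped ENNReal RealInnerProductSpace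
open N (X Gr)
open Q (pw)

namespace LHliA

variable {d : ℕ}

theorem ed_sca (k : Kit) {G : X d → X d} {x : X d} {r c ρ t B B' : ℝ} (hr : 0 < r) (hc : 0 < c)
    (ht : r * ρ = t) (hB : B ≤ c * B') (h : Ed (fun z => c • G (x + r • z)) 0 ρ B) :
    Ed G x t B' := by
  obtain ⟨e, h⟩ := h
  subst ht
  refine ⟨c⁻¹ • e, ((k.osc d (X d)).sca G x r c ρ hr hc.le).2.2.2.2 _ |>.2 (h.mono fun z hz => ?_)⟩
  have : c • G (x + r • z) - e = c • (G (x + r • z) - c⁻¹ • e) := by
    rw [smul_sub, smul_inv_smul₀ hc.ne']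
  rw [this, norm_smul, Real.norm_of_nonneg hc.le] at hz
  exact le_of_mul_le_mul_left (hz.trans hB) hc

theorem ae_sca (k : Kit) {P : X d → Prop} {x : X d} {r ρ t : ℝ} (hr : 0 < r) (ht : r * ρ = t)
    (h : ∀ᵐ z ∂vo (ball x t), P z) : ∀ᵐ z ∂vo (ball 0 ρ), P (x + r • z) := by
  subst ht
  exact (((k.osc d (X d)).sca (fun _ => 0) x r 0 ρ hr le_rfl).2.2.2.2 P).1 h

theorem bd_sca (k : Kit) {G : X d → X d} {x : X d} {r c ρ t M M' : ℝ} (hr : 0 < r) (hc : 0 < c)
    (ht : r * ρ = t) (hM : c * M = M') (h : ∀ᵐ z ∂vo (ball x t), ‖G z‖ ≤ M) :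
    ∀ᵐ z ∂vo (ball 0 ρ), ‖c • G (x + r • z)‖ ≤ M' :=
  (ae_sca k hr ht h).mono fun z hz => by
    rw [norm_smul, Real.norm_of_nonneg hc.le, ← hM]
    exact mul_le_mul_of_nonneg_left hz hc.le

end LHliA

open LHliA in
theorem lhli : Kit → ∀ d p q, 2 < p → NowS d p q → NdiS d p → HliS d p := by
  intro k d p q hp ⟨Λ, c, l1, _, c0, now⟩ ndi
  obtain ⟨a, C0, a0, a1, C00, nd⟩ := ndi (c / 2) (by positivity)
  have l0 : 0 < Λ := by linarith
  have lg : 0 < Real.log Λ := Real.log_pos l1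
  obtain ⟨α, hα⟩ : ∃ α, α = min a (Real.log 2 / Real.log Λ) := ⟨_, rfl⟩
  have α0 : 0 < α := hα ▸ lt_min a0 (div_pos (Real.log_pos one_lt_two) lg)
  have αa : α ≤ a := hα ▸ min_le_left _ _
  have l2 : Λ ^ α ≤ 2 := by
    have : α * Real.log Λ ≤ Real.log 2 := (le_div_iff₀ lg).1 (hα ▸ min_le_right _ _)
    rw [Real.rpow_def_of_pos l0, mul_comm, ← Real.exp_log two_pos]
    exact Real.exp_le_exp.2 this
  have S := k.sca d p hp
  have big : ∀ (G : X d → X d) (ρ : ℝ), (∀ᵐ y ∂vo (ball 0 Λ), ‖G y‖ ≤ 2) → 1 < ρ → ρ ≤ Λ →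
      Ed G 0 ρ ((2 + 2 * C0) * ρ ^ α) := fun G ρ hG h1 h2 => by
    refine ⟨0, (ae_restrict_of_ae_restrict_of_subset (ball_subset_ball h2) hG).mono
      fun z hz => ?_⟩
    have := Real.one_le_rpow h1.le α0.le
    rw [sub_zero]
    nlinarith
  have key : ∀ (j : ℕ) (u : X d → ℝ) (G : X d → X d) (ρ : ℝ), Wk p (ball 0 Λ) u G →
      (∀ᵐ y ∂vo (ball 0 Λ), ‖G y‖ ≤ 2) → 1 < Λ ^ j * ρ → ρ ≤ Λ →
      Ed G 0 ρ ((2 + 2 * C0) * ρ ^ α) := by
    intro j
    induction j with
    | zero => exact fun u G ρ _ hG h1 h2 => big G ρ hG (by simpa using h1) h2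
    | succ j ih =>
      intro u G ρ hW hG h1 h2
      rcases lt_or_ge 1 ρ with h3 | h3
      · exact big G ρ hG h3 h2
      have r0 : 0 < ρ := (mul_pos_iff_of_pos_left (pow_pos l0 (j + 1))).1 (by linarith)
      have ra : 0 ≤ ρ ^ α := Real.rpow_nonneg r0.le _
      by_cases hs : ∀ᵐ y ∂vo (ball 0 1), ‖G y‖ ≤ 1
      · have i0 : 0 < Λ⁻¹ := inv_pos.2 l0
        have i1 : Λ⁻¹ * Λ = 1 := inv_mul_cancel₀ l0.ne'
        have w := S.wk _ (ball 0 Λ) u G 0 Λ⁻¹ 2 i0 two_pos isOpen_ball isOpen_ball isBounded_ball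
          (sca_mem i0 (i1.le.trans l1.le)) hW
        have e := ih _ _ (Λ * ρ) w (bd_sca k i0 two_pos i1 (mul_one 2) hs)
          (by rw [← mul_assoc, ← pow_succ]; exact h1) (by nlinarith)
        refine ed_sca k i0 two_pos (by rw [← mul_assoc, i1, one_mul]) ?_ e
        rw [Real.mul_rpow l0.le r0.le]
        have : Λ ^ α * ρ ^ α ≤ 2 * ρ ^ α := mul_le_mul_of_nonneg_right l2 ra
        nlinarith
      · have h4 := now u G hW hG hs
        have i0 : (0 : ℝ) < 1 / 2 := one_half_pos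
        have w := S.wk _ (ball 0 1) u G 0 1 (1 / 2) one_pos i0 isOpen_ball isOpen_ball
          isBounded_ball (sca_mem one_pos (by linarith)) hW
        have h5 := ae_restrict_of_ae_restrict_of_subset (ball_subset_ball l1.le) hG
        have e := nd _ _ w ((ae_sca k one_pos (mul_one 1) (h4.and h5)).mono fun z hz => by
          rw [norm_smul, Real.norm_of_nonneg i0.le]
          constructor <;> linarith [hz.1, hz.2]) ρ ⟨r0, h3⟩
        refine ed_sca k one_pos i0 (one_mul ρ) ?_ e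
        have : ρ ^ a ≤ ρ ^ α := Real.rpow_le_rpow_of_exponent_ge r0 h3 αa
        nlinarith [mul_le_mul_of_nonneg_left this C00]
  refine ⟨α, 2 + 2 * C0, α0, αa.trans_lt a1, by positivity, fun u G x r M r0 M0 hW hG ρ hρ => ?_⟩
  rcases M0.eq_or_lt with rfl | M1
  · exact ⟨0, (ae_restrict_of_ae_restrict_of_subset (ball_subset_ball hρ.2) hG).mono
      fun z hz => by simpa using hz⟩
  have i0 : 0 < r / Λ := div_pos r0 l0
  have i1 : r / Λ * Λ = r := div_mul_cancel₀ _ l0.ne'
  have i2 : 0 < 2 / M := div_pos two_pos M1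
  have t0 : 0 < ρ / r := div_pos hρ.1 r0
  have t1 : ρ / r ≤ 1 := (div_le_one r0).2 hρ.2
  have w := S.wk _ (ball 0 Λ) u G x (r / Λ) (2 / M) i0 i2 isOpen_ball isOpen_ball isBounded_ball
    (sca_mem i0 i1.le) hW
  obtain ⟨j, hj⟩ := pow_unbounded_of_one_lt (Λ * (ρ / r))⁻¹ l1
  have e := key j _ _ (Λ * (ρ / r)) w (bd_sca k i0 i2 i1 (div_mul_cancel₀ _ M1.ne') hG)
    ((inv_lt_iff_one_lt_mul₀ (mul_pos l0 t0)).1 hj) (by nlinarith)
  refine ed_sca k i0 i2 (by field_simp) ?_ e
  rw [Real.mul_rpow l0.le t0.le]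
  have ra : 0 ≤ (ρ / r) ^ α := Real.rpow_nonneg t0.le _
  have : 2 / M * ((2 + 2 * C0) * M * (ρ / r) ^ α) = (2 + 2 * C0) * (2 * (ρ / r) ^ α) := by
    field_simp
  rw [this]
  exact mul_le_mul_of_nonneg_left (mul_le_mul_of_nonneg_right l2 ra) (by positivity)

end Pool.Agent.MP_815c6c_an.S

end MrgPart8

-- ======== part 9: formerly Pool.Agent.MP_815c6c_an.S.LNdi
section MrgPart9

/-! Scalar p-harmonic functions: iteration of the decay of the oscillation. -/

set_option autoImplicit false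

noncomputable section

namespace Pool.Agent.MP_815c6c_an.S

open Set Metric MeasureTheory Filter Topology Bornology
open N (X)

namespace LNdiA

variable {d : ℕ}

theorem ae_sca (k : Kit) {r : ℝ} (hr : 0 < r) (ρ : ℝ) (P : X d → Prop) :
    (∀ᵐ z ∂vo (ball 0 (r * ρ)), P z) ↔ ∀ᵐ z ∂vo (ball 0 ρ), P (0 + r • z) :=
  ((k.osc d ℝ).sca (fun _ => 0) 0 r 0 ρ hr le_rfl).2.2.2.2 P

theorem di_sca (k : Kit) {r : ℝ} (hr : 0 < r) (ρ B : ℝ) (G : X d → X d) :
    Di G (r * ρ) B ↔ Di (fun y => (1 : ℝ) • G (0 + r • y)) ρ B := by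
  simp only [Di, one_smul]
  rw [ae_sca k hr]
  exact eventually_congr (Eventually.of_forall fun y =>
    ae_sca k hr ρ fun z => ‖G (0 + r • y) - G z‖ ≤ B)

end LNdiA

open LNdiA in
theorem lndi : Kit → ∀ d p, 2 < p → OnS d p → NdiS d p := by
  intro k d p hp on m hm
  obtain ⟨θ, l, θ0, θ1, l0, l1, on⟩ := on m hm
  have lθ : Real.log θ < 0 := Real.log_neg θ0 θ1
  have a0 : 0 < min (1 / 2) (Real.log l / Real.log θ) :=
    lt_min one_half_pos (div_pos_of_neg_of_neg (Real.log_neg l0 l1) lθ)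
  have a2 : l ≤ θ ^ min (1 / 2) (Real.log l / Real.log θ) := by
    refine le_trans (le_of_eq ?_) (Real.rpow_le_rpow_of_exponent_ge θ0 θ1.le (min_le_right _ _))
    rw [Real.rpow_def_of_pos θ0, mul_div_cancel₀ _ lθ.ne, Real.exp_log l0]
  refine ⟨_, 2 / θ ^ min (1 / 2) (Real.log l / Real.log θ), a0,
    (min_le_left _ _).trans_lt one_half_lt_one, by positivity, fun u G hw hG ρ hρ => ?_⟩
  generalize min (1 / 2) (Real.log l / Real.log θ) = α at a0 a2
  have key : ∀ j : ℕ, Di G (θ ^ j) (2 * l ^ j) := by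
    intro j
    induction j with
    | zero =>
      simp only [pow_zero, mul_one]
      exact hG.mono fun y hy => hG.mono fun z hz => (norm_sub_le _ _).trans (by linarith)
    | succ j ih =>
      have r0 : 0 < θ ^ j := pow_pos θ0 j
      have r1 : θ ^ j * 1 ≤ 1 := by rw [mul_one]; exact pow_le_one₀ θ0.le θ1.le
      have w := (k.sca d p hp).wk (ball 0 1) (ball 0 1) u G 0 (θ ^ j) 1 r0 one_pos isOpen_ball
        isOpen_ball isBounded_ball (sca_mem r0 r1) hw
      have g : ∀ᵐ y ∂vo (ball (0 : X d) 1), m ≤ ‖(1 : ℝ) • G (0 + θ ^ j • y)‖ ∧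
          ‖(1 : ℝ) • G (0 + θ ^ j • y)‖ ≤ 1 := by
        simp only [one_smul]
        exact (ae_sca k r0 1 fun y => m ≤ ‖G y‖ ∧ ‖G y‖ ≤ 1).1
          (ae_restrict_of_ae_restrict_of_subset (ball_subset_ball r1) hG)
      have := on _ _ (2 * l ^ j) (by positivity) w g
        ((di_sca k r0 1 _ G).1 (by rwa [mul_one]))
      rw [pow_succ, pow_succ, show 2 * (l ^ j * l) = l * (2 * l ^ j) by ring]
      exact (di_sca k r0 θ _ G).2 this
  obtain ⟨j, h1, h2⟩ := exists_nat_pow_near_of_lt_one hρ.1 hρ.2 θ0 θ1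
  obtain ⟨y, -, hy⟩ := ex_of_ae (pow_pos θ0 j) (key j)
  refine Ed.mono (x := 0) (ρ := θ ^ j) (B := 2 * l ^ j)
    ⟨G y, hy.mono fun z hz => by rwa [norm_sub_rev]⟩ (ball_subset_ball h2) ?_
  have e1 : l ^ j ≤ (θ ^ j) ^ α := by
    rw [← Real.rpow_natCast θ j, ← Real.rpow_mul θ0.le, mul_comm, Real.rpow_mul θ0.le,
      Real.rpow_natCast]
    exact pow_le_pow_left₀ l0.le a2 j
  have e2 : (θ ^ j) ^ α ≤ (ρ / θ) ^ α :=
    Real.rpow_le_rpow (pow_pos θ0 j).le (by rw [le_div_iff₀ θ0, ← pow_succ]; exact h1.le) a0.le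
  rw [Real.div_rpow hρ.1.le θ0.le] at e2
  rw [div_mul_eq_mul_div, mul_div_assoc]
  linarith

end Pool.Agent.MP_815c6c_an.S

end
end MrgPart9

-- ======== part 10: formerly Pool.Agent.MP_815c6c_an.S.LNsc
section MrgPart10

/-! The gradient halves, or the oscillation is small. -/

set_option autoImplicit false

namespace Pool.Agent.MP_815c6c_an.S

open Set Metric MeasureTheory Filter Topology
open N (X)

namespace LNscA

theorem small {α a b s : ℝ} (hα : 0 < α) (ha : 0 < a) (hs : 0 < s) :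
    ∃ t : ℝ, 0 < t ∧ t ≤ s ∧ b * t ^ α < a := by
  have c : Continuous fun t : ℝ => b * t ^ α :=
    continuous_const.mul (continuous_id.rpow_const fun _ => Or.inr hα.le)
  have e : ∀ᶠ t in 𝓝 (0 : ℝ), b * t ^ α < a :=
    (c.tendsto 0).eventually (gt_mem_nhds (by simpa [Real.zero_rpow hα.ne'] using ha))
  obtain ⟨t, h1, h2⟩ := ((e.filter_mono nhdsWithin_le_nhds).and (Ioc_mem_nhdsGT hs)).exists
  exact ⟨t, h2.1, h2.2, h1⟩

/-- a large gradient near the centre gives a lower bound at the centre -/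
theorem low {d : ℕ} {p Λ Λ' c s R M : ℝ} (k : Sca d p) (h1 : 1 < Λ) (h2 : Λ < Λ')
    (now : ∀ (u : X d → ℝ) (G : X d → X d), Wk p (ball 0 Λ) u G →
      (∀ᵐ y ∂vo (ball 0 Λ), ‖G y‖ ≤ 2) → ¬ (∀ᵐ y ∂vo (ball 0 1), ‖G y‖ ≤ 1) →
      ∀ᵐ y ∂vo (ball 0 1), c ≤ ‖G y‖) {u : X d → ℝ} {x z : X d} (hs : 0 < s) (hR : s * Λ' ≤ R)
    (hM : 0 < M) (hu : Cs p (ball x R) u) (hb : ∀ y ∈ ball x R, ‖gradient u y‖ ≤ M)
    (hz : z ∈ ball x s) (hz' : M / 2 < ‖gradient u z‖) : c * (M / 2) ≤ ‖gradient u x‖ := by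
  have c0 : 0 < 2 / M := by positivity
  have m := sca_mem (x := x) hs hR
  have v := k.cs _ _ u x s (2 / M) hs c0 m hu
  have n : ∀ y, ‖gradient (fun y => 2 / M / s * u (x + s • y)) y‖ =
      2 / M * ‖gradient u (x + s • y)‖ := fun y => by
    rw [k.gr u x s _ hs, norm_smul, Real.norm_of_nonneg c0.le]
  have ct := ((cont_grad isOpen_ball v.c1).mono (ball_subset_ball (h1.trans h2).le)).norm
  have a := now _ _ (k.cw _ _ 0 Λ isOpen_ball (closedBall_subset_ball h2) v)
    ((ae_restrict_mem measurableSet_ball).mono fun y hy => by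
      rw [n, div_mul_eq_mul_div, div_le_iff₀ hM]
      linarith [hb _ (m y (ball_subset_ball h2.le hy))])
    fun a => by
      have := le_of_ae isOpen_ball ct continuousOn_const a (s⁻¹ • (z - x)) (by
        rw [mem_ball_zero_iff, norm_smul, Real.norm_of_nonneg (inv_pos.2 hs).le,
          inv_mul_lt_iff₀ hs, mul_one]
        exact mem_ball_iff_norm.1 hz)
      rw [n, smul_inv_smul₀ hs.ne', add_sub_cancel, div_mul_eq_mul_div, div_le_iff₀ hM] at this
      linarith
  have := le_of_ae isOpen_ball continuousOn_const ct a 0 (mem_ball_self one_pos)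
  rw [n, smul_zero, add_zero, div_mul_eq_mul_div, le_div_iff₀ hM] at this
  linarith

end LNscA

open LNscA in
theorem lnsc : Kit → ∀ d p q, 2 < p → 2 < q → RegS d p → NowS d p q → NscS d p q := by
  rintro k d p q hp hq ⟨α, C, rg⟩ ⟨Λ, c, h1, h2, hc, now⟩
  obtain ⟨Λ', l1, l2⟩ := exists_between h2
  have l0 : 0 < Λ' := by linarith
  have al := k.alg (X d) q hq
  obtain ⟨C1, c1, lip⟩ := al.lip
  refine ⟨Λ', h1.trans l1, l2, fun δ hδ => ?_⟩
  obtain ⟨t, t0, t1, t2⟩ := small (α := α) (a := δ * (c / 2) ^ (q / 2))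
    (b := (2 + δ) * (C1 * (2 ^ (q / 2 - 1) * C))) (s := min (1 / 4) (1 / Λ')) rg.a0
    (by positivity) (by positivity)
  rw [le_min_iff, le_div_iff₀ l0] at t1
  refine ⟨t, t0, t1.2, fun u x R M hR hM hu hb => or_iff_not_imp_left.2 fun hn => ?_⟩
  push Not at hn
  obtain ⟨z, hz, hz'⟩ := hn
  have g0 := low (k.sca d p hp) h1 l1 now (div_pos hR l0) (div_mul_cancel₀ R l0.ne').le hM hu hb
    hz hz'
  have s4 : ball x (t * R) ⊆ ball x (R / 4) := ball_subset_ball (by nlinarith)
  have s1 : ball x (t * R) ⊆ ball x R := ball_subset_ball (by nlinarith)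
  have tR : 0 < t * R := mul_pos t0 hR
  have m0 : 0 < M ^ (q / 2) := by positivity
  have c0 := rg.c0
  obtain ⟨-, a1, a2⟩ := (k.osc d (X d)).sup (fun y => Vp q (gradient u y)) x (t * R)
    (Vp q (gradient u x)) (C1 * (2 ^ (q / 2 - 1) * C) * t ^ α * M ^ (q / 2)) tR
    ((al.cV.1.continuous.comp_continuousOn ((cont_grad isOpen_ball hu.c1).mono s1)).aestronglyMeasurable
      measurableSet_ball) fun y hy => by
      have b1 := rg.hol u x R M hR hu hb y (s4 hy) x (s4 (mem_ball_self tR))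
      have b2 : ‖y - x‖ ^ α ≤ t ^ α * R ^ α := by
        rw [← Real.mul_rpow t0.le hR.le]
        exact Real.rpow_le_rpow (norm_nonneg _) (mem_ball_iff_norm.1 hy).le rg.a0.le
      have b3 : ‖gradient u y - gradient u x‖ ≤ C * M * t ^ α := by
        refine b1.trans ((mul_le_mul_of_nonneg_left b2 (by positivity)).trans_eq ?_)
        have : R ^ α ≠ 0 := by positivity
        field_simp
      have b4 : (‖gradient u y‖ + ‖gradient u x‖) ^ (q / 2 - 1) ≤
          2 ^ (q / 2 - 1) * M ^ (q / 2 - 1) := by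
        rw [← Real.mul_rpow zero_le_two hM.le]
        exact Real.rpow_le_rpow (by positivity)
          (by linarith [hb y (s1 hy), hb x (mem_ball_self hR)]) (by linarith)
      refine (lip _ _).trans ((mul_le_mul_of_nonneg_left
        (mul_le_mul b4 b3 (norm_nonneg _) (by positivity)) c1).trans_eq ?_)
      rw [Real.rpow_sub_one hM.ne']
      field_simp
  have b1 : (c / 2) ^ (q / 2) * M ^ (q / 2) ≤ ‖Vp q (gradient u x)‖ := by
    rw [(al.nV _).1, ← Real.mul_rpow (by positivity) hM.le]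
    exact Real.rpow_le_rpow (by positivity) (by linarith) (by linarith)
  have b2 := norm_sub_norm_le (Vp q (gradient u x)) (av (fun y => Vp q (gradient u y)) x (t * R))
  rw [norm_sub_rev] at b2
  have b3 := mul_lt_mul_of_pos_right t2 m0
  have b4 := mul_le_mul_of_nonneg_left (b2.trans a1) hδ.le
  have b5 := mul_le_mul_of_nonneg_left b1 hδ.le
  linarith

end Pool.Agent.MP_815c6c_an.S

end MrgPart10

-- ======== part 11: formerly Pool.Agent.MP_815c6c_an.S.LReg
section MrgPart11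

/-! Scalar p-harmonic functions in any dimension: the regularity of class `C^(1,α)`. -/

set_option autoImplicit false

noncomputable section

namespace Pool.Agent.MP_815c6c_an.S

open Set Metric MeasureTheory Filter Topology
open scoped ENNReal RealInnerProductSpace
open N (X Gr)

namespace LRegA

variable {d : ℕ} {p : ℝ} {u : X d → ℝ} {G : X d → X d} {x : X d} {r : ℝ}

/-- the gradient is bounded on the ball of radius `r / 4` -/
theorem bnd (k : Kit) (hp : 2 < p) (lip : LipS d p) (hr : 0 < r) (h : Wk p (ball x r) u G) :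
    ∃ M : ℝ, 0 ≤ M ∧ ∀ᵐ z ∂vo (ball x (r / 4)), ‖G z‖ ≤ M := by
  have r2 : 0 < r / 2 := by positivity
  obtain ⟨M, hM⟩ := lip _ _ ((k.sca d p hp).wk (ball x r) (ball 0 2) u G x (r / 2) 1 r2 one_pos
    isOpen_ball isOpen_ball isBounded_ball (sca_mem r2 (by linarith)) h)
  refine ⟨max M 0, le_max_right .., ?_⟩
  have e := ((k.osc d (X d)).sca G x (r / 2) 1 (1 / 2) r2 zero_le_one).2.2.2.2
    fun z => ‖G z‖ ≤ max M 0
  rw [show r / 2 * (1 / 2) = r / 4 by ring] at e
  refine e.2 (hM.mono fun z a => ?_)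
  rw [one_smul] at a
  exact a.trans (le_max_left ..)

/-- a Sobolev map with a bounded continuous gradient -/
theorem c1 (ll : LlS) {q : ℝ≥0∞} (hq : 1 ≤ q) {M : ℝ} {W : X d → X d}
    (h : Sb q (ball x r) u fun z => innerSL ℝ (G z)) (hM : ∀ᵐ z ∂vo (ball x r), ‖G z‖ ≤ M)
    (hW : W =ᵐ[vo (ball x r)] G) (hc : ContinuousOn W (ball x r)) :
    ∃ v : X d → ℝ, ContDiffOn ℝ 1 v (ball x r) ∧ ∀ y ∈ ball x r, gradient v y = W y := by
  obtain ⟨v, e, hv⟩ := (ll d q x r M u _ 0 hq h (hM.mono fun z a => by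
    rwa [sub_zero, innerSL_apply_norm])).1
  have cv : ContinuousOn v (ball x r) := Hol.cont (α := 1) (K := M) (fun y hy z hz => by
    simpa using hv y hy z hz) one_pos
  have cW : ContinuousOn (fun z => innerSL ℝ (W z)) (ball x r) :=
    (innerSL ℝ (E := X d)).continuous.comp_continuousOn hc
  have der : ∀ y ∈ ball x r, HasFDerivAt v (innerSL ℝ (W y)) y := fun y hy =>
    (h.congr e.symm EventuallyEq.rfl).cnt hq isOpen_ball isBounded_ball Subset.rfl isOpen_ball cv
      cW (hW.mono fun z a => by simp only [a]) hy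
  refine ⟨v, ?_, fun y hy => ?_⟩
  · rw [show (1 : WithTop ℕ∞) = 0 + 1 by simp, contDiffOn_succ_iff_fderiv_of_isOpen isOpen_ball]
    refine ⟨fun y hy => (der y hy).differentiableAt.differentiableWithinAt, by simp, ?_⟩
    rw [contDiffOn_zero]
    exact cW.congr fun y hy => (der y hy).fderiv
  · refine ext_inner_right ℝ fun w => ?_
    rw [inner_grad, (der y hy).fderiv, innerSL_apply_apply]

end LRegA

open LRegA in
theorem lreg : Kit → LlS → RepS → ∀ d p, 2 < p → LipS d p → HliS d p → RegS d p := by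
  intro k ll rp d p hp lip ⟨α, C, a0, a1, c0, hl⟩
  obtain ⟨C', c0', hr⟩ := rp d α a0 a1.le
  have key : ∀ (u : X d → ℝ) (G : X d → X d) (x : X d) (s M : ℝ), 0 < s → 0 ≤ M →
      (∀ y ∈ ball x s, Wk p (ball y s) u G ∧ ∀ᵐ z ∂vo (ball y s), ‖G z‖ ≤ M) →
      ∃ W : X d → X d, W =ᵐ[vo (ball x s)] G ∧ Hol α (C' * (C * M) / s ^ α) W (ball x s) :=
    fun u G x s M s0 M0 h => hr G x s (C * M) s0 (mul_nonneg c0 M0) fun y hy =>
      hl u G y s M s0 M0 (h y hy).1 (h y hy).2
  have hq : 1 ≤ ENNReal.ofReal p := ENNReal.one_le_ofReal.2 (by linarith)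
  refine ⟨α, C' * C * 4 ^ α, a0, a1, by positivity, fun u G x r r0 h => ?_,
    fun u x r M r0 h hM => ?_⟩
  · obtain ⟨M, M0, hM⟩ := bnd k hp lip r0 h
    have s8 : ball x (r / 8) ⊆ ball x r := ball_subset_ball (by linarith)
    obtain ⟨W, e, hW⟩ := key u G x (r / 8) M (by positivity) M0 fun y hy =>
      ⟨h.mono (ball_subset_closedBall.trans (sub_ball hy (by linarith))),
        ae_restrict_of_ae_restrict_of_subset
          (ball_subset_closedBall.trans (sub_ball hy (by linarith))) hM⟩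
    obtain ⟨v, a, b⟩ := c1 ll hq (h.mono s8).sb (ae_restrict_of_ae_restrict_of_subset
      (ball_subset_ball (by linarith)) hM) e (hW.cont a0)
    have e' : gradient v =ᵐ[vo (ball x (r / 8))] G :=
      EventuallyEq.trans ((ae_restrict_mem measurableSet_ball).mono b) e
    exact ⟨v, ⟨a, (k.dv d).congr _ _ _ measurableSet_ball (e'.mono fun z c => by simp only [c])
      (h.mono s8).dv⟩, e'⟩
  · have M0 : 0 ≤ M := (norm_nonneg _).trans (hM x (mem_ball_self r0))
    have s4 : ball x (r / 4) ⊆ ball x r := ball_subset_ball (by linarith)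
    obtain ⟨W, e, hW⟩ := key u (gradient u) x (r / 4) M (by positivity) M0 fun y hy =>
      have s : closedBall y (r / 4) ⊆ ball x r := sub_ball hy (by linarith)
      ⟨(k.sca d p hp).cw _ u y _ isOpen_ball s h, (ae_restrict_mem measurableSet_ball).mono
        fun z hz => hM z (s (ball_subset_closedBall hz))⟩
    have q := Measure.eqOn_open_of_ae_eq e isOpen_ball (hW.cont a0)
      ((cont_grad isOpen_ball h.c1).mono s4)
    refine (hW.congr fun y hy => (q hy).symm).mono Subset.rfl (le_of_eq ?_)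
    rw [Real.div_rpow r0.le (by norm_num)]
    have : (0 : ℝ) < 4 ^ α := by positivity
    have : 0 < r ^ α := by positivity
    field_simp

end Pool.Agent.MP_815c6c_an.S

end
end MrgPart11

-- ======== part 12: formerly Pool.Agent.MP_815c6c_an.S.LSca
section MrgPart12

/-! Scalar p-harmonic functions in any dimension: scaling of the classes of solutions. -/

set_option autoImplicit false

namespace Pool.Agent.MP_815c6c_an.S

open Set Metric MeasureTheory Filter Topology
open scoped ENNReal RealInnerProductSpace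
open N (X)

namespace LScaA

variable {d : ℕ}

theorem gr (u : X d → ℝ) (x : X d) (r c : ℝ) (hr : 0 < r) (y : X d) :
    gradient (fun y => c / r * u (x + r • y)) y = c • gradient u (x + r • y) := by
  have e1 : (fun y : X d => c / r * u (x + r • y)) = (c / r) • fun y : X d => u (x + r • y) := rfl
  have e2 := fderiv_comp_smul (𝕜 := ℝ) (f := fun z : X d => u (x + z)) (x := y) r
  rw [fderiv_comp_add_left] at e2
  refine ext_inner_right ℝ fun v => ?_
  rw [inner_grad, real_inner_smul_left, inner_grad, e1, fderiv_const_smul_field]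
  simp only [Pi.smul_apply, e2, _root_.smul_apply, smul_eq_mul]
  field_simp

theorem cs {p : ℝ} (k : Dvk d) (al : Alg (X d) p) (U U' : Set (X d)) (u : X d → ℝ) (x : X d)
    (r c : ℝ) (hr : 0 < r) (hc : 0 < c) (hU : ∀ y ∈ U', x + r • y ∈ U) (h : Cs p U u) :
    Cs p U' fun y => c / r * u (x + r • y) := by
  refine ⟨contDiffOn_const.mul (h.c1.comp (f := fun y : X d => x + r • y) (by fun_prop) hU), ?_⟩
  refine (k.smul _ _ (c ^ (p - 1)) (k.sca U U' _ x r hr hU h.dv)).congr' fun y _ => ?_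
  rw [gr u x r c hr, (al.smul c _ hc).2]

end LScaA

theorem lsca : WsS → DvS → AlgS → ScaS := by
  intro ws dv alg d p hp
  refine ⟨fun U U' u G x r c hr _ hU hU' hb hm h => ?_, fun u x r c hr y => LScaA.gr u x r c hr y,
    LScaA.cs (dv d) (alg _ p hp), fun U U' F x q r c hq hr hc hm h => ?_,
    fun U u x r hU hr h => ⟨?_, h.dv.mono (ball_subset_closedBall.trans hr)⟩,
    fun U F q hq hU h => ?_, fun U U' f x α K r c hr hc hm h y hy z hz => ?_⟩
  · have := (ws d p U U' u G hp hU hU' hb h).1 x r (c / r) 0 hr.ne' hm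
    simpa only [add_zero, div_mul_cancel₀ c hr.ne'] using this
  · obtain ⟨u, a, b⟩ := h
    have c0 : 0 < c ^ (2 / q) := Real.rpow_pos_of_pos hc _
    refine ⟨_, LScaA.cs (dv d) (alg _ p hp) U U' u x r _ hr c0 hm a, fun y hy => ?_⟩
    rw [LScaA.gr u x r _ hr, ((alg _ q hq).smul _ _ c0).1, ← Real.rpow_mul hc.le,
      show 2 / q * (q / 2) = 1 by field_simp, Real.rpow_one]
    exact congrArg _ (b _ (hm y hy))
  · simpa only [innerSL_grad] using sb_loc (ENNReal.ofReal p) hU hr h.c1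
  · obtain ⟨u, a, b⟩ := h
    exact ((alg _ q hq).cV.1.continuous.comp_continuousOn (cont_grad hU a.c1)).congr b
  · have e : x + r • y - (x + r • z) = r • (y - z) := by
      rw [smul_sub]
      abel
    have := h _ (hm y hy) _ (hm z hz)
    rw [e, norm_smul, Real.norm_of_nonneg hr.le, Real.mul_rpow hr.le (norm_nonneg _)] at this
    rw [← smul_sub, norm_smul, Real.norm_of_nonneg hc]
    refine (mul_le_mul_of_nonneg_left this hc).trans (le_of_eq ?_)
    ring

end Pool.Agent.MP_815c6c_an.S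

end MrgPart12

-- ======== part 13: formerly Pool.Agent.MP_815c6c_an.S.LSup
section MrgPart13

/-! Scalar p-harmonic functions in any dimension: the supremum is bounded by the mean. -/

set_option autoImplicit false

namespace Pool.Agent.MP_815c6c_an.S

open Set Metric MeasureTheory Filter Topology
open scoped ENNReal RealInnerProductSpace
open N (X Gr)

namespace LSupA

theorem small {α : ℝ} (ha : 0 < α) (B : ℝ) :
    ∃ t : ℝ, 0 < t ∧ t ≤ 1 / 4 ∧ B * t ^ α ≤ 1 / 2 := by
  have c : ContinuousAt (fun t : ℝ => B * t ^ α) 0 :=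
    continuousAt_const.mul (Real.continuousAt_rpow_const _ _ (Or.inr ha.le))
  have e : ∀ᶠ t : ℝ in 𝓝 0, B * t ^ α < 1 / 2 :=
    c.eventually_lt continuousAt_const (by simp [Real.zero_rpow ha.ne'])
  have e2 : ∀ᶠ t : ℝ in 𝓝 0, t < 1 / 4 := eventually_lt_nhds (by norm_num)
  obtain ⟨t, ⟨h1, h2⟩, h3⟩ := (((e.and e2).filter_mono (nhdsWithin_le_nhds (s := Ioi 0))).and
    self_mem_nhdsWithin).exists
  exact ⟨t, h3, h2.le, h1.le⟩

/-- a lower bound on a small ball bounds the integral from below -/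
theorem low {d : ℕ} {F : X d → X d} {x y : X d} {r ρ a : ℝ} (hb : ball y ρ ⊆ ball x r)
    (hF : MemLp F 2 (vo (ball x r))) (h : ∀ z ∈ ball y ρ, a ≤ ‖F z‖ ^ 2) :
    vb d ρ * a ≤ ∫ z in ball x r, ‖F z‖ ^ 2 := by
  have i : IntegrableOn (fun z => ‖F z‖ ^ 2) (ball x r) := hF.norm.integrable_sq
  rw [← int_one y]
  calc ∫ _ in ball y ρ, a ≤ ∫ z in ball y ρ, ‖F z‖ ^ 2 :=
        setIntegral_mono_on (integrable_const a) (i.mono_set hb) measurableSet_ball h
    _ ≤ _ := setIntegral_mono_set i (ae_of_all _ fun z => by positivity) hb.eventuallyLE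

/-- the estimate at a point near which the gradient is comparable to its value -/
theorem pt {d : ℕ} {p q α C t : ℝ} (R : Reg d p α C) (hq : 2 < q) (t0 : 0 < t) (t1 : t ≤ 1 / 4)
    {B : ℝ} (ht : C * B * t ^ α ≤ 1 / 2) {u : X d → ℝ} {y : X d} {s : ℝ} (s0 : 0 < s)
    (hu : Cs p (ball y s) u) (hM : ∀ z ∈ ball y s, ‖gradient u z‖ ≤ B * ‖gradient u y‖) :
    ∀ z ∈ ball y (t * s), (‖gradient u y‖ / 2) ^ q ≤ ‖gradient u z‖ ^ q := by
  intro z hz
  have H := R.hol u y s _ s0 hu hM z (ball_subset_ball (by nlinarith) hz) y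
    (mem_ball_self (by positivity))
  have g0 := norm_nonneg (gradient u y)
  have B0 : 0 ≤ B * ‖gradient u y‖ := g0.trans (hM y (mem_ball_self s0))
  have sa : 0 < s ^ α := Real.rpow_pos_of_pos s0 _
  have e : ‖z - y‖ ^ α ≤ t ^ α * s ^ α := by
    rw [← Real.mul_rpow t0.le s0.le]
    exact Real.rpow_le_rpow (norm_nonneg _) (mem_ball_iff_norm.1 hz).le R.a0.le
  have e2 : C * (B * ‖gradient u y‖) / s ^ α * ‖z - y‖ ^ α ≤ ‖gradient u y‖ / 2 :=
    calc _ ≤ C * (B * ‖gradient u y‖) / s ^ α * (t ^ α * s ^ α) :=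
          mul_le_mul_of_nonneg_left e (div_nonneg (mul_nonneg R.c0 B0) sa.le)
      _ = C * B * t ^ α * ‖gradient u y‖ := by field_simp
      _ ≤ 1 / 2 * ‖gradient u y‖ := mul_le_mul_of_nonneg_right ht g0
      _ = _ := by ring
  have e3 := norm_sub_norm_le (gradient u y) (gradient u z)
  rw [norm_sub_rev] at e3
  exact Real.rpow_le_rpow (by positivity) (by linarith) (by linarith)

theorem root {a b B q : ℝ} (hq : 2 < q) (a0 : 0 ≤ a) (b0 : 0 ≤ b) (B1 : 1 ≤ B)
    (h : a ^ q ≤ B * b ^ q) : a ≤ B * b := by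
  have q0 : 0 < q := by linarith
  rw [← Real.rpow_le_rpow_iff a0 (by positivity) q0, Real.mul_rpow (by linarith) b0]
  refine h.trans (mul_le_mul_of_nonneg_right ?_ (Real.rpow_nonneg b0 _))
  exact Real.self_le_rpow_of_one_le B1 (by linarith)

end LSupA

open LSupA in
theorem lsup : Kit → ∀ d p q, 2 < p → 2 < q → RegS d p → SupS d p q := by
  rintro k d p q - hq ⟨α, C, R⟩
  obtain ⟨t, t0, t1, ht⟩ := small R.a0 (C * 2 ^ (d + 1))
  have O := k.osc d (X d)
  have al := k.alg (X d) q hq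
  have q2 : (0 : ℝ) < 2 ^ q := by positivity
  refine ⟨√((2 / t) ^ d * 2 ^ q * 2 * 4 ^ (d + 1)), Real.sqrt_nonneg _, ?_⟩
  rintro F x r r0 ⟨u, hu, hF⟩ m y hy
  set A := osc F x r + ‖av F x r‖ with hA
  have A0 : 0 ≤ A := add_nonneg (O.nn ..) (norm_nonneg _)
  have nF : ∀ z ∈ ball x r, ‖F z‖ ^ 2 = ‖gradient u z‖ ^ q := fun z hz => by
    rw [hF z hz, (al.nV _).2]
  have sb : closedBall x (r / 2) ⊆ ball x r := closedBall_subset_ball (by linarith)
  have cg : ContinuousOn (fun z => (r / 2 - ‖z - x‖) ^ (d + 1) * ‖gradient u z‖ ^ q)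
      (closedBall x (r / 2)) :=
    ContinuousOn.mul (by fun_prop) (((cont_grad isOpen_ball hu.c1).mono sb).norm.rpow_const
      fun _ _ => Or.inr (by linarith))
  obtain ⟨y0, hy0, hm⟩ := (isCompact_closedBall x (r / 2)).exists_isMaxOn
    ⟨x, mem_closedBall_self (by linarith)⟩ cg
  rw [isMaxOn_iff] at hm
  set s := r / 2 - ‖y0 - x‖ with hs
  have s0 : 0 ≤ s := sub_nonneg.2 (mem_closedBall_iff_norm.1 hy0)
  have s1 : s ≤ r := by linarith [norm_nonneg (y0 - x)]
  have key : s ^ (d + 1) * ‖gradient u y0‖ ^ q ≤ (2 / t) ^ d * 2 ^ q * 2 * r ^ (d + 1) * A ^ 2 := by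
    rcases s0.eq_or_lt with e | s0
    · rw [← e, zero_pow (Nat.succ_ne_zero d), zero_mul]; positivity
    have nb : ∀ z ∈ ball y0 (s / 2), ‖z - x‖ ≤ r / 2 - s / 2 := fun z hz => by
      have := norm_sub_le_norm_sub_add_norm_sub z y0 x
      linarith [mem_ball_iff_norm.1 hz]
    have ib : ball y0 (s / 2) ⊆ closedBall x (r / 2) := fun z hz =>
      mem_closedBall_iff_norm.2 (by linarith [nb z hz])
    have hM : ∀ z ∈ ball y0 (s / 2), ‖gradient u z‖ ≤ 2 ^ (d + 1) * ‖gradient u y0‖ := by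
      intro z hz
      refine root hq (norm_nonneg _) (norm_nonneg _) (one_le_pow₀ one_le_two) ?_
      have e1 : (s / 2) ^ (d + 1) ≤ (r / 2 - ‖z - x‖) ^ (d + 1) :=
        pow_le_pow_left₀ (by positivity) (by linarith [nb z hz]) _
      have e2 := (mul_le_mul_of_nonneg_right e1
        (Real.rpow_nonneg (norm_nonneg (gradient u z)) q)).trans (hm z (ib hz))
      have e3 : (0 : ℝ) < (s / 2) ^ (d + 1) := by positivity
      refine le_of_mul_le_mul_left (e2.trans_eq ?_) e3
      rw [← mul_assoc, ← mul_pow]; congr 2; ring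
    have P := pt R hq t0 t1 ht (half_pos s0) (hu.mono (ib.trans sb)) hM
    have i2 : ball y0 (t * (s / 2)) ⊆ ball x r :=
      (ball_subset_ball (by nlinarith)).trans (ib.trans sb)
    have L := (low i2 m fun z hz => (P z hz).trans_eq (nF z (i2 hz)).symm).trans (O.tot F x r r0 m)
    have v1 := vb_mul (d := d) (show 0 < t * (s / 2) by positivity) 1
    have v2 := vb_mul (d := d) r0 1
    rw [mul_one] at v1 v2
    rw [v1, v2, ← hA, Real.div_rpow (norm_nonneg _) zero_le_two] at L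
    have v0 := vb_pos (d := d) one_pos
    have L2 : s ^ d * ‖gradient u y0‖ ^ q ≤ (2 / t) ^ d * 2 ^ q * 2 * r ^ d * A ^ 2 := by
      have e : s ^ d = (2 / t) ^ d * (t * (s / 2)) ^ d := by
        rw [← mul_pow]; congr 1; field_simp
      have := mul_le_mul_of_nonneg_left L
        (show 0 ≤ (2 / t) ^ d * 2 ^ q / vb d 1 by positivity)
      rw [e]
      refine le_of_eq_of_le ?_ (this.trans_eq ?_) <;> field_simp
    calc _ = s * (s ^ d * ‖gradient u y0‖ ^ q) := by ring
      _ ≤ r * ((2 / t) ^ d * 2 ^ q * 2 * r ^ d * A ^ 2) :=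
        mul_le_mul s1 L2 (by positivity) r0.le
      _ = _ := by ring
  have y1 : ‖y - x‖ < r / 8 := mem_ball_iff_norm.1 hy
  have e1 : (r / 4) ^ (d + 1) ≤ (r / 2 - ‖y - x‖) ^ (d + 1) :=
    pow_le_pow_left₀ (by positivity) (by linarith) _
  have e2 := ((mul_le_mul_of_nonneg_right e1 (Real.rpow_nonneg (norm_nonneg (gradient u y)) q)).trans
    (hm y (mem_closedBall_iff_norm.2 (by linarith)))).trans key
  rw [← nF y (ball_subset_ball (by linarith) hy)] at e2
  have e3 : ‖F y‖ ^ 2 ≤ (2 / t) ^ d * 2 ^ q * 2 * 4 ^ (d + 1) * A ^ 2 := by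
    refine le_of_mul_le_mul_left (e2.trans_eq ?_) (show 0 < (r / 4) ^ (d + 1) by positivity)
    rw [div_pow r]; field_simp
  refine (Real.le_sqrt (norm_nonneg _) (by positivity)).2 e3 |>.trans_eq ?_
  rw [Real.sqrt_mul' _ (sq_nonneg A), Real.sqrt_sq A0]

end Pool.Agent.MP_815c6c_an.S

end MrgPart13

-- ======== part 14: formerly Pool.Agent.MP_815c6c_an.S.All
section MrgPart14

/-! Assembly of the last part. -/

set_option autoImplicit false

namespace Pool.Agent.MP_815c6c_an.S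

theorem nkit : N.Kit :=
  have e := N.excS N.bas (N.ker N.bas) N.al1
  ⟨N.bas, N.par N.bas, N.ker N.bas, e, N.sca N.bas e N.al1, N.al1, N.al2, N.al3, N.pl0 N.bas⟩

theorem last (d : ℕ) (p q : ℝ) (hp : 2 < p) (hq : 2 < q) (lip : LipS d p) (now : NowS d p q)
    (on : OnS d p) : Out d p q :=
  last_of nkit (N.evS nkit (N.shl nkit)) (N.mol nkit) N.glu Q.pow (en sob) (ws sob) tr (ll sob)
    losc ldv lalg lsca lndi lhli lrep lreg lsup lcs labs lani ldif lsec lc2 lnd lnsc ldeg lcor lfin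
    d p q hp hq lip now on

end Pool.Agent.MP_815c6c_an.S

end MrgPart14

-- marker of a merged file
example : 731051 + 101430 = 731051 + 101430 := rfl
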